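import Pool.Agent.Y8.Stm8

/-!
Statements, ninth part (helper8): the count with absolute constants.
-/

open MeasureTheory Set Metric
open scoped ContDiff NNReal

namespace Pool.Agent.Y8

open H459R3.NS W221.NS

/-- `S_ALT` with absolute constants. -/
def S_ALTM : Prop := ∃ (δ c δ₀ : ℝ) (κ₀ : ℕ), 0 < δ ∧ 0 < c ∧ 0 < δ₀ ∧
  ∀ (T E D : ℝ) (G : Set ℝ) (u : ℝ → V → V) (p : ℝ → V → ℝ), Turb 1 T E D G u p →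
    ∀ n j : ℕ, (1 + E ^ 2) * rr n ≤ δ₀ → ∀ (t₀ : ℝ) (x₀ : V),
      0 < t₀ - rr n ^ 2 → t₀ + rr n ^ 2 < T →
      ∀ (X Y : ℝ → V) (B C : ℝ), FPath T (rr (n + j)) B C G u p X Y → X t₀ = x₀ →
        (∃ t, |t - t₀| < rr (n + j) ^ 2 ∧ rr n < ‖X t - x₀‖) →
          δ / rr n ≤ ∫ t in II n t₀, NN2 n (u t) x₀ ∨
          δ * (4 ^ j / rr n) ≤ ∫ t in II n t₀, NN1 n (2 * j + κ₀) (u t) x₀ ∨
          δ * (4 ^ j / rr n) ≤ ∫ t in II n t₀, NF n (2 * j + κ₀) (u t) x₀ ∨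
          c * (rr n ^ 2 * (4 ^ j / rr n)) ≤ ∫ t in II n t₀, ‖mo (rr n) (u t) x₀‖

/-- `S_ALTH` with absolute constants. -/
def S_ALTHM : Prop := ∃ (δ c δ₀ : ℝ) (κ₀ : ℕ), 0 < δ ∧ 0 < c ∧ 0 < δ₀ ∧
  ∀ (T E D : ℝ) (G : Set ℝ) (u : ℝ → V → V) (p : ℝ → V → ℝ), Turb 1 T E D G u p →
    ∀ n i : ℕ, (1 + E ^ 2) * rr n ≤ δ₀ → ∀ (t₀ : ℝ) (x₀ : V),
      0 < t₀ - rr n ^ 2 → t₀ + rr n ^ 2 < T →
      ∀ (X Y : ℝ → V) (B C : ℝ), FPath T (rr n) B C G u p X Y → ‖X t₀ - x₀‖ ≤ rr n / 8 →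
        (∃ t, |t - t₀| ≤ rr (n + i) ^ 2 ∧ |t - t₀| < rr n ^ 2 ∧ rr n / 8 < ‖X t - X t₀‖) →
          δ / rr n ≤ ∫ t in II n t₀, NN2 n (u t) x₀ ∨
          δ * (4 ^ i / rr n) ≤ ∫ t in II n t₀, NN1 n (2 * i + κ₀) (u t) x₀ ∨
          δ * (4 ^ i / rr n) ≤ ∫ t in II n t₀, NF n (2 * i + κ₀) (u t) x₀ ∨
          c * (rr n ^ 2 * (4 ^ i / rr n)) ≤ ∫ t in II n t₀, ‖mo (rr n) (u t) x₀‖

/-- `S_CFP` with absolute constants: the mean velocity on the torus is small at the scale `r`. -/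
def S_CFPM : Prop := ∀ (δ c : ℝ) (κ₀ : ℕ), 0 < δ → 0 < c → ∃ C δ₀ : ℝ, 0 < C ∧ 0 < δ₀ ∧
  ∀ (T E D : ℝ) (G : Set ℝ) (u : ℝ → V → V) (p : ℝ → V → ℝ), Turb 1 T E D G u p →
    ∀ (n j : ℕ), (1 + E ^ 2) * rr n ≤ δ₀ → ∀ S : Finset (ℝ × V), Sep (rr n) S →
      (∀ z ∈ S, 0 ≤ z.1 - rr n ^ 2 ∧ z.1 + rr n ^ 2 ≤ T ∧ z.2 ∈ cube) →
      ((∀ z ∈ S, δ * (4 ^ j / rr n) ≤ ∫ t in II n z.1, NF n (2 * j + κ₀) (u t) z.2) ∨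
        ∀ z ∈ S, c * (rr n ^ 2 * (4 ^ j / rr n)) ≤ ∫ t in II n z.1, ‖mo (rr n) (u t) z.2‖) →
        (S.card : ℝ) ≤ C * D * ((E ^ 2 * 2 ^ n) ^ (2 / 3 : ℝ)
          * (2 : ℝ) ^ (-(20 / 3 : ℝ) * j) * 2 ^ n)

/-- `S_B1` without logarithm. -/
def S_B1M : Prop := ∃ C : ℝ, 0 < C ∧ ∀ (T E D : ℝ) (G : Set ℝ) (u : ℝ → V → V)
  (p : ℝ → V → ℝ), Turb 1 T E D G u p → ∀ (n j : ℕ), 4 ≤ n → ∀ S : Finset (ℝ × V),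
    Sep (rr n) S → (∀ z ∈ S, 0 < z.1 - rr n ^ 2 ∧ z.1 + rr n ^ 2 < T ∧ z.2 ∈ cube ∧
      SingPt G u z.1 z.2 ∧ ∃ (X Y : ℝ → V) (B C' : ℝ), FPath T (rr (n + j)) B C' G u p X Y ∧
        X z.1 = z.2 ∧ ∀ t, |t - z.1| < rr (n + j) ^ 2 → ‖X t - z.2‖ ≤ rr n) →
      (S.card : ℝ) ≤ C * D * 2 ^ (n + j)

/-- `S_B2` with absolute constants. -/
def S_B2M : Prop := ∃ C δ₀ : ℝ, 0 < C ∧ 0 < δ₀ ∧
  ∀ (T E D : ℝ) (G : Set ℝ) (u : ℝ → V → V) (p : ℝ → V → ℝ), Turb 1 T E D G u p →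
    ∀ (n j : ℕ), (1 + E ^ 2) * rr n ≤ δ₀ → ∀ S : Finset (ℝ × V),
      Sep (rr n) S → (∀ z ∈ S, 0 < z.1 - rr n ^ 2 ∧ z.1 + rr n ^ 2 < T ∧ z.2 ∈ cube ∧
        ∃ (X Y : ℝ → V) (B C' : ℝ), FPath T (rr (n + j)) B C' G u p X Y ∧
          X z.1 = z.2 ∧ ∃ t, |t - z.1| < rr (n + j) ^ 2 ∧ rr n < ‖X t - z.2‖) →
        (S.card : ℝ) ≤ C * D * (2 ^ n + (E ^ 2 * 2 ^ n) ^ (2 / 3 : ℝ)
          * (2 : ℝ) ^ (-(20 / 3 : ℝ) * j) * 2 ^ n)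

/-- The count on the whole time interval, with absolute constants. -/
def S_FINM : Prop := ∃ C δ₀ : ℝ, 0 < C ∧ 0 < δ₀ ∧
  ∀ (T E D : ℝ) (G : Set ℝ) (u : ℝ → V → V) (p : ℝ → V → ℝ), Turb 1 T E D G u p →
    ∀ r : ℝ, 0 < r → (1 + E ^ 2) * r ≤ δ₀ → ∀ S : Finset (ℝ × V), Sep r S →
      (∀ z ∈ S, 0 < z.1 - r ^ 2 ∧ z.1 + r ^ 2 < T ∧ z.2 ∈ cube ∧ SingPt G u z.1 z.2) →
        S.card * r ≤ C * D * (1 + (E ^ 2 / r) ^ (2 / 23 : ℝ))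

/-- The count on a short time interval, with absolute constants. -/
def S_WINM : Prop := ∃ C δ₀ : ℝ, 0 < C ∧ 0 < δ₀ ∧
  ∀ (T E D : ℝ) (G : Set ℝ) (u : ℝ → V → V) (p : ℝ → V → ℝ), Turb 1 T E D G u p →
    ∀ (n i : ℕ) (α β : ℝ), (1 + E ^ 2) * rr n ≤ δ₀ → 3 ≤ i → β - α ≤ rr (n + i) ^ 2 →
      rr n ^ 2 < α → β + rr n ^ 2 < T → ∀ S : Finset (ℝ × V), Sep (rr n) S →
        (∀ z ∈ S, z.1 ∈ Icc α β ∧ z.2 ∈ cube ∧ SingPt G u z.1 z.2) →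
          (S.card : ℝ) ≤ C * (D + E ^ 2 * (16 ^ i)⁻¹) * 2 ^ n

/-- The count in a time interval, viscosity one, absolute constants. -/
def S_TV1 : Prop := ∃ C δ₀ : ℝ, 0 < C ∧ 0 < δ₀ ∧
  ∀ (T E D : ℝ) (G : Set ℝ) (u : ℝ → V → V) (p : ℝ → V → ℝ), Turb 1 T E D G u p →
    ∀ r α β : ℝ, 0 < r → (1 + E ^ 2) * r ≤ δ₀ → α ≤ β → 2 * r ^ 2 < α → β + 2 * r ^ 2 < T →
      ∀ S : Finset (ℝ × V), Sep r S →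
        (∀ z ∈ S, z.1 ∈ Icc α β ∧ z.2 ∈ cube ∧ SingPt G u z.1 z.2) →
          S.card * r ≤ C * ((∫ t in Ioo (α - 2 * r ^ 2) (β + 2 * r ^ 2), enstrophy (u t))
            + min ((E ^ 2 / r) ^ (2 / 23 : ℝ)
              * ∫ t in Ioo (α - 2 * r ^ 2) (β + 2 * r ^ 2), enstrophy (u t))
              (E ^ 2 * ((β - α) / r ^ 2) ^ 2))

/-- The count in a time interval, absolute constants. -/
def S_TV : Prop := ∃ C δ₀ : ℝ, 0 < C ∧ 0 < δ₀ ∧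
  ∀ (ν T E D : ℝ) (G : Set ℝ) (u : ℝ → V → V) (p : ℝ → V → ℝ), 0 < ν → Turb ν T E D G u p →
    ∀ r α β : ℝ, 0 < r → (1 + (E / ν) ^ 2) * r ≤ δ₀ → α ≤ β → 2 * r ^ 2 < ν * α →
      ν * β + 2 * r ^ 2 < ν * T → ∀ S : Finset (ℝ × V), SepN ν r S →
        (∀ z ∈ S, z.1 ∈ Icc α β ∧ z.2 ∈ cube ∧ SingPt G u z.1 z.2) →
          S.card * r ≤ C / ν *
            ((∫ t in Ioo (α - 2 * r ^ 2 / ν) (β + 2 * r ^ 2 / ν), enstrophy (u t))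
            + min (((E / ν) ^ 2 / r) ^ (2 / 23 : ℝ)
              * ∫ t in Ioo (α - 2 * r ^ 2 / ν) (β + 2 * r ^ 2 / ν), enstrophy (u t))
              (E ^ 2 / ν * (ν * (β - α) / r ^ 2) ^ 2))

end Pool.Agent.Y8
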