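import Pool.Agent.Y8.Joint

/-!
Integral bounds for periodic fields at one time.
-/

open MeasureTheory Set Metric Filter Topology
open scoped ContDiff

namespace Pool.Agent.Y8

open H459R3.NS W221.NS

theorem nsq_nn (u : V → V) (x : V) : 0 ≤ nsq u x := Finset.sum_nonneg fun _ _ => sq_nonneg _

theorem gsq_nn (u : V → V) (x : V) : 0 ≤ gsq u x :=
  Finset.sum_nonneg fun _ _ => Finset.sum_nonneg fun _ _ => sq_nonneg _

theorem nsq_sm {u : V → V} (hu : ContDiff ℝ ∞ u) : ContDiff ℝ ∞ (nsq u) := by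
  unfold nsq
  exact ContDiff.sum fun i _ => (contDiff_pi.1 hu i).pow 2

theorem gsq_sm {u : V → V} (hu : ContDiff ℝ ∞ u) : ContDiff ℝ ∞ (gsq u) := by
  unfold gsq
  exact ContDiff.sum fun i _ => ContDiff.sum fun j _ =>
    (Pool.Agent.W583.MD.sm_pd (contDiff_pi.1 hu i) j).pow 2

theorem nsq_per {u : V → V} (hu : Per u) : Per (nsq u) := by
  intro i x
  unfold nsq
  rw [hu i x]

theorem pd_per {f : V → ℝ} (hf : Per f) (j : Fin 3) : Per (pd j f) := by
  intro i x
  unfold pd
  have h1 : (fun y => f (y + Pi.single i 1)) = f := funext fun y => hf i y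
  have h2 := fderiv_comp_add_right (𝕜 := ℝ) (f := f) (x := x) (Pi.single i 1 : V)
  rw [h1] at h2
  rw [h2]

theorem comp_per {u : V → V} (hu : Per u) (k : Fin 3) : Per (fun y => u y k) := by
  intro i x
  show u (x + Pi.single i 1) k = u x k
  rw [hu i x]

theorem gsq_per {u : V → V} (hu : Per u) : Per (gsq u) := by
  intro i x
  unfold gsq
  refine Finset.sum_congr rfl fun k _ => Finset.sum_congr rfl fun j _ => ?_
  rw [pd_per (comp_per hu k) j i x]

theorem cube_int {f : V → ℝ} (hf : Continuous f) : IntegrableOn f cube :=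
  hf.continuousOn.integrableOn_compact isCompact_Icc

theorem ballint {f : V → ℝ} (hf : Continuous f) (x : V) (ρ : ℝ) : IntegrableOn f (ball x ρ) :=
  (hf.continuousOn.integrableOn_compact (isCompact_closedBall x ρ)).mono_set
      ball_subset_closedBall

theorem energy_eq {u : V → V} (hu : ContDiff ℝ ∞ u) : energy u = ∫ x in cube, nsq u x := by
  unfold energy nsq
  rw [integral_finsetSum]
  exact fun i _ => cube_int ((contDiff_pi.1 hu i).continuous.pow 2)

theorem enst_eq {u : V → V} (hu : ContDiff ℝ ∞ u) : enstrophy u = ∫ x in cube, gsq u x := by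
  have h : ∀ i j, Continuous fun x => pd j (fun y => u y i) x ^ 2 := fun i j =>
    (Pool.Agent.W583.MD.sm_pd (contDiff_pi.1 hu i) j).continuous.pow 2
  unfold enstrophy gsq
  rw [integral_finsetSum _ fun i _ => cube_int (continuous_finsetSum _ fun j _ => h i j)]
  refine Finset.sum_congr rfl fun i _ => ?_
  rw [integral_finsetSum _ fun j _ => cube_int (h i j)]

theorem energy_nn (u : V → V) : 0 ≤ energy u :=
  Finset.sum_nonneg fun _ _ => integral_nonneg fun _ => sq_nonneg _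

theorem enst_nn (u : V → V) : 0 ≤ enstrophy u :=
  Finset.sum_nonneg fun _ _ => Finset.sum_nonneg fun _ _ => integral_nonneg fun _ => sq_nonneg _

/-- Sobolev's inequality on the period cell. -/
theorem sob_cube : ∃ C : ℝ, 0 < C ∧ ∀ u : V → V, SPV u →
    ∫ x in cube, nsq u x ^ 3 ≤ C * (enstrophy u + energy u) ^ 3 := by
  obtain ⟨C, hC, h⟩ := Pool.Agent.W440.MD.t_SOB
  obtain ⟨C', hC', h'⟩ := ball_le 2
  refine ⟨C * C' ^ 3, by positivity, fun u hu => ?_⟩
  obtain ⟨hs, hp⟩ := hu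
  have h1 := h u hs (fun _ => 1 / 2) 1 one_pos
  have h2 : ∫ x in cube, nsq u x ^ 3 ≤ L6 (fun _ => 1 / 2) 1 u := by
    unfold L6
    refine setIntegral_mono_set (ballint ((nsq_sm hs).continuous.pow 3) _ _)
      (ae_of_all _ fun x => pow_nonneg (nsq_nn u x) 3) ?_
    refine LE.le.eventuallyLE ?_
    intro x hx
    rw [mem_ball, dist_pi_lt_iff one_pos]
    intro i
    have h3 := hx.1 i
    have h4 := hx.2 i
    simp only [Pi.zero_apply, Pi.one_apply] at h3 h4
    rw [Real.dist_eq, abs_lt]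
    constructor <;> linarith
  have h5 : B2 (fun _ => 1 / 2) (2 * 1) u ≤ C' * enstrophy u := by
    rw [enst_eq hs, mul_one]
    exact h' _ (gsq_sm hs).continuous (gsq_per hp) (gsq_nn u) _
  have h6 : A2 (fun _ => 1 / 2) (2 * 1) u ≤ C' * energy u := by
    rw [energy_eq hs, mul_one]
    exact h' _ (nsq_sm hs).continuous (nsq_per hp) (nsq_nn u) _
  have h7 : 0 ≤ B2 (fun _ => 1 / 2) (2 * 1) u := integral_nonneg fun x => gsq_nn u x
  have h8 : 0 ≤ A2 (fun _ => 1 / 2) (2 * 1) u := integral_nonneg fun x => nsq_nn u x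
  refine h2.trans (h1.trans ?_)
  rw [one_pow, inv_one, one_mul, mul_assoc, ← mul_pow]
  refine mul_le_mul_of_nonneg_left (pow_le_pow_left₀ (by positivity) ?_ 3) hC.le
  nlinarith

/-- `|u|³ ≤ S |u|² + S⁻³ |u|⁶`. -/
theorem young3 {a S : ℝ} (ha : 0 ≤ a) (hS : 0 < S) : √a ^ 3 ≤ S * a + (S ^ 3)⁻¹ * a ^ 3 := by
  set b := √a with hb
  have hb0 : 0 ≤ b := Real.sqrt_nonneg a
  have hab : a = b ^ 2 := (Real.sq_sqrt ha).symm
  rw [hab]
  rcases le_total b S with h | h
  · have : 0 ≤ (S ^ 3)⁻¹ * (b ^ 2) ^ 3 := by positivity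
    nlinarith [mul_le_mul_of_nonneg_right h (sq_nonneg b)]
  · have h1 : b ^ 3 ≤ (S ^ 3)⁻¹ * (b ^ 2) ^ 3 := by
      rw [inv_mul_eq_div, le_div_iff₀ (by positivity)]
      have : S ^ 3 ≤ b ^ 3 := pow_le_pow_left₀ hS.le h 3
      nlinarith [pow_nonneg hb0 3]
    have : 0 ≤ S * b ^ 2 := by positivity
    linarith

/-- A majorant of all local quantities. -/
noncomputable def MM (u : V → V) (p : V → ℝ) (x : V) : ℝ :=
  gsq u x + nsq u x + √(nsq u x) ^ 3 + |p x| * √(nsq u x) + |p x| + √(nsq u x) + 1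

theorem MM_nn (u : V → V) (p : V → ℝ) (x : V) : 0 ≤ MM u p x := by
  unfold MM
  have := gsq_nn u x
  have := nsq_nn u x
  positivity

theorem MM_cont {u : V → V} {p : V → ℝ} (hu : ContDiff ℝ ∞ u) (hp : Continuous p) :
    Continuous (MM u p) := by
  unfold MM
  have h1 := (gsq_sm hu).continuous
  have h2 := (nsq_sm hu).continuous
  fun_prop

theorem MM_per {u : V → V} {p : V → ℝ} (hu : Per u) (hp : Per p) : Per (MM u p) := by
  intro i x
  unfold MM
  rw [gsq_per hu i x, nsq_per hu i x, hp i x]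

theorem rp32 (a : ℝ) (ha : 0 ≤ a) : a ^ (3 / 2 : ℝ) = √a ^ 3 := by
  rw [Real.sqrt_eq_rpow, ← Real.rpow_natCast, ← Real.rpow_mul ha]
  norm_num

/-- The majorant of one function by powers. -/
theorem MM_le (u : V → V) (p : V → ℝ) (x : V) :
    MM u p x ≤ gsq u x + 2 * nsq u x + 2 * √(nsq u x) ^ 3 + 2 * |p x| ^ (3 / 2 : ℝ) + 3 := by
  unfold MM
  set a := √(nsq u x) with ha
  have ha0 : 0 ≤ a := Real.sqrt_nonneg _
  have hn : nsq u x = a ^ 2 := (Real.sq_sqrt (nsq_nn u x)).symm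
  rw [rp32 _ (abs_nonneg _), hn]
  set b := √|p x| with hb
  have hb0 : 0 ≤ b := Real.sqrt_nonneg _
  have hbp : |p x| = b ^ 2 := (Real.sq_sqrt (abs_nonneg _)).symm
  rw [hbp]
  have h1 : b ^ 2 * a ≤ b ^ 3 + a ^ 3 := by
    rcases le_total a b with h | h
    · nlinarith [mul_le_mul_of_nonneg_left h (sq_nonneg b), pow_nonneg ha0 3]
    · nlinarith [mul_le_mul_of_nonneg_left (pow_le_pow_left₀ hb0 h 2) ha0, pow_nonneg hb0 3]
  have h2 : b ^ 2 ≤ b ^ 3 + 1 := by
    rcases le_total b 1 with h | h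
    · nlinarith [pow_nonneg hb0 3]
    · nlinarith [mul_le_mul_of_nonneg_left h (sq_nonneg b)]
  have h3 : a ≤ a ^ 2 + 1 := by nlinarith
  linarith

theorem maj (E R : ℝ) : ∃ C : ℝ, 0 < C ∧ ∀ (u : V → V) (p : V → ℝ), SPV u → SP p →
    energy u ≤ E ^ 2 → ∀ x, ∫ y in ball x R, MM u p y
      ≤ C * (1 + enstrophy u + ∫ y in cube, |p y| ^ (3 / 2 : ℝ)) := by
  obtain ⟨C, hC, hb⟩ := ball_le R
  obtain ⟨Cs, hCs, hs⟩ := sob_cube
  refine ⟨C * (5 + 2 * E ^ 2 + 2 * (1 + E ^ 2) ^ 2 + 2 * Cs), by positivity,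
    fun u p hu hp hE x => ?_⟩
  have hu1 := hu.1
  have hnc := (nsq_sm hu1).continuous
  have hgc := (gsq_sm hu1).continuous
  have hpc := hp.smooth.continuous
  have h1 := hb _ (MM_cont hu1 hpc) (MM_per hu.2 hp.per) (MM_nn u p) x
  have hpow : Continuous fun y => |p y| ^ (3 / 2 : ℝ) :=
    (hpc.abs).rpow_const fun y => Or.inr (by norm_num)
  have h2 : ∫ y in cube, MM u p y ≤ ∫ y in cube, (gsq u y + 2 * nsq u y + 2 * √(nsq u y) ^ 3
      + 2 * |p y| ^ (3 / 2 : ℝ) + 3) :=
    setIntegral_mono (cube_int (MM_cont hu1 hpc)) (cube_int (by fun_prop)) fun y => MM_le u p y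
  set S := 1 + enstrophy u + energy u with hSd
  have hen := enst_nn u
  have hee := energy_nn u
  have hS : 0 < S := by positivity
  have h3 : ∫ y in cube, √(nsq u y) ^ 3 ≤ S * energy u + Cs := by
    have h4 : ∫ y in cube, √(nsq u y) ^ 3 ≤
        ∫ y in cube, (S * nsq u y + (S ^ 3)⁻¹ * nsq u y ^ 3) :=
      setIntegral_mono (cube_int (by fun_prop)) (cube_int (by fun_prop))
        fun y => young3 (nsq_nn u y) hS
    rw [integral_add (cube_int (by fun_prop)) (cube_int (by fun_prop)), integral_const_mul,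
      integral_const_mul, ← energy_eq hu1] at h4
    have h5 := hs u hu
    have h6 : (enstrophy u + energy u) ^ 3 ≤ S ^ 3 :=
      pow_le_pow_left₀ (by positivity) (by linarith) 3
    have h7 : (S ^ 3)⁻¹ * ∫ y in cube, nsq u y ^ 3 ≤ Cs := by
      rw [inv_mul_le_iff₀ (by positivity)]
      nlinarith
    linarith
  have hvol : ∫ _ in cube, (3 : ℝ) = 3 := by
    rw [setIntegral_const]
    have : (volume : Measure V).real cube = 1 := by
      unfold cube Measure.real
      rw [Real.volume_Icc_pi]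
      simp
    rw [this]
    simp
  rw [integral_add (cube_int (by fun_prop)) (cube_int (by fun_prop)),
    integral_add (cube_int (by fun_prop)) (cube_int (by fun_prop)),
    integral_add (cube_int (by fun_prop)) (cube_int (by fun_prop)),
    integral_add (cube_int (by fun_prop)) (cube_int (by fun_prop)), integral_const_mul,
    integral_const_mul, integral_const_mul, ← energy_eq hu1, ← enst_eq hu1, hvol] at h2
  set P := ∫ y in cube, |p y| ^ (3 / 2 : ℝ) with hP
  have hP0 : 0 ≤ P := integral_nonneg fun y => by positivity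
  refine h1.trans ?_
  rw [mul_assoc]
  refine mul_le_mul_of_nonneg_left ?_ hC.le
  have h8 : S * energy u ≤ (1 + E ^ 2) ^ 2 * (1 + enstrophy u) := by
    rw [hSd]
    have : 0 ≤ E ^ 2 := sq_nonneg E
    nlinarith [mul_nonneg hen this, mul_nonneg hen hee, mul_le_mul_of_nonneg_left hE hen,
      mul_nonneg this this, mul_le_mul hE hE hee this]
  have : 0 ≤ E ^ 2 := sq_nonneg E
  nlinarith [mul_nonneg hen this, mul_nonneg hP0 this, mul_nonneg hCs.le hen,
    mul_nonneg hCs.le hP0, mul_nonneg hP0 (sq_nonneg (1 + E ^ 2))]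

end Pool.Agent.Y8
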