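import Pool.Agent.W221.NS.Stm

/-!
Definitions and statements of the parts of the project on the space-time singular set of suitable
weak periodic solutions of the Navier-Stokes equations (helper8).
`V = Fin 3 → ℝ` carries the sup norm, so all balls are cubes.
-/

open MeasureTheory Set Metric
open scoped ContDiff

namespace Pool.Agent.Y8

open H459R3.NS W221.NS

/-! ### The class of solutions -/

/-- A smooth function with compact support in `(0, T) × ℝ³`. -/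
structure Test (T : ℝ) (φ : ℝ → V → ℝ) : Prop where
  smooth : ContDiff ℝ ∞ (fun z : ℝ × V => φ z.1 z.2)
  cpt : HasCompactSupport (fun z : ℝ × V => φ z.1 z.2)
  supp : tsupport (fun z : ℝ × V => φ z.1 z.2) ⊆ Ioo 0 T ×ˢ univ

/-- The right hand side of the momentum equation at the time `t`, tested with `φ`:
`∫ uᵢ (∂ₜφ + ν Δφ) + uᵢ u · ∇φ + p ∂ᵢφ`. -/
noncomputable def DM (ν : ℝ) (u : ℝ → V → V) (p : ℝ → V → ℝ) (φ : ℝ → V → ℝ) (i : Fin 3)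
    (t : ℝ) : ℝ :=
  ∫ x, (u t x i * (deriv (fun s => φ s x) t + ν * lap (φ t) x) + u t x i * adv (u t) (φ t) x
    + p t x * pd i (φ t) x)

/-- The right hand side of the local energy balance at the time `t`, tested with `φ`:
`- 2 ν ∫ |∇u|² φ + ∫ |u|² (∂ₜφ + ν Δφ) + ∫ (|u|² + 2 p) u · ∇φ`. -/
noncomputable def DD (ν : ℝ) (u : ℝ → V → V) (p : ℝ → V → ℝ) (φ : ℝ → V → ℝ) (t : ℝ) : ℝ :=
  -(2 * ν) * (∫ x, gsq (u t) x * φ t x)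
    + (∫ x, nsq (u t) x * (deriv (fun s => φ s x) t + ν * lap (φ t) x))
    + ∫ x, (nsq (u t) x + 2 * p t x) * adv (u t) (φ t) x

/-- `(u, p)` is a suitable weak `1`-periodic solution of the Navier-Stokes equations on
`(0, T) × ℝ³` with viscosity `ν`, energy at most `E²` and total enstrophy at most `D`, which is
smooth at the times in the open set `G` of full measure in `(0, T)`. -/
structure Turb (ν T E D : ℝ) (G : Set ℝ) (u : ℝ → V → V) (p : ℝ → V → ℝ) : Prop where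
  openG : IsOpen G
  subG : G ⊆ Ioo 0 T
  fullG : volume (Ioo 0 T \ G) = 0
  smooth_u : ContDiffOn ℝ ∞ (fun z : ℝ × V => u z.1 z.2) (G ×ˢ univ)
  smooth_p : ContDiffOn ℝ ∞ (fun z : ℝ × V => p z.1 z.2) (G ×ˢ univ)
  per_u : ∀ t ∈ G, Per (u t)
  per_p : ∀ t ∈ G, Per (p t)
  divfree : ∀ t ∈ G, ∀ x, ∑ i, pd i (fun y => u t y i) x = 0
  momentum : ∀ t ∈ G, ∀ x i,
    deriv (fun s => u s x i) t + ∑ j, u t x j * pd j (fun y => u t y i) x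
      = ν * ∑ j, pd j (pd j (fun y => u t y i)) x - pd i (p t) x
  energy_le : ∀ t ∈ G, energy (u t) ≤ E ^ 2
  enst_int : IntegrableOn (fun t => enstrophy (u t)) G
  enst_le : ∫ t in G, enstrophy (u t) ≤ D
  press : IntegrableOn (fun t => ∫ x in cube, |p t x| ^ (3 / 2 : ℝ)) G
  weak : ∀ φ : ℝ → V → ℝ, Test T φ → ∀ i, ∫ t in G, DM ν u p φ i t = 0
  local_energy : ∀ φ : ℝ → V → ℝ, Test T φ → (∀ t x, 0 ≤ φ t x) → 0 ≤ ∫ t in G, DD ν u p φ t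

/-- The point `(t, x)` is singular: `u` is unbounded near it. -/
def SingPt (G : Set ℝ) (u : ℝ → V → V) (t : ℝ) (x : V) : Prop :=
  ∀ δ > 0, ∀ B : ℝ, ∃ s ∈ G, |s - t| < δ ∧ ∃ y ∈ ball x δ, B < ‖u s y‖

/-- Any two points are separated by `r` in the parabolic distance. -/
def Sep (r : ℝ) (S : Finset (ℝ × V)) : Prop :=
  ∀ z ∈ S, ∀ w ∈ S, z ≠ w → r ^ 2 ≤ |z.1 - w.1| ∨ r ≤ ‖z.2 - w.2‖

/-! ### The weak local theory -/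

/-- A field on `(-1, 0) × ℝ³`, smooth at the times in the open set `H` of full measure, with the
local energy inequality on the unit ball (viscosity one). -/
structure WLoc (H : Set ℝ) (v : ℝ → V → V) (q : ℝ → V → ℝ) : Prop where
  openH : IsOpen H
  subH : H ⊆ Ioo (-1) 0
  fullH : volume (Ioo (-1 : ℝ) 0 \ H) = 0
  smooth_v : ContDiffOn ℝ ∞ (fun z : ℝ × V => v z.1 z.2) (H ×ˢ univ)
  smooth_q : ContDiffOn ℝ ∞ (fun z : ℝ × V => q z.1 z.2) (H ×ˢ univ)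
  bdd : ∃ B : ℝ, ∀ t ∈ H, A2 0 1 (v t) ≤ B
  en : ∀ (α β : ℝ) (Φ : ℝ → V → ℝ),
    ContDiffOn ℝ ∞ (fun z : ℝ × V => Φ z.1 z.2) (Ioo α β ×ˢ univ) →
    (∀ t ∈ Ioo α β, ∀ z ∉ ball (0 : V) 1, Φ t z = 0) →
    ∀ s ∈ H, ∀ t ∈ H, α < s → s ≤ t → t < β → (∀ τ ∈ Icc s t, ∀ z, 0 ≤ Φ τ z) →
      IntegrableOn (DD 1 v q Φ) (Ioo s t) ∧
      (∫ z, nsq (v t) z * Φ t z) - (∫ z, nsq (v s) z * Φ s z) ≤ ∫ τ in Ioo s t, DD 1 v q Φ τ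

/-- The hypothesis of the weak local regularity theorem. -/
def WHyp (H : Set ℝ) (v : ℝ → V → V) (q : ℝ → V → ℝ) (Γ : ℝ → ℝ) (ε : ℝ) : Prop :=
  WLoc H v q ∧ (∀ t ∈ H, ∃ P, Slice (v t) (q t) P (Γ t)) ∧
    IntegrableOn Γ (Ioo (-1) 0) ∧ ∫ t in Ioo (-1) 0, Γ t ≤ ε

/-- The bounds at scale `k` around `(a, s)`. -/
def WIH (H : Set ℝ) (Λ : ℝ) (a : V) (s : ℝ) (v : ℝ → V → V) (k : ℕ) : Prop :=
  (∀ t ∈ H, s - rr k ^ 2 < t → t ≤ s → A2 a (rr k) (v t) ≤ Λ / 8 ^ k) ∧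
    ∫ t in Ioc (s - rr k ^ 2) s, B2 a (rr k) (v t) ≤ Λ / 8 ^ k

/-- The first step: smallness of the energy. -/
def S_WBASE : Prop := ∃ C ε₀ : ℝ, 0 < C ∧ 0 < ε₀ ∧ ∀ ε : ℝ, 0 < ε → ε ≤ ε₀ →
  ∀ (H : Set ℝ) (v : ℝ → V → V) (q : ℝ → V → ℝ) (Γ : ℝ → ℝ), WHyp H v q Γ ε →
    ∀ t ∈ H, -9 / 16 < t → A2 0 (3 / 4) (v t) ≤ C * ε

/-- The induction step. -/
def S_WSTEP : Prop := ∃ C : ℝ, 0 < C ∧ ∀ ε : ℝ, 0 < ε → ε ≤ 1 →
  ∀ (H : Set ℝ) (v : ℝ → V → V) (q : ℝ → V → ℝ) (Γ : ℝ → ℝ), WHyp H v q Γ ε →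
    ∀ K₀ : ℝ, 0 ≤ K₀ → (∀ t ∈ H, -9 / 16 < t → A2 0 (3 / 4) (v t) ≤ K₀ * ε) → ∀ Λ : ℝ, 0 ≤ Λ →
      ∀ a ∈ ball (0 : V) (1 / 4), ∀ s ∈ H, -1 / 16 < s → ∀ n : ℕ, 5 ≤ n →
        (∀ k, 2 ≤ k → k ≤ n → WIH H Λ a s v k) →
          WIH H (C * ((1 + K₀) * ε + Λ * √Λ)) a s v (n + 1)

/-- The weak local regularity theorem. -/
def S_WLOC : Prop := ∃ ε C : ℝ, 0 < ε ∧ 0 < C ∧
  ∀ (H : Set ℝ) (v : ℝ → V → V) (q : ℝ → V → ℝ) (Γ : ℝ → ℝ), WHyp H v q Γ ε →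
    ∀ t ∈ H, -1 / 16 < t → ∀ z ∈ ball (0 : V) (1 / 4), ∀ i, |v t z i| ≤ C

/-! ### Time -/

/-- From cut-off functions in time to intervals. -/
def S_TCUT : Prop := ∀ (G : Set ℝ) (s t : ℝ) (g h : ℝ → ℝ), IsOpen G → s ∈ G → t ∈ G → s ≤ t →
  ContinuousOn g G → IntegrableOn g (Ioo s t ∩ G) → IntegrableOn h (Ioo s t ∩ G) →
  (∀ θ : ℝ → ℝ, ContDiff ℝ ∞ θ → HasCompactSupport θ → tsupport θ ⊆ Ioo s t → (∀ τ, 0 ≤ θ τ) →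
    0 ≤ ∫ τ in Ioo s t ∩ G, (deriv θ τ * g τ + θ τ * h τ)) →
  g t - g s ≤ ∫ τ in Ioo s t ∩ G, h τ

/-- Extension of a function with an integrable modulus of continuity. -/
def S_ACX : Prop := ∀ (α β : ℝ) (G : Set ℝ) (f k : ℝ → ℝ), α ≤ β → G ⊆ Ioo α β →
  IntegrableOn k (Ioo α β) → (∀ t, 0 ≤ k t) →
  (∀ s ∈ G, ∀ t ∈ G, s ≤ t → |f t - f s| ≤ ∫ τ in Ioo s t, k τ) →
  ∃ F : ℝ → ℝ, (∀ t ∈ G, F t = f t) ∧ Continuous F ∧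
    ∀ s ∈ Icc α β, ∀ t ∈ Icc α β, s ≤ t → |F t - F s| ≤ ∫ τ in Ioo s t, k τ

/-! ### Slices -/

/-- The equation for the pressure at a regular time. -/
def S_WDIV : Prop := ∀ (T E D : ℝ) (G : Set ℝ) (u : ℝ → V → V) (p : ℝ → V → ℝ),
  Turb 1 T E D G u p → ∀ t ∈ G, ∀ x, -lap (p t) x = ddq (u t) x

/-! ### Poincaré inequalities on dyadic balls -/

/-- The mean of `u` near `x` at the scale `r`. -/
noncomputable def mo (r : ℝ) (u : V → V) (x : V) : V := fun i => ∫ y, th y * u (x + r • y) i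

/-- The oscillation around the mean at the scale `r` on larger balls. -/
def S_DYPO : Prop := ∃ C : ℝ, 0 < C ∧ ∀ u : V → V, ContDiff ℝ ∞ u → ∀ (x : V) (r : ℝ), 0 < r →
  ∀ k : ℕ, A2 x (2 ^ k * r) (fun y => u y - mo r u x) ≤ C * (2 ^ k * r) ^ 3 *
    ∑ j ∈ Finset.range (k + 1), (3 / 2) ^ (k - j) * ((2 ^ j * r)⁻¹ * B2 x (2 ^ (j + 1) * r) u)

/-- Comparison of two means at different scales. -/
def S_DYMO : Prop := ∃ C : ℝ, 0 < C ∧ ∀ u : V → V, ContDiff ℝ ∞ u → ∀ (x y : V) (r s : ℝ),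
  0 < s → s ≤ r → ‖y - x‖ ≤ r → ‖mo s u y - mo r u x‖ ≤ C * √(s⁻¹ * B2 x (4 * r) u)

/-! ### Packing -/

/-- At each time, balls around separated points have bounded overlap. -/
def S_OVER : Prop := ∃ C : ℝ, 0 < C ∧ ∀ (r : ℝ) (S : Finset (ℝ × V)), 0 < r → r ≤ 1 → Sep r S →
  (∀ z ∈ S, z.2 ∈ cube) → ∀ (t ρ : ℝ), r ≤ ρ → ρ ≤ 2 → ∀ f : V → ℝ, Continuous f → Per f →
    (∀ x, 0 ≤ f x) → ∑ z ∈ S.filter (fun z => |t - z.1| < r ^ 2), ∫ x in ball z.2 ρ, f x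
      ≤ C * (ρ / r) ^ 3 * ∫ x in cube, f x

/-! ### Kernels -/

/-- `r² + |x|²`. -/
noncomputable def QQ (r : ℝ) (x : V) : ℝ := r ^ 2 + ∑ i, x i ^ 2

/-- A smooth bump: `1` on the closed ball of radius `1/4`, support the open ball of radius
`1/2`. -/
noncomputable def cut : ContDiffBump (0 : V) := ⟨1 / 4, 1 / 2, by norm_num, by norm_num⟩

/-- The potential `(r² + |x|²)^(-1/2)`, cut off. -/
noncomputable def gg (r : ℝ) (x : V) : ℝ := cut x * (√(QQ r x))⁻¹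

/-- The main part of `-Δ gg`: `3 r² (r² + |x|²)^(-5/2)`, cut off. -/
noncomputable def eta (r : ℝ) (x : V) : ℝ := cut x * (3 * r ^ 2 * (√(QQ r x) ^ 5)⁻¹)

/-- Bounds of the kernel and its derivatives. -/
def S_KER : Prop := ∃ C : ℝ, 0 < C ∧ ∀ r : ℝ, 0 < r → r ≤ 1 → ContDiff ℝ ∞ (gg r) ∧
  ∀ x : V,
    (1 / 2 ≤ ‖x‖ → gg r x = 0) ∧
    (‖x‖ < 1 / 4 → lap (gg r) x = -eta r x) ∧
    |lap (gg r) x + eta r x| ≤ C ∧
    (∀ i j, |pd i (pd j (gg r)) x| ≤ C / (r + ‖x‖) ^ 3) ∧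
    (∀ i j l, |pd i (pd j (pd l (gg r))) x| ≤ C / (r + ‖x‖) ^ 4) ∧
    (∀ i, ‖x‖ < 1 / 4 → |pd i (lap (gg r)) x| ≤ C * r ^ 2 / (r + ‖x‖) ^ 6) ∧
    (∀ i, |pd i (lap (gg r)) x| ≤ C * (r ^ 2 / (r + ‖x‖) ^ 6 + 1)) ∧
    (‖x‖ < 1 / 4 → |lap (lap (gg r)) x| ≤ C * r ^ 2 / (r + ‖x‖) ^ 7) ∧
    |lap (lap (gg r)) x| ≤ C * (r ^ 2 / (r + ‖x‖) ^ 7 + 1)

end Pool.Agent.Y8
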