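import Pool.Agent.Y8.Lei2
import Pool.Agent.W496.MD.MOLL

/-!
The mollified velocity: bounds, Lipschitz continuity in space, modulus of continuity in time.
-/

open MeasureTheory Set Metric Filter Topology
open scoped ContDiff NNReal

namespace Pool.Agent.Y8

open H459R3.NS W221.NS

theorem th_nn (y : V) : 0 ≤ th y := bmp.nonneg_normed y

theorem th_sm : ContDiff ℝ ∞ th := by
  have := (bmp : ContDiffBump (0 : V)).contDiff_normed (μ := (volume : Measure V)) (n := ⊤)
  exact this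

theorem th_z {y : V} (hy : y ∉ ball (0 : V) 1) : th y = 0 := by
  have h := (bmp : ContDiffBump (0 : V)).support_normed_eq (μ := (volume : Measure V))
  by_contra hne
  have : y ∈ Function.support (bmp.normed (volume : Measure V)) := hne
  rw [h] at this
  exact hy this

theorem th_i1 : ∫ y, th y = 1 := bmp.integral_normed

theorem th_hcs : HasCompactSupport th := hcsR fun _ hz => th_z hz

/-- A bound and a Lipschitz constant of `th`, and bounds of its derivatives. -/
theorem th_bd : ∃ K : ℝ, 1 ≤ K ∧ (∀ y, th y ≤ K) ∧ (∀ y z, |th y - th z| ≤ K * ‖y - z‖) ∧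
    (∀ y j, |pd j th y| ≤ K) ∧ ∀ y, |lap th y| ≤ K := by
  obtain ⟨K0, h0⟩ := th_sm.continuous.bounded_above_of_compact_support th_hcs
  have hpj : ∀ j, ∃ M, ∀ y, ‖pd j th y‖ ≤ M := fun j =>
    (Pool.Agent.W583.MD.sm_pd th_sm j).continuous.bounded_above_of_compact_support
      (Pool.Agent.W583.MD.cs_pd th_hcs j)
  choose M hM using hpj
  have hl : ∃ M, ∀ y, ‖lap th y‖ ≤ M := by
    have h1 : ∀ j, ∃ M, ∀ y, ‖pd j (pd j th) y‖ ≤ M := fun j =>
      (Pool.Agent.W583.MD.sm_pd (Pool.Agent.W583.MD.sm_pd th_sm j)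
        j).continuous.bounded_above_of_compact_support
        (Pool.Agent.W583.MD.cs_pd (Pool.Agent.W583.MD.cs_pd th_hcs j) j)
    choose M hM using h1
    refine ⟨∑ j, M j, fun y => ?_⟩
    unfold lap
    exact (norm_sum_le _ _).trans (Finset.sum_le_sum fun j _ => hM j y)
  obtain ⟨K2, h2⟩ := hl
  obtain ⟨C, hC⟩ := ContDiff.lipschitzWith_of_hasCompactSupport th_hcs (n := ∞) th_sm (by simp)
  refine ⟨1 + |K0| + C + ∑ j, |M j| + |K2|, ?_, fun y => ?_, fun y z => ?_, fun y j => ?_,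
    fun y => ?_⟩
  · have : 0 ≤ (C : ℝ) := C.2
    have : 0 ≤ ∑ j, |M j| := by positivity
    have := abs_nonneg K0
    have := abs_nonneg K2
    linarith
  · have h1 := h0 y
    rw [Real.norm_eq_abs] at h1
    have := le_abs_self (th y)
    have := le_abs_self K0
    have : 0 ≤ (C : ℝ) := C.2
    have : 0 ≤ ∑ j, |M j| := by positivity
    have := abs_nonneg K2
    linarith
  · have h1 := hC.dist_le_mul y z
    rw [Real.dist_eq, dist_eq_norm] at h1
    refine h1.trans (mul_le_mul_of_nonneg_right ?_ (norm_nonneg _))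
    have : 0 ≤ ∑ j, |M j| := by positivity
    have := abs_nonneg K0
    have := abs_nonneg K2
    linarith
  · have h1 := hM j y
    rw [Real.norm_eq_abs] at h1
    have := le_abs_self (M j)
    have h3 : |M j| ≤ ∑ j, |M j| :=
      Finset.single_le_sum (f := fun j => |M j|) (fun _ _ => abs_nonneg _) (Finset.mem_univ j)
    have : 0 ≤ (C : ℝ) := C.2
    have := abs_nonneg K0
    have := abs_nonneg K2
    linarith
  · have h1 := h2 y
    rw [Real.norm_eq_abs] at h1
    have := le_abs_self K2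
    have : 0 ≤ (C : ℝ) := C.2
    have := abs_nonneg K0
    have : 0 ≤ ∑ j, |M j| := by positivity
    linarith

/-- The kernel of the mollification. -/
noncomputable def kx (r : ℝ) (x z : V) : ℝ := (r ^ 3)⁻¹ * th (r⁻¹ • (z - x))

theorem kx_eq (r : ℝ) (x : V) : kx r x = fun z => (r ^ 3)⁻¹ * th ((-(r⁻¹ • x)) + r⁻¹ • z) := by
  funext z
  unfold kx
  congr 2
  rw [smul_sub]
  abel

theorem kx_sm (r : ℝ) (x : V) : ContDiff ℝ ∞ (kx r x) := by
  rw [kx_eq]
  exact contDiff_const.mul (th_sm.comp (contDiff_const.add (contDiff_const_smul _)))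

theorem kx_z {r : ℝ} (hr : 0 < r) {x z : V} (hz : z ∉ ball x r) : kx r x z = 0 := by
  unfold kx
  rw [th_z, mul_zero]
  intro h
  apply hz
  rw [mem_ball, dist_zero_right, norm_smul, Real.norm_eq_abs, abs_of_pos (inv_pos.2 hr)] at h
  rw [mem_ball, dist_eq_norm]
  rwa [inv_mul_lt_iff₀ hr, mul_one] at h

theorem mo_eq {r : ℝ} (hr : 0 < r) (u : V → V) (x : V) (i : Fin 3) :
    mo r u x i = ∫ z, u z i * kx r x z := by
  unfold mo kx
  have h := Measure.integral_comp_smul (μ := (volume : Measure V))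
    (fun z : V => th (r⁻¹ • z) * u (x + z) i) r
  have h3 : Module.finrank ℝ V = 3 := by simp [V]
  rw [h3] at h
  have e1 : (fun y => th y * u (x + r • y) i) =
      fun y : V => th (r⁻¹ • (r • y)) * u (x + r • y) i := by
    funext y
    rw [smul_smul, inv_mul_cancel₀ hr.ne', one_smul]
  rw [e1, h, abs_of_pos (by positivity), smul_eq_mul, ← integral_const_mul]
  have h4 := integral_add_left_eq_self (μ := (volume : Measure V))
    (fun z : V => u z i * ((r ^ 3)⁻¹ * th (r⁻¹ • (z - x)))) x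
  rw [← h4]
  congr 1
  funext z
  rw [add_sub_cancel_left]
  ring

theorem kx_bd {K : ℝ} (hK1 : ∀ y, th y ≤ K)
    (hK3 : ∀ y j, |pd j th y| ≤ K) (hK4 : ∀ y, |lap th y| ≤ K) {r : ℝ} (hr : 0 < r) (x z : V) :
    |kx r x z| ≤ K * (r ^ 3)⁻¹ ∧ (∀ j, |pd j (kx r x) z| ≤ K * (r ^ 4)⁻¹) ∧
      |lap (kx r x) z| ≤ K * (r ^ 5)⁻¹ := by
  have hd := th_sm.differentiable (by simp : (∞ : WithTop ℕ∞) ≠ 0)
  have hc : ContDiff ℝ ∞ (fun z : V => th ((-(r⁻¹ • x)) + r⁻¹ • z)) :=
    th_sm.comp (contDiff_const.add (contDiff_const_smul _))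
  have e1 : ∀ j z, pd j (kx r x) z = (r ^ 3)⁻¹ * (r⁻¹ * pd j th ((-(r⁻¹ • x)) + r⁻¹ • z)) := by
    intro j z
    rw [kx_eq, pd_cm hc]
    show (r ^ 3)⁻¹ * pd j (fun z : V => th ((-(r⁻¹ • x)) + r⁻¹ • z)) z = _
    rw [Pool.Agent.W135.MD.pd_aff hd]
  refine ⟨?_, fun j => ?_, ?_⟩
  · unfold kx
    rw [abs_mul, abs_of_pos (by positivity), abs_of_nonneg (th_nn _), mul_comm]
    exact mul_le_mul_of_nonneg_right (hK1 _) (by positivity)
  · rw [e1, abs_mul, abs_mul, abs_of_pos (by positivity : 0 < (r ^ 3)⁻¹),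
      abs_of_pos (by positivity : 0 < r⁻¹)]
    calc (r ^ 3)⁻¹ * (r⁻¹ * |pd j th (-(r⁻¹ • x) + r⁻¹ • z)|) ≤ (r ^ 3)⁻¹ * (r⁻¹ * K) := by
          gcongr
          exact hK3 _ _
      _ = K * (r ^ 4)⁻¹ := by
          field_simp
  · have e2 : lap (kx r x) z = (r ^ 5)⁻¹ * lap th ((-(r⁻¹ • x)) + r⁻¹ • z) := by
      rw [kx_eq, lap_cm hc]
      have : lap (fun z : V => th ((-(r⁻¹ • x)) + r⁻¹ • z)) z =
          (r⁻¹) ^ 2 * lap th ((-(r⁻¹ • x)) + r⁻¹ • z) := by
        unfold lap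
        rw [Finset.mul_sum]
        exact Finset.sum_congr rfl fun j _ => Pool.Agent.W135.MD.pd2_aff th_sm _ _ j j z
      show (r ^ 3)⁻¹ * lap (fun z : V => th ((-(r⁻¹ • x)) + r⁻¹ • z)) z = _
      rw [this]
      field_simp
    rw [e2, abs_mul, abs_of_pos (by positivity), mul_comm]
    exact mul_le_mul_of_nonneg_right (hK4 _) (by positivity)

end Pool.Agent.Y8
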