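import Pool.Agent.Y8.Stm

/-!
Statements, second part: the evolution of local means, persistence of fast velocities (helper8).
-/

open MeasureTheory Set Metric
open scoped ContDiff

namespace Pool.Agent.Y8

open H459R3.NS W221.NS

/-! ### Kernels -/

/-- Bounds of the kernel and its derivatives, second version. The difference `lap gg + eta` and its
derivatives are bounded (they live where `cut` is not locally constant). -/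
def S_KER2 : Prop := ∃ C : ℝ, 0 < C ∧ ∀ r : ℝ, 0 < r → r ≤ 1 →
  ContDiff ℝ ∞ (gg r) ∧ ContDiff ℝ ∞ (eta r) ∧ (∀ x, 0 ≤ eta r x) ∧
  ∀ x : V,
    (1 / 2 ≤ ‖x‖ → gg r x = 0 ∧ eta r x = 0) ∧
    eta r x ≤ C * r ^ 2 / (r + ‖x‖) ^ 5 ∧
    (∀ i, |pd i (eta r) x| ≤ C * r ^ 2 / (r + ‖x‖) ^ 6) ∧
    |lap (eta r) x| ≤ C * r ^ 2 / (r + ‖x‖) ^ 7 ∧
    |lap (gg r) x + eta r x| ≤ C ∧
    (∀ i, |pd i (fun y => lap (gg r) y + eta r y) x| ≤ C) ∧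
    |lap (fun y => lap (gg r) y + eta r y) x| ≤ C ∧
    (∀ i j, |pd i (pd j (gg r)) x| ≤ C / (r + ‖x‖) ^ 3) ∧
    (∀ i j l, |pd i (pd j (pd l (gg r))) x| ≤ C / (r + ‖x‖) ^ 4)

/-- The test field: `∂ᵢ ∂ₗ g - δᵢₗ Δ g` with `g = gg r (· - x)`; its divergence vanishes. -/
noncomputable def phi (r : ℝ) (x : V) (l i : Fin 3) (y : V) : ℝ :=
  pd i (pd l (fun z => gg r (z - x))) y - if i = l then lap (fun z => gg r (z - x)) y else 0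

/-- The mean velocity `∑ᵢ ∫ uᵢ φᵢ`. -/
noncomputable def MN (r : ℝ) (u : V → V) (x : V) (l : Fin 3) : ℝ := ∑ i, ∫ y, u y i * phi r x l i y

/-- The time derivative of the mean velocity. -/
noncomputable def HH (r : ℝ) (u : V → V) (x : V) (l : Fin 3) : ℝ :=
  ∑ i, ∫ y, (u y i * lap (phi r x l i) y + u y i * adv u (phi r x l i) y)

/-- Weighted dissipation, strong decay. -/
noncomputable def NN2 (n : ℕ) (u : V → V) (x : V) : ℝ :=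
  ∑ k ∈ Finset.range n, rr n ^ 2 * ((2 ^ k * rr n) ^ 4)⁻¹ * B2 x (2 ^ (k + 1) * rr n) u

/-- Weighted dissipation up to the scale `2ᵐ r`. -/
noncomputable def NN1 (n m : ℕ) (u : V → V) (x : V) : ℝ :=
  ∑ k ∈ (Finset.range n).filter (fun k => k ≤ m),
    ((2 ^ k * rr n) ^ 2)⁻¹ * B2 x (2 ^ (k + 1) * rr n) u

/-- Weighted energy from the scale `2ᵐ r` on. -/
noncomputable def NF (n m : ℕ) (u : V → V) (x : V) : ℝ :=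
  ∑ k ∈ (Finset.range n).filter (fun k => m ≤ k),
    ((2 ^ k * rr n) ^ 4)⁻¹ * A2 x (2 ^ k * rr n) u

/-- The bound of the time derivative of the mean velocity. -/
def S_HBD : Prop := ∃ C : ℝ, 0 < C ∧ ∀ u : V → V, SPV u →
  (∀ x, ∑ i, pd i (fun y => u y i) x = 0) → ∀ n m : ℕ, 2 ≤ n → ∀ (x : V) (l : Fin 3),
    |HH (rr n) u x l| ≤ C * (NN1 n m u x + NN2 n u x
      + ‖mo (rr n) u x‖ * √(NN2 n u x / rr n) + √(NN2 n u x) / √(rr n ^ 3)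
      + NF n m u x + ‖mo (rr n) u x‖ ^ 2 / (2 ^ m * rr n) + 1 + energy u)

/-- The mean velocity `MN` is close to a multiple of the mean `mo`. -/
def S_MC : Prop := ∃ C c₀ : ℝ, 0 < c₀ ∧ c₀ ≤ C ∧ ∀ n : ℕ, 2 ≤ n → ∃ κ : ℝ, c₀ ≤ κ ∧ κ ≤ C ∧
  ∀ u : V → V, SPV u → (∀ x, ∑ i, pd i (fun y => u y i) x = 0) → ∀ (x : V) (l : Fin 3),
    |MN (rr n) u x l - κ * mo (rr n) u x l| ≤ C * (√(NN2 n u x * rr n) + 1 + energy u)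

/-! ### Slices -/

/-- The information at one regular time in the moving frame. -/
def S_WSL : Prop := ∃ C : ℝ, 0 < C ∧ ∀ (T E D : ℝ) (G : Set ℝ) (u : ℝ → V → V)
  (p : ℝ → V → ℝ), Turb 1 T E D G u p → ∀ (m : ℕ) (s : ℝ), 4 ≤ m → ∀ X : ℝ → V,
    ContDiffOn ℝ ∞ X G → (∀ t ∈ G, HasDerivAt X (mo (rr m) (u t) (X t)) t) →
      ∀ t ∈ Ioo (-1 : ℝ) 0, s + rr m ^ 2 * t ∈ G →
        ∃ P, Slice (frv (rr m) s X u t) (frq (rr m) s X p t) P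
          (C * FF m (u (s + rr m ^ 2 * t)) (X (s + rr m ^ 2 * t)))

/-! ### Persistence -/

/-- Persistence of a fast mean velocity (an abstract real-variable lemma). -/
def S_PERS : Prop := ∀ C₀ c₀ : ℝ, 0 < c₀ → c₀ ≤ C₀ → ∃ δ K c₂ : ℝ, 0 < δ ∧ 1 ≤ K ∧ 0 < c₂ ∧
  ∀ (r t₀ U B R κ : ℝ) (G : Set ℝ) (M c : ℝ → V) (h N₁ N₂ F : ℝ → ℝ), 0 < r → r ≤ 1 →
    1 ≤ U * r → 0 ≤ B → B * r ≤ δ → K * U * r ^ 2 ≤ R → c₀ ≤ κ → κ ≤ C₀ → IsOpen G →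
    volume (Ioo (t₀ - r ^ 2) (t₀ + r ^ 2) \ G) = 0 →
    (∀ t, 0 ≤ N₁ t) → (∀ t, 0 ≤ N₂ t) → (∀ t, 0 ≤ F t) →
    IntegrableOn N₁ (Ioo (t₀ - r ^ 2) (t₀ + r ^ 2)) →
    IntegrableOn N₂ (Ioo (t₀ - r ^ 2) (t₀ + r ^ 2)) →
    IntegrableOn F (Ioo (t₀ - r ^ 2) (t₀ + r ^ 2)) →
    IntegrableOn h (Ioo (t₀ - r ^ 2) (t₀ + r ^ 2)) →
    IntegrableOn c (Ioo (t₀ - r ^ 2) (t₀ + r ^ 2)) →
    ∫ t in Ioo (t₀ - r ^ 2) (t₀ + r ^ 2), N₂ t ≤ δ / r →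
    ∫ t in Ioo (t₀ - r ^ 2) (t₀ + r ^ 2), N₁ t ≤ δ * U →
    ∫ t in Ioo (t₀ - r ^ 2) (t₀ + r ^ 2), F t ≤ δ * U →
    (∀ s ∈ Ioo (t₀ - r ^ 2) (t₀ + r ^ 2) ∩ G, ∀ t ∈ Ioo (t₀ - r ^ 2) (t₀ + r ^ 2) ∩ G, s ≤ t →
      ‖M t - M s‖ ≤ ∫ τ in Ioo s t, h τ) →
    (∀ t ∈ Ioo (t₀ - r ^ 2) (t₀ + r ^ 2) ∩ G, h t ≤ C₀ * (N₁ t + N₂ t
      + ‖c t‖ * √(N₂ t / r) + √(N₂ t) / √(r ^ 3) + F t + ‖c t‖ ^ 2 / R + B)) →
    (∀ t ∈ Ioo (t₀ - r ^ 2) (t₀ + r ^ 2) ∩ G, ‖M t - κ • c t‖ ≤ C₀ * (√(N₂ t * r) + B)) →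
    (∃ τ ∈ Ioo (t₀ - r ^ 2) (t₀ + r ^ 2) ∩ G, c₀ * U ≤ ‖M τ‖) →
      c₂ * (r ^ 2 * U) ≤ ∫ t in Ioo (t₀ - r ^ 2) (t₀ + r ^ 2), ‖c t‖

end Pool.Agent.Y8
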