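import Pool.Agent.Y8.Stm6

/-!
Statements, seventh part (helper8): the count in a time interval of arbitrary length.
-/

open MeasureTheory Set Metric
open scoped ContDiff NNReal

namespace Pool.Agent.Y8

open H459R3.NS W221.NS

/-! ### Linear dependence on the dissipation -/

/-- `S_CFP` with a bound which is linear in `T + D`. -/
def S_CFPL : Prop := ∀ (E δ c : ℝ) (κ₀ : ℕ), 0 < δ → 0 < c → ∃ C : ℝ, 0 < C ∧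
  ∀ (T D : ℝ) (G : Set ℝ) (u : ℝ → V → V) (p : ℝ → V → ℝ), Turb 1 T E D G u p →
    ∀ (n j : ℕ) (S : Finset (ℝ × V)), Sep (rr n) S →
      (∀ z ∈ S, 0 ≤ z.1 - rr n ^ 2 ∧ z.1 + rr n ^ 2 ≤ T ∧ z.2 ∈ cube) →
      ((∀ z ∈ S, δ * (4 ^ j / rr n) ≤ ∫ t in II n z.1, NF n (2 * j + κ₀) (u t) z.2) ∨
        ∀ z ∈ S, c * (rr n ^ 2 * (4 ^ j / rr n)) ≤ ∫ t in II n z.1, ‖mo (rr n) (u t) z.2‖) →
        (S.card : ℝ) ≤ C * (|T| + D) *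
          ((2 : ℝ) ^ (-(20 / 3 : ℝ) * j) * (2 : ℝ) ^ ((5 / 3 : ℝ) * n))

/-- `S_B2` with a bound which is linear in `T + D`. -/
def S_B2L : Prop := ∀ E : ℝ, ∃ (C : ℝ) (n₀ : ℕ), 0 < C ∧
  ∀ (T D : ℝ) (G : Set ℝ) (u : ℝ → V → V) (p : ℝ → V → ℝ), Turb 1 T E D G u p →
    ∀ (n j : ℕ), n₀ ≤ n → ∀ S : Finset (ℝ × V),
      Sep (rr n) S → (∀ z ∈ S, 0 < z.1 - rr n ^ 2 ∧ z.1 + rr n ^ 2 < T ∧ z.2 ∈ cube ∧
        ∃ (X Y : ℝ → V) (B C' : ℝ), FPath T (rr (n + j)) B C' G u p X Y ∧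
          X z.1 = z.2 ∧ ∃ t, |t - z.1| < rr (n + j) ^ 2 ∧ rr n < ‖X t - z.2‖) →
        (S.card : ℝ) ≤ C * (|T| + D) *
          (2 ^ n + (2 : ℝ) ^ (-(20 / 3 : ℝ) * j) * (2 : ℝ) ^ ((5 / 3 : ℝ) * n))

/-- The count on the whole time interval, with a bound which is linear in `T + D`. -/
def S_FINL : Prop := ∀ E : ℝ, ∃ C : ℝ, 0 < C ∧
  ∀ (T D : ℝ) (G : Set ℝ) (u : ℝ → V → V) (p : ℝ → V → ℝ), Turb 1 T E D G u p →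
    ∀ r : ℝ, 0 < r → r ≤ 1 → ∀ S : Finset (ℝ × V), Sep r S →
      (∀ z ∈ S, 0 < z.1 - r ^ 2 ∧ z.1 + r ^ 2 < T ∧ z.2 ∈ cube ∧ SingPt G u z.1 z.2) →
        (S.card : ℝ) ≤ C * (|T| + D) * r ^ (-(25 / 23) : ℝ)

/-! ### Short time intervals -/

/-- The alternative for points which are carried away at their own scale in a short time. -/
def S_ALTH : Prop := ∃ (δ c : ℝ) (κ₀ : ℕ), 0 < δ ∧ 0 < c ∧ ∀ E : ℝ, ∃ n₀ : ℕ,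
  ∀ (T D : ℝ) (G : Set ℝ) (u : ℝ → V → V) (p : ℝ → V → ℝ), Turb 1 T E D G u p →
    ∀ n i : ℕ, n₀ ≤ n → ∀ (t₀ : ℝ) (x₀ : V), 0 < t₀ - rr n ^ 2 → t₀ + rr n ^ 2 < T →
      ∀ (X Y : ℝ → V) (B C : ℝ), FPath T (rr n) B C G u p X Y → ‖X t₀ - x₀‖ ≤ rr n / 8 →
        (∃ t, |t - t₀| ≤ rr (n + i) ^ 2 ∧ |t - t₀| < rr n ^ 2 ∧ rr n / 8 < ‖X t - X t₀‖) →
          δ / rr n ≤ ∫ t in II n t₀, NN2 n (u t) x₀ ∨
          δ * (4 ^ i / rr n) ≤ ∫ t in II n t₀, NN1 n (2 * i + κ₀) (u t) x₀ ∨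
          δ * (4 ^ i / rr n) ≤ ∫ t in II n t₀, NF n (2 * i + κ₀) (u t) x₀ ∨
          c * (rr n ^ 2 * (4 ^ i / rr n)) ≤ ∫ t in II n t₀, ‖mo (rr n) (u t) x₀‖

/-- The singular points in a short time interval which are not carried away. -/
def S_SLOW : Prop := ∀ R₀ : ℝ, ∃ C : ℝ, 0 < C ∧ ∀ (T E D : ℝ) (G : Set ℝ) (u : ℝ → V → V)
  (p : ℝ → V → ℝ), Turb 1 T E D G u p → ∀ (n i : ℕ) (α β : ℝ), 3 ≤ i →
    β - α ≤ rr (n + i) ^ 2 → rr n ^ 2 < α → β + rr n ^ 2 < T →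
      ∀ (X Y : ℝ → V → V) (B C' : ℝ), 0 ≤ B → B * rr n ^ 2 ≤ R₀ →
        WFl T (rr n) B C' G u p β X Y → ∀ S : Finset (ℝ × V), Sep (rr n) S →
          (∀ z ∈ S, z.1 ∈ Icc α β ∧ z.2 ∈ cube ∧ SingPt G u z.1 z.2 ∧
            ∀ y, ‖X z.1 y - z.2‖ < rr n / 8 → ‖y - X z.1 y‖ ≤ rr n / 8) →
            (S.card : ℝ) ≤ C * D * 2 ^ n

/-- The count on a short time interval. -/
def S_WINL : Prop := ∀ E : ℝ, ∃ C : ℝ, 0 < C ∧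
  ∀ (T D : ℝ) (G : Set ℝ) (u : ℝ → V → V) (p : ℝ → V → ℝ), Turb 1 T E D G u p →
    ∀ (n i : ℕ) (α β : ℝ), 3 ≤ i → β - α ≤ rr (n + i) ^ 2 → rr n ^ 2 < α → β + rr n ^ 2 < T →
      ∀ S : Finset (ℝ × V), Sep (rr n) S →
        (∀ z ∈ S, z.1 ∈ Icc α β ∧ z.2 ∈ cube ∧ SingPt G u z.1 z.2) →
          (S.card : ℝ) ≤ C * (|T| + D) *
            (2 ^ n + (2 : ℝ) ^ (-(20 / 3 : ℝ) * i) * (2 : ℝ) ^ ((5 / 3 : ℝ) * n))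

/-! ### Final form -/

/-- Restriction to a shorter time interval. -/
def S_RESTR : Prop := ∀ (ν T E D : ℝ) (G : Set ℝ) (u : ℝ → V → V) (p : ℝ → V → ℝ),
  Turb ν T E D G u p → ∀ a b : ℝ, 0 ≤ a → a < b → b ≤ T →
    Turb ν (b - a) E (∫ t in Ioo a b, enstrophy (u t)) {t | t ∈ Ioo 0 (b - a) ∧ a + t ∈ G}
      (fun t => u (a + t)) (fun t => p (a + t)) ∧
    ∀ (t : ℝ) (x : V), t ∈ Ioo a b → SingPt G u t x →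
      SingPt {t | t ∈ Ioo 0 (b - a) ∧ a + t ∈ G} (fun t => u (a + t)) (t - a) x

/-- The count in a time interval, viscosity one. -/
def S_TS1 : Prop := ∀ E : ℝ, ∃ C : ℝ, 0 < C ∧
  ∀ (T D : ℝ) (G : Set ℝ) (u : ℝ → V → V) (p : ℝ → V → ℝ), Turb 1 T E D G u p →
    ∀ r α β : ℝ, 0 < r → r ≤ 1 → α ≤ β → 2 * r ^ 2 < α → β + 2 * r ^ 2 < T →
      ∀ S : Finset (ℝ × V), Sep r S →
        (∀ z ∈ S, z.1 ∈ Icc α β ∧ z.2 ∈ cube ∧ SingPt G u z.1 z.2) →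
          S.card * r ≤ C *
            (1 + min (r ^ (-(2 / 23) : ℝ)) (r ^ (-(2 / 3) : ℝ) * ((β - α) / r ^ 2) ^ (10 / 3 : ℝ)))
            * ∫ t in Ioo (α - 2 * r ^ 2) (β + 2 * r ^ 2), (1 + enstrophy (u t))

/-- The points are separated by `r` in the parabolic distance adapted to the viscosity. -/
def SepN (ν r : ℝ) (S : Finset (ℝ × V)) : Prop :=
  ∀ z ∈ S, ∀ w ∈ S, z ≠ w → r ^ 2 ≤ ν * |z.1 - w.1| ∨ r ≤ ‖z.2 - w.2‖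

/-- The count in a time interval. -/
def S_TS : Prop := ∀ ν E : ℝ, 0 < ν → ∃ C : ℝ, 0 < C ∧
  ∀ (T D : ℝ) (G : Set ℝ) (u : ℝ → V → V) (p : ℝ → V → ℝ), Turb ν T E D G u p →
    ∀ r α β : ℝ, 0 < r → r ≤ 1 → α ≤ β → 2 * r ^ 2 < ν * α → ν * β + 2 * r ^ 2 < ν * T →
      ∀ S : Finset (ℝ × V), SepN ν r S →
        (∀ z ∈ S, z.1 ∈ Icc α β ∧ z.2 ∈ cube ∧ SingPt G u z.1 z.2) →
          S.card * r ≤ C *
            (1 + min (r ^ (-(2 / 23) : ℝ))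
              (r ^ (-(2 / 3) : ℝ) * (ν * (β - α) / r ^ 2) ^ (10 / 3 : ℝ)))
            * ∫ t in Ioo (α - 2 * r ^ 2 / ν) (β + 2 * r ^ 2 / ν), (1 + enstrophy (u t))

end Pool.Agent.Y8
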