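import Pool.Agent.Y8.Stm7

/-!
Statements, eighth part (helper8): the count in a time interval of arbitrary length, final form.
-/

open MeasureTheory Set Metric
open scoped ContDiff NNReal

namespace Pool.Agent.Y8

open H459R3.NS W221.NS

/-- The number of fast points in a short time interval, by the energy. -/
def S_CE : Prop := ∀ (δ c : ℝ) (κ₀ : ℕ), 0 < δ → 0 < c → ∃ C : ℝ, 0 < C ∧
  ∀ (T E D : ℝ) (G : Set ℝ) (u : ℝ → V → V) (p : ℝ → V → ℝ), Turb 1 T E D G u p →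
    ∀ (n i : ℕ) (S : Finset (ℝ × V)), Sep (rr n) S →
      (∀ z ∈ S, 0 ≤ z.1 - rr n ^ 2 ∧ z.1 + rr n ^ 2 ≤ T ∧ z.2 ∈ cube) →
      (∀ z ∈ S, ∀ w ∈ S, |z.1 - w.1| ≤ rr n ^ 2) →
      ((∀ z ∈ S, δ * (4 ^ i / rr n) ≤ ∫ t in II n z.1, NF n (2 * i + κ₀) (u t) z.2) ∨
        ∀ z ∈ S, c * (rr n ^ 2 * (4 ^ i / rr n)) ≤ ∫ t in II n z.1, ‖mo (rr n) (u t) z.2‖) →
        (S.card : ℝ) ≤ C * E ^ 2 * (16 ^ i)⁻¹ * 2 ^ n

/-- The count on a short time interval. -/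
def S_WINL2 : Prop := ∀ E : ℝ, ∃ (C : ℝ) (n₀ : ℕ), 0 < C ∧
  ∀ (T D : ℝ) (G : Set ℝ) (u : ℝ → V → V) (p : ℝ → V → ℝ), Turb 1 T E D G u p →
    ∀ (n i : ℕ) (α β : ℝ), n₀ ≤ n → 3 ≤ i → β - α ≤ rr (n + i) ^ 2 → rr n ^ 2 < α →
      β + rr n ^ 2 < T → ∀ S : Finset (ℝ × V), Sep (rr n) S →
        (∀ z ∈ S, z.1 ∈ Icc α β ∧ z.2 ∈ cube ∧ SingPt G u z.1 z.2) →
          (S.card : ℝ) ≤ C * (D + (16 ^ i)⁻¹) * 2 ^ n

/-- The count in a time interval, viscosity one. -/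
def S_TU1 : Prop := ∀ E : ℝ, ∃ C : ℝ, 0 < C ∧
  ∀ (T D : ℝ) (G : Set ℝ) (u : ℝ → V → V) (p : ℝ → V → ℝ), Turb 1 T E D G u p →
    ∀ r α β : ℝ, 0 < r → r ≤ 1 → α ≤ β → 2 * r ^ 2 < α → β + 2 * r ^ 2 < T →
      ∀ S : Finset (ℝ × V), Sep r S →
        (∀ z ∈ S, z.1 ∈ Icc α β ∧ z.2 ∈ cube ∧ SingPt G u z.1 z.2) →
          S.card * r ≤ C * ((∫ t in Ioo (α - 2 * r ^ 2) (β + 2 * r ^ 2), enstrophy (u t))
            + min (r ^ (-(2 / 23) : ℝ)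
              * ∫ t in Ioo (α - 2 * r ^ 2) (β + 2 * r ^ 2), (1 + enstrophy (u t)))
              (((β - α) / r ^ 2) ^ 2))

/-- The count in a time interval. -/
def S_TU : Prop := ∀ ν E : ℝ, 0 < ν → ∃ C : ℝ, 0 < C ∧
  ∀ (T D : ℝ) (G : Set ℝ) (u : ℝ → V → V) (p : ℝ → V → ℝ), Turb ν T E D G u p →
    ∀ r α β : ℝ, 0 < r → r ≤ 1 → α ≤ β → 2 * r ^ 2 < ν * α → ν * β + 2 * r ^ 2 < ν * T →
      ∀ S : Finset (ℝ × V), SepN ν r S →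
        (∀ z ∈ S, z.1 ∈ Icc α β ∧ z.2 ∈ cube ∧ SingPt G u z.1 z.2) →
          S.card * r ≤ C * ((∫ t in Ioo (α - 2 * r ^ 2 / ν) (β + 2 * r ^ 2 / ν), enstrophy (u t))
            + min (r ^ (-(2 / 23) : ℝ)
              * ∫ t in Ioo (α - 2 * r ^ 2 / ν) (β + 2 * r ^ 2 / ν), (1 + enstrophy (u t)))
              (((β - α) / r ^ 2) ^ 2))

end Pool.Agent.Y8
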