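import Pool.Agent.Y8.Stm
import Pool.Agent.W135.MD.FarA
import Pool.Agent.W583.MD.EN
import Pool.Agent.W440.MD.SOB
import Pool.Agent.W333.MD.PCONT

/-!
Basic tools: slices, continuity in time, integrals over balls of periodic functions.
-/

open MeasureTheory Set Metric Filter Topology
open scoped ContDiff

namespace Pool.Agent.Y8

open H459R3.NS W221.NS

theorem sl_sm {E : Type*} [NormedAddCommGroup E] [NormedSpace ℝ E] {H : Set ℝ} {F : ℝ → V → E}
    (hF : ContDiffOn ℝ ∞ (fun z : ℝ × V => F z.1 z.2) (H ×ˢ univ)) {t : ℝ} (ht : t ∈ H) :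
    ContDiff ℝ ∞ (F t) := by
  rw [← contDiffOn_univ]
  exact hF.comp (contDiff_const.prodMk contDiff_id).contDiffOn (fun x _ => ⟨ht, mem_univ _⟩)

theorem sl_ct {E : Type*} [TopologicalSpace E] {H : Set ℝ} {F : ℝ → V → E}
    (hF : ContinuousOn (fun z : ℝ × V => F z.1 z.2) (H ×ˢ univ)) {t : ℝ} (ht : t ∈ H) :
    Continuous (F t) := by
  have h1 : ContinuousOn (fun z : V => ((t, z) : ℝ × V)) univ := by fun_prop
  have h2 := hF.comp h1 (fun z _ => ⟨ht, mem_univ z⟩)
  exact continuousOn_univ.1 h2

/-- A neighbourhood which is an interval. -/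
theorem nb {H : Set ℝ} (hH : IsOpen H) {t : ℝ} (ht : t ∈ H) :
    ∃ a b : ℝ, t ∈ Ioo a b ∧ Ioo a b ⊆ H := by
  obtain ⟨ε, hε, h⟩ := Metric.isOpen_iff.1 hH t ht
  refine ⟨t - ε, t + ε, ⟨by linarith, by linarith⟩, ?_⟩
  rw [← Real.ball_eq_Ioo]
  exact h

theorem pint_cont {H : Set ℝ} (hH : IsOpen H) {F : ℝ → V → ℝ}
    (hF : ContinuousOn (fun z : ℝ × V => F z.1 z.2) (H ×ˢ univ)) (a : V) (ρ : ℝ) :
    ContinuousOn (fun t => ∫ z in ball a ρ, F t z) H := by
  intro t ht
  obtain ⟨α, β, h1, h2⟩ := nb hH ht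
  have h3 := Pool.Agent.W333.MD.t_PCONT α β F a ρ (hF.mono (prod_mono h2 subset_rfl)) t h1
  exact (h3.continuousAt (isOpen_Ioo.mem_nhds h1)).continuousWithinAt

theorem ball_int_eq {f : V → ℝ} {a : V} {R : ℝ} (h : ∀ z ∉ ball a R, f z = 0) :
    ∫ z in ball a R, f z = ∫ z, f z :=
  setIntegral_eq_integral_of_forall_compl_eq_zero h

theorem pint_cont_c {H : Set ℝ} (hH : IsOpen H) {F : ℝ → V → ℝ}
    (hF : ContinuousOn (fun z : ℝ × V => F z.1 z.2) (H ×ˢ univ)) (a : V) (ρ : ℝ)
    (h0 : ∀ t ∈ H, ∀ z ∉ ball a ρ, F t z = 0) :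
    ContinuousOn (fun t => ∫ z, F t z) H := by
  refine (pint_cont hH hF a ρ).congr fun t ht => ?_
  exact (ball_int_eq (h0 t ht)).symm

/-- The integral over a ball of a periodic function. -/
theorem ball_le (R : ℝ) : ∃ C : ℝ, 0 < C ∧ ∀ f : V → ℝ, Continuous f → Per f → (∀ y, 0 ≤ f y) →
    ∀ x, ∫ y in ball x R, f y ≤ C * ∫ y in cube, f y := by
  obtain ⟨s, -, hsf, hs⟩ := Metric.totallyBounded_iff.1 (isCompact_closedBall (0 : V) R).totallyBounded
    (1 / 2) (by norm_num) |>.elim fun s h => (⟨s, trivial, h.1, h.2⟩ :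
      ∃ s : Set V, True ∧ s.Finite ∧ closedBall (0 : V) R ⊆ ⋃ y ∈ s, ball y (1 / 2))
  refine ⟨hsf.toFinset.card + 1, by positivity, fun f hf hp h0 x => ?_⟩
  have hint : ∀ (a : V) (ρ : ℝ), IntegrableOn f (ball a ρ) := fun a ρ =>
    (hf.continuousOn.integrableOn_compact (isCompact_closedBall a ρ)).mono_set
      ball_subset_closedBall
  have hsub : ball x R ⊆ ⋃ c ∈ hsf.toFinset, ball (x + c) (1 / 2) := by
    intro y hy
    have h1 : y - x ∈ closedBall (0 : V) R := by
      rw [mem_closedBall, dist_zero_right]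
      rw [mem_ball, dist_eq_norm] at hy
      exact hy.le
    have h2 := hs h1
    simp only [mem_iUnion, exists_prop] at h2 ⊢
    obtain ⟨c, hc, hc2⟩ := h2
    refine ⟨c, hsf.mem_toFinset.2 hc, ?_⟩
    rw [mem_ball, dist_eq_norm] at hc2 ⊢
    rwa [← sub_sub]
  have h3 : ∫ y in ball x R, f y ≤ ∑ c ∈ hsf.toFinset, ∫ y in ball (x + c) (1 / 2), f y := by
    calc ∫ y in ball x R, f y ≤ ∫ y in ⋃ c ∈ hsf.toFinset, ball (x + c) (1 / 2), f y := by
          refine setIntegral_mono_set ?_ ?_ hsub.eventuallyLE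
          · rw [integrableOn_finset_iUnion]
            exact fun c _ => hint _ _
          · exact ae_of_all _ h0
      _ ≤ _ := by
          have key : ∀ s : Finset V, ∫ y in ⋃ c ∈ s, ball (x + c) (1 / 2), f y ≤
              ∑ c ∈ s, ∫ y in ball (x + c) (1 / 2), f y := by
            intro s
            induction s using Finset.induction_on with
            | empty => simp
            | insert c s hc ih =>
              rw [Finset.sum_insert hc]
              have e : ⋃ c' ∈ insert c s, ball (x + c') (1 / 2) =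
                  ball (x + c) (1 / 2) ∪ ⋃ c' ∈ s, ball (x + c') (1 / 2) := by
                rw [Finset.set_biUnion_insert]
              rw [e]
              have hi : IntegrableOn f (⋃ c' ∈ s, ball (x + c') (1 / 2)) := by
                rw [integrableOn_finset_iUnion]
                exact fun c _ => hint _ _
              have h4 : ∫ y in ball (x + c) (1 / 2) ∪ ⋃ c' ∈ s, ball (x + c') (1 / 2), f y ≤
                  (∫ y in ball (x + c) (1 / 2), f y) +
                    ∫ y in ⋃ c' ∈ s, ball (x + c') (1 / 2), f y := by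
                have h5 := setIntegral_union (f := f) (μ := volume)
                  (s := ball (x + c) (1 / 2)) (t := (⋃ c' ∈ s, ball (x + c') (1 / 2)) \
                    ball (x + c) (1 / 2)) disjoint_sdiff_right
                  ((s.measurableSet_biUnion fun _ _ => measurableSet_ball).diff
                    measurableSet_ball) (hint _ _) (hi.mono_set sdiff_subset)
                rw [union_sdiff_self] at h5
                rw [h5]
                have h6 := setIntegral_mono_set hi (ae_of_all _ h0)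
                  (sdiff_subset (s := ⋃ c' ∈ s, ball (x + c') (1 / 2))
                    (t := ball (x + c) (1 / 2))).eventuallyLE
                linarith
              linarith
          exact key _
  have h6 : ∑ c ∈ hsf.toFinset, ∫ y in ball (x + c) (1 / 2), f y ≤
      ∑ c ∈ hsf.toFinset, ∫ y in cube, f y := Finset.sum_le_sum fun c _ =>
    Pool.Agent.W135.MD.ball_le_cube hf hp h0 _ le_rfl
  rw [Finset.sum_const, nsmul_eq_mul] at h6
  have h7 : 0 ≤ ∫ y in cube, f y := setIntegral_nonneg measurableSet_Icc fun y _ => h0 y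
  nlinarith

end Pool.Agent.Y8
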