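import Pool.Agent.Y8.Base

/-!
Joint smoothness in space and time of the quantities in the local energy inequality.
-/

open MeasureTheory Set Metric Filter Topology
open scoped ContDiff

namespace Pool.Agent.Y8

open H459R3.NS W221.NS

section

variable {H : Set ℝ} {F : ℝ → V → ℝ}

theorem opH (hH : IsOpen H) : IsOpen (H ×ˢ (univ : Set V)) := hH.prod isOpen_univ

theorem pd_eq (hH : IsOpen H) (hF : ContDiffOn ℝ ∞ (fun z : ℝ × V => F z.1 z.2) (H ×ˢ univ))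
    {t : ℝ} (ht : t ∈ H) (x : V) (j : Fin 3) :
    pd j (F t) x = fderiv ℝ (fun z : ℝ × V => F z.1 z.2) (t, x) (0, Pi.single j 1) := by
  have hd : DifferentiableAt ℝ (fun z : ℝ × V => F z.1 z.2) (t, x) :=
    (hF.contDiffAt ((opH hH).mem_nhds ⟨ht, mem_univ _⟩)).differentiableAt (by simp)
  unfold pd
  have h4 : HasFDerivAt (fun y : V => ((t, y) : ℝ × V)) (ContinuousLinearMap.inr ℝ ℝ V) x :=
    hasFDerivAt_prodMk_right t x
  have h5 : fderiv ℝ (F t) x =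
      (fderiv ℝ (fun z : ℝ × V => F z.1 z.2) (t, x)).comp (ContinuousLinearMap.inr ℝ ℝ V) :=
    (hd.hasFDerivAt.comp x h4).fderiv
  rw [h5]
  simp

theorem dt_hd (hH : IsOpen H) (hF : ContDiffOn ℝ ∞ (fun z : ℝ × V => F z.1 z.2) (H ×ˢ univ))
    {t : ℝ} (ht : t ∈ H) (x : V) :
    HasDerivAt (fun s => F s x) (fderiv ℝ (fun z : ℝ × V => F z.1 z.2) (t, x) (1, 0)) t := by
  have hd : DifferentiableAt ℝ (fun z : ℝ × V => F z.1 z.2) (t, x) :=
    (hF.contDiffAt ((opH hH).mem_nhds ⟨ht, mem_univ _⟩)).differentiableAt (by simp)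
  have h2 : HasDerivAt (fun s : ℝ => ((s, x) : ℝ × V)) (1, 0) t :=
    (hasDerivAt_id t).prodMk (hasDerivAt_const t x)
  exact hd.hasFDerivAt.comp_hasDerivAt t h2

theorem dt_hd' (hH : IsOpen H) (hF : ContDiffOn ℝ ∞ (fun z : ℝ × V => F z.1 z.2) (H ×ˢ univ))
    {t : ℝ} (ht : t ∈ H) (x : V) :
    HasDerivAt (fun s => F s x) (deriv (fun s => F s x) t) t :=
  (dt_hd hH hF ht x).differentiableAt.hasDerivAt

theorem fd_joint (hH : IsOpen H) (hF : ContDiffOn ℝ ∞ (fun z : ℝ × V => F z.1 z.2) (H ×ˢ univ))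
    (w : ℝ × V) : ContDiffOn ℝ ∞ (fun z : ℝ × V =>
      fderiv ℝ (fun z : ℝ × V => F z.1 z.2) z w) (H ×ˢ univ) :=
  (hF.fderiv_of_isOpen (opH hH) (m := ∞) (by simp)).clm_apply contDiffOn_const

theorem pd_joint (hH : IsOpen H) (hF : ContDiffOn ℝ ∞ (fun z : ℝ × V => F z.1 z.2) (H ×ˢ univ))
    (j : Fin 3) : ContDiffOn ℝ ∞ (fun z : ℝ × V => pd j (F z.1) z.2) (H ×ˢ univ) :=
  (fd_joint hH hF (0, Pi.single j 1)).congr fun z hz => pd_eq hH hF hz.1 z.2 j

theorem dt_joint (hH : IsOpen H) (hF : ContDiffOn ℝ ∞ (fun z : ℝ × V => F z.1 z.2) (H ×ˢ univ)) :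
    ContDiffOn ℝ ∞ (fun z : ℝ × V => deriv (fun s => F s z.2) z.1) (H ×ˢ univ) :=
  (fd_joint hH hF (1, 0)).congr fun z hz => (dt_hd hH hF hz.1 z.2).deriv

theorem lap_joint (hH : IsOpen H) (hF : ContDiffOn ℝ ∞ (fun z : ℝ × V => F z.1 z.2) (H ×ˢ univ)) :
    ContDiffOn ℝ ∞ (fun z : ℝ × V => lap (F z.1) z.2) (H ×ˢ univ) := by
  unfold lap
  exact ContDiffOn.sum fun j _ => pd_joint (F := fun t => pd j (F t)) hH (pd_joint hH hF j) j

end

section

variable {H : Set ℝ} {u : ℝ → V → V} {p : ℝ → V → ℝ} {φ : ℝ → V → ℝ}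

theorem comp_joint (hu : ContDiffOn ℝ ∞ (fun z : ℝ × V => u z.1 z.2) (H ×ˢ univ)) (i : Fin 3) :
    ContDiffOn ℝ ∞ (fun z : ℝ × V => u z.1 z.2 i) (H ×ˢ univ) := contDiffOn_pi.1 hu i

theorem nsq_joint (hu : ContDiffOn ℝ ∞ (fun z : ℝ × V => u z.1 z.2) (H ×ˢ univ)) :
    ContDiffOn ℝ ∞ (fun z : ℝ × V => nsq (u z.1) z.2) (H ×ˢ univ) := by
  unfold nsq
  exact ContDiffOn.sum fun i _ => (comp_joint hu i).pow 2

theorem gsq_joint (hH : IsOpen H) (hu : ContDiffOn ℝ ∞ (fun z : ℝ × V => u z.1 z.2) (H ×ˢ univ)) :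
    ContDiffOn ℝ ∞ (fun z : ℝ × V => gsq (u z.1) z.2) (H ×ˢ univ) := by
  unfold gsq
  exact ContDiffOn.sum fun i _ => ContDiffOn.sum fun j _ =>
    (pd_joint (F := fun t y => u t y i) hH (comp_joint hu i) j).pow 2

theorem adv_joint (hH : IsOpen H) (hu : ContDiffOn ℝ ∞ (fun z : ℝ × V => u z.1 z.2) (H ×ˢ univ))
    (hφ : ContDiffOn ℝ ∞ (fun z : ℝ × V => φ z.1 z.2) (H ×ˢ univ)) :
    ContDiffOn ℝ ∞ (fun z : ℝ × V => adv (u z.1) (φ z.1) z.2) (H ×ˢ univ) := by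
  unfold adv
  exact ContDiffOn.sum fun j _ => (comp_joint hu j).mul (pd_joint hH hφ j)

/-- The density of the local energy inequality. -/
noncomputable def ed (ν : ℝ) (u : ℝ → V → V) (p : ℝ → V → ℝ) (φ : ℝ → V → ℝ) (t : ℝ) (x : V) : ℝ :=
  -(2 * ν) * (gsq (u t) x * φ t x) + nsq (u t) x * (deriv (fun s => φ s x) t + ν * lap (φ t) x)
    + (nsq (u t) x + 2 * p t x) * adv (u t) (φ t) x

/-- The density of the momentum equation. -/
noncomputable def md (ν : ℝ) (u : ℝ → V → V) (p : ℝ → V → ℝ) (φ : ℝ → V → ℝ) (i : Fin 3) (t : ℝ)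
    (x : V) : ℝ :=
  u t x i * (deriv (fun s => φ s x) t + ν * lap (φ t) x) + u t x i * adv (u t) (φ t) x
    + p t x * pd i (φ t) x

theorem ed_joint (ν : ℝ) (hH : IsOpen H)
    (hu : ContDiffOn ℝ ∞ (fun z : ℝ × V => u z.1 z.2) (H ×ˢ univ))
    (hp : ContDiffOn ℝ ∞ (fun z : ℝ × V => p z.1 z.2) (H ×ˢ univ))
    (hφ : ContDiffOn ℝ ∞ (fun z : ℝ × V => φ z.1 z.2) (H ×ˢ univ)) :
    ContDiffOn ℝ ∞ (fun z : ℝ × V => ed ν u p φ z.1 z.2) (H ×ˢ univ) := by
  unfold ed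
  exact ((contDiffOn_const.mul ((gsq_joint hH hu).mul hφ)).add ((nsq_joint hu).mul
    ((dt_joint hH hφ).add (contDiffOn_const.mul (lap_joint hH hφ))))).add
    (((nsq_joint hu).add (contDiffOn_const.mul hp)).mul (adv_joint hH hu hφ))

theorem md_joint (ν : ℝ) (i : Fin 3) (hH : IsOpen H)
    (hu : ContDiffOn ℝ ∞ (fun z : ℝ × V => u z.1 z.2) (H ×ˢ univ))
    (hp : ContDiffOn ℝ ∞ (fun z : ℝ × V => p z.1 z.2) (H ×ˢ univ))
    (hφ : ContDiffOn ℝ ∞ (fun z : ℝ × V => φ z.1 z.2) (H ×ˢ univ)) :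
    ContDiffOn ℝ ∞ (fun z : ℝ × V => md ν u p φ i z.1 z.2) (H ×ˢ univ) := by
  unfold md
  exact (((comp_joint hu i).mul ((dt_joint hH hφ).add
    (contDiffOn_const.mul (lap_joint hH hφ)))).add ((comp_joint hu i).mul
    (adv_joint hH hu hφ))).add (hp.mul (pd_joint hH hφ i))

/-! ### Supports -/

theorem pd_zero {f : V → ℝ} {a : V} {R : ℝ} (h : ∀ z ∉ ball a R, f z = 0) {z : V}
    (hz : z ∉ closedBall a R) (j : Fin 3) : pd j f z = 0 := by
  have h1 : f =ᶠ[𝓝 z] fun _ => 0 := by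
    filter_upwards [isClosed_closedBall.isOpen_compl.mem_nhds hz] with y hy
    exact h y fun h' => hy (ball_subset_closedBall h')
  unfold pd
  rw [h1.fderiv_eq]
  simp

/-- The derivative vanishes outside the open ball as well, if `f` is differentiable. -/
theorem pd_zero' {f : V → ℝ} (hf : ContDiff ℝ ∞ f) {a : V} {R : ℝ} (hR : 0 < R)
    (h : ∀ z ∉ ball a R, f z = 0) {z : V} (hz : z ∉ ball a R) (j : Fin 3) : pd j f z = 0 := by
  have hc : Continuous (pd j f) := (Pool.Agent.W583.MD.sm_pd hf j).continuous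
  have h1 : ∀ y ∉ closedBall a R, pd j f y = 0 := fun y hy => pd_zero h hy j
  have h2 : z ∈ closure (closedBall a R)ᶜ := by
    rw [closure_compl, interior_closedBall a hR.ne']
    exact hz
  have h3 : IsClosed {y | pd j f y = 0} := isClosed_eq hc continuous_const
  exact (closure_minimal (fun y hy => h1 y hy) h3) h2

theorem lap_zero' {f : V → ℝ} (hf : ContDiff ℝ ∞ f) {a : V} {R : ℝ} (hR : 0 < R)
    (h : ∀ z ∉ ball a R, f z = 0) {z : V} (hz : z ∉ ball a R) : lap f z = 0 := by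
  unfold lap
  exact Finset.sum_eq_zero fun j _ => pd_zero' (Pool.Agent.W583.MD.sm_pd hf j) hR
    (fun y hy => pd_zero' hf hR h hy j) hz j

theorem dt_zero' (hH : IsOpen H) {a : V} {R : ℝ} (hs : ∀ t ∈ H, ∀ z ∉ ball a R, φ t z = 0)
    {t : ℝ} (ht : t ∈ H) {z : V} (hz : z ∉ ball a R) : deriv (fun s => φ s z) t = 0 := by
  have h1 : (fun s => φ s z) =ᶠ[𝓝 t] fun _ => 0 := by
    filter_upwards [hH.mem_nhds ht] with s hs'
    exact hs s hs' z hz
  rw [h1.deriv_eq]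
  exact deriv_const t 0

theorem ed_zero (ν : ℝ) (hH : IsOpen H)
    (hφ : ContDiffOn ℝ ∞ (fun z : ℝ × V => φ z.1 z.2) (H ×ˢ univ)) {a : V} {R : ℝ} (hR : 0 < R)
    (hs : ∀ t ∈ H, ∀ z ∉ ball a R, φ t z = 0) {t : ℝ} (ht : t ∈ H) {z : V} (hz : z ∉ ball a R) :
    ed ν u p φ t z = 0 := by
  have h1 := sl_sm hφ ht
  unfold ed adv
  rw [hs t ht z hz, dt_zero' hH hs ht hz, lap_zero' h1 hR (hs t ht) hz,
    Finset.sum_eq_zero fun j _ => by rw [pd_zero' h1 hR (hs t ht) hz j, mul_zero]]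
  ring

theorem md_zero (ν : ℝ) (i : Fin 3) (hH : IsOpen H)
    (hφ : ContDiffOn ℝ ∞ (fun z : ℝ × V => φ z.1 z.2) (H ×ˢ univ)) {a : V} {R : ℝ} (hR : 0 < R)
    (hs : ∀ t ∈ H, ∀ z ∉ ball a R, φ t z = 0) {t : ℝ} (ht : t ∈ H) {z : V} (hz : z ∉ ball a R) :
    md ν u p φ i t z = 0 := by
  have h1 := sl_sm hφ ht
  unfold md adv
  rw [dt_zero' hH hs ht hz, lap_zero' h1 hR (hs t ht) hz,
    Finset.sum_eq_zero fun j _ => by rw [pd_zero' h1 hR (hs t ht) hz j, mul_zero],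
    pd_zero' h1 hR (hs t ht) hz i]
  ring

theorem hcsR {f : V → ℝ} {a : V} {R : ℝ} (h : ∀ z ∉ ball a R, f z = 0) : HasCompactSupport f :=
  HasCompactSupport.of_support_subset_isCompact (isCompact_closedBall a R) fun z hz => by
    by_contra hcon
    exact hz (h z fun h' => hcon (ball_subset_closedBall h'))

theorem int_csR {f : V → ℝ} (hf : Continuous f) {a : V} {R : ℝ} (h : ∀ z ∉ ball a R, f z = 0) :
    Integrable f := hf.integrable_of_hasCompactSupport (hcsR h)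

/-- The energy density is the integral of `ed`. -/
theorem DD_eq (ν : ℝ) (hH : IsOpen H)
    (hu : ContDiffOn ℝ ∞ (fun z : ℝ × V => u z.1 z.2) (H ×ˢ univ))
    (hp : ContDiffOn ℝ ∞ (fun z : ℝ × V => p z.1 z.2) (H ×ˢ univ))
    (hφ : ContDiffOn ℝ ∞ (fun z : ℝ × V => φ z.1 z.2) (H ×ˢ univ)) {a : V} {R : ℝ} (hR : 0 < R)
    (hs : ∀ t ∈ H, ∀ z ∉ ball a R, φ t z = 0) {t : ℝ} (ht : t ∈ H) :
    DD ν u p φ t = ∫ x, ed ν u p φ t x := by
  have h1 := sl_sm hφ ht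
  have z1 : ∀ z ∉ ball a R, φ t z = 0 := hs t ht
  have z2 : ∀ z ∉ ball a R, deriv (fun s => φ s z) t = 0 := fun z hz => dt_zero' hH hs ht hz
  have z3 : ∀ z ∉ ball a R, lap (φ t) z = 0 := fun z hz => lap_zero' h1 hR z1 hz
  have z4 : ∀ z ∉ ball a R, adv (u t) (φ t) z = 0 := fun z hz => by
    unfold adv
    exact Finset.sum_eq_zero fun j _ => by rw [pd_zero' h1 hR z1 hz j, mul_zero]
  have i1 : Integrable fun x => -(2 * ν) * (gsq (u t) x * φ t x) :=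
    int_csR (continuous_const.mul ((sl_ct (F := fun t x => gsq (u t) x)
      (gsq_joint hH hu).continuousOn ht).mul h1.continuous))
      (a := a) (R := R) fun z hz => by rw [z1 z hz]; ring
  have i2 : Integrable fun x => nsq (u t) x * (deriv (fun s => φ s x) t + ν * lap (φ t) x) :=
    int_csR ((sl_ct (F := fun t x => nsq (u t) x) (nsq_joint hu).continuousOn ht).mul ((sl_ct
      (F := fun t x => deriv (fun s => φ s x) t) (dt_joint hH hφ).continuousOn ht).add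
      (continuous_const.mul (sl_ct (F := fun t x => lap (φ t) x)
      (lap_joint hH hφ).continuousOn ht))))
      (a := a) (R := R) fun z hz => by rw [z2 z hz, z3 z hz]; ring
  have i3 : Integrable fun x => (nsq (u t) x + 2 * p t x) * adv (u t) (φ t) x :=
    int_csR (((sl_ct (F := fun t x => nsq (u t) x) (nsq_joint hu).continuousOn ht).add
      (continuous_const.mul
      (sl_ct hp.continuousOn ht))).mul (sl_ct (F := fun t x => adv (u t) (φ t) x)
      (adv_joint hH hu hφ).continuousOn ht)) (a := a) (R := R) fun z hz => by rw [z4 z hz]; ring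
  unfold DD ed
  have i4 : Integrable fun x => -(2 * ν) * (gsq (u t) x * φ t x) +
      nsq (u t) x * (deriv (fun s => φ s x) t + ν * lap (φ t) x) := i1.add i2
  rw [integral_add i4 i3, integral_add i1 i2, integral_const_mul]

end

end Pool.Agent.Y8
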