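import Pool.Agent.Y8.En
import Pool.Agent.W61.MD.FRAME

/-!
The local energy inequality for test functions which move along a continuously differentiable path.
-/

open MeasureTheory Set Metric Filter Topology
open scoped ContDiff NNReal

namespace Pool.Agent.Y8

open H459R3.NS W221.NS

/-! ### Absolutely continuous functions -/

theorem ac_mod {F k : ℝ → ℝ} (hk : Integrable k) {a b : ℝ} (hab : a ≤ b)
    (hF : ∀ s ∈ Icc a b, ∀ t ∈ Icc a b, s ≤ t → |F t - F s| ≤ ∫ τ in Ioo s t, k τ) :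
    AbsolutelyContinuousOnInterval F a b := by
  have h1 : AbsolutelyContinuousOnInterval (fun x => ∫ v in a..x, k v) a b :=
    hk.intervalIntegrable.absolutelyContinuousOnInterval_intervalIntegral left_mem_uIcc
  have hd : ∀ s ∈ Icc a b, ∀ t ∈ Icc a b, dist (F s) (F t) ≤
      dist (∫ v in a..s, k v) (∫ v in a..t, k v) := by
    have key : ∀ s ∈ Icc a b, ∀ t ∈ Icc a b, s ≤ t → dist (F s) (F t) ≤
        dist (∫ v in a..s, k v) (∫ v in a..t, k v) := by
      intro s hs t ht hst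
      rw [dist_comm, dist_comm (∫ v in a..s, k v), Real.dist_eq, Real.dist_eq,
        intervalIntegral.integral_interval_sub_left hk.intervalIntegrable
        hk.intervalIntegrable, intervalIntegral.integral_of_le hst,
        integral_Ioc_eq_integral_Ioo]
      exact (hF s hs t ht hst).trans (le_abs_self _)
    intro s hs t ht
    rcases le_total s t with h | h
    · exact key s hs t ht h
    · rw [dist_comm, dist_comm (∫ v in a..s, k v)]
      exact key t ht s hs h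
  rw [absolutelyContinuousOnInterval_iff] at h1 ⊢
  intro ε hε
  obtain ⟨δ, hδ, h2⟩ := h1 ε hε
  refine ⟨δ, hδ, fun E hE hEs => lt_of_le_of_lt (Finset.sum_le_sum fun i hi => ?_) (h2 E hE hEs)⟩
  have h3 := (hE.1 i hi)
  rw [uIcc_of_le hab] at h3
  exact hd _ h3.1 _ h3.2

theorem ftc_mod {F k : ℝ → ℝ} (hk : Integrable k) {a b : ℝ} (hab : a ≤ b)
    (hF : ∀ s ∈ Icc a b, ∀ t ∈ Icc a b, s ≤ t → |F t - F s| ≤ ∫ τ in Ioo s t, k τ) :
    IntegrableOn (deriv F) (Ioo a b) ∧ F b - F a = ∫ τ in Ioo a b, deriv F τ := by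
  have h1 := ac_mod hk hab hF
  refine ⟨?_, ?_⟩
  · have h2 := h1.intervalIntegrable_deriv
    rw [intervalIntegrable_iff_integrableOn_Ioc_of_le hab] at h2
    exact h2.mono_set Ioo_subset_Ioc_self
  · rw [← h1.integral_deriv_eq_sub, intervalIntegral.integral_of_le hab,
      integral_Ioc_eq_integral_Ioo]

/-! ### Smooth approximation of paths -/

theorem path_approx {X Y : ℝ → V} {s t : ℝ} (hst : s ≤ t)
    (hX : ∀ τ ∈ Icc s t, HasDerivAt X (Y τ) τ) (hY : ContinuousOn Y (Icc s t)) {ε : ℝ}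
    (hε : 0 < ε) : ∃ Z Z' : ℝ → V, ContDiff ℝ ∞ Z ∧ (∀ τ, HasDerivAt Z (Z' τ) τ) ∧
      ∀ τ ∈ Icc s t, ‖Z τ - X τ‖ ≤ ε ∧ ‖Z' τ - Y τ‖ ≤ ε := by
  have hη : ∃ η : ℝ, 0 < η ∧ η ≤ ε ∧ η * (t - s) ≤ ε := by
    refine ⟨ε / (1 + (t - s)), by apply div_pos hε; linarith, ?_, ?_⟩
    · rw [div_le_iff₀ (by linarith)]
      nlinarith
    · rw [div_mul_eq_mul_div, div_le_iff₀ (by linarith)]
      nlinarith
  obtain ⟨η, hη0, hη1, hη2⟩ := hη
  have hp : ∀ i : Fin 3, ∃ P : Polynomial ℝ, ∀ τ ∈ Icc s t, |P.eval τ - Y τ i| < η := fun i =>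
    exists_polynomial_near_of_continuousOn s t (fun τ => Y τ i)
      ((continuous_apply i).comp_continuousOn hY) η hη0
  choose P hP using hp
  have hd : ∀ i τ, HasDerivAt (fun τ => X s i + ∫ σ in s..τ, (P i).eval σ) ((P i).eval τ) τ := by
    intro i τ
    have h1 := intervalIntegral.integral_hasDerivAt_right
      ((P i).continuous.intervalIntegrable s τ)
      ((P i).continuous.stronglyMeasurableAtFilter _ _) (P i).continuous.continuousAt
    exact h1.const_add _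
  refine ⟨fun τ i => X s i + ∫ σ in s..τ, (P i).eval σ, fun τ i => (P i).eval τ, ?_, ?_, ?_⟩
  · refine contDiff_pi.2 fun i => ?_
    rw [contDiff_infty_iff_deriv]
    refine ⟨fun τ => (hd i τ).differentiableAt, ?_⟩
    have : deriv (fun τ => X s i + ∫ σ in s..τ, (P i).eval σ) = fun τ => (P i).eval τ :=
      funext fun τ => (hd i τ).deriv
    rw [this]
    exact (P i).contDiff_aeval ∞
  · intro τ
    exact hasDerivAt_pi.2 fun i => hd i τ
  · intro τ hτ
    constructor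
    · rw [pi_norm_le_iff_of_nonneg hε.le]
      intro i
      have h1 : ∫ σ in s..τ, Y σ i = X τ i - X s i := by
        refine intervalIntegral.integral_eq_sub_of_hasDerivAt (f := fun σ => X σ i) (fun σ hσ => ?_) ?_
        · rw [uIcc_of_le hτ.1] at hσ
          exact (hasDerivAt_pi.1 (hX σ ⟨hσ.1, hσ.2.trans hτ.2⟩)) i
        · refine ContinuousOn.intervalIntegrable ?_
          rw [uIcc_of_le hτ.1]
          exact ((continuous_apply i).comp_continuousOn hY).mono (Icc_subset_Icc_right hτ.2)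
      have h2 : X s i + (∫ σ in s..τ, (P i).eval σ) - X τ i =
          ∫ σ in s..τ, ((P i).eval σ - Y σ i) := by
        rw [intervalIntegral.integral_sub ((P i).continuous.intervalIntegrable _ _), h1]
        · ring
        · refine ContinuousOn.intervalIntegrable ?_
          rw [uIcc_of_le hτ.1]
          exact ((continuous_apply i).comp_continuousOn hY).mono (Icc_subset_Icc_right hτ.2)
      show ‖X s i + (∫ σ in s..τ, (P i).eval σ) - X τ i‖ ≤ ε
      rw [h2]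
      have h3 := intervalIntegral.norm_integral_le_of_norm_le_const (a := s) (b := τ) (C := η)
        (f := fun σ => (P i).eval σ - Y σ i) fun σ hσ => by
          rw [uIoc_of_le hτ.1] at hσ
          exact (hP i σ ⟨hσ.1.le, hσ.2.trans hτ.2⟩).le
      refine h3.trans ?_
      rw [abs_of_nonneg (by linarith [hτ.1])]
      have := hτ.2
      nlinarith
    · rw [pi_norm_le_iff_of_nonneg hε.le]
      intro i
      exact (hP i τ hτ).le.trans hη1

/-! ### Moving test functions -/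

/-- The moving test function. -/
noncomputable def mv (Ψ : ℝ → V → ℝ) (X : ℝ → V) (τ : ℝ) (x : V) : ℝ := Ψ τ (x - X τ)

/-- The density of the energy inequality for the moving test function. -/
noncomputable def edx (u : ℝ → V → V) (p : ℝ → V → ℝ) (Ψ : ℝ → V → ℝ) (τ : ℝ) (a y x : V) : ℝ :=
  -(2 * (1 : ℝ)) * (gsq (u τ) x * Ψ τ (x - a))
    + nsq (u τ) x * ((deriv (fun s => Ψ s (x - a)) τ - ∑ j, y j * pd j (Ψ τ) (x - a))
      + 1 * lap (Ψ τ) (x - a))
    + (nsq (u τ) x + 2 * p τ x) * ∑ j, u τ x j * pd j (Ψ τ) (x - a)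

section

variable {α β : ℝ} {Ψ : ℝ → V → ℝ} {R : ℝ} {u : ℝ → V → V} {p : ℝ → V → ℝ}

theorem pd_shift {f : V → ℝ} (a : V) (j : Fin 3) : pd j (fun x => f (x - a)) =
    fun x => pd j f (x - a) := by
  funext x
  unfold pd
  rw [fderiv_comp_sub]

theorem lap_shift {f : V → ℝ} (a : V) : lap (fun x => f (x - a)) = fun x => lap f (x - a) := by
  funext x
  unfold lap
  refine Finset.sum_congr rfl fun j _ => ?_
  rw [pd_shift a j, pd_shift a j]

theorem mv_dt (hΨ : ContDiffOn ℝ ∞ (fun z : ℝ × V => Ψ z.1 z.2) (Ioo α β ×ˢ univ))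
    {X : ℝ → V} {y : V} {τ : ℝ} (hτ : τ ∈ Ioo α β) (hX : HasDerivAt X y τ) (x : V) :
    HasDerivAt (fun s => mv Ψ X s x)
      (deriv (fun s => Ψ s (x - X τ)) τ - ∑ j, y j * pd j (Ψ τ) (x - X τ)) τ := by
  have hd : DifferentiableAt ℝ (fun z : ℝ × V => Ψ z.1 z.2) (τ, x - X τ) :=
    (hΨ.contDiffAt ((opH isOpen_Ioo).mem_nhds ⟨hτ, mem_univ _⟩)).differentiableAt (by simp)
  have h1 : HasDerivAt (fun s : ℝ => ((s, x - X s) : ℝ × V)) (1, -y) τ :=
    (hasDerivAt_id τ).prodMk (hX.const_sub x)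
  have h2 := hd.hasFDerivAt.comp_hasDerivAt τ h1
  rw [Pool.Agent.W61.MD.FRAME.total hd] at h2
  refine h2.congr_deriv ?_
  simp only [one_mul, Pi.neg_apply, neg_mul, Finset.sum_neg_distrib]
  ring

theorem ed_mv (hΨ : ContDiffOn ℝ ∞ (fun z : ℝ × V => Ψ z.1 z.2) (Ioo α β ×ˢ univ))
    {X : ℝ → V} {y : V} {τ : ℝ} (hτ : τ ∈ Ioo α β) (hX : HasDerivAt X y τ) (x : V) :
    ed 1 u p (mv Ψ X) τ x = edx u p Ψ τ (X τ) y x := by
  have e1 : mv Ψ X τ = fun x => Ψ τ (x - X τ) := rfl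
  unfold ed edx adv
  rw [(mv_dt hΨ hτ hX x).deriv]
  simp only [e1, lap_shift (f := Ψ τ) (X τ), pd_shift (f := Ψ τ) (X τ)]

theorem edx_abs {M B : ℝ} (hM : 0 ≤ M) (hB : 0 ≤ B) {τ : ℝ} {a y x : V} (hy : ‖y‖ ≤ B)
    (h0 : |Ψ τ (x - a)| ≤ M) (h1 : |deriv (fun s => Ψ s (x - a)) τ| ≤ M)
    (h2 : |lap (Ψ τ) (x - a)| ≤ M) (h3 : ∀ j, |pd j (Ψ τ) (x - a)| ≤ M) :
    |edx u p Ψ τ a y x| ≤ (8 + 3 * B) * M * MM (u τ) (p τ) x := by
  have hg := gsq_nn (u τ) x
  have hn := nsq_nn (u τ) x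
  have hpd : ∀ j, |pd j (fun x => Ψ τ (x - a)) x| ≤ M := fun j => by
    rw [pd_shift (f := Ψ τ) a]
    exact h3 j
  have ha := adv_abs (u τ) hpd
  have ha' : |∑ j, u τ x j * pd j (Ψ τ) (x - a)| ≤ 3 * M * √(nsq (u τ) x) := by
    unfold adv at ha
    simp only [pd_shift (f := Ψ τ) a] at ha
    exact ha
  set b := √(nsq (u τ) x) with hb
  have hb0 : 0 ≤ b := Real.sqrt_nonneg _
  have hbn : nsq (u τ) x = b ^ 2 := (Real.sq_sqrt hn).symm
  have e1 : |-(2 * (1 : ℝ)) * (gsq (u τ) x * Ψ τ (x - a))| ≤ 2 * M * gsq (u τ) x := by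
    rw [abs_mul, abs_mul, abs_of_nonneg hg]
    norm_num
    nlinarith
  have ey : |∑ j, y j * pd j (Ψ τ) (x - a)| ≤ 3 * (B * M) := by
    refine (Finset.abs_sum_le_sum_abs _ _).trans ?_
    have h : ∀ j ∈ Finset.univ, |y j * pd j (Ψ τ) (x - a)| ≤ B * M := fun j _ => by
      rw [abs_mul]
      exact mul_le_mul ((norm_le_pi_norm y j).trans hy) (h3 j) (abs_nonneg _) hB
    refine (Finset.sum_le_sum h).trans ?_
    simp only [Finset.sum_const, Finset.card_univ, Fintype.card_fin, nsmul_eq_mul]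
    norm_num
  have e2 : |nsq (u τ) x * ((deriv (fun s => Ψ s (x - a)) τ - ∑ j, y j * pd j (Ψ τ) (x - a))
      + 1 * lap (Ψ τ) (x - a))| ≤ (2 * M + 3 * (B * M)) * nsq (u τ) x := by
    rw [abs_mul, abs_of_nonneg hn, mul_comm]
    refine mul_le_mul_of_nonneg_right ?_ hn
    refine (abs_add_le _ _).trans ?_
    rw [one_mul]
    have := abs_sub (deriv (fun s => Ψ s (x - a)) τ) (∑ j, y j * pd j (Ψ τ) (x - a))
    linarith
  have e3 : |(nsq (u τ) x + 2 * p τ x) * ∑ j, u τ x j * pd j (Ψ τ) (x - a)|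
      ≤ (nsq (u τ) x + 2 * |p τ x|) * (3 * M * b) := by
    rw [abs_mul]
    refine mul_le_mul ?_ ha' (abs_nonneg _) (by positivity)
    refine (abs_add_le _ _).trans ?_
    rw [abs_of_nonneg hn, abs_mul]
    norm_num
  unfold edx
  refine (abs_add_le _ _).trans ?_
  refine (add_le_add ((abs_add_le _ _).trans (add_le_add e1 e2)) e3).trans ?_
  unfold MM
  rw [← hb, hbn]
  have hp := abs_nonneg (p τ x)
  have hBM := mul_nonneg hB hM
  have t1 := mul_nonneg hM hg
  have t2 := mul_nonneg hM (sq_nonneg b)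
  have t3 := mul_nonneg hM (pow_nonneg hb0 3)
  have t4 := mul_nonneg hM (mul_nonneg hp hb0)
  have t5 := mul_nonneg hM hp
  have t6 := mul_nonneg hM hb0
  have s1 := mul_nonneg hBM hg
  have s2 := mul_nonneg hBM (sq_nonneg b)
  have s3 := mul_nonneg hBM (pow_nonneg hb0 3)
  have s4 := mul_nonneg hBM (mul_nonneg hp hb0)
  have s5 := mul_nonneg hBM hp
  have s6 := mul_nonneg hBM hb0
  nlinarith

theorem edx_zero {a y x : V} {τ : ℝ} (hτ : τ ∈ Ioo α β) (hR : 0 < R)
    (hΨ : ContDiffOn ℝ ∞ (fun z : ℝ × V => Ψ z.1 z.2) (Ioo α β ×ˢ univ))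
    (hs : ∀ t ∈ Ioo α β, ∀ z ∉ ball (0 : V) R, Ψ t z = 0) (hx : x ∉ ball a R) :
    edx u p Ψ τ a y x = 0 := by
  have hz : x - a ∉ ball (0 : V) R := by
    rw [mem_ball, dist_zero_right]
    rw [mem_ball, dist_eq_norm] at hx
    exact hx
  have h1 := sl_sm hΨ hτ
  unfold edx
  rw [hs τ hτ _ hz, dt_zero' isOpen_Ioo hs hτ hz, lap_zero' h1 hR (hs τ hτ) hz]
  simp only [pd_zero' h1 hR (hs τ hτ) hz]
  simp

theorem edx_cont {x : V} {τ : ℝ} (hτ : τ ∈ Ioo α β)
    (hΨ : ContDiffOn ℝ ∞ (fun z : ℝ × V => Ψ z.1 z.2) (Ioo α β ×ˢ univ)) :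
    Continuous fun z : V × V => edx u p Ψ τ z.1 z.2 x := by
  have c0 : Continuous (Ψ τ) := (sl_sm hΨ hτ).continuous
  have c1 : Continuous fun x => deriv (fun s => Ψ s x) τ :=
    sl_ct (F := fun t x => deriv (fun s => Ψ s x) t) (dt_joint isOpen_Ioo hΨ).continuousOn hτ
  have c2 : Continuous (lap (Ψ τ)) :=
    sl_ct (F := fun t x => lap (Ψ t) x) (lap_joint isOpen_Ioo hΨ).continuousOn hτ
  have c3 : ∀ j, Continuous (pd j (Ψ τ)) := fun j =>
    sl_ct (F := fun t x => pd j (Ψ t) x) (pd_joint isOpen_Ioo hΨ j).continuousOn hτ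
  have k0 : Continuous fun z : V × V => Ψ τ (x - z.1) := c0.comp (by fun_prop)
  have k1 : Continuous fun z : V × V => deriv (fun s => Ψ s (x - z.1)) τ :=
    c1.comp (by fun_prop)
  have k2 : Continuous fun z : V × V => lap (Ψ τ) (x - z.1) := c2.comp (by fun_prop)
  have k3 : ∀ j, Continuous fun z : V × V => pd j (Ψ τ) (x - z.1) := fun j =>
    (c3 j).comp (by fun_prop)
  unfold edx
  fun_prop

theorem edx_contx {a y : V} {τ : ℝ} (hτ : τ ∈ Ioo α β)
    (hΨ : ContDiffOn ℝ ∞ (fun z : ℝ × V => Ψ z.1 z.2) (Ioo α β ×ˢ univ))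
    (hu : ContDiff ℝ ∞ (u τ)) (hp : ContDiff ℝ ∞ (p τ)) :
    Continuous fun x => edx u p Ψ τ a y x := by
  have c0 : Continuous (Ψ τ) := (sl_sm hΨ hτ).continuous
  have c1 : Continuous fun x => deriv (fun s => Ψ s x) τ :=
    sl_ct (F := fun t x => deriv (fun s => Ψ s x) t) (dt_joint isOpen_Ioo hΨ).continuousOn hτ
  have c2 : Continuous (lap (Ψ τ)) :=
    sl_ct (F := fun t x => lap (Ψ t) x) (lap_joint isOpen_Ioo hΨ).continuousOn hτ
  have c3 : ∀ j, Continuous (pd j (Ψ τ)) := fun j =>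
    sl_ct (F := fun t x => pd j (Ψ t) x) (pd_joint isOpen_Ioo hΨ j).continuousOn hτ
  have k0 : Continuous fun x : V => Ψ τ (x - a) := c0.comp (by fun_prop)
  have k1 : Continuous fun x : V => deriv (fun s => Ψ s (x - a)) τ :=
    c1.comp (by fun_prop)
  have k2 : Continuous fun x : V => lap (Ψ τ) (x - a) := c2.comp (by fun_prop)
  have k3 : ∀ j, Continuous fun x : V => pd j (Ψ τ) (x - a) := fun j =>
    (c3 j).comp (by fun_prop)
  have k4 := (nsq_sm hu).continuous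
  have k5 := (gsq_sm hu).continuous
  have k6 := hp.continuous
  have k7 : ∀ j, Continuous fun x => u τ x j := fun j => (contDiff_pi.1 hu j).continuous
  unfold edx
  fun_prop

end

end Pool.Agent.Y8
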