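import Pool.Agent.Y8.Stm5
import Pool.Agent.Y8.Mov
import Pool.Agent.W221.NS.Stm2

/-!
Statements, sixth part (helper8): local regularity for weak solutions without pressure
(a version of the second stage of the project W221 for weak solutions).
-/

open MeasureTheory Set Metric
open scoped ContDiff NNReal

namespace Pool.Agent.Y8

open H459R3.NS W221.NS

/-! ### Definitions -/

/-- Moving test functions: `Ψ t` is supported in the ball of radius `ρ` and is moved along the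
path `y` with velocity `y'`; the moved support stays in the unit ball. -/
structure MT (H : Set ℝ) (α β : ℝ) (Ψ : ℝ → V → ℝ) (y y' : ℝ → V) (ρ : ℝ) : Prop where
  low : -1 ≤ α
  up : β ≤ 0
  sm : ContDiffOn ℝ ∞ (fun z : ℝ × V => Ψ z.1 z.2) (Ioo α β ×ˢ univ)
  rho : 0 < ρ
  supp : ∀ t ∈ Ioo α β, ∀ z ∉ ball (0 : V) ρ, Ψ t z = 0
  der : ∀ t ∈ Ioo α β, HasDerivAt y (y' t) t
  cont : ContinuousOn y' (Ioo α β)
  ysm : ContDiffOn ℝ ∞ y (H ∩ Ioo α β)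
  ins : ∀ t ∈ Ioo α β, ‖y t‖ + ρ ≤ 1

/-- The energy of `w` weighted with the moving test function. -/
noncomputable def EW (w : ℝ → V → V) (Ψ : ℝ → V → ℝ) (y : ℝ → V) (t : ℝ) : ℝ :=
  ∫ z, nsq (w t) z * mv Ψ y t z

/-- The energy inequality for `w` with all moving test functions. -/
def EnW (H : Set ℝ) (w : ℝ → V → V) : Prop := ∀ (α β ρ : ℝ) (Ψ : ℝ → V → ℝ) (y y' : ℝ → V),
  MT H α β Ψ y y' ρ → ∀ s ∈ H, ∀ t ∈ H, α < s → s ≤ t → t < β →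
    (∀ τ ∈ Icc s t, ∀ z, 0 ≤ Ψ τ z) →
      IntegrableOn (deriv (EW w Ψ y)) (Ioo s t) ∧
      EW w Ψ y t - EW w Ψ y s ≤ ∫ τ in Ioo s t, deriv (EW w Ψ y) τ

/-- A field on `(-1, 0) × ℝ³` which is a smooth solution of the Navier-Stokes equations (viscosity
one) at the times in the open set `H` of full measure and has weighted mean zero, such that local
averages have the modulus of continuity given by `k` and the local energy inequality holds. -/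
structure WL2 (H : Set ℝ) (v : ℝ → V → V) (q : ℝ → V → ℝ) (k : ℝ → ℝ) : Prop where
  openH : IsOpen H
  subH : H ⊆ Ioo (-1) 0
  fullH : volume (Ioo (-1 : ℝ) 0 \ H) = 0
  smooth_v : ContDiffOn ℝ ∞ (fun z : ℝ × V => v z.1 z.2) (H ×ˢ univ)
  smooth_q : ContDiffOn ℝ ∞ (fun z : ℝ × V => q z.1 z.2) (H ×ˢ univ)
  divfree : ∀ t ∈ H, ∀ x, dv (v t) x = 0
  momentum : ∀ t ∈ H, ∀ x i,
    deriv (fun s => v s x i) t + adv (v t) (fun y => v t y i) x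
      = lap (fun y => v t y i) x - pd i (q t) x
  mean : ∀ t ∈ H, ∀ i, ∫ z, th z * v t z i = 0
  bdd : ∃ B : ℝ, ∀ t ∈ H, A2 0 8 (v t) ≤ B
  kint : Integrable k
  knn : ∀ t, 0 ≤ k t
  klow : ∀ s ∈ Icc (-1 : ℝ) 0, ∀ t ∈ Icc (-1 : ℝ) 0, s ≤ t → t - s ≤ ∫ τ in Ioo s t, k τ
  mod : ∀ (M : ℝ) (ψ : V → ℝ), 0 ≤ M → ContDiff ℝ ∞ ψ → (∀ z ∉ ball (0 : V) 8, ψ z = 0) →
    (∀ z, |ψ z| ≤ M) → (∀ z i, |pd i ψ z| ≤ M) → (∀ z i j, |pd i (pd j ψ) z| ≤ M) →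
      ∀ s ∈ H, ∀ t ∈ H, s ≤ t → ∀ i,
        |(∫ z, v t z i * ψ z) - ∫ z, v s z i * ψ z| ≤ M * ∫ τ in Ioo s t, k τ
  en : EnW H v

/-- The harmonic part, extended to all times and to the whole space: a bounded Lipschitz field,
continuous in time. -/
structure Fld (H : Set ℝ) (F : ℝ → V → V) (k : ℝ → ℝ) : Prop where
  smH : ContDiffOn ℝ ∞ (fun z : ℝ × V => F z.1 z.2) (H ×ˢ univ)
  lip : ∃ L : ℝ≥0, ∀ t ∈ Icc (-1 : ℝ) 0, LipschitzWith L (F t)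
  bd : ∃ M : ℝ, ∀ t ∈ Icc (-1 : ℝ) 0, ∀ x, ‖F t x‖ ≤ M
  bd2 : ∃ M : ℝ, ∀ t ∈ H, ∀ x i j l, |pd j (fun y => F t y i) x| ≤ M ∧
    |pd l (pd j (fun y => F t y i)) x| ≤ M
  md : ∃ M : ℝ, ∀ s ∈ Icc (-1 : ℝ) 0, ∀ t ∈ Icc (-1 : ℝ) 0, s ≤ t → ∀ x,
    ‖F t x - F s x‖ ≤ M * ∫ τ in Ioo s t, k τ

/-- The hypothesis of the local regularity theorem: `W` is `v` without its harmonic part `F`. -/
structure WH2 (H : Set ℝ) (v W F : ℝ → V → V) (k G : ℝ → ℝ) (ε : ℝ) : Prop where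
  openH : IsOpen H
  subH : H ⊆ Ioo (-1) 0
  fullH : volume (Ioo (-1 : ℝ) 0 \ H) = 0
  smooth_v : ContDiffOn ℝ ∞ (fun z : ℝ × V => v z.1 z.2) (H ×ˢ univ)
  smooth_W : ContDiffOn ℝ ∞ (fun z : ℝ × V => W z.1 z.2) (H ×ˢ univ)
  slice : ∀ t ∈ H, ∃ P, Slice2 (v t) (W t) (fun x i => deriv (fun s => W s x i) t) P (G t)
  Gint : IntegrableOn G (Ioo (-1) 0)
  Gle : ∫ t in Ioo (-1) 0, G t ≤ ε
  kint : Integrable k
  knn : ∀ t, 0 ≤ k t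
  bdd : ∃ B : ℝ, ∀ t ∈ H, A2 0 1 (W t) ≤ B
  fld : Fld H F k
  eqF : ∀ t ∈ H, ∀ x ∈ ball (0 : V) 1, ∀ i, F t x i = v t x i - W t x i
  en : EnW H W

/-- A path which follows `F` and ends at the time `s` in the point `a`. -/
def WPath (H : Set ℝ) (F : ℝ → V → V) (a : V) (s : ℝ) (y : ℝ → V) : Prop :=
  y s = a ∧ ∃ δ > 0, s + δ < 0 ∧ ContDiffOn ℝ ∞ y (H ∩ Ioo (s - 1 / 8) (s + δ)) ∧
    ContinuousOn (fun t => F t (y t)) (Ioo (s - 1 / 8) (s + δ)) ∧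
    ∀ t ∈ Ioo (s - 1 / 8) (s + δ), HasDerivAt y (F t (y t)) t ∧ y t ∈ ball (0 : V) (3 / 8)

/-- The bounds at scale `k` around the path `y`. -/
def WIH2 (H : Set ℝ) (Λ : ℝ) (y : ℝ → V) (s : ℝ) (W : ℝ → V → V) (k : ℕ) : Prop :=
  (∀ t ∈ H, s - rr k ^ 2 < t → t ≤ s → A2 (y t) (rr k) (W t) ≤ Λ / 8 ^ k) ∧
    ∫ t in Ioc (s - rr k ^ 2) s, B2 (y t) (rr k) (W t) ≤ Λ / 8 ^ k

/-! ### The harmonic part -/

/-- The harmonic part as an integral against a smooth kernel. -/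
def S_KAP : Prop := ∀ (g : V → ℝ) (C : ℝ), IsGreen g C → ∃ κ : Fin 3 → Fin 3 → V → V → ℝ,
  (∀ i j, ContDiff ℝ ∞ (fun z : V × V => κ i j z.1 z.2)) ∧
  (∀ i j x y, (x ∉ ball (0 : V) 2 ∨ y ∉ ball (0 : V) 4) → κ i j x y = 0) ∧
  ∀ v : V → V, ContDiff ℝ ∞ v → (∀ x ∈ ball (0 : V) 8, dv v x = 0) →
    ∀ x ∈ ball (0 : V) 1, ∀ i, v x i - TT g v x i = ∑ j, ∫ y, v y j * κ i j x y

/-- Joint smoothness of the decomposition at regular times, and its time derivative. -/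
def S_TSMH : Prop := ∀ (g : V → ℝ) (C : ℝ), IsGreen g C → ∀ (H : Set ℝ) (v : ℝ → V → V), IsOpen H →
  ContDiffOn ℝ ∞ (fun z : ℝ × V => v z.1 z.2) (H ×ˢ univ) →
    ContDiffOn ℝ ∞ (fun z : ℝ × V => TT g (v z.1) z.2) (H ×ˢ univ) ∧
    ∀ t ∈ H, ∀ x i, deriv (fun s => TT g (v s) x i) t
      = TT g (fun y i => deriv (fun s => v s y i) t) x i

/-- The harmonic part of a weak solution, extended. -/
def S_FLD : Prop := ∀ (g : V → ℝ) (C : ℝ), IsGreen g C →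
  ∀ (H : Set ℝ) (v : ℝ → V → V) (q : ℝ → V → ℝ) (k : ℝ → ℝ), WL2 H v q k →
    ∃ F : ℝ → V → V, Fld H F k ∧
      ∀ t ∈ H, ∀ x ∈ ball (0 : V) 1, ∀ i, F t x i = v t x i - TT g (v t) x i

/-- The energy inequality for `v` implies the one for `W`. -/
def S_WEN : Prop := ∀ (H : Set ℝ) (v W F : ℝ → V → V) (q : ℝ → V → ℝ) (k : ℝ → ℝ),
  WL2 H v q k → Fld H F k → ContDiffOn ℝ ∞ (fun z : ℝ × V => W z.1 z.2) (H ×ˢ univ) →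
    (∀ t ∈ H, ∀ x ∈ ball (0 : V) 1, ∀ i, F t x i = v t x i - W t x i) → EnW H W

/-- From a weak solution to the hypothesis of the local regularity theorem. -/
def S_WHYP : Prop := ∀ (g : V → ℝ) (C : ℝ), IsGreen g C → ∃ C' : ℝ, 0 < C' ∧
  ∀ (H : Set ℝ) (v : ℝ → V → V) (q : ℝ → V → ℝ) (k : ℝ → ℝ), WL2 H v q k → ∀ ε : ℝ,
    IntegrableOn (fun t => B2 0 8 (v t)) (Ioo (-1) 0) →
    C' * ∫ t in Ioo (-1) 0, B2 0 8 (v t) ≤ ε →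
      ∃ F, WH2 H v (fun t => TT g (v t)) F k (fun t => C' * B2 0 8 (v t)) ε

/-! ### The local regularity theorem -/

/-- The energy inequality at one regular time. -/
def S_EN2H : Prop := ∃ C : ℝ, 0 < C ∧ ∀ (H : Set ℝ) (v W : ℝ → V → V) (Φ : ℝ → V → ℝ),
  IsOpen H → ContDiffOn ℝ ∞ (fun z : ℝ × V => v z.1 z.2) (H ×ˢ univ) →
    ContDiffOn ℝ ∞ (fun z : ℝ × V => W z.1 z.2) (H ×ˢ univ) →
    ContDiffOn ℝ ∞ (fun z : ℝ × V => Φ z.1 z.2) (H ×ˢ univ) →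
    (∀ t ∈ H, ∀ z ∉ ball (0 : V) 1, Φ t z = 0) →
      ∀ t ∈ H, (∀ z, 0 ≤ Φ t z) → ∀ (P : V → ℝ) (G : ℝ),
        Slice2 (v t) (W t) (fun x i => deriv (fun s => W s x i) t) P G →
          ∃ E' : ℝ, HasDerivAt (fun s => ∫ z, nsq (W s) z * Φ s z) E' t ∧
            E' ≤ -2 * (∫ z, gsq (W t) z * Φ t z)
              + (∫ z, nsq (W t) z * (deriv (fun s => Φ s z) t + lap (Φ t) z))
              + (∫ z, nsq (W t) z * adv (v t) (Φ t) z) + 2 * (∫ z, P z * adv (W t) (Φ t) z)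
              + C * (√G * (∫ z, nsq (W t) z * Φ t z)
                + (√G + G) * ∫ z, √(nsq (W t) z) * Φ t z)

/-- The first step. -/
def S_WBASE2 : Prop := ∃ C ε₀ : ℝ, 0 < C ∧ 0 < ε₀ ∧ ∀ ε : ℝ, 0 < ε → ε ≤ ε₀ →
  ∀ (H : Set ℝ) (v W F : ℝ → V → V) (k G : ℝ → ℝ), WH2 H v W F k G ε →
    ∀ t ∈ H, -9 / 16 < t → A2 0 (3 / 4) (W t) ≤ C * ε

/-- The paths. -/
def S_WPATH2 : Prop := ∃ ε₀ : ℝ, 0 < ε₀ ∧ ∀ (H : Set ℝ) (v W F : ℝ → V → V) (k G : ℝ → ℝ),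
  WH2 H v W F k G ε₀ → ∀ a ∈ ball (0 : V) (1 / 4), ∀ s ∈ Ioo (-1 / 16 : ℝ) 0,
    ∃ y, WPath H F a s y

/-- The induction step. -/
def S_WSTEP2 : Prop := ∃ C ε₀ : ℝ, 0 < C ∧ 0 < ε₀ ∧ ∀ ε : ℝ, 0 < ε → ε ≤ ε₀ →
  ∀ (H : Set ℝ) (v W F : ℝ → V → V) (k G : ℝ → ℝ), WH2 H v W F k G ε → ∀ K₀ : ℝ, 0 ≤ K₀ →
    (∀ t ∈ H, -9 / 16 < t → A2 0 (3 / 4) (W t) ≤ K₀ * ε) → ∀ Λ : ℝ, 0 ≤ Λ →
      ∀ (a : V) (y : ℝ → V), ∀ s ∈ H, -1 / 16 < s → WPath H F a s y → ∀ n : ℕ, 5 ≤ n →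
        (∀ l, 2 ≤ l → l ≤ n → WIH2 H Λ y s W l) →
          WIH2 H (C * ((1 + K₀) * ε + Λ * √Λ + Λ * √ε)) y s W (n + 1)

/-- The local regularity theorem for the decomposition. -/
def S_WLOC2 : Prop := ∃ ε C : ℝ, 0 < ε ∧ 0 < C ∧ ∀ (H : Set ℝ) (v W F : ℝ → V → V)
  (k G : ℝ → ℝ), WH2 H v W F k G ε → ∀ t ∈ H, -1 / 16 < t → ∀ z ∈ ball (0 : V) (1 / 4),
    ∀ i, |W t z i| ≤ C

/-- The local regularity theorem: smallness of the gradient at one scale, no pressure. -/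
def S_WLOCAL : Prop := ∃ ε C : ℝ, 0 < ε ∧ 0 < C ∧ ∀ (H : Set ℝ) (v : ℝ → V → V)
  (q : ℝ → V → ℝ) (k : ℝ → ℝ), WL2 H v q k → IntegrableOn (fun t => B2 0 8 (v t)) (Ioo (-1) 0) →
    ∫ t in Ioo (-1) 0, B2 0 8 (v t) ≤ ε → ∀ t ∈ H, -1 / 16 < t → ∀ z ∈ ball (0 : V) (1 / 4),
      ∀ i, |v t z i| ≤ C * (1 + √(A2 0 4 (v t)))

/-! ### Weak solutions -/

/-- The moving frame gives a weak local solution. -/
def S_WFR2 : Prop := ∀ (T E D : ℝ) (G : Set ℝ) (u : ℝ → V → V) (p : ℝ → V → ℝ),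
  Turb 1 T E D G u p → ∀ r s : ℝ, 0 < r → r ^ 2 < s → s < T → ∀ (X Y : ℝ → V) (B C : ℝ),
    FPath T r B C G u p X Y →
      ∃ k, WL2 {t | t ∈ Ioo (-1 : ℝ) 0 ∧ s + r ^ 2 * t ∈ G} (frv r s X u) (frq r s X p) k

/-- The criterion: near a singular point the dissipation along the path is not small. -/
def S_CRIT3 : Prop := ∃ ε : ℝ, 0 < ε ∧ ∀ (T E D : ℝ) (G : Set ℝ) (u : ℝ → V → V)
  (p : ℝ → V → ℝ), Turb 1 T E D G u p → ∀ r s : ℝ, 0 < r → r ≤ 1 → r ^ 2 < s → s < T →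
    ∀ (X Y : ℝ → V) (B C : ℝ), FPath T r B C G u p X Y →
      ∀ t₀ ∈ Ioo (s - r ^ 2 / 16) s, ∀ x₀ ∈ ball (X t₀) (r / 4), SingPt G u t₀ x₀ →
        ε * r ≤ ∫ t in Ioo (s - r ^ 2) s, B2 (X t) (8 * r) (u t)

/-- Markov's inequality in the space of labels. -/
def S_WMARK3 : Prop := ∃ C : ℝ, 0 < C ∧ ∀ (T E D : ℝ) (G : Set ℝ) (u : ℝ → V → V)
  (p : ℝ → V → ℝ), Turb 1 T E D G u p → ∀ r s t₀ : ℝ, 0 < r → r ≤ 1 → r ^ 2 < s → s < T →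
    t₀ ∈ Icc (s - r ^ 2) s → ∀ (X Y : ℝ → V → V) (B C' : ℝ), 0 ≤ B →
      WFl T r B C' G u p t₀ X Y → ∀ R ε : ℝ, 0 ≤ R → 0 < ε →
        volume {y ∈ ball (0 : V) R | ε * r ≤ ∫ t in Ioo (s - r ^ 2) s, B2 (X t y) (8 * r) (u t)}
          ≤ ENNReal.ofReal (C * (R + B * r ^ 2 + 1) ^ 3 * r ^ 2
            * (∫ t in Ioo (s - r ^ 2) s, enstrophy (u t)) / ε)

/-- The number of separated singular points at a fixed time, no logarithm. -/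
def S_SLC3 : Prop := ∀ E : ℝ, ∃ C : ℝ, 0 < C ∧ ∀ (T D : ℝ) (G : Set ℝ) (u : ℝ → V → V)
  (p : ℝ → V → ℝ), Turb 1 T E D G u p → ∀ r t₀ : ℝ, 0 < r → r ≤ 1 → r ^ 2 < t₀ →
    t₀ + r ^ 2 < T → ∀ S : Finset V, (∀ x ∈ S, x ∈ cube ∧ SingPt G u t₀ x) →
      (∀ x ∈ S, ∀ y ∈ S, x ≠ y → r ≤ ‖x - y‖) →
        S.card * r ≤ C * ∫ t in Ioo (t₀ - r ^ 2) (t₀ + r ^ 2), enstrophy (u t)

/-- The singular points in a short time interval are covered by few moving balls. -/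
def S_LCOV3 : Prop := ∀ E : ℝ, ∃ C : ℝ, 0 < C ∧ ∀ (T D : ℝ) (G : Set ℝ) (u : ℝ → V → V)
  (p : ℝ → V → ℝ), Turb 1 T E D G u p → ∀ r s : ℝ, 0 < r → r ≤ 1 → r ^ 2 < s → s < T →
    ∃ (n : ℕ) (Z : Fin n → ℝ → V),
      (∀ i, ∃ (Y : ℝ → V) (B C' : ℝ), FPath T r B C' G u p (Z i) Y) ∧
      (∀ t ∈ Ioo (s - r ^ 2 / 16) s, ∀ x ∈ cube, SingPt G u t x → ∃ i, ‖Z i t - x‖ < r / 4) ∧
      n * r ≤ C * (1 + Real.log (1 / r)) * ∫ t in Ioo (s - r ^ 2) s, enstrophy (u t)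

end Pool.Agent.Y8
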