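import Pool.Agent.Y8.Path
import Pool.Agent.Y8.Stm2

/-!
Statements, third part: moving frames, the criterion, counting (helper8).
-/

open MeasureTheory Set Metric
open scoped ContDiff

namespace Pool.Agent.Y8

open H459R3.NS W221.NS

/-- Existence of paths. -/
def S_WPATH : Prop := ∃ K : ℝ, 0 < K ∧ ∀ E r : ℝ, 0 < r → r ≤ 1 →
  ∃ C : ℝ, 0 < C ∧ ∀ (T D : ℝ) (G : Set ℝ) (u : ℝ → V → V) (p : ℝ → V → ℝ), Turb 1 T E D G u p →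
    ∀ t₀ ∈ Ioo 0 T, ∀ x₀ : V,
      ∃ X Y : ℝ → V, X t₀ = x₀ ∧ FPath T r (K * |E| / √(r ^ 3) + 1) C G u p X Y

/-- The equations in the moving frame at the regular times. -/
def S_WFO : Prop := ∀ (T E D : ℝ) (G : Set ℝ) (u : ℝ → V → V) (p : ℝ → V → ℝ),
  Turb 1 T E D G u p → ∀ r s : ℝ, 0 < r → ∀ X : ℝ → V, ContDiffOn ℝ ∞ X G →
    (∀ t ∈ G, HasDerivAt X (mo r (u t) (X t)) t) → ∀ H : Set ℝ, (∀ t ∈ H, s + r ^ 2 * t ∈ G) →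
      ContDiffOn ℝ ∞ (fun z : ℝ × V => frv r s X u z.1 z.2) (H ×ˢ univ) ∧
      ContDiffOn ℝ ∞ (fun z : ℝ × V => frq r s X p z.1 z.2) (H ×ˢ univ) ∧
      (∀ t ∈ H, ∀ x, ∑ i, pd i (fun y => frv r s X u t y i) x = 0) ∧
      ∀ t ∈ H, ∀ x i, deriv (fun s' => frv r s X u s' x i) t
        + ∑ j, frv r s X u t x j * pd j (fun y => frv r s X u t y i) x
          = ∑ j, pd j (pd j (fun y => frv r s X u t y i)) x - pd i (frq r s X p t) x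

/-- The moving frame gives a weak local solution. -/
def S_WFRAME : Prop := ∀ (T E D : ℝ) (G : Set ℝ) (u : ℝ → V → V) (p : ℝ → V → ℝ),
  Turb 1 T E D G u p → ∀ r s : ℝ, 0 < r → r ^ 2 < s → s < T → ∀ (X Y : ℝ → V) (B C : ℝ),
    FPath T r B C G u p X Y →
      WLoc {t | t ∈ Ioo (-1 : ℝ) 0 ∧ s + r ^ 2 * t ∈ G} (frv r s X u) (frq r s X p)

/-- The criterion: near a singular point the dissipation along the path is not small. -/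
def S_CRIT : Prop := ∃ ε : ℝ, 0 < ε ∧ ∀ (T E D : ℝ) (G : Set ℝ) (u : ℝ → V → V)
  (p : ℝ → V → ℝ), Turb 1 T E D G u p → ∀ (m : ℕ) (s : ℝ), 4 ≤ m → rr m ^ 2 < s → s < T →
    ∀ (X Y : ℝ → V) (B C : ℝ), FPath T (rr m) B C G u p X Y →
      ∀ t₀ ∈ Ioo (s - rr m ^ 2 / 16) s, SingPt G u t₀ (X t₀) →
        ε ≤ ∫ t in Ioo (-1 : ℝ) 0, FF m (u (s + rr m ^ 2 * t)) (X (s + rr m ^ 2 * t))

/-- The time interval of length `2 r²` around `t₀`. -/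
def II (n : ℕ) (t₀ : ℝ) : Set ℝ := Ioo (t₀ - rr n ^ 2) (t₀ + rr n ^ 2)

/-- The sum of the dissipation in balls around separated points. -/
def S_SUMB : Prop := ∃ C : ℝ, 0 < C ∧ ∀ (T E D : ℝ) (G : Set ℝ) (u : ℝ → V → V)
  (p : ℝ → V → ℝ), Turb 1 T E D G u p → ∀ (n : ℕ) (S : Finset (ℝ × V)), Sep (rr n) S →
    (∀ z ∈ S, 0 ≤ z.1 - rr n ^ 2 ∧ z.1 + rr n ^ 2 ≤ T ∧ z.2 ∈ cube) →
      (∀ ρ : ℝ, rr n ≤ ρ → ρ ≤ 2 →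
        ∑ z ∈ S, ∫ t in II n z.1, B2 z.2 ρ (u t) ≤ C * (ρ / rr n) ^ 3 * D) ∧
      ∑ z ∈ S, ∫ t in II n z.1, enstrophy (u t) ≤ C * (rr n ^ 3)⁻¹ * D

/-- The sums of the weighted dissipation. -/
def S_C12 : Prop := ∃ C : ℝ, 0 < C ∧ ∀ (T E D : ℝ) (G : Set ℝ) (u : ℝ → V → V)
  (p : ℝ → V → ℝ), Turb 1 T E D G u p → ∀ (n : ℕ) (S : Finset (ℝ × V)), Sep (rr n) S →
    (∀ z ∈ S, 0 ≤ z.1 - rr n ^ 2 ∧ z.1 + rr n ^ 2 ≤ T ∧ z.2 ∈ cube) →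
      ∑ z ∈ S, ∫ t in II n z.1, NN2 n (u t) z.2 ≤ C * D / rr n ^ 2 ∧
      ∀ m : ℕ, ∑ z ∈ S, ∫ t in II n z.1, NN1 n m (u t) z.2 ≤ C * 2 ^ m * D / rr n ^ 2

/-- The number of points with much energy far away, and of those with a fast mean velocity. -/
def S_CFP : Prop := ∀ (T E D δ c : ℝ) (κ₀ : ℕ), 0 < δ → 0 < c → ∃ C : ℝ, 0 < C ∧
  ∀ (G : Set ℝ) (u : ℝ → V → V) (p : ℝ → V → ℝ), Turb 1 T E D G u p →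
    ∀ (n j : ℕ) (S : Finset (ℝ × V)), Sep (rr n) S →
      (∀ z ∈ S, 0 ≤ z.1 - rr n ^ 2 ∧ z.1 + rr n ^ 2 ≤ T ∧ z.2 ∈ cube) →
      ((∀ z ∈ S, δ * (4 ^ j / rr n) ≤ ∫ t in II n z.1, NF n (2 * j + κ₀) (u t) z.2) ∨
        ∀ z ∈ S, c * (rr n ^ 2 * (4 ^ j / rr n)) ≤ ∫ t in II n z.1, ‖mo (rr n) (u t) z.2‖) →
        (S.card : ℝ) ≤ C * ((2 : ℝ) ^ (-(20 / 3 : ℝ) * j) * (2 : ℝ) ^ ((5 / 3 : ℝ) * n))

/-- The alternative for points which are carried away by the flow. -/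
def S_ALT : Prop := ∃ (δ c : ℝ) (κ₀ : ℕ), 0 < δ ∧ 0 < c ∧ ∀ E : ℝ, ∃ n₀ : ℕ,
  ∀ (T D : ℝ) (G : Set ℝ) (u : ℝ → V → V) (p : ℝ → V → ℝ), Turb 1 T E D G u p →
    ∀ n j : ℕ, n₀ ≤ n → ∀ (t₀ : ℝ) (x₀ : V), 0 < t₀ - rr n ^ 2 → t₀ + rr n ^ 2 < T →
      ∀ (X Y : ℝ → V) (B C : ℝ), FPath T (rr (n + j)) B C G u p X Y → X t₀ = x₀ →
        (∃ t, |t - t₀| < rr (n + j) ^ 2 ∧ rr n < ‖X t - x₀‖) →
          δ / rr n ≤ ∫ t in II n t₀, NN2 n (u t) x₀ ∨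
          δ * (4 ^ j / rr n) ≤ ∫ t in II n t₀, NN1 n (2 * j + κ₀) (u t) x₀ ∨
          δ * (4 ^ j / rr n) ≤ ∫ t in II n t₀, NF n (2 * j + κ₀) (u t) x₀ ∨
          c * (rr n ^ 2 * (4 ^ j / rr n)) ≤ ∫ t in II n t₀, ‖mo (rr n) (u t) x₀‖

/-- The number of singular points whose paths at the scale `2⁻ʲ r` do not leave the ball. -/
def S_B1 : Prop := ∃ C : ℝ, 0 < C ∧ ∀ (T E D : ℝ) (G : Set ℝ) (u : ℝ → V → V)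
  (p : ℝ → V → ℝ), Turb 1 T E D G u p → ∀ (n j : ℕ), 4 ≤ n → ∀ S : Finset (ℝ × V),
    Sep (rr n) S → (∀ z ∈ S, 0 < z.1 - rr n ^ 2 ∧ z.1 + rr n ^ 2 < T ∧ z.2 ∈ cube ∧
      SingPt G u z.1 z.2 ∧ ∃ (X Y : ℝ → V) (B C' : ℝ), FPath T (rr (n + j)) B C' G u p X Y ∧
        X z.1 = z.2 ∧ ∀ t, |t - z.1| < rr (n + j) ^ 2 → ‖X t - z.2‖ ≤ rr n) →
      (S.card : ℝ) ≤ C * D * (2 ^ (n + j) * (1 + (n + j) / 8 ^ j))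

/-- The number of points whose paths at the scale `2⁻ʲ r` leave the ball. -/
def S_B2 : Prop := ∀ T E D : ℝ, ∃ (C : ℝ) (n₀ : ℕ), 0 < C ∧
  ∀ (G : Set ℝ) (u : ℝ → V → V) (p : ℝ → V → ℝ), Turb 1 T E D G u p →
    ∀ (n j : ℕ), n₀ ≤ n → ∀ S : Finset (ℝ × V),
      Sep (rr n) S → (∀ z ∈ S, 0 < z.1 - rr n ^ 2 ∧ z.1 + rr n ^ 2 < T ∧ z.2 ∈ cube ∧
        ∃ (X Y : ℝ → V) (B C' : ℝ), FPath T (rr (n + j)) B C' G u p X Y ∧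
          X z.1 = z.2 ∧ ∃ t, |t - z.1| < rr (n + j) ^ 2 ∧ rr n < ‖X t - z.2‖) →
        (S.card : ℝ) ≤ C * (2 ^ n + (2 : ℝ) ^ (-(20 / 3 : ℝ) * j) * (2 : ℝ) ^ ((5 / 3 : ℝ) * n))

/-- The final count, viscosity one. -/
def S_FIN1 : Prop := ∀ T E D a b : ℝ, 0 < a → b < T → ∃ C : ℝ, 0 < C ∧
  ∀ (G : Set ℝ) (u : ℝ → V → V) (p : ℝ → V → ℝ), Turb 1 T E D G u p →
    ∀ r : ℝ, 0 < r → r ≤ 1 → ∀ S : Finset (ℝ × V), Sep r S →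
      (∀ z ∈ S, z.1 ∈ Icc a b ∧ z.2 ∈ cube ∧ SingPt G u z.1 z.2) →
        (S.card : ℝ) ≤ C * r ^ (-(25 / 23) : ℝ)

/-- Scaling to viscosity one. -/
def S_WSCAL : Prop := ∀ (ν T E D : ℝ) (G : Set ℝ) (u : ℝ → V → V) (p : ℝ → V → ℝ), 0 < ν →
  Turb ν T E D G u p →
    Turb 1 (ν * T) (E / ν) (D / ν) {t | t / ν ∈ G} (fun t x => ν⁻¹ • u (t / ν) x)
      (fun t x => (ν ^ 2)⁻¹ * p (t / ν) x) ∧
    ∀ (t : ℝ) (x : V), SingPt G u t x →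
      SingPt {t | t / ν ∈ G} (fun t x => ν⁻¹ • u (t / ν) x) (ν * t) x

/-- The final count. -/
def S_FIN : Prop := ∀ ν T E D a b : ℝ, 0 < ν → 0 < a → b < T → ∃ C : ℝ, 0 < C ∧
  ∀ (G : Set ℝ) (u : ℝ → V → V) (p : ℝ → V → ℝ), Turb ν T E D G u p →
    ∀ r : ℝ, 0 < r → r ≤ 1 → ∀ S : Finset (ℝ × V), Sep r S →
      (∀ z ∈ S, z.1 ∈ Icc a b ∧ z.2 ∈ cube ∧ SingPt G u z.1 z.2) →
        (S.card : ℝ) ≤ C * r ^ (-(25 / 23) : ℝ)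

end Pool.Agent.Y8
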