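import Pool.Agent.Y8.Mov2
import Pool.Agent.Y8.Stm3

/-!
The modulus of continuity in time of the cross terms in the moving frame.
-/

open MeasureTheory Set Metric Filter Topology
open scoped ContDiff NNReal

namespace Pool.Agent.Y8

open H459R3.NS W221.NS

theorem prod_mod {a a' b b' A B δa δb : ℝ} (hA : |a| ≤ A) (hB : |b'| ≤ B) (ha : |a - a'| ≤ δa)
    (hb : |b - b'| ≤ δb) : |a * b - a' * b'| ≤ A * δb + B * δa := by
  have e : a * b - a' * b' = a * (b - b') + b' * (a - a') := by ring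
  rw [e]
  refine (abs_add_le _ _).trans ?_
  rw [abs_mul, abs_mul]
  have h1 := abs_nonneg a
  have h2 := abs_nonneg b'
  have h3 := abs_nonneg (a - a')
  have h4 := abs_nonneg (b - b')
  have : |a| * |b - b'| ≤ A * δb := mul_le_mul hA hb h4 (h1.trans hA)
  have : |b'| * |a - a'| ≤ B * δa := mul_le_mul hB ha h3 (h2.trans hB)
  linarith

/-- The cross terms. -/
noncomputable def cr (u : ℝ → V → V) (Ψ : ℝ → V → ℝ) (X Y : ℝ → V) (τ : ℝ) : ℝ :=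
  ∑ i, (-2 * (Y τ i * ∫ x, u τ x i * mv Ψ X τ x) + Y τ i ^ 2 * ∫ x, mv Ψ X τ x)

theorem cross_mod (hT : S_TCUT) {T E D r B C : ℝ} {G : Set ℝ} {u : ℝ → V → V} {p : ℝ → V → ℝ}
    (h : Turb 1 T E D G u p) {X Y : ℝ → V} (hP : FPath T r B C G u p X Y) {α β : ℝ}
    {Ψ : ℝ → V → ℝ}
    (hΨ : ContDiffOn ℝ ∞ (fun z : ℝ × V => Ψ z.1 z.2) (Ioo α β ×ˢ univ)) {R : ℝ}
    (hR : 0 < R) (hs : ∀ t ∈ Ioo α β, ∀ z ∉ ball (0 : V) R, Ψ t z = 0) {α₁ β₁ : ℝ}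
    (hα : α < α₁) (hβ : β₁ < β) (hα0 : 0 < α₁) (hβT : β₁ < T) :
    ∃ K : ℝ, ∀ σ ∈ G, σ ∈ Icc α₁ β₁ → ∀ τ ∈ G, τ ∈ Icc α₁ β₁ → σ ≤ τ →
      |cr u Ψ X Y τ - cr u Ψ X Y σ| ≤ K * ∫ t in Ioo σ τ, K1 G u p t := by
  rcases lt_or_ge β₁ α₁ with hlt | hle
  · exact ⟨0, fun σ _ hσ => absurd (hσ.1.trans hσ.2) (not_le.2 hlt)⟩
  have hα1T : α₁ ∈ Ioo 0 T := ⟨hα0, hle.trans_lt hβT⟩
  have hB0 : 0 ≤ B := (norm_nonneg _).trans (hP.bd α₁ hα1T)
  have hT0 : 0 < T := hα0.trans hα1T.2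
  obtain ⟨M, hM0, hM⟩ := tbd hΨ hR hs hα hβ
  obtain ⟨Cw, hCw, hw⟩ := wmod hT E R hR
  set R' : ℝ := R + B * T + 1 with hR'
  have hR'0 : 0 < R' := by positivity
  obtain ⟨Cb, hCb, hb⟩ := ball_le R'
  set L : ℝ := M * (1 + 3 * B) with hL
  have hL0 : 0 ≤ L := by positivity
  set W : ℝ := Cb * (1 + E ^ 2) with hW
  have hW0 : 0 ≤ W := by positivity
  have hsub : ∀ τ ∈ Icc α₁ β₁, τ ∈ Ioo α β ∧ τ ∈ Ioo 0 T := fun τ hτ =>
    ⟨⟨hα.trans_le hτ.1, hτ.2.trans_lt hβ⟩, ⟨hα0.trans_le hτ.1, hτ.2.trans_lt hβT⟩⟩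
  -- the moving test function
  have hmvb : ∀ τ ∈ Icc α₁ β₁, ∀ x, |mv Ψ X τ x| ≤ M := fun τ hτ x => (hM τ hτ _).1
  have hmvc : ∀ τ ∈ Icc α₁ β₁, ContDiff ℝ ∞ (mv Ψ X τ) := fun τ hτ =>
    (sl_sm hΨ (hsub τ hτ).1).comp (contDiff_id.sub contDiff_const)
  have hmvz : ∀ τ ∈ Icc α₁ β₁, ∀ x ∉ ball (X τ) R, mv Ψ X τ x = 0 := by
    intro τ hτ x hx
    refine hs τ (hsub τ hτ).1 _ fun h' => hx ?_
    rw [mem_ball, dist_eq_norm]
    rwa [mem_ball, dist_zero_right] at h'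
  have hXl : ∀ σ ∈ Icc α₁ β₁, ∀ τ ∈ Icc α₁ β₁, ‖X τ - X σ‖ ≤ B * |τ - σ| := by
    intro σ hσ τ hτ
    exact Convex.norm_image_sub_le_of_norm_hasDerivWithin_le (f := X) (s := Icc α₁ β₁)
      (C := B) (fun x hx => (hP.hd x (hsub x hx).2).hasDerivWithinAt)
      (fun x hx => hP.bd x (hsub x hx).2) (convex_Icc _ _) hσ hτ
  have hmvl : ∀ σ ∈ Icc α₁ β₁, ∀ τ ∈ Icc α₁ β₁, ∀ x,
      |mv Ψ X τ x - mv Ψ X σ x| ≤ L * |τ - σ| := by
    intro σ hσ τ hτ x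
    refine Convex.norm_image_sub_le_of_norm_hasDerivWithin_le (f := fun s => mv Ψ X s x)
      (f' := fun s => deriv (fun s' => Ψ s' (x - X s)) s - ∑ j, Y s j * pd j (Ψ s) (x - X s))
      (s := Icc α₁ β₁) (C := L) (fun s hs' => ?_) (fun s hs' => ?_) (convex_Icc _ _) hσ hτ
    · exact (mv_dt hΨ (hsub s hs').1 (hP.hd s (hsub s hs').2) x).hasDerivWithinAt
    · obtain ⟨-, m1, -, m3⟩ := hM s hs' (x - X s)
      rw [Real.norm_eq_abs]
      refine (abs_sub _ _).trans ?_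
      have ey : |∑ j, Y s j * pd j (Ψ s) (x - X s)| ≤ 3 * (B * M) := by
        refine (Finset.abs_sum_le_sum_abs _ _).trans ?_
        have h : ∀ j ∈ Finset.univ, |Y s j * pd j (Ψ s) (x - X s)| ≤ B * M := fun j _ => by
          rw [abs_mul]
          exact mul_le_mul ((norm_le_pi_norm (Y s) j).trans (hP.bd s (hsub s hs').2)) (m3 j)
            (abs_nonneg _) hB0
        refine (Finset.sum_le_sum h).trans ?_
        simp only [Finset.sum_const, Finset.card_univ, Fintype.card_fin, nsmul_eq_mul]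
        norm_num
      rw [hL]
      linarith
  have hz2 : ∀ σ ∈ Icc α₁ β₁, ∀ τ ∈ Icc α₁ β₁, ∀ x ∉ ball (X τ) R',
      mv Ψ X τ x = 0 ∧ mv Ψ X σ x = 0 := by
    intro σ hσ τ hτ x hx
    have hBT : 0 ≤ B * T := by positivity
    refine ⟨hmvz τ hτ x fun h' => hx (ball_subset_ball (by linarith) h'),
      hmvz σ hσ x fun h' => hx ?_⟩
    rw [mem_ball] at h' ⊢
    have h1 := dist_triangle x (X σ) (X τ)
    have h2 := hXl τ hτ σ hσ
    rw [← dist_eq_norm] at h2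
    have h3 : |σ - τ| ≤ T := by
      rw [abs_le]
      constructor <;> linarith [hσ.1, hσ.2, hτ.1, hτ.2]
    have h4 : B * |σ - τ| ≤ B * T := mul_le_mul_of_nonneg_left h3 hB0
    linarith
  -- weighted integrals
  have hwt : ∀ (f : V → ℝ) (τ : ℝ), τ ∈ G → Continuous f → (∀ x, |f x| ≤ 1 + nsq (u τ) x) →
      ∀ (g : V → ℝ) (c : ℝ), Continuous g → 0 ≤ c → (∀ x, |g x| ≤ c) → ∀ a : V,
        (∀ x ∉ ball a R', g x = 0) → |∫ x, f x * g x| ≤ c * W := by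
    intro f τ hτ hf hfb g c hg hc hgb a hga
    have hu := h.spv hτ
    have hnc := (nsq_sm hu.1).continuous
    rw [← ball_int_eq (a := a) (R := R') fun z hz => by rw [hga z hz, mul_zero]]
    have h1 : IntegrableOn (fun x => c * (1 + nsq (u τ) x)) (ball a R') :=
      ballint (continuous_const.mul (continuous_const.add hnc)) _ _
    refine (abs_int_le h1 (ae_of_all _ fun x => ?_)).trans ?_
    · rw [abs_mul, mul_comm c]
      exact mul_le_mul (hfb x) (hgb x) (abs_nonneg _) (by have := nsq_nn (u τ) x; linarith)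
    · rw [integral_const_mul]
      refine mul_le_mul_of_nonneg_left ?_ hc
      refine (hb (fun x => 1 + nsq (u τ) x) (continuous_const.add hnc)
        (fun i x => by show 1 + _ = 1 + _; rw [nsq_per hu.2 i x])
        (fun x => by have := nsq_nn (u τ) x; linarith) a).trans ?_
      rw [hW]
      refine mul_le_mul_of_nonneg_left ?_ hCb.le
      rw [integral_add (cube_int continuous_const) (cube_int hnc), ← energy_eq hu.1]
      have hvol : ∫ _ in cube, (1 : ℝ) = 1 := by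
        rw [setIntegral_const]
        have : (volume : Measure V).real cube = 1 := by
          unfold cube Measure.real
          rw [Real.volume_Icc_pi]
          simp
        rw [this]
        simp
      rw [hvol]
      have := h.energy_le τ hτ
      linarith
  have hub : ∀ τ ∈ G, ∀ i x, |u τ x i| ≤ 1 + nsq (u τ) x := by
    intro τ _ i x
    have := comp_sq_le (u τ) x i
    nlinarith [abs_nonneg (u τ x i), sq_abs (u τ x i), sq_nonneg (|u τ x i| - 1)]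
  have huc : ∀ τ ∈ G, ∀ i, Continuous fun x => u τ x i := fun τ hτ i =>
    (contDiff_pi.1 (h.spv hτ).1 i).continuous
  have hzR' : ∀ τ ∈ Icc α₁ β₁, ∀ x ∉ ball (X τ) R', mv Ψ X τ x = 0 := fun τ hτ x hx =>
    (hz2 τ hτ τ hτ x hx).1
  have hWb : ∀ τ ∈ G, τ ∈ Icc α₁ β₁ → ∀ i, |∫ x, u τ x i * mv Ψ X τ x| ≤ M * W :=
    fun τ hτG hτ i => hwt _ τ hτG (huc τ hτG i) (hub τ hτG i) _ M (hmvc τ hτ).continuous hM0
      (hmvb τ hτ) (X τ) (hzR' τ hτ)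
  have hmb : ∀ τ ∈ G, τ ∈ Icc α₁ β₁ → |∫ x, mv Ψ X τ x| ≤ M * W := by
    intro τ hτG hτ
    have := hwt (fun _ => 1) τ hτG continuous_const
      (fun x => by rw [abs_one]; have := nsq_nn (u τ) x; linarith) _ M (hmvc τ hτ).continuous hM0
      (hmvb τ hτ) (X τ) (hzR' τ hτ)
    simpa only [one_mul] using this
  have hK1 : ∀ σ ∈ Icc α₁ β₁, ∀ τ ∈ Icc α₁ β₁, σ ≤ τ → τ - σ ≤ ∫ t in Ioo σ τ, K1 G u p t :=
    fun σ hσ τ hτ hστ => K1_low h (hsub σ hσ).2.1.le hστ (hsub τ hτ).2.2.le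
  have hdm : ∀ σ ∈ G, σ ∈ Icc α₁ β₁ → ∀ τ ∈ G, τ ∈ Icc α₁ β₁ → σ ≤ τ →
      |(∫ x, mv Ψ X τ x) - ∫ x, mv Ψ X σ x| ≤ L * W * ∫ t in Ioo σ τ, K1 G u p t := by
    intro σ hσG hσ τ hτG hτ hστ
    rw [← integral_sub (int_csR (hmvc τ hτ).continuous (hmvz τ hτ))
      (int_csR (hmvc σ hσ).continuous (hmvz σ hσ))]
    have h1 := hwt (fun _ => 1) τ hτG continuous_const
      (fun x => by rw [abs_one]; have := nsq_nn (u τ) x; linarith)
      (fun x => mv Ψ X τ x - mv Ψ X σ x) (L * |τ - σ|)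
      ((hmvc τ hτ).continuous.sub (hmvc σ hσ).continuous) (by positivity)
      (hmvl σ hσ τ hτ) (X τ) fun x hx => by
        rw [(hz2 σ hσ τ hτ x hx).1, (hz2 σ hσ τ hτ x hx).2, sub_zero]
    simp only [one_mul] at h1
    refine h1.trans ?_
    rw [abs_of_nonneg (sub_nonneg.2 hστ)]
    have := hK1 σ hσ τ hτ hστ
    calc L * (τ - σ) * W = L * W * (τ - σ) := by ring
      _ ≤ _ := mul_le_mul_of_nonneg_left this (by positivity)
  have hdW : ∀ σ ∈ G, σ ∈ Icc α₁ β₁ → ∀ τ ∈ G, τ ∈ Icc α₁ β₁ → σ ≤ τ → ∀ i,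
      |(∫ x, u τ x i * mv Ψ X τ x) - ∫ x, u σ x i * mv Ψ X σ x|
        ≤ (L * W + Cw * M) * ∫ t in Ioo σ τ, K1 G u p t := by
    intro σ hσG hσ τ hτG hτ hστ i
    have i1 : Integrable fun x => u τ x i * mv Ψ X τ x :=
      int_csR ((huc τ hτG i).mul (hmvc τ hτ).continuous) (a := X τ) (R := R) fun z hz => by
        rw [hmvz τ hτ z hz, mul_zero]
    have i2 : Integrable fun x => u τ x i * mv Ψ X σ x :=
      int_csR ((huc τ hτG i).mul (hmvc σ hσ).continuous) (a := X σ) (R := R) fun z hz => by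
        rw [hmvz σ hσ z hz, mul_zero]
    have e1 : (∫ x, u τ x i * mv Ψ X τ x) - ∫ x, u σ x i * mv Ψ X σ x =
        (∫ x, u τ x i * (mv Ψ X τ x - mv Ψ X σ x)) +
          ((∫ x, u τ x i * mv Ψ X σ x) - ∫ x, u σ x i * mv Ψ X σ x) := by
      have : ∫ x, u τ x i * (mv Ψ X τ x - mv Ψ X σ x) =
          (∫ x, u τ x i * mv Ψ X τ x) - ∫ x, u τ x i * mv Ψ X σ x := by
        rw [← integral_sub i1 i2]
        congr 1
        funext x
        ring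
      rw [this]
      ring
    rw [e1]
    refine (abs_add_le _ _).trans ?_
    have h1 := hwt _ τ hτG (huc τ hτG i) (hub τ hτG i)
      (fun x => mv Ψ X τ x - mv Ψ X σ x) (L * |τ - σ|)
      ((hmvc τ hτ).continuous.sub (hmvc σ hσ).continuous) (by positivity)
      (hmvl σ hσ τ hτ) (X τ) fun x hx => by
        rw [(hz2 σ hσ τ hτ x hx).1, (hz2 σ hσ τ hτ x hx).2, sub_zero]
    have h2 : |(∫ x, u τ x i * mv Ψ X σ x) - ∫ x, u σ x i * mv Ψ X σ x| ≤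
        Cw * M * ∫ t in Ioo σ τ, K1 G u p t := by
      refine hw T D G u p h (X σ) M (mv Ψ X σ) hM0 (hmvc σ hσ) (hmvz σ hσ) (fun z => ?_)
        (fun z j => ?_) i σ hσG τ hτG hστ
      · have e : mv Ψ X σ = fun x => Ψ σ (x - X σ) := rfl
        rw [e, lap_shift (f := Ψ σ)]
        exact (hM σ hσ _).2.2.1
      · have e : mv Ψ X σ = fun x => Ψ σ (x - X σ) := rfl
        rw [e, pd_shift (f := Ψ σ)]
        exact (hM σ hσ _).2.2.2 j
    have h3 : L * |τ - σ| * W ≤ L * W * ∫ t in Ioo σ τ, K1 G u p t := by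
      rw [abs_of_nonneg (sub_nonneg.2 hστ)]
      have := hK1 σ hσ τ hτ hστ
      calc L * (τ - σ) * W = L * W * (τ - σ) := by ring
        _ ≤ _ := mul_le_mul_of_nonneg_left this (by positivity)
    have e2 : (L * W + Cw * M) * ∫ t in Ioo σ τ, K1 G u p t =
        L * W * (∫ t in Ioo σ τ, K1 G u p t) + Cw * M * ∫ t in Ioo σ τ, K1 G u p t := by ring
    rw [e2]
    linarith
  have hYb : ∀ τ ∈ Icc α₁ β₁, ∀ i, |Y τ i| ≤ B := fun τ hτ i =>
    (norm_le_pi_norm (Y τ) i).trans (hP.bd τ (hsub τ hτ).2)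
  have hdY : ∀ σ ∈ Icc α₁ β₁, ∀ τ ∈ Icc α₁ β₁, σ ≤ τ → ∀ i,
      |Y τ i - Y σ i| ≤ C * ∫ t in Ioo σ τ, K1 G u p t := fun σ hσ τ hτ hστ i =>
    (norm_le_pi_norm (Y τ - Y σ) i).trans (hP.md σ (hsub σ hσ).2 τ (hsub τ hτ).2 hστ)
  refine ⟨3 * (2 * (B * (L * W + Cw * M) + M * W * C) + (B ^ 2 * (L * W) + M * W * (2 * B * C))),
    fun σ hσG hσ τ hτG hτ hστ => ?_⟩
  set K := ∫ t in Ioo σ τ, K1 G u p t with hK
  have hK0 : 0 ≤ K := integral_nonneg fun t => K1_nn G u p t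
  have hC0 : 0 ≤ C * K := (abs_nonneg _).trans (hdY σ hσ τ hτ hστ 0)
  unfold cr
  rw [← Finset.sum_sub_distrib]
  refine (Finset.abs_sum_le_sum_abs _ _).trans ?_
  have hi : ∀ i ∈ Finset.univ, |-2 * (Y τ i * ∫ x, u τ x i * mv Ψ X τ x) +
      Y τ i ^ 2 * (∫ x, mv Ψ X τ x) - (-2 * (Y σ i * ∫ x, u σ x i * mv Ψ X σ x) +
      Y σ i ^ 2 * ∫ x, mv Ψ X σ x)| ≤ (2 * (B * (L * W + Cw * M) + M * W * C) +
        (B ^ 2 * (L * W) + M * W * (2 * B * C))) * K := by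
    intro i _
    have p1 := prod_mod (hYb τ hτ i) (hWb σ hσG hσ i) (hdY σ hσ τ hτ hστ i)
      (hdW σ hσG hσ τ hτG hτ hστ i)
    have q1 : |Y τ i ^ 2 - Y σ i ^ 2| ≤ 2 * B * C * K := by
      have := prod_mod (hYb τ hτ i) (hYb σ hσ i) (hdY σ hσ τ hτ hστ i) (hdY σ hσ τ hτ hστ i)
      rw [← sq, ← sq] at this
      linarith
    have q2 : |Y τ i ^ 2| ≤ B ^ 2 := by
      rw [abs_pow]
      exact pow_le_pow_left₀ (abs_nonneg _) (hYb τ hτ i) 2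
    have p2 := prod_mod q2 (hmb σ hσG hσ) q1 (hdm σ hσG hσ τ hτG hτ hστ)
    rw [← hK] at p1 p2
    have e : -2 * (Y τ i * ∫ x, u τ x i * mv Ψ X τ x) +
      Y τ i ^ 2 * (∫ x, mv Ψ X τ x) - (-2 * (Y σ i * ∫ x, u σ x i * mv Ψ X σ x) +
      Y σ i ^ 2 * ∫ x, mv Ψ X σ x) = -2 * (Y τ i * (∫ x, u τ x i * mv Ψ X τ x) -
        Y σ i * ∫ x, u σ x i * mv Ψ X σ x) + (Y τ i ^ 2 * (∫ x, mv Ψ X τ x) -
        Y σ i ^ 2 * ∫ x, mv Ψ X σ x) := by ring
    rw [e]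
    refine (abs_add_le _ _).trans ?_
    rw [abs_mul]
    have : |(-2 : ℝ)| = 2 := by norm_num
    rw [this]
    nlinarith
  refine (Finset.sum_le_sum hi).trans ?_
  simp only [Finset.sum_const, Finset.card_univ, Fintype.card_fin, nsmul_eq_mul]
  apply le_of_eq
  push_cast
  ring

end Pool.Agent.Y8
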