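import Pool.Agent.Y8.Cross

/-!
The moving frame of a weak solution is a weak local solution.
-/

open MeasureTheory Set Metric Filter Topology
open scoped ContDiff NNReal

namespace Pool.Agent.Y8

open H459R3.NS W221.NS

/-- Change of variables in an integral over the space. -/
theorem int_aff {r : ℝ} (hr : 0 < r) (a : V) (f : V → ℝ) :
    ∫ z, f (a + r • z) = (r ^ 3)⁻¹ * ∫ x, f x := by
  have h := Measure.integral_comp_smul (μ := (volume : Measure V)) (fun z : V => f (a + z)) r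
  have h3 : Module.finrank ℝ V = 3 := by simp [V]
  rw [h3, abs_of_pos (by positivity), smul_eq_mul, integral_add_left_eq_self] at h
  exact h

theorem FPath.yc {T r B C : ℝ} {G : Set ℝ} {u : ℝ → V → V} {p : ℝ → V → ℝ} {X Y : ℝ → V} {E D : ℝ}
    (h : Turb 1 T E D G u p) (hP : FPath T r B C G u p X Y) : ContinuousOn Y (Ioo 0 T) := by
  have hKc : Continuous fun t => ∫ τ in (0 : ℝ)..t, K1 G u p τ :=
    intervalIntegral.continuous_primitive (fun a b => (K1_int h).intervalIntegrable) 0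
  have key : ∀ a ∈ Ioo 0 T, ∀ b ∈ Ioo 0 T, a ≤ b → ‖Y b - Y a‖ ≤
      |C| * |(∫ τ in (0 : ℝ)..b, K1 G u p τ) - ∫ τ in (0 : ℝ)..a, K1 G u p τ| := by
    intro a ha b hb hab
    refine (hP.md a ha b hb hab).trans ?_
    rw [intervalIntegral.integral_interval_sub_left (K1_int h).intervalIntegrable
      (K1_int h).intervalIntegrable, intervalIntegral.integral_of_le hab,
      integral_Ioc_eq_integral_Ioo]
    have h0 : 0 ≤ ∫ τ in Ioo a b, K1 G u p τ := integral_nonneg fun τ => K1_nn G u p τ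
    rw [abs_of_nonneg h0]
    exact mul_le_mul_of_nonneg_right (le_abs_self _) h0
  rw [Metric.continuousOn_iff]
  intro t ht ε hε
  obtain ⟨δ, hδ, h6⟩ := Metric.continuous_iff.1 hKc t (ε / (|C| + 1)) (by positivity)
  refine ⟨δ, hδ, fun s hs hst => ?_⟩
  have h7 := h6 s hst
  rw [Real.dist_eq] at h7
  rw [dist_eq_norm]
  have hlt : |C| * (ε / (|C| + 1)) < ε := by
    rw [mul_div_assoc', div_lt_iff₀ (by positivity)]
    nlinarith [abs_nonneg C]
  rcases le_total s t with hle | hle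
  · have h8 := key s hs t ht hle
    rw [norm_sub_rev, abs_sub_comm] at h8
    calc ‖Y s - Y t‖ ≤ _ := h8
      _ ≤ |C| * (ε / (|C| + 1)) := by gcongr
      _ < ε := hlt
  · have h8 := key t ht s hs hle
    calc ‖Y s - Y t‖ ≤ _ := h8
      _ ≤ |C| * (ε / (|C| + 1)) := by gcongr
      _ < ε := hlt

theorem FPath.evD {T r B C : ℝ} {G : Set ℝ} {u : ℝ → V → V} {p : ℝ → V → ℝ} {X Y : ℝ → V}
    {E D : ℝ} (h : Turb 1 T E D G u p) (hP : FPath T r B C G u p X Y) {t : ℝ} (ht : t ∈ G) :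
    HasDerivAt X (mo r (u t) (X t)) t := by
  rw [← hP.ev t ht]
  exact hP.hd t (h.subG ht)

/-- The energy in the moving frame. -/
theorem en_frame {r : ℝ} (hr : 0 < r) {w : V → V} (hw : ContDiff ℝ ∞ w) {a y : V}
    {φ : V → ℝ} (hφ : Continuous φ) {R : ℝ} (hz : ∀ z ∉ ball (0 : V) R, φ z = 0)
    {v : V → V} (hv : ∀ z i, v z i = r * (w (a + r • z) i - y i)) :
    r * (∫ z, nsq v z * φ z) = (∫ x, nsq w x * φ (r⁻¹ • (x - a)))
      + ∑ i, (-2 * (y i * ∫ x, w x i * φ (r⁻¹ • (x - a)))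
        + y i ^ 2 * ∫ x, φ (r⁻¹ • (x - a))) := by
  have e1 : ∀ z, nsq v z * φ z = (fun x => r ^ 2 * ((nsq w x * φ (r⁻¹ • (x - a)))
      + ∑ i, (-2 * (y i * (w x i * φ (r⁻¹ • (x - a))))
        + y i ^ 2 * φ (r⁻¹ • (x - a))))) (a + r • z) := by
    intro z
    have e0 : r⁻¹ • (a + r • z - a) = z := by
      rw [add_sub_cancel_left, smul_smul, inv_mul_cancel₀ hr.ne', one_smul]
    simp only [e0]
    unfold nsq
    simp only [hv, Fin.sum_univ_three]
    ring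
  have hzz : ∀ x ∉ ball a (r * R), φ (r⁻¹ • (x - a)) = 0 := by
    intro x hx
    refine hz _ fun h' => hx ?_
    rw [mem_ball, dist_zero_right, norm_smul, Real.norm_eq_abs, abs_of_pos (inv_pos.2 hr),
      inv_mul_lt_iff₀ hr] at h'
    rwa [mem_ball, dist_eq_norm]
  have hφc : Continuous fun x : V => φ (r⁻¹ • (x - a)) := hφ.comp (by fun_prop)
  have hwc : ∀ i, Continuous fun x => w x i := fun i => (contDiff_pi.1 hw i).continuous
  have i0 : Integrable fun x => nsq w x * φ (r⁻¹ • (x - a)) :=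
    int_csR ((nsq_sm hw).continuous.mul hφc) (a := a) (R := r * R) fun x hx => by
      rw [hzz x hx, mul_zero]
  have i1 : ∀ i, Integrable fun x => w x i * φ (r⁻¹ • (x - a)) := fun i =>
    int_csR ((hwc i).mul hφc) (a := a) (R := r * R) fun x hx => by
      rw [hzz x hx, mul_zero]
  have i2 : Integrable fun x => φ (r⁻¹ • (x - a)) := int_csR hφc hzz
  have i3 : ∀ i, Integrable fun x => -2 * (y i * (w x i * φ (r⁻¹ • (x - a))))
      + y i ^ 2 * φ (r⁻¹ • (x - a)) := fun i =>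
    (((i1 i).const_mul _).const_mul _).add (i2.const_mul _)
  have i4 : Integrable fun x => ∑ i, (-2 * (y i * (w x i * φ (r⁻¹ • (x - a))))
      + y i ^ 2 * φ (r⁻¹ • (x - a))) := integrable_finsetSum _ fun i _ => i3 i
  simp_rw [e1]
  rw [int_aff hr a (fun x => r ^ 2 * ((nsq w x * φ (r⁻¹ • (x - a)))
      + ∑ i, (-2 * (y i * (w x i * φ (r⁻¹ • (x - a))))
        + y i ^ 2 * φ (r⁻¹ • (x - a))))), integral_const_mul,
    integral_add i0 i4, integral_finsetSum _ fun i _ => i3 i]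
  have e3 : ∀ i, ∫ x, (-2 * (y i * (w x i * φ (r⁻¹ • (x - a)))) + y i ^ 2 * φ (r⁻¹ • (x - a))) =
      -2 * (y i * ∫ x, w x i * φ (r⁻¹ • (x - a))) + y i ^ 2 * ∫ x, φ (r⁻¹ • (x - a)) := by
    intro i
    rw [integral_add (((i1 i).const_mul _).const_mul _) (i2.const_mul _), integral_const_mul,
      integral_const_mul, integral_const_mul]
  simp only [e3]
  have h5 : r * ((r ^ 3)⁻¹ * (r ^ 2)) = 1 := by field_simp
  rw [← mul_assoc ((r ^ 3)⁻¹), ← mul_assoc r, h5, one_mul]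

theorem t_WFRAME (hT : S_TCUT) (hA : S_ACX) (hW : S_WFO) : S_WFRAME := by
  intro T E D G u p h r s hr hrs hsT X Y B C hP
  have hr2 : 0 < r ^ 2 := by positivity
  set H : Set ℝ := {t | t ∈ Ioo (-1 : ℝ) 0 ∧ s + r ^ 2 * t ∈ G} with hH
  have hmap : ∀ t ∈ Ioo (-1 : ℝ) 0, s + r ^ 2 * t ∈ Ioo 0 T := by
    intro t ht
    constructor
    · nlinarith [ht.1]
    · nlinarith [ht.2]
  have hcont : Continuous fun t : ℝ => s + r ^ 2 * t := by fun_prop
  have hHo : IsOpen H := isOpen_Ioo.inter (h.openG.preimage hcont)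
  have hHG : ∀ t ∈ H, s + r ^ 2 * t ∈ G := fun t ht => ht.2
  have hXd : ∀ t ∈ G, HasDerivAt X (mo r (u t) (X t)) t := fun t ht => hP.evD h ht
  obtain ⟨hv, hq, hdiv, hmom⟩ := hW T E D G u p h r s hr X hP.sm hXd H hHG
  have hYder : ∀ τ ∈ G, ∀ i, deriv (fun τ => X τ i) τ = Y τ i := by
    intro τ hτ i
    have h1 := hP.hd τ (h.subG hτ)
    exact ((hasDerivAt_pi.1 h1) i).deriv
  have hvz : ∀ t ∈ H, ∀ z i, frv r s X u t z i =
      r * (u (s + r ^ 2 * t) (X (s + r ^ 2 * t) + r • z) i - Y (s + r ^ 2 * t) i) := by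
    intro t ht z i
    unfold frv
    rw [hYder _ ht.2 i]
  have hs0 : 0 < s := hr2.trans hrs
  have hB0 : 0 ≤ B := (norm_nonneg _).trans (hP.bd s ⟨hs0, hsT⟩)
  refine ⟨hHo, fun t ht => ht.1, ?_, hv, hq, ?_, ?_⟩
  · -- full measure
    have hsub : Ioo (-1 : ℝ) 0 \ H ⊆ (fun t : ℝ => s + r ^ 2 * t) ⁻¹' (Ioo 0 T \ G) := by
      intro t ht
      refine ⟨hmap t ht.1, fun hG => ht.2 ⟨ht.1, hG⟩⟩
    refine measure_mono_null hsub ?_
    have h1 : (fun t : ℝ => s + r ^ 2 * t) ⁻¹' (Ioo 0 T \ G) =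
        (fun t : ℝ => r ^ 2 * t) ⁻¹' ((fun t : ℝ => s + t) ⁻¹' (Ioo 0 T \ G)) := rfl
    rw [h1, Real.volume_preimage_mul_left hr2.ne', measure_preimage_add, h.fullG, mul_zero]
  · -- bound
    obtain ⟨Cb, hCb, hb⟩ := ball_le r
    refine ⟨(∫ _ in ball (0 : V) 1, (6 * r ^ 2 * B ^ 2)) +
      2 * r ^ 2 * ((r ^ 3)⁻¹ * (Cb * E ^ 2)), fun t ht => ?_⟩
    have hu := h.spv ht.2
    have hnc := (nsq_sm hu.1).continuous
    have e1 : ∀ z, nsq (frv r s X u t) z ≤ 6 * r ^ 2 * B ^ 2 +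
        2 * r ^ 2 * (fun x => nsq (u (s + r ^ 2 * t)) x) (X (s + r ^ 2 * t) + r • z) := by
      intro z
      unfold nsq
      simp only [hvz t ht, Fin.sum_univ_three]
      have hYi : ∀ i, Y (s + r ^ 2 * t) i ^ 2 ≤ B ^ 2 := fun i => by
        rw [← sq_abs]
        exact pow_le_pow_left₀ (abs_nonneg _) ((norm_le_pi_norm (Y (s + r ^ 2 * t)) i).trans
          (hP.bd _ (hmap t ht.1))) 2
      have key : ∀ a b : ℝ, (r * (a - b)) ^ 2 ≤ 2 * r ^ 2 * a ^ 2 + 2 * r ^ 2 * b ^ 2 := by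
        intro a b
        nlinarith [mul_nonneg hr2.le (sq_nonneg (a + b))]
      have k0 := key (u (s + r ^ 2 * t) (X (s + r ^ 2 * t) + r • z) 0) (Y (s + r ^ 2 * t) 0)
      have k1 := key (u (s + r ^ 2 * t) (X (s + r ^ 2 * t) + r • z) 1) (Y (s + r ^ 2 * t) 1)
      have k2 := key (u (s + r ^ 2 * t) (X (s + r ^ 2 * t) + r • z) 2) (Y (s + r ^ 2 * t) 2)
      have y0 := mul_le_mul_of_nonneg_left (hYi 0) hr2.le
      have y1 := mul_le_mul_of_nonneg_left (hYi 1) hr2.le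
      have y2 := mul_le_mul_of_nonneg_left (hYi 2) hr2.le
      nlinarith
    unfold A2
    have hc2 : Continuous fun z => nsq (u (s + r ^ 2 * t)) (X (s + r ^ 2 * t) + r • z) :=
      hnc.comp (by fun_prop)
    refine (setIntegral_mono (ballint (nsq_sm (sl_sm hv ht)).continuous _ _)
      (ballint (f := fun z => 6 * r ^ 2 * B ^ 2 + 2 * r ^ 2 *
        nsq (u (s + r ^ 2 * t)) (X (s + r ^ 2 * t) + r • z)) (by fun_prop) _ _) e1).trans ?_
    have j1 : IntegrableOn (fun z : V => 2 * r ^ 2 *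
        nsq (u (s + r ^ 2 * t)) (X (s + r ^ 2 * t) + r • z)) (ball (0 : V) 1) :=
      ballint (continuous_const.mul hc2) _ _
    have j2 : IntegrableOn (fun _ : V => 6 * r ^ 2 * B ^ 2) (ball (0 : V) 1) :=
      ballint continuous_const _ _
    have j3 : ∫ z in ball (0 : V) 1, 2 * r ^ 2 *
        nsq (u (s + r ^ 2 * t)) (X (s + r ^ 2 * t) + r • z) = 2 * r ^ 2 *
        ∫ z in ball (0 : V) 1, nsq (u (s + r ^ 2 * t)) (X (s + r ^ 2 * t) + r • z) :=
      integral_const_mul _ _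
    rw [integral_add j2 j1, j3]
    have h2 := Pool.Agent.W135.MD.int_ball_scale (fun x => nsq (u (s + r ^ 2 * t)) x)
      (X (s + r ^ 2 * t)) hr 1
    rw [mul_one] at h2
    rw [h2]
    refine add_le_add le_rfl ?_
    refine mul_le_mul_of_nonneg_left ?_ (by positivity)
    refine mul_le_mul_of_nonneg_left ?_ (by positivity)
    refine (hb _ hnc (nsq_per hu.2) (nsq_nn _) _).trans ?_
    rw [← energy_eq hu.1]
    exact mul_le_mul_of_nonneg_left (h.energy_le _ ht.2) hCb.le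
  · -- the energy inequality
    intro α β Φ hΦ hΦ0 s' hs' t' ht' hαs' hst' htβ' hpos
    -- the test function in the original variables
    set α' := s + r ^ 2 * α with hα'
    set β' := s + r ^ 2 * β with hβ'
    set Ψ : ℝ → V → ℝ := fun τ y => Φ ((r ^ 2)⁻¹ * (τ - s)) (r⁻¹ • y) with hΨd
    have hin : ∀ τ ∈ Ioo α' β', (r ^ 2)⁻¹ * (τ - s) ∈ Ioo α β := by
      intro τ hτ
      rw [hα', hβ'] at hτ
      constructor
      · rw [lt_inv_mul_iff₀ hr2]
        linarith [hτ.1]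
      · rw [inv_mul_lt_iff₀ hr2]
        linarith [hτ.2]
    have hΨ : ContDiffOn ℝ ∞ (fun z : ℝ × V => Ψ z.1 z.2) (Ioo α' β' ×ˢ univ) := by
      have h2 : ContDiff ℝ ∞ (fun z : ℝ × V => (((r ^ 2)⁻¹ * (z.1 - s), r⁻¹ • z.2) : ℝ × V)) := by
        fun_prop
      exact hΦ.comp h2.contDiffOn fun z hz => ⟨hin z.1 hz.1, mem_univ _⟩
    have hΨ0 : ∀ τ ∈ Ioo α' β', ∀ z ∉ ball (0 : V) r, Ψ τ z = 0 := by
      intro τ hτ z hz
      refine hΦ0 _ (hin τ hτ) _ fun h' => hz ?_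
      rw [mem_ball, dist_zero_right, norm_smul, Real.norm_eq_abs, abs_of_pos (inv_pos.2 hr),
        inv_mul_lt_iff₀ hr, mul_one] at h'
      rwa [mem_ball, dist_zero_right]
    set τ₁ := s + r ^ 2 * s' with hτ₁
    set τ₂ := s + r ^ 2 * t' with hτ₂
    have hτ₁G : τ₁ ∈ G := hs'.2
    have hτ₂G : τ₂ ∈ G := ht'.2
    have hle : τ₁ ≤ τ₂ := by
      rw [hτ₁, hτ₂]
      nlinarith
    have hα1 : α' < τ₁ := by
      rw [hτ₁, hα']
      nlinarith
    have hβ1 : τ₂ < β' := by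
      rw [hτ₂, hβ']
      nlinarith
    have hback : ∀ t, (r ^ 2)⁻¹ * (s + r ^ 2 * t - s) = t := by
      intro t
      rw [add_sub_cancel_left, ← mul_assoc, inv_mul_cancel₀ hr2.ne', one_mul]
    have hposΨ : ∀ τ ∈ Icc τ₁ τ₂, ∀ z, 0 ≤ Ψ τ z := by
      intro τ hτ z
      refine hpos _ ⟨?_, ?_⟩ _
      · rw [le_inv_mul_iff₀ hr2]
        have := hτ.1
        rw [hτ₁] at this
        linarith
      · rw [inv_mul_le_iff₀ hr2]
        have := hτ.2
        rw [hτ₂] at this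
        linarith
    obtain ⟨hI1, hE1⟩ := lei_mov hT h hΨ hr hΨ0 hP.hd (hP.yc h) hP.bd hτ₁G hτ₂G hα1 hle hβ1 hposΨ
    -- the two energies
    set Eu : ℝ → ℝ := fun τ => ∫ x, nsq (u τ) x * mv Ψ X τ x with hEu
    set Ev : ℝ → ℝ := fun t => ∫ z, nsq (frv r s X u t) z * Φ t z with hEv
    set G' : Set ℝ := G ∩ Ioo α' β' ∩ Ioo (s - r ^ 2) s with hG'
    have hG'o : IsOpen G' := (h.openG.inter isOpen_Ioo).inter isOpen_Ioo
    have hG'G : G' ⊆ G := fun τ hτ => hτ.1.1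
    have hG'ab : G' ⊆ Ioo α' β' := fun τ hτ => hτ.1.2
    have hτback : ∀ τ : ℝ, s + r ^ 2 * ((r ^ 2)⁻¹ * (τ - s)) = τ := by
      intro τ
      rw [← mul_assoc, mul_inv_cancel₀ hr2.ne', one_mul]
      ring
    have hG'H : ∀ τ ∈ G', (r ^ 2)⁻¹ * (τ - s) ∈ H := by
      intro τ hτ
      refine ⟨⟨?_, ?_⟩, ?_⟩
      · rw [lt_inv_mul_iff₀ hr2]
        linarith [hτ.2.1]
      · rw [inv_mul_lt_iff₀ hr2]
        linarith [hτ.2.2]
      · show s + r ^ 2 * ((r ^ 2)⁻¹ * (τ - s)) ∈ G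
        rw [hτback]
        exact hG'G hτ
    -- `X` is bounded
    obtain ⟨RX, hRX0, hRX⟩ : ∃ ρ : ℝ, 0 < ρ ∧ ∀ τ ∈ G', ∀ z ∉ ball (0 : V) ρ, mv Ψ X τ z = 0 := by
      refine ⟨‖X τ₁‖ + B * T + r + 1, by
        have : 0 < T := hs0.trans hsT
        positivity, fun τ hτ z hz => hΨ0 τ (hG'ab hτ) _ fun h' => hz ?_⟩
      rw [mem_ball, dist_zero_right] at h' ⊢
      have h1T := h.subG hτ₁G
      have h2T := h.subG (hG'G hτ)
      have h3 := Convex.norm_image_sub_le_of_norm_hasDerivWithin_le (f := X) (s := Ioo 0 T)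
        (C := B) (fun x hx => (hP.hd x hx).hasDerivWithinAt)
        (fun x hx => hP.bd x hx) (convex_Ioo _ _) h1T h2T
      have h4 : ‖τ - τ₁‖ ≤ T := by
        rw [Real.norm_eq_abs, abs_le]
        constructor <;> linarith [h1T.1, h1T.2, h2T.1, h2T.2]
      have h5 : B * ‖τ - τ₁‖ ≤ B * T := mul_le_mul_of_nonneg_left h4 hB0
      have h6 := norm_sub_norm_le (X τ) (X τ₁)
      have h7 := norm_sub_norm_le z (X τ)
      linarith
    have hmvs : ContDiffOn ℝ ∞ (fun z : ℝ × V => mv Ψ X z.1 z.2) (G' ×ˢ univ) := by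
      have h1 : ContDiffOn ℝ ∞ (fun z : ℝ × V => X z.1) (G' ×ˢ univ) :=
        hP.sm.comp contDiff_fst.contDiffOn fun z hz => hG'G hz.1
      have h2 : ContDiffOn ℝ ∞ (fun z : ℝ × V => ((z.1, z.2 - X z.1) : ℝ × V)) (G' ×ˢ univ) :=
        contDiff_fst.contDiffOn.prodMk (contDiff_snd.contDiffOn.sub h1)
      exact hΨ.comp h2 fun z hz => ⟨hG'ab hz.1, mem_univ _⟩
    have hum : ContDiffOn ℝ ∞ (fun z : ℝ × V => u z.1 z.2) (G' ×ˢ univ) :=
      h.smooth_u.mono (prod_mono hG'G subset_rfl)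
    have hpm : ContDiffOn ℝ ∞ (fun z : ℝ × V => p z.1 z.2) (G' ×ˢ univ) :=
      h.smooth_p.mono (prod_mono hG'G subset_rfl)
    have hdu : ∀ τ ∈ G', HasDerivAt Eu (DD 1 u p (mv Ψ X) τ) τ := fun τ hτ =>
      en_id hG'o hum hpm (fun t ht => h.divfree t (hG'G ht)) (fun t ht x i => by
        have := h.momentum t (hG'G ht) x i
        rw [one_mul] at this
        exact this) hmvs hRX0 hRX hτ
    have hJo : IsOpen (H ∩ Ioo α β) := hHo.inter isOpen_Ioo
    have hdv : ∀ t ∈ H ∩ Ioo α β, HasDerivAt Ev (DD 1 (frv r s X u) (frq r s X p) Φ t) t :=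
      fun t ht => en_id hJo (hv.mono (prod_mono inter_subset_left subset_rfl))
        (hq.mono (prod_mono inter_subset_left subset_rfl)) (fun t ht => hdiv t ht.1)
        (fun t ht => hmom t ht.1) (hΦ.mono (prod_mono inter_subset_right subset_rfl)) one_pos
        (fun t ht => hΦ0 t ht.2) ht
    -- the cross terms
    have hcr : ∀ τ ∈ G', r * Ev ((r ^ 2)⁻¹ * (τ - s)) = Eu τ + cr u Ψ X Y τ := by
      intro τ hτ
      have hτH := hG'H τ hτ
      have hΦc : Continuous (Φ ((r ^ 2)⁻¹ * (τ - s))) :=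
        (sl_sm hΦ (hin τ (hG'ab hτ))).continuous
      have h1 := en_frame (w := u τ) (a := X τ) (y := Y τ) hr (h.spv (hG'G hτ)).1 hΦc
        (hΦ0 _ (hin τ (hG'ab hτ))) (v := frv r s X u ((r ^ 2)⁻¹ * (τ - s))) (by
          intro z i
          rw [hvz _ hτH z i, hτback])
      exact h1
    -- a slightly larger interval
    have hτ₁I : τ₁ ∈ Ioo (s - r ^ 2) s := by
      rw [hτ₁]
      constructor
      · nlinarith [hs'.1.1]
      · nlinarith [hs'.1.2]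
    have hτ₂I : τ₂ ∈ Ioo (s - r ^ 2) s := by
      rw [hτ₂]
      constructor
      · nlinarith [ht'.1.1]
      · nlinarith [ht'.1.2]
    obtain ⟨α₁, ha1, ha2⟩ := exists_between (max_lt hα1 hτ₁I.1)
    obtain ⟨β₁, hb1, hb2⟩ := exists_between (lt_min hβ1 hτ₂I.2)
    have ha3 : α' < α₁ := (le_max_left _ _).trans_lt ha1
    have ha4 : s - r ^ 2 < α₁ := (le_max_right _ _).trans_lt ha1
    have hb3 : β₁ < β' := hb2.trans_le (min_le_left _ _)
    have hb4 : β₁ < s := hb2.trans_le (min_le_right _ _)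
    obtain ⟨K, hK⟩ := cross_mod hT h hP hΨ hr hΨ0 ha3 hb3 (by linarith) (by linarith)
    have hsubI : G ∩ Ioo α₁ β₁ ⊆ G' := fun τ hτ =>
      ⟨⟨hτ.1, ha3.trans hτ.2.1, hτ.2.2.trans hb3⟩, ha4.trans hτ.2.1, hτ.2.2.trans hb4⟩
    obtain ⟨F, hF1, -, hF3⟩ := hA α₁ β₁ (G ∩ Ioo α₁ β₁) (cr u Ψ X Y) (fun t => |K| * K1 G u p t)
      (by linarith) inter_subset_right ((K1_int h).integrableOn.const_mul _)
      (fun t => mul_nonneg (abs_nonneg _) (K1_nn G u p t)) (fun σ hσ τ hτ hστ => by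
        rw [integral_const_mul]
        refine (hK σ hσ.1 (Ioo_subset_Icc_self hσ.2) τ hτ.1 (Ioo_subset_Icc_self hτ.2) hστ).trans ?_
        exact mul_le_mul_of_nonneg_right (le_abs_self _)
          (integral_nonneg fun t => K1_nn G u p t))
    have hsubc : Icc τ₁ τ₂ ⊆ Icc α₁ β₁ := Icc_subset_Icc ha2.le hb1.le
    obtain ⟨hFi, hFe⟩ := ftc_mod ((K1_int h).const_mul |K|) hle
      (fun σ hσ τ hτ hστ => hF3 σ (hsubc hσ) τ (hsubc hτ) hστ)
    have hF₁ : F τ₁ = cr u Ψ X Y τ₁ := hF1 τ₁ ⟨hτ₁G, ha2, hle.trans_lt hb1⟩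
    have hF₂ : F τ₂ = cr u Ψ X Y τ₂ := hF1 τ₂ ⟨hτ₂G, ha2.trans_le hle, hb1⟩
    -- its derivative
    have hdF : ∀ τ ∈ G, τ ∈ Ioo τ₁ τ₂ → deriv F τ =
        r⁻¹ * DD 1 (frv r s X u) (frq r s X p) Φ ((r ^ 2)⁻¹ * (τ - s)) -
          DD 1 u p (mv Ψ X) τ := by
      intro τ hτG hτ
      have hτI : τ ∈ G ∩ Ioo α₁ β₁ := ⟨hτG, ha2.trans hτ.1, hτ.2.trans hb1⟩
      have hnear : F =ᶠ[𝓝 τ] fun τ => r * Ev ((r ^ 2)⁻¹ * (τ - s)) - Eu τ := by
        filter_upwards [(h.openG.inter isOpen_Ioo).mem_nhds hτI] with σ hσ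
        rw [hF1 σ hσ, hcr σ (hsubI hσ)]
        ring
      rw [hnear.deriv_eq]
      have hτ' := hsubI hτI
      have h1 := hdv ((r ^ 2)⁻¹ * (τ - s)) ⟨hG'H τ hτ', hin τ (hG'ab hτ')⟩
      have h2 : HasDerivAt (fun τ : ℝ => (r ^ 2)⁻¹ * (τ - s)) ((r ^ 2)⁻¹) τ := by
        simpa using ((hasDerivAt_id τ).sub_const s).const_mul ((r ^ 2)⁻¹)
      have h3 := ((h1.comp τ h2).const_mul r).sub (hdu τ hτ')
      have h4 := h3.deriv
      rw [show (fun τ => r * Ev ((r ^ 2)⁻¹ * (τ - s)) - Eu τ) =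
        (fun y => r * (Ev ∘ fun τ => (r ^ 2)⁻¹ * (τ - s)) y) - Eu from rfl, h4]
      field_simp
    -- the density
    have hae : ∀ᵐ τ ∂(volume.restrict (Ioo τ₁ τ₂)), τ ∈ G ∧ τ ∈ Ioo τ₁ τ₂ := by
      filter_upwards [aeT h (h.subG hτ₁G).1.le (h.subG hτ₂G).2.le,
        ae_restrict_mem measurableSet_Ioo] with τ h1 h2
      exact ⟨h1, h2⟩
    have hDu : ∀ τ ∈ G, τ ∈ Ioo τ₁ τ₂ → ∫ x, edx u p Ψ τ (X τ) (Y τ) x = DD 1 u p (mv Ψ X) τ := by
      intro τ hτG hτ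
      have hτ' : τ ∈ G' := hsubI ⟨hτG, ha2.trans hτ.1, hτ.2.trans hb1⟩
      rw [DD_eq 1 hG'o hum hpm hmvs hRX0 hRX hτ']
      congr 1
      funext x
      exact (ed_mv hΨ (hG'ab hτ') (hP.hd τ (h.subG hτG)) x).symm
    have hsum : ∀ᵐ τ ∂(volume.restrict (Ioo τ₁ τ₂)), deriv F τ +
        ∫ x, edx u p Ψ τ (X τ) (Y τ) x =
        r⁻¹ * DD 1 (frv r s X u) (frq r s X p) Φ ((r ^ 2)⁻¹ * (τ - s)) := by
      filter_upwards [hae] with τ hτ
      rw [hdF τ hτ.1 hτ.2, hDu τ hτ.1 hτ.2]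
      ring
    have hIv : IntegrableOn (fun τ => DD 1 (frv r s X u) (frq r s X p) Φ ((r ^ 2)⁻¹ * (τ - s)))
        (Ioo τ₁ τ₂) := by
      have h1 : IntegrableOn (fun τ => r * (deriv F τ + ∫ x, edx u p Ψ τ (X τ) (Y τ) x))
          (Ioo τ₁ τ₂) := (hFi.add hI1).const_mul r
      refine h1.congr ?_
      filter_upwards [hsum] with τ hτ
      rw [hτ, ← mul_assoc, mul_inv_cancel₀ hr.ne', one_mul]
    have hpre : (fun t : ℝ => s + r ^ 2 * t) ⁻¹' (Ioo τ₁ τ₂) = Ioo s' t' := by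
      ext t
      simp only [mem_preimage, mem_Ioo, hτ₁, hτ₂]
      constructor
      · rintro ⟨h1, h2⟩
        constructor <;> nlinarith
      · rintro ⟨h1, h2⟩
        constructor <;> nlinarith
    have hcomp : ∀ t, (Ioo τ₁ τ₂).indicator (fun τ => DD 1 (frv r s X u) (frq r s X p) Φ
        ((r ^ 2)⁻¹ * (τ - s))) (s + r ^ 2 * t) =
        (Ioo s' t').indicator (DD 1 (frv r s X u) (frq r s X p) Φ) t := by
      intro t
      by_cases ht : t ∈ Ioo s' t'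
      · have ht2 : s + r ^ 2 * t ∈ Ioo τ₁ τ₂ := by
          rw [← hpre] at ht
          exact ht
        rw [indicator_of_mem ht, indicator_of_mem ht2, hback]
      · have ht2 : s + r ^ 2 * t ∉ Ioo τ₁ τ₂ := by
          rw [← hpre] at ht
          exact ht
        rw [indicator_of_notMem ht, indicator_of_notMem ht2]
    have hInd : Integrable ((Ioo τ₁ τ₂).indicator (fun τ => DD 1 (frv r s X u) (frq r s X p) Φ
        ((r ^ 2)⁻¹ * (τ - s)))) := (integrable_indicator_iff measurableSet_Ioo).2 hIv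
    have hInt : Integrable ((Ioo s' t').indicator (DD 1 (frv r s X u) (frq r s X p) Φ)) := by
      have h1 := (hInd.comp_add_left s).comp_mul_left' hr2.ne'
      refine h1.congr (ae_of_all _ fun t => ?_)
      exact hcomp t
    refine ⟨(integrable_indicator_iff measurableSet_Ioo).1 hInt, ?_⟩
    have hchg : ∫ t in Ioo s' t', DD 1 (frv r s X u) (frq r s X p) Φ t =
        (r ^ 2)⁻¹ * ∫ τ in Ioo τ₁ τ₂, DD 1 (frv r s X u) (frq r s X p) Φ ((r ^ 2)⁻¹ * (τ - s)) := by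
      rw [← integral_indicator measurableSet_Ioo, ← integral_indicator measurableSet_Ioo]
      have h1 := Measure.integral_comp_mul_left (fun τ => (Ioo τ₁ τ₂).indicator
        (fun τ => DD 1 (frv r s X u) (frq r s X p) Φ ((r ^ 2)⁻¹ * (τ - s))) (s + τ)) (r ^ 2)
      rw [integral_add_left_eq_self (fun τ => (Ioo τ₁ τ₂).indicator
        (fun τ => DD 1 (frv r s X u) (frq r s X p) Φ ((r ^ 2)⁻¹ * (τ - s))) τ) s,
        abs_of_pos (by positivity), smul_eq_mul] at h1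
      rw [← h1]
      congr 1
      funext t
      exact (hcomp t).symm
    have hint : (∫ τ in Ioo τ₁ τ₂, deriv F τ) + ∫ τ in Ioo τ₁ τ₂, ∫ x, edx u p Ψ τ (X τ) (Y τ) x =
        r⁻¹ * ∫ τ in Ioo τ₁ τ₂, DD 1 (frv r s X u) (frq r s X p) Φ ((r ^ 2)⁻¹ * (τ - s)) := by
      rw [← integral_add hFi hI1, ← integral_const_mul]
      exact integral_congr_ae hsum
    have hτ₁G' : τ₁ ∈ G' := hsubI ⟨hτ₁G, ha2, hle.trans_lt hb1⟩
    have hτ₂G' : τ₂ ∈ G' := hsubI ⟨hτ₂G, ha2.trans_le hle, hb1⟩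
    have hv1 := hcr τ₁ hτ₁G'
    have hv2 := hcr τ₂ hτ₂G'
    rw [hτ₁, hback] at hv1
    rw [hτ₂, hback] at hv2
    rw [← hτ₁] at hv1
    rw [← hτ₂] at hv2
    rw [hF₁, hF₂] at hFe
    show Ev t' - Ev s' ≤ _
    have hfin : r * (Ev t' - Ev s') ≤
        r⁻¹ * ∫ τ in Ioo τ₁ τ₂, DD 1 (frv r s X u) (frq r s X p) Φ ((r ^ 2)⁻¹ * (τ - s)) := by
      rw [← hint, ← hFe]
      have hE1' : Eu τ₂ - Eu τ₁ ≤ ∫ τ in Ioo τ₁ τ₂, ∫ x, edx u p Ψ τ (X τ) (Y τ) x := hE1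
      nlinarith
    rw [hchg]
    have h5 : Ev t' - Ev s' = r⁻¹ * (r * (Ev t' - Ev s')) := by
      rw [← mul_assoc, inv_mul_cancel₀ hr.ne', one_mul]
    rw [h5]
    refine (mul_le_mul_of_nonneg_left hfin (by positivity)).trans (le_of_eq ?_)
    rw [← mul_assoc]
    congr 1
    field_simp

end Pool.Agent.Y8
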