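import Pool.Agent.Y8.Path

/-!
The local energy identity at a regular time.
-/

open MeasureTheory Set Metric Filter Topology
open scoped ContDiff NNReal

namespace Pool.Agent.Y8

open H459R3.NS W221.NS

section

variable {H : Set ℝ} {F : ℝ → V → ℝ} {a : V} {R : ℝ}

/-- Differentiation of an integral with respect to time. -/
theorem hd_int (hH : IsOpen H)
    (hF : ContDiffOn ℝ ∞ (fun z : ℝ × V => F z.1 z.2) (H ×ˢ univ))
    (hs : ∀ t ∈ H, ∀ z ∉ ball a R, F t z = 0) {t : ℝ} (ht : t ∈ H) :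
    HasDerivAt (fun s => ∫ x, F s x) (∫ x, deriv (fun s => F s x) t) t := by
  obtain ⟨α, β, hab, hsub0⟩ := nb hH ht
  obtain ⟨a', ha1, ha2⟩ := exists_between hab.1
  obtain ⟨b', hb1, hb2⟩ := exists_between hab.2
  have hK : IsCompact (Icc a' b' ×ˢ closedBall a R) :=
    isCompact_Icc.prod (isCompact_closedBall a R)
  have hsub' : ∀ s ∈ Icc a' b', s ∈ H := fun s hs =>
    hsub0 ⟨ha1.trans_le hs.1, hs.2.trans_lt hb2⟩
  have hsub : Icc a' b' ×ˢ closedBall a R ⊆ H ×ˢ (univ : Set V) :=
    prod_mono hsub' (subset_univ _)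
  obtain ⟨C, hC⟩ := hK.exists_bound_of_continuousOn ((dt_joint hH hF).continuousOn.mono hsub)
  have hnh : Icc a' b' ∈ 𝓝 t := Icc_mem_nhds ha2 hb1
  have key := (hasDerivAt_integral_of_dominated_loc_of_deriv_le (s := Icc a' b')
    (F := fun s x => F s x) (F' := fun s x => deriv (fun s => F s x) s)
    (bound := (closedBall a R).indicator fun _ => C) (μ := volume) hnh ?_ ?_ ?_ ?_ ?_ ?_).2
  · exact key
  · filter_upwards [hnh] with s hs
    exact (sl_sm hF (hsub' s hs)).continuous.aestronglyMeasurable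
  · exact int_csR (sl_sm hF ht).continuous (hs t ht)
  · exact (sl_ct (F := fun t x => deriv (fun s => F s x) t)
      (dt_joint hH hF).continuousOn ht).aestronglyMeasurable
  · refine Filter.Eventually.of_forall fun x s hs' => ?_
    by_cases hx : x ∈ closedBall a R
    · rw [indicator_of_mem hx]
      exact hC (s, x) ⟨hs', hx⟩
    · have hx' : x ∉ ball a R := fun h => hx (ball_subset_closedBall h)
      rw [indicator_of_notMem hx]
      change ‖deriv (fun s => F s x) s‖ ≤ 0
      rw [dt_zero' hH hs (hsub' s hs') hx', norm_zero]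
  · exact (integrable_indicator_iff measurableSet_closedBall).2
      (integrableOn_const (measure_closedBall_lt_top.ne))
  · refine Filter.Eventually.of_forall fun x s hs' => ?_
    exact dt_hd' hH hF (hsub' s hs') x

end

/-- The local energy identity at a regular time. -/
theorem en_id {H : Set ℝ} (hH : IsOpen H) {v : ℝ → V → V} {q : ℝ → V → ℝ}
    (hv : ContDiffOn ℝ ∞ (fun z : ℝ × V => v z.1 z.2) (H ×ˢ univ))
    (hq : ContDiffOn ℝ ∞ (fun z : ℝ × V => q z.1 z.2) (H ×ˢ univ))
    (hdiv : ∀ t ∈ H, ∀ x, ∑ i, pd i (fun y => v t y i) x = 0)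
    (hmom : ∀ t ∈ H, ∀ x i,
      deriv (fun s => v s x i) t + ∑ j, v t x j * pd j (fun y => v t y i) x
        = ∑ j, pd j (pd j (fun y => v t y i)) x - pd i (q t) x)
    {Φ : ℝ → V → ℝ} (hΦ : ContDiffOn ℝ ∞ (fun z : ℝ × V => Φ z.1 z.2) (H ×ˢ univ))
    {a : V} {R : ℝ} (hR : 0 < R) (hs : ∀ t ∈ H, ∀ z ∉ ball a R, Φ t z = 0) {t : ℝ} (ht : t ∈ H) :
    HasDerivAt (fun s => ∫ z, nsq (v s) z * Φ s z) (DD 1 v q Φ t) t := by
  have hvi := fun i => comp_joint hv i
  have hw : ∀ i, ContDiff ℝ ∞ (fun y => v t y i) := fun i =>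
    sl_sm (F := fun t y => v t y i) (hvi i) ht
  have hφ : ContDiff ℝ ∞ (Φ t) := sl_sm hΦ ht
  have hc : HasCompactSupport (Φ t) := hcsR (hs t ht)
  have hF : ContDiffOn ℝ ∞ (fun z : ℝ × V => nsq (v z.1) z.2 * Φ z.1 z.2) (H ×ˢ univ) :=
    (nsq_joint hv).mul hΦ
  have hFs : ∀ t ∈ H, ∀ z ∉ ball a R, nsq (v t) z * Φ t z = 0 := fun s hs' z hz => by
    rw [hs s hs' z hz, mul_zero]
  have h1 := hd_int (F := fun s z => nsq (v s) z * Φ s z) hH hF hFs ht
  refine h1.congr_deriv ?_
  rw [DD_eq 1 hH hv hq hΦ hR hs ht]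
  -- the integrand
  have hD : ∀ x, deriv (fun s => nsq (v s) x * Φ s x) t =
      (∑ i, 2 * v t x i * (∑ j, pd j (pd j (fun y => v t y i)) x - pd i (q t) x -
        ∑ j, v t x j * pd j (fun y => v t y i) x)) * Φ t x +
        nsq (v t) x * deriv (fun s => Φ s x) t := by
    intro x
    have d1 : ∀ i, HasDerivAt (fun s => v s x i) (∑ j, pd j (pd j (fun y => v t y i)) x -
        pd i (q t) x - ∑ j, v t x j * pd j (fun y => v t y i) x) t := by
      intro i
      have d := dt_hd' (F := fun t y => v t y i) hH (hvi i) ht x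
      have m := hmom t ht x i
      have e : ∑ j, pd j (pd j (fun y => v t y i)) x - pd i (q t) x -
          ∑ j, v t x j * pd j (fun y => v t y i) x = deriv (fun s => v s x i) t := by
        linarith
      rw [e]
      exact d
    have d2 : HasDerivAt (fun s => Φ s x) (deriv (fun s => Φ s x) t) t := dt_hd' hH hΦ ht x
    have d3 : HasDerivAt (fun s => nsq (v s) x) (∑ i, 2 * v t x i *
        (∑ j, pd j (pd j (fun y => v t y i)) x - pd i (q t) x -
        ∑ j, v t x j * pd j (fun y => v t y i) x)) t := by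
      unfold nsq
      refine HasDerivAt.fun_sum fun i _ => ?_
      refine ((d1 i).pow 2).congr_deriv ?_
      norm_num
    exact (d3.mul d2).deriv
  have hZ := Pool.Agent.W583.MD.Z_main (w := fun i y => v t y i) hw (sl_sm hq ht) hφ hc
  have hZ' : Pool.Agent.W583.MD.Z (fun x => deriv (fun s => nsq (v s) x * Φ s x) t -
      ed 1 v q Φ t x) := by
    have e : ∀ x, deriv (fun s => nsq (v s) x * Φ s x) t - ed 1 v q Φ t x = _ := fun x => by
      refine Eq.trans ?_ (Pool.Agent.W583.MD.point (w := fun i y => v t y i) hw (sl_sm hq ht) hφ x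
        (hdiv t ht x)).symm
      rw [hD x]
      simp only [ed, nsq, gsq, adv, lap]
      ring
    have e' := funext e
    rw [e']
    exact hZ
  have i2 : Integrable fun x => ed 1 v q Φ t x :=
    int_csR (sl_ct (ed_joint 1 hH hv hq hΦ).continuousOn ht) (a := a) (R := R)
      fun z hz => ed_zero 1 hH hΦ hR hs ht hz
  have h2 := integral_add hZ'.1 i2
  simp only [sub_add_cancel] at h2
  rw [hZ'.2, zero_add] at h2
  exact h2

end Pool.Agent.Y8
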