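import Pool.Agent.Y8.Stm4

/-!
Statements, fifth part: coverings by moving cylinders (helper8).
-/

open MeasureTheory Set Metric
open scoped ContDiff NNReal

namespace Pool.Agent.Y8

open H459R3.NS W221.NS

/-- A measure preserving family of paths which follow the mean velocity at the scale `r`, labelled
by the position at the time `t₀`. -/
structure WFl (T r B C : ℝ) (G : Set ℝ) (u : ℝ → V → V) (p : ℝ → V → ℝ) (t₀ : ℝ)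
    (X Y : ℝ → V → V) : Prop where
  lab : ∀ y, X t₀ y = y
  path : ∀ y, FPath T r B C G u p (fun t => X t y) (fun t => Y t y)
  cont : ContinuousOn (fun z : ℝ × V => X z.1 z.2) (Ioo 0 T ×ˢ univ)
  meas : ∀ t ∈ Ioo 0 T, Measure.map (X t) volume = volume

/-- Existence of the flow of the mean velocity. -/
def S_WFL : Prop := ∃ K : ℝ, 0 < K ∧ ∀ E r : ℝ, 0 < r → r ≤ 1 →
  ∃ C : ℝ, 0 < C ∧ ∀ (T D : ℝ) (G : Set ℝ) (u : ℝ → V → V) (p : ℝ → V → ℝ), Turb 1 T E D G u p →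
    ∀ t₀ ∈ Ioo 0 T, ∃ X Y : ℝ → V → V, WFl T r (K * |E| / √(r ^ 3) + 1) C G u p t₀ X Y

/-- A flow of a Lipschitz field which is free of divergence at a dense set of times preserves the
measure. -/
def S_MPRES : Prop := ∀ (T M : ℝ) (L : ℝ≥0) (G : Set ℝ) (U : ℝ → V → V), 0 < T → G ⊆ Ioo 0 T →
  Ioo 0 T ⊆ closure G →
  (∀ t ∈ G, ContDiff ℝ 1 (U t) ∧ ∀ x, ∑ i, pd i (fun y => U t y i) x = 0) →
  (∀ t ∈ Ioo 0 T, LipschitzWith L (U t) ∧ ∀ x, ‖U t x‖ ≤ M) →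
  (∀ t ∈ Ioo 0 T, ∀ δ > 0, ∃ η > 0, ∀ s ∈ Ioo 0 T, |s - t| < η → ∀ x, ‖U s x - U t x‖ ≤ δ) →
  ∀ (X : ℝ → V → V), ∀ t₀ ∈ Ioo 0 T, (∀ y, X t₀ y = y) →
    (∀ y, ∀ t ∈ Ioo 0 T, HasDerivAt (fun τ => X τ y) (U t (X t y)) t) →
      ∀ t ∈ Ioo 0 T, Measure.map (X t) volume = volume

/-- Markov's inequality in the space of labels. -/
def S_WMARK : Prop := ∃ C : ℝ, 0 < C ∧ ∀ (T E D : ℝ) (G : Set ℝ) (u : ℝ → V → V)
  (p : ℝ → V → ℝ), Turb 1 T E D G u p → ∀ (m : ℕ) (s t₀ : ℝ), rr m ^ 2 < s → s < T →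
    t₀ ∈ Icc (s - rr m ^ 2) s → ∀ (X Y : ℝ → V → V) (B C' : ℝ), 0 ≤ B →
      WFl T (rr m) B C' G u p t₀ X Y → ∀ R ε : ℝ, 0 ≤ R → 0 < ε →
        volume {y ∈ ball (0 : V) R | ε ≤ ∫ t in Ioo (-1 : ℝ) 0,
            FF m (u (s + rr m ^ 2 * t)) (X (s + rr m ^ 2 * t) y)}
          ≤ ENNReal.ofReal (C * (R + B * rr m ^ 2 + 1) ^ 3 * ((m + 1) / 4 ^ m)
            * (∫ t in Ioo (s - rr m ^ 2) s, enstrophy (u t)) / ε)

/-- A small set of points which hits all sets of a finite family. -/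
def S_GRDY : Prop := ∀ (ι : Type) (F : Finset ι) (L : ι → Set V) (A : Set V) (a v : ℝ), 0 < v →
  volume A ≤ ENNReal.ofReal a →
  (∀ i ∈ F, L i ⊆ A ∧ MeasurableSet (L i) ∧ ENNReal.ofReal v ≤ volume (L i)) →
    ∃ Z : Finset V, (∀ i ∈ F, ∃ y ∈ Z, y ∈ L i) ∧
      (F.Nonempty → (Z.card : ℝ) ≤ 1 + a / v * Real.log F.card)

/-- The singular points in a short time interval are covered by few moving balls. -/
def S_LCOV : Prop := ∀ E : ℝ, ∃ C : ℝ, 0 < C ∧ ∀ (T D : ℝ) (G : Set ℝ) (u : ℝ → V → V)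
  (p : ℝ → V → ℝ), Turb 1 T E D G u p → ∀ (m : ℕ) (s : ℝ), 4 ≤ m → rr m ^ 2 < s → s < T →
    ∃ (n : ℕ) (Z : Fin n → ℝ → V),
      (∀ i, ∃ (Y : ℝ → V) (B C' : ℝ), FPath T (rr m) B C' G u p (Z i) Y) ∧
      (∀ t ∈ Ioo (s - rr m ^ 2 / 16) s, ∀ x ∈ cube, SingPt G u t x → ∃ i, ‖Z i t - x‖ < rr m / 4) ∧
      n * rr m ≤ C * (m + 1) ^ 2 * ∫ t in Ioo (s - rr m ^ 2) s, enstrophy (u t)

end Pool.Agent.Y8
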