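import Pool.Agent.W505.ME.GREEN
import Pool.Agent.W505.ME.DEC
import Pool.Agent.W505.ME.TSM
import Pool.Agent.W22.ME.TD
import Pool.Agent.W240.ME.DECT
import Pool.Agent.W108.ME.WB
import Pool.Agent.W356.ME.CUT2
import Pool.Agent.W356.ME.TF2
import Pool.Agent.W605.ME.PK1b
import Pool.Agent.W699.ME.PK2
import Pool.Agent.W930.ME.TSUMG
import Pool.Agent.W440.MD.SOB
import Pool.Agent.W790.MD.L4
import Pool.Agent.W12.MD.POINC
import Pool.Agent.W395.MD.UNIT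
import Pool.Agent.W12.MD.GROW
import Pool.Agent.W12.MD.RIESZ0
import Pool.Agent.W215.MD.Riesz
import Pool.Agent.W12.MD.HARM0
import Pool.Agent.W346.MD.HARM
import Pool.Agent.W346.MD.TSUM
import Pool.Agent.Y203.NS.WBASE2
import Pool.Agent.Y203.NS.WLOC2
import Pool.Agent.Y203.NS.WPATH2
import Pool.Agent.Y248.NS.EN2H
import Pool.Agent.Y274.MPRES
import Pool.Agent.Y458.NS.HY
import Pool.Agent.Y494.NS.ACX
import Pool.Agent.Y494.NS.TCUT
import Pool.Agent.Y496.NS.WFR2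
import Pool.Agent.Y535.NS.WFO
import Pool.Agent.Y574.NS.Crit3
import Pool.Agent.Y574.NS.WMark3
import Pool.Agent.Y577.NS.TSMH
import Pool.Agent.Y577.NS.WEN
import Pool.Agent.Y784.NS8.FLD
import Pool.Agent.Y784.NS8.KAP
import Pool.Agent.Y789.NS.WFL
import Pool.Agent.Y807.WStep2
import Pool.Agent.Y46.NS.Slow

/-!
Assembly: the local theory without pressure, the criterion, the slow points (helper8).
-/

open MeasureTheory Set Metric
open scoped ContDiff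

namespace Pool.Agent.Y8.B

open H459R3.NS W221.NS

theorem p_sob : S_SOB := Pool.Agent.W440.MD.t_SOB
theorem p_l4 : S_L4 := Pool.Agent.W790.MD.t_L4 p_sob
theorem p_poinc : S_POINC := Pool.Agent.W12.MD.t_POINC
theorem p_unit : S_UNIT := Pool.Agent.W395.MD.t_UNIT p_poinc p_sob
theorem p_grow : S_GROW := Pool.Agent.W12.MD.t_GROW p_poinc p_sob
theorem p_riesz0 : S_RIESZ0 := Pool.Agent.W12.MD.R0.t_RIESZ0
theorem p_riesz : S_RIESZ := Pool.Agent.W215.MD.t_RIESZ p_riesz0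
theorem p_harm0 : S_HARM0 := Pool.Agent.W12.MD.t_HARM0
theorem p_harm : S_HARM := Pool.Agent.W346.MD.t_HARM p_harm0
theorem p_tsum : S_TSUM := Pool.Agent.W346.MD.t_TSUM
theorem p_green : S_GREEN := Pool.Agent.W505.ME.G.t_GREEN
theorem p_dec : S_DEC := Pool.Agent.W505.ME.DEC.t_DEC p_harm
theorem p_td : S_TD := Pool.Agent.W22.ME.TD.t_TD p_harm
theorem p_dect : S_DECT := Pool.Agent.W240.ME.t_DECT p_td p_harm
theorem p_tsm : S_TSM := Pool.Agent.W505.ME.TSM.t_TSM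
theorem p_wb : S_WB := Pool.Agent.W108.ME.t_WB p_poinc p_unit
theorem p_cut2 : S_CUT2 := W356.ME.t_CUT2 p_wb
theorem p_tf2 : S_TF2 := W356.ME.t_TF2
theorem p_pk1b : S_PK1b := W605.ME.PK1b.t_PK1b p_harm
theorem p_pk2 : S_PK2 := Pool.Agent.W699.ME.t_PK2 p_riesz p_harm p_wb p_pk1b
theorem p_tsumg : S_TSUMG := Pool.Agent.W930.ME.t_TSUMG
theorem p_tcut : S_TCUT := Pool.Agent.Y494.NS.t_TCUT
theorem p_acx : S_ACX := Pool.Agent.Y494.NS.t_ACX
theorem p_tsmh : S_TSMH := Pool.Agent.Y577.NS.t_TSMH p_tsm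
theorem p_kap : S_KAP := Pool.Agent.Y784.NS8.t_KAP
theorem p_fld : S_FLD := Pool.Agent.Y784.NS8.t_FLD p_kap p_acx
theorem p_wen : S_WEN := Pool.Agent.Y577.NS.t_WEN p_acx
theorem p_whyp : S_WHYP := Pool.Agent.Y458.NS.HY.t_WHYP p_tsmh p_dec p_dect p_grow p_fld p_wen
theorem p_en2h : S_EN2H := Pool.Agent.Y248.NS.t_EN2H
theorem p_wbase2 : S_WBASE2 := Pool.Agent.Y203.NS.WBASE2.t_WBASE2 p_en2h p_cut2 p_wb
theorem p_wpath2 : S_WPATH2 := Pool.Agent.Y203.NS.WPATH2.t_WPATH2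
theorem p_wstep2 : S_WSTEP2 :=
  Pool.Agent.Y807.WStep2.t_WSTEP2 p_tf2 p_en2h p_pk2 p_l4 p_tsum p_tsumg p_wb
theorem p_wloc2 : S_WLOC2 := Pool.Agent.Y203.NS.WLOC2.t_WLOC2 p_wbase2 p_wstep2 p_wpath2 p_wb
theorem p_wlocal : S_WLOCAL := Pool.Agent.Y203.NS.WLOC2.t_WLOCAL p_green p_whyp p_wloc2 p_dec
theorem p_wfo : S_WFO := Pool.Agent.Y535.WFO.t_WFO
theorem p_wfr2 : S_WFR2 := Pool.Agent.Y496.NS.WFR2.t_WFR2 p_tcut p_acx p_wfo
theorem p_crit3 : S_CRIT3 := Pool.Agent.Y574.NS.t_CRIT3 p_wfr2 p_wlocal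
theorem p_wmark3 : S_WMARK3 := Pool.Agent.Y574.NS.t_WMARK3
theorem p_mpres : S_MPRES := Pool.Agent.Y274.MPRES.t_MPRES
theorem p_wfl : S_WFL := Pool.Agent.Y789.NS.t_WFL p_tcut p_acx p_mpres
theorem p_slow : S_SLOW := Pool.Agent.Y46.NS.t_SLOW p_crit3 p_wmark3

end Pool.Agent.Y8.B
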