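import Pool.Agent.Y8.Asm2
import Pool.Agent.TH305.LG.Peri0

/-!
Uniqueness of the paths of the mean velocity through a point, and periodicity of the flow
(helper8).
-/

set_option autoImplicit false

open MeasureTheory Set Metric Filter Topology
open scoped ContDiff NNReal

namespace Pool.Agent.Y8.WE

open H459R3.NS W221.NS Pool.Agent.Y8 Pool.Agent.W349.MF Pool.Agent.TH305.LG

/-- the velocity of a path is continuous -/
theorem path_cont {T E D r B C : ℝ} {G : Set ℝ} {u : ℝ → V → V} {p : ℝ → V → ℝ}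
    (hT : 0 < T) (h : Turb 1 T E D G u p) {X Y : ℝ → V} (hP : FPath T r B C G u p X Y) :
    ContinuousOn Y (Ioo 0 T) := by
  have hKc : Continuous fun t => ∫ τ in (0 : ℝ)..t, K1 G u p τ :=
    intervalIntegral.continuous_primitive (fun a b => (K1_int h).intervalIntegrable) 0
  have key : ∀ a ∈ Ioo 0 T, ∀ b ∈ Ioo 0 T, a ≤ b → ‖Y b - Y a‖ ≤
      (|C| + 1) * |(∫ τ in (0 : ℝ)..b, K1 G u p τ) - ∫ τ in (0 : ℝ)..a, K1 G u p τ| := by
    intro a ha b hb hab
    refine (hP.md a ha b hb hab).trans ?_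
    rw [intervalIntegral.integral_interval_sub_left (K1_int h).intervalIntegrable
      (K1_int h).intervalIntegrable, intervalIntegral.integral_of_le hab,
      integral_Ioc_eq_integral_Ioo]
    have h1 := le_abs_self (C * ∫ τ in Ioo a b, K1 G u p τ)
    rw [abs_mul] at h1
    have h2 := abs_nonneg (∫ τ in Ioo a b, K1 G u p τ)
    nlinarith
  rw [Metric.continuousOn_iff]
  intro t ht ε hε
  obtain ⟨δ, hδ, h6⟩ := Metric.continuous_iff.1 hKc t (ε / (2 * (|C| + 1))) (by positivity)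
  refine ⟨δ, hδ, fun s hs hst => ?_⟩
  have h7 := h6 s hst
  rw [Real.dist_eq] at h7
  rw [dist_eq_norm]
  have e1 : (0 : ℝ) < |C| + 1 := by positivity
  have e2 : (|C| + 1) * (ε / (2 * (|C| + 1))) = ε / 2 := by field_simp
  rcases le_total s t with hle | hle
  · have h8 := key s hs t ht hle
    rw [norm_sub_rev, abs_sub_comm] at h8
    have h9 := mul_le_mul_of_nonneg_left h7.le e1.le
    linarith
  · have h8 := key t ht s hs hle
    have h9 := mul_le_mul_of_nonneg_left h7.le e1.le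
    linarith

/-- the velocity of a path is the extended mean velocity at all times -/
theorem path_ode {T E D r B C : ℝ} {G : Set ℝ} {u : ℝ → V → V} {p : ℝ → V → ℝ}
    (hT : 0 < T) (h : Turb 1 T E D G u p) {Mh : ℝ → V → V} {C' : ℝ} {L : ℝ≥0} (hC' : 0 < C')
    (h1 : ∀ t ∈ G, Mh t = mo r (u t))
    (h2 : ∀ s ∈ Icc 0 T, ∀ t ∈ Icc 0 T, s ≤ t → ∀ x, ‖Mh t x - Mh s x‖
      ≤ C' * ∫ τ in Ioo s t, K1 G u p τ)
    (h3 : ∀ t ∈ Icc 0 T, LipschitzWith L (Mh t))
    {X Y : ℝ → V} (hP : FPath T r B C G u p X Y) : ∀ t ∈ Ioo 0 T, Y t = Mh t (X t) := by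
  have hY := path_cont hT h hP
  have hX : ContinuousOn X (Ioo 0 T) := fun t ht => (hP.hd t ht).continuousAt.continuousWithinAt
  have hKc : Continuous fun t => ∫ τ in (0 : ℝ)..t, K1 G u p τ :=
    intervalIntegral.continuous_primitive (fun a b => (K1_int h).intervalIntegrable) 0
  have key : ∀ a ∈ Icc 0 T, ∀ b ∈ Icc 0 T, a ≤ b → ∀ x, ‖Mh b x - Mh a x‖ ≤
      C' * |(∫ τ in (0 : ℝ)..b, K1 G u p τ) - ∫ τ in (0 : ℝ)..a, K1 G u p τ| := by
    intro a ha b hb hab x
    refine (h2 a ha b hb hab x).trans ?_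
    rw [intervalIntegral.integral_interval_sub_left (K1_int h).intervalIntegrable
      (K1_int h).intervalIntegrable, intervalIntegral.integral_of_le hab,
      integral_Ioc_eq_integral_Ioo]
    exact mul_le_mul_of_nonneg_left (le_abs_self _) hC'.le
  have hM : ContinuousOn (fun t => Mh t (X t)) (Ioo 0 T) := by
    rw [Metric.continuousOn_iff]
    intro t ht ε hε
    obtain ⟨δ, hδ, h6⟩ := Metric.continuous_iff.1 hKc t (ε / (4 * C')) (by positivity)
    obtain ⟨δ', hδ', h8⟩ := (Metric.continuousOn_iff.1 hX) t ht (ε / (4 * (L + 1))) (by positivity)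
    refine ⟨min δ δ', lt_min hδ hδ', fun s hs hst => ?_⟩
    have h7 := h6 s (lt_of_lt_of_le hst (min_le_left _ _))
    have h9 := h8 s hs (lt_of_lt_of_le hst (min_le_right _ _))
    rw [Real.dist_eq] at h7
    have e1 : C' * (ε / (4 * C')) = ε / 4 := by field_simp
    have e2 : ((L : ℝ) + 1) * (ε / (4 * (L + 1))) = ε / 4 := by
      have : (L : ℝ) + 1 ≠ 0 := by positivity
      field_simp
    have e3 : ‖Mh s (X t) - Mh t (X t)‖ ≤ ε / 4 := by
      rcases le_total s t with hle | hle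
      · have h10 := key s (Ioo_subset_Icc_self hs) t (Ioo_subset_Icc_self ht) hle (X t)
        rw [norm_sub_rev, abs_sub_comm] at h10
        exact h10.trans (by rw [← e1]; exact mul_le_mul_of_nonneg_left h7.le hC'.le)
      · have h10 := key t (Ioo_subset_Icc_self ht) s (Ioo_subset_Icc_self hs) hle (X t)
        exact h10.trans (by rw [← e1]; exact mul_le_mul_of_nonneg_left h7.le hC'.le)
    have e4 : ‖Mh s (X s) - Mh s (X t)‖ ≤ ε / 4 := by
      have h10 := (h3 s (Ioo_subset_Icc_self hs)).dist_le_mul (X s) (X t)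
      rw [dist_eq_norm] at h10
      refine h10.trans ?_
      rw [← e2]
      have h11 : (0 : ℝ) ≤ L := L.2
      have h12 := h9.le
      have h13 : 0 ≤ dist (X s) (X t) := dist_nonneg
      nlinarith
    rw [dist_eq_norm]
    have e5 : Mh s (X s) - Mh t (X t) = (Mh s (X s) - Mh s (X t)) + (Mh s (X t) - Mh t (X t)) := by
      abel
    rw [e5]
    refine (norm_add_le _ _).trans_lt ?_
    linarith
  have hd := dense_G hT h.fullG
  intro t ht
  have hg : EqOn Y (fun t => Mh t (X t)) (Ioo 0 T ∩ G) := by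
    intro s hs
    simp only
    rw [hP.ev s hs.2, h1 s hs.2]
  have hcl : Ioo 0 T ⊆ closure (Ioo 0 T ∩ G) := Ioo_subset_Icc_self.trans hd
  exact (hg.of_subset_closure hY hM inter_subset_left hcl) ht

/-- Uniqueness of the path through a point. -/
theorem path_unique {T E D r B C B' C' : ℝ} {G : Set ℝ} {u : ℝ → V → V} {p : ℝ → V → ℝ}
    (h : Turb 1 T E D G u p) (hr : 0 < r) (hr1 : r ≤ 1) {X Y X' Y' : ℝ → V}
    (hP : FPath T r B C G u p X Y) (hP' : FPath T r B' C' G u p X' Y') {t₁ : ℝ}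
    (ht₁ : t₁ ∈ Ioo 0 T) (he : X t₁ = X' t₁) : ∀ t ∈ Ioo 0 T, X t = X' t := by
  obtain ⟨K, hK, hM⟩ := Mh_ex Pool.Agent.Y8.B.p_tcut Pool.Agent.Y8.B.p_acx
  obtain ⟨Cm, L, hC, hM⟩ := hM E r hr hr1
  have hT : 0 < T := ht₁.1.trans ht₁.2
  obtain ⟨Mh, h1, h2, h3, h4⟩ := hM T D G u p hT h
  have hY := path_ode hT h hC h1 h2 h3 hP
  have hY' := path_ode hT h hC h1 h2 h3 hP'
  have huniq := ODE_solution_unique_of_mem_Ioo (v := Mh) (s := fun _ => univ) (K := L)
    (f := X) (g := X') (t₀ := t₁) (a := 0) (b := T)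
    (fun t ht => (h3 t (Ioo_subset_Icc_self ht)).lipschitzOnWith) ht₁
    (fun t ht => ⟨by rw [← hY t ht]; exact hP.hd t ht, mem_univ _⟩)
    (fun t ht => ⟨by rw [← hY' t ht]; exact hP'.hd t ht, mem_univ _⟩) he
  exact fun t ht => huniq ht

theorem mo_per {w : V → V} (hw : Per w) (r : ℝ) (n : K3) (x : V) :
    mo r w (x - iv n) = mo r w x := by
  funext i
  show ∫ y, th y * w (x - iv n + r • y) i = ∫ y, th y * w (x + r • y) i
  congr 1
  funext y
  rw [show x - iv n + r • y = (x + r • y) - iv n by abel, per_iv' hw n]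

/-- Translation of a path by a period. -/
theorem path_shift {T E D r B C : ℝ} {G : Set ℝ} {u : ℝ → V → V} {p : ℝ → V → ℝ}
    (h : Turb 1 T E D G u p) {X Y : ℝ → V} (hP : FPath T r B C G u p X Y) (n : K3) :
    FPath T r B C G u p (fun t => X t - iv n) Y :=
  { hd := fun t ht => (hP.hd t ht).sub_const _
    ev := fun t ht => by rw [mo_per (h.per_u t ht) r n]; exact hP.ev t ht
    bd := hP.bd
    md := hP.md
    sm := hP.sm.sub contDiffOn_const }

/-- The flow is equivariant. -/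
theorem flow_per {T E D r B C t₀ : ℝ} {G : Set ℝ} {u : ℝ → V → V} {p : ℝ → V → ℝ}
    (h : Turb 1 T E D G u p) (hr : 0 < r) (hr1 : r ≤ 1) (ht₀ : t₀ ∈ Ioo 0 T) {X Y : ℝ → V → V}
    (hX : WFl T r B C G u p t₀ X Y) (n : K3) : ∀ t ∈ Ioo 0 T, ∀ x,
      X t (x - iv n) = X t x - iv n := by
  intro t ht x
  have h1 := hX.path (x - iv n)
  have h2 := path_shift h (hX.path x) n
  refine path_unique h hr hr1 h1 h2 ht₀ ?_ t ht
  rw [hX.lab, hX.lab]

end Pool.Agent.Y8.WE
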