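import Pool.Agent.Y7.WStm
import Pool.Agent.Y8.WEn5
import Pool.Agent.Y8.WEqv

/-! The two pieces for helper7: the energy step and the equivariance of the flow (helper8). -/

set_option autoImplicit false

namespace Pool.Agent.Y8

open Pool.Agent.Y7

theorem t_WEN4 : S_WEN4 := W4.wen4

theorem t_WEQV : S_WEQV := fun _ _ _ _ _ _ h _ _ _ _ _ _ hr hr1 ht₀ hX t ht x n =>
  WE.flow_per h hr hr1 ht₀ hX n t ht x

end Pool.Agent.Y8
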