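import Pool.Agent.Y8.Asm2
import Pool.Agent.Y131.NS.ALTHM
import Pool.Agent.Y153.NS.HBD
import Pool.Agent.Y203.NS.RESTR
import Pool.Agent.Y255.NS.CFPM
import Pool.Agent.Y274.PERS
import Pool.Agent.Y287.NS.B1M
import Pool.Agent.Y287.NS.CE
import Pool.Agent.Y419.NSM.TV
import Pool.Agent.Y419.NSM.WinM
import Pool.Agent.Y458.NS.MC
import Pool.Agent.Y494.NS.KER2
import Pool.Agent.Y494.NS.OVER
import Pool.Agent.Y494.NS.SUMB
import Pool.Agent.Y496.NS.Dy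
import Pool.Agent.Y529.NS.AltM
import Pool.Agent.Y529.NS.FinM
import Pool.Agent.Y96.NS.Scal

/-!
Assembly: the count of separated singular points in a time interval (helper8).
-/

open MeasureTheory Set Metric
open scoped ContDiff

namespace Pool.Agent.Y8.B

open H459R3.NS W221.NS

theorem p_over : S_OVER := Pool.Agent.Y494.NS.t_OVER
theorem p_ker2 : S_KER2 := Pool.Agent.Y494.NS.Ker.t_KER2
theorem p_dypo : S_DYPO := Pool.Agent.Y496.NS.t_DYPO p_poinc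
theorem p_dymo : S_DYMO := Pool.Agent.Y496.NS.t_DYMO p_poinc
theorem p_wpath : S_WPATH := path_ex p_tcut p_acx
theorem p_hbd : S_HBD := Pool.Agent.Y153.NS.t_HBD p_ker2 p_dypo
theorem p_mc : S_MC := Pool.Agent.Y458.NS.t_MC p_ker2 p_dypo
theorem p_pers : S_PERS := Pool.Agent.Y274.PERS.t_PERS
theorem p_altm : S_ALTM := Pool.Agent.Y529.NS.t_ALTM p_tcut p_ker2 p_dymo p_hbd p_mc p_pers
theorem p_althm : S_ALTHM := Pool.Agent.Y131.NS.t_ALTHM p_tcut p_ker2 p_dymo p_hbd p_mc p_pers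
theorem p_sumb : S_SUMB := Pool.Agent.Y494.NS.Sumb.t_SUMB p_over
theorem p_c12 : S_C12 := Pool.Agent.Y494.NS.Sumb.t_C12 p_sumb
theorem p_ce : S_CE := Pool.Agent.Y287.NS.Ce.t_CE p_over
theorem p_cfpm : S_CFPM := Pool.Agent.Y255.NS.t_CFPM p_over
theorem p_b1m : S_B1M := Pool.Agent.Y287.NS.B1M.t_B1M p_crit3 p_sumb
theorem p_b2m : S_B2M := Pool.Agent.Y529.NS.t_B2M p_altm p_c12 p_cfpm
theorem p_finm : S_FINM := Pool.Agent.Y529.NS.t_FINM p_wpath p_b1m p_b2m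
theorem p_winm : S_WINM := Pool.Agent.Y419.NSM.t_WINM p_wfl p_slow p_althm p_c12 p_ce
theorem p_restr : S_RESTR := Pool.Agent.Y203.NS.RESTR.t_RESTR
theorem p_tv1 : S_TV1 := Pool.Agent.Y419.NSM.t_TV1 p_restr p_finm p_winm
theorem p_wscal : S_WSCAL := Pool.Agent.Y96.NS.t_WSCAL
theorem p_tv : S_TV := Pool.Agent.Y419.NSM.t_TV p_wscal p_tv1

end Pool.Agent.Y8.B
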