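import Pool.Agent.Y7.WStm
import Pool.Agent.Y7.Close
import Pool.Agent.Y8.WEqv

/-!
Paths which follow the mollified velocities at two scales stay close (helper8, adapted from
Pool.Agent.Y7.Close of helper7).
-/

set_option autoImplicit false
set_option linter.unusedVariables false

open MeasureTheory Set Metric Filter Topology
open scoped ContDiff ENNReal NNReal

namespace Pool.Agent.Y8

open H459R3.NS W221.NS Pool.Agent.Y7 Pool.Agent.Y8.WE

theorem mo_ml (r : ℝ) (w : V → V) (x : V) : mo r w x = ml r w x := rfl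

theorem sc_le {R₀ : ℝ} (hR₀ : 0 < R₀) {m N : ℕ} (h : m ≤ N) : sc R₀ N ≤ sc R₀ m := by
  obtain ⟨k, rfl⟩ := Nat.exists_eq_add_of_le h
  rw [sc_add]
  have h1 := sc_pos hR₀ m
  exact div_le_self h1.le (one_le_pow₀ (by norm_num))

theorem t_WCLOSE : S_WCLOSE := by
  obtain ⟨K, hK, hml⟩ := mlb
  refine ⟨2 * K, by positivity, ?_⟩
  intro T E D G u p hT R₀ hR₀ m N hmN s h hh hsh hsT ξ ξ' Y Y' B C B' C' hξP hYP hYs hI
  have hρ := sc_pos hR₀ m
  obtain ⟨ρ, hρd⟩ : ∃ ρ, ρ = sc R₀ m := ⟨_, rfl⟩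
  have hT0 : 0 < T := by linarith
  have hmaps : ∀ τ ∈ Icc (s - h) s, τ ∈ Ioo 0 T := fun τ hτ => ⟨hsh.trans_le hτ.1,
    hτ.2.trans_lt hsT⟩
  have hξ : ContinuousOn ξ (Icc (s - h) s) := fun τ hτ =>
    (hξP.hd τ (hmaps τ hτ)).continuousAt.continuousWithinAt
  have hY : ContinuousOn Y (Icc (s - h) s) := fun τ hτ =>
    (hYP.hd τ (hmaps τ hτ)).continuousAt.continuousWithinAt
  have hξ' : ContinuousOn ξ' (Icc (s - h) s) := (path_cont hT0 hT hξP).mono hmaps
  have hY' : ContinuousOn Y' (Icc (s - h) s) := (path_cont hT0 hT hYP).mono hmaps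
  obtain ⟨w, hw⟩ : ∃ w : ℝ → V, w = fun τ => ξ' τ - Y' τ := ⟨_, rfl⟩
  have hwc : ContinuousOn w (Icc (s - h) s) := by
    rw [hw]
    exact hξ'.sub hY'
  rw [← hρd] at hρ ⊢
  have hδ : 0 < ρ / 8 := by positivity
  obtain ⟨g, hg⟩ : ∃ g : ℝ → ℝ, g = fun τ => cφ (ρ / 8) ‖ξ τ - Y τ‖ * ‖w τ‖ := ⟨_, rfl⟩
  have hφc : Continuous (cφ (ρ / 8)) := by
    unfold cφ
    fun_prop
  have hφ0 : ∀ d, 0 ≤ cφ (ρ / 8) d := fun d => le_min zero_le_one (le_max_left _ _)
  have hφ1 : ∀ d, cφ (ρ / 8) d ≤ 1 := fun d => min_le_left _ _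
  have hgc : ContinuousOn g (Icc (s - h) s) := by
    rw [hg]
    exact (hφc.comp_continuousOn (hξ.sub hY).norm).mul hwc.norm
  have hg0 : ∀ τ, 0 ≤ g τ := by
    intro τ
    rw [hg]
    exact mul_nonneg (hφ0 _) (norm_nonneg _)
  have hst := Pool.Agent.TH305.LG.stay (ξ := ξ) (Y := Y) (s := s) (h := h) (ρ := ρ / 8) hh hδ
    (g := g) hgc (fun τ _ => hg0 τ) hξ hY hYs.symm ?_ ?_
  · intro τ hτ
    refine (hst τ hτ).trans (le_of_eq ?_)
    ring
  · intro τ hτ
    refine ⟨ξ' τ, Y' τ, hξP.hd τ (hmaps τ (Ioo_subset_Icc_self hτ)),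
      hYP.hd τ (hmaps τ (Ioo_subset_Icc_self hτ)), fun hlt => ?_⟩
    rw [hg, hw]
    simp only
    have h1 : cφ (ρ / 8) ‖ξ τ - Y τ‖ = 1 := by
      unfold cφ
      apply min_eq_left
      apply le_max_of_le_right
      have : ‖ξ τ - Y τ‖ / (ρ / 8) ≤ 1 := by
        rw [div_le_one hδ]
        exact hlt.le
      linarith
    rw [h1, one_mul]
  · have hpt : ∀ τ ∈ Ioo (s - h) s, τ ∈ G → ENNReal.ofReal (g τ)
        ≤ ENNReal.ofReal (2 * K * ρ) * Fx R₀ (u τ) (ξ τ) ^ (1 / 2 : ℝ) := by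
      intro τ hτ hτG
      by_cases hd : ‖ξ τ - Y τ‖ ≤ ρ
      · have hus : ContDiff ℝ ∞ (u τ) := by
          rw [← contDiffOn_univ]
          exact hT.smooth_u.comp (contDiff_const.prodMk contDiff_id).contDiffOn
            (fun x _ => ⟨hτG, mem_univ _⟩)
        have h1 := hml R₀ hR₀ (u τ) hus m (ξ τ) (Y τ) (by rw [norm_sub_rev, ← hρd]; exact hd)
        have h2 := hml R₀ hR₀ (u τ) hus N (ξ τ) (ξ τ) (by
          rw [sub_self, norm_zero]; exact (sc_pos hR₀ N).le)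
        have h3 : ENNReal.ofReal (K * sc R₀ N) ≤ ENNReal.ofReal (K * sc R₀ m) :=
          ENNReal.ofReal_le_ofReal (mul_le_mul_of_nonneg_left (sc_le hR₀ hmN) hK.le)
        have h4 := h2.trans (mul_le_mul_left h3 (Fx R₀ (u τ) (ξ τ) ^ (1 / 2 : ℝ)))
        rw [← hρd] at h1 h4
        have h5 : g τ ≤ ‖ml (sc R₀ N) (u τ) (ξ τ) - u τ (ξ τ)‖ + ‖ml ρ (u τ) (Y τ) - u τ (ξ τ)‖ := by
          rw [hg, hw]
          simp only
          rw [hξP.ev τ hτG, hYP.ev τ hτG, mo_ml, mo_ml, ← hρd]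
          refine (mul_le_of_le_one_left (norm_nonneg _) (hφ1 _)).trans ?_
          rw [show ml (sc R₀ N) (u τ) (ξ τ) - ml ρ (u τ) (Y τ)
            = (ml (sc R₀ N) (u τ) (ξ τ) - u τ (ξ τ)) - (ml ρ (u τ) (Y τ) - u τ (ξ τ)) by abel]
          exact norm_sub_le _ _
        refine (ENNReal.ofReal_le_ofReal h5).trans ?_
        rw [ENNReal.ofReal_add (norm_nonneg _) (norm_nonneg _)]
        refine (add_le_add h4 h1).trans (le_of_eq ?_)
        rw [← add_mul, ← ENNReal.ofReal_add (by positivity) (by positivity)]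
        congr 2
        ring
      · have h1 : g τ = 0 := by
          rw [hg]
          simp only
          have : cφ (ρ / 8) ‖ξ τ - Y τ‖ = 0 := by
            unfold cφ
            have h2 : 2 - ‖ξ τ - Y τ‖ / (ρ / 8) ≤ 0 := by
              push Not at hd
              have : 2 ≤ ‖ξ τ - Y τ‖ / (ρ / 8) := by
                rw [le_div_iff₀ hδ]
                linarith
              linarith
            rw [max_eq_left h2]
            exact min_eq_right zero_le_one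
          rw [this, zero_mul]
        rw [h1, ENNReal.ofReal_zero]
        exact zero_le
    have hle : s - h ≤ s := by linarith
    rw [intervalIntegral.integral_of_le hle, integral_Ioc_eq_integral_Ioo]
    have hgi : IntegrableOn g (Ioo (s - h) s) :=
      (hgc.integrableOn_compact isCompact_Icc).mono_set Ioo_subset_Icc_self
    have hae : ∀ᵐ t : ℝ, t ∈ Ioo (0 : ℝ) T → t ∈ G := by
      have h1 := hT.fullG
      rw [← compl_mem_ae_iff] at h1
      filter_upwards [h1] with t ht ht2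
      by_contra h3
      exact ht ⟨ht2, h3⟩
    rw [← ENNReal.ofReal_le_ofReal_iff (by positivity),
      ofReal_integral_eq_lintegral_ofReal hgi (Eventually.of_forall hg0)]
    have hle2 : ∫⁻ τ in Ioo (s - h) s, ENNReal.ofReal (g τ)
        ≤ ∫⁻ τ in Ioo (s - h) s, ENNReal.ofReal (2 * K * ρ) * Fx R₀ (u τ) (ξ τ) ^ (1 / 2 : ℝ) := by
      apply lintegral_mono_ae
      filter_upwards [ae_restrict_of_ae hae, ae_restrict_mem measurableSet_Ioo] with τ h5 h6
      exact hpt τ h6 (h5 (hmaps τ (Ioo_subset_Icc_self h6)))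
    refine hle2.trans ?_
    rw [lintegral_const_mul' _ _ ENNReal.ofReal_ne_top, mul_comm (2 * K) ρ,
      ENNReal.ofReal_mul hρ.le, mul_assoc]
    refine (mul_le_mul_right hI _).trans ?_
    rw [← ENNReal.ofReal_mul hρ.le]
    apply ENNReal.ofReal_le_ofReal
    linarith

end Pool.Agent.Y8
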