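import Pool.Agent.Y7.Small
import Pool.Agent.Y8.WClose
import Pool.Agent.Y8.WEnd
import Pool.Agent.Y458.NS.CR

/-!
Little oscillation along a path of the mollified velocity of a weak solution implies little
dissipation around it (helper8, adapted from Pool.Agent.Y7.Small of helper7).
-/

set_option autoImplicit false
set_option linter.unusedVariables false

open MeasureTheory Set Metric Filter Topology
open scoped ContDiff ENNReal NNReal

namespace Pool.Agent.Y8.WS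

open H459R3.NS W221.NS Pool.Agent.Y7 Pool.Agent.Y8 Pool.Agent.Y8.WE Pool.Agent.Y458.NS

/-- The regular times of the frame. -/
def HH (G : Set ℝ) (r s : ℝ) : Set ℝ := {t | t ∈ Ioo (-1 : ℝ) 0 ∧ s + r ^ 2 * t ∈ G}

/-- The velocity in the moving frame at a regular time. -/
lemma frvH {T r s t B C : ℝ} {G : Set ℝ} {u : ℝ → V → V} {p : ℝ → V → ℝ} {Y Y' : ℝ → V}
    (hsub : G ⊆ Ioo 0 T) (hY : FPath T r B C G u p Y Y') (ht : s + r ^ 2 * t ∈ G) :
    frv r s Y u t = fr r (u (s + r ^ 2 * t)) (Y (s + r ^ 2 * t)) := by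
  funext z i
  have hd := hY.hd _ (hsub ht)
  rw [hY.ev _ ht] at hd
  have hd' : HasDerivAt (fun τ => Y τ i) (mo r (u (s + r ^ 2 * t)) (Y (s + r ^ 2 * t)) i)
    (s + r ^ 2 * t) := (hasDerivAt_pi.1 hd) i
  show r * (u (s + r ^ 2 * t) (Y (s + r ^ 2 * t) + r • z) i
    - deriv (fun τ => Y τ i) (s + r ^ 2 * t)) = _
  rw [hd'.deriv]
  rfl

/-- The dissipation in the frame. -/
lemma frame_mass {T E D r s B C a R : ℝ} {G : Set ℝ} {u : ℝ → V → V} {p : ℝ → V → ℝ}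
    {X Y : ℝ → V} (h : Turb 1 T E D G u p) (hr : 0 < r) (hs0 : r ^ 2 < s) (hsT : s < T)
    (hX : FPath T r B C G u p X Y) (ha : -1 ≤ a) (ha0 : a ≤ 0) :
    IntegrableOn (fun t => B2 0 R (frv r s X u t)) (Ioo a 0) ∧
      ∫ t in Ioo a 0, B2 0 R (frv r s X u t)
        = r⁻¹ * ∫ τ in Ioo (s + r ^ 2 * a) s, B2 (X τ) (r * R) (u τ) := by
  have hr2 : 0 < r ^ 2 := by positivity
  have hXc : ContinuousOn X G := hX.sm.continuousOn
  obtain ⟨F, hFd⟩ : ∃ F : ℝ → ℝ, F = G.indicator (fun τ => B2 (X τ) (r * R) (u τ)) := ⟨_, rfl⟩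
  have hFi : Integrable F := by
    rw [hFd]
    exact (integrable_indicator_iff h.openG.measurableSet).2 (B2_mov_int h hXc _)
  have hFi2 : Integrable (fun t => r * F (s + r ^ 2 * t)) :=
    ((hFi.comp_add_left s).comp_mul_left' hr2.ne').const_mul r
  have hG : ∀ᵐ t : ℝ, t ∈ Ioo 0 T → t ∈ G := by
    have h1 := h.fullG
    rw [← compl_mem_ae_iff] at h1
    filter_upwards [h1] with t ht ht2
    by_contra h3
    exact ht ⟨ht2, h3⟩
  have hGa : ∀ᵐ t : ℝ, s + r ^ 2 * t ∈ Ioo 0 T → s + r ^ 2 * t ∈ G := by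
    have h1 : Measure.QuasiMeasurePreserving (fun t : ℝ => s + r ^ 2 * t) volume volume := by
      have h2 : Measure.QuasiMeasurePreserving (fun t : ℝ => r ^ 2 * t) volume volume := by
        refine ⟨measurable_const_mul _, ?_⟩
        rw [Real.map_volume_mul_left hr2.ne']
        exact Measure.smul_absolutelyContinuous
      have h3 : Measure.QuasiMeasurePreserving (fun t : ℝ => s + t) volume volume :=
        (measurePreserving_add_left volume s).quasiMeasurePreserving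
      exact h3.comp h2
    exact h1.ae hG
  have hsm : ∀ t ∈ Ioo a 0, s + r ^ 2 * t ∈ Ioo 0 T := by
    intro t ht
    constructor <;> nlinarith [ht.1, ht.2]
  have hae1 : (fun t => r * F (s + r ^ 2 * t)) =ᵐ[volume.restrict (Ioo a 0)]
      (fun t => B2 0 R (frv r s X u t)) := by
    filter_upwards [ae_restrict_of_ae hGa, ae_restrict_mem measurableSet_Ioo] with t ht ht2
    have h3 := ht (hsm t ht2)
    rw [hFd, indicator_of_mem h3, W382.ME.B2_frv hr (sl_sm h.smooth_u h3)]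
    rfl
  have hae2 : (fun t => B2 0 R (frv r s X u t)) =ᵐ[volume.restrict (Ioo a 0)]
      (fun t => r * B2 (X (s + r ^ 2 * t)) (r * R) (u (s + r ^ 2 * t))) := by
    filter_upwards [ae_restrict_of_ae hGa, ae_restrict_mem measurableSet_Ioo] with t ht ht2
    have h3 := ht (hsm t ht2)
    exact W382.ME.B2_frv hr (sl_sm h.smooth_u h3)
  refine ⟨(hFi2.integrableOn (s := Ioo a 0)).congr hae1, ?_⟩
  rw [integral_congr_ae hae2, integral_const_mul]
  have e1 : ∫ t in Ioo a 0, B2 (X (s + r ^ 2 * t)) (r * R) (u (s + r ^ 2 * t)) =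
      (r ^ 2)⁻¹ * ∫ t in Ioo (s + r ^ 2 * a) s, B2 (X t) (r * R) (u t) := by
    rw [← integral_Ioc_eq_integral_Ioo, ← integral_Ioc_eq_integral_Ioo,
      ← intervalIntegral.integral_of_le ha0, ← intervalIntegral.integral_of_le
      (by nlinarith), intervalIntegral.integral_comp_add_mul
        (f := fun t => B2 (X t) (r * R) (u t)) (c := r ^ 2) (by positivity) s, smul_eq_mul]
    congr 2
    ring
  rw [e1]
  field_simp

/-- continuity of the fourth moment at the regular times -/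
theorem contL {H : Set ℝ} (hO : IsOpen H) {v : ℝ → V → V}
    (hv : ContDiffOn ℝ ∞ (fun z : ℝ × V => v z.1 z.2) (H ×ˢ univ)) :
    ContinuousOn (fun t => √(L4 0 4 (v t))) H := by
  intro t ht
  obtain ⟨d, hd, hball⟩ := Metric.isOpen_iff.1 hO t ht
  rw [Real.ball_eq_Ioo] at hball
  have h2 : t ∈ Ioo (t - d) (t + d) := ⟨by linarith, by linarith⟩
  have hc : ContinuousOn (fun t => √(L4 0 4 (v t))) (Ioo (t - d) (t + d)) := by
    apply Real.continuous_sqrt.comp_continuousOn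
    unfold L4
    apply W333.MD.t_PCONT (t - d) (t + d) (fun t z => nsq (v t) z ^ 2) 0 4
    have h1 : ContinuousOn (fun z : ℝ × V => v z.1 z.2) (Ioo (t - d) (t + d) ×ˢ univ) :=
      hv.continuousOn.mono (prod_mono hball subset_rfl)
    have h2 : ∀ i, ContinuousOn (fun z : ℝ × V => v z.1 z.2 i) (Ioo (t - d) (t + d) ×ˢ univ) :=
      fun i => continuousOn_pi.1 h1 i
    unfold nsq
    exact (continuousOn_finsetSum _ fun i _ => (h2 i).pow 2).pow 2
  exact (hc.continuousAt (isOpen_Ioo.mem_nhds h2)).continuousWithinAt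

/-- Little oscillation along a path implies little dissipation around it. -/
theorem wsmall : ∃ C : ℝ, 0 < C ∧ ∀ (T E D : ℝ) (G : Set ℝ) (u : ℝ → V → V) (p : ℝ → V → ℝ),
    Turb 1 T E D G u p → ∀ R₀ : ℝ, 0 < R₀ → ∀ (m : ℕ) (s : ℝ), sc R₀ m ^ 2 < s → s < T →
      ∀ (ξ Y Y' : ℝ → V) (B B' : ℝ), FPath T (sc R₀ m) B B' G u p Y Y' →
      (∀ τ ∈ Ioo (s - sc R₀ m ^ 2) s, ‖ξ τ - Y τ‖ ≤ sc R₀ m) → ∀ η : ℝ, 0 < η → C * η ≤ 1 →
      ∫⁻ τ in Ioo (s - sc R₀ m ^ 2) s, Fx R₀ (u τ) (ξ τ) ≤ ENNReal.ofReal (η / sc R₀ m ^ 2) →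
      ∫ τ in Ioo (s - 9 / 16 * sc R₀ m ^ 2) s, B2 (Y τ) (sc R₀ m * (3 / 4)) (u τ)
        ≤ C * η * sc R₀ m := by
  obtain ⟨K, hK, hosc⟩ := osc
  obtain ⟨k, hk⟩ : ∃ k, k = K.toReal := ⟨_, rfl⟩
  have hk0 : 0 ≤ k := by rw [hk]; exact ENNReal.toReal_nonneg
  have hKk : K = ENNReal.ofReal k := by rw [hk, ENNReal.ofReal_toReal hK]
  obtain ⟨C, hC, hen⟩ := t_WEN4
  refine ⟨C * (k + 1), by positivity, ?_⟩
  intro T E D G u p h R₀ hR₀ m s hrs hsT ξ Y Y' B B' hY hcl η hη hCη hI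
  have hr := sc_pos hR₀ m
  obtain ⟨r, hrd⟩ : ∃ r, r = sc R₀ m := ⟨_, rfl⟩
  have hosc' := hosc R₀ hR₀
  simp only [← hrd] at hr hrs hY hcl hI ⊢
  have hr2 : 0 < r ^ 2 := by positivity
  have hα : 0 < s - r ^ 2 := by linarith
  obtain ⟨k', hL⟩ := Pool.Agent.Y8.B.p_wfr2 T E D G u p h r s hr hrs hsT Y Y' B B' hY
  have hτ : ∀ t ∈ Ioo (-1 : ℝ) 0, s + r ^ 2 * t ∈ Ioo (s - r ^ 2) s := fun t ht =>
    ⟨by nlinarith [ht.1], by nlinarith [ht.2]⟩
  obtain ⟨H, hH⟩ : ∃ H : Set ℝ, H = {t | t ∈ Ioo (-1 : ℝ) 0 ∧ s + r ^ 2 * t ∈ G} := ⟨_, rfl⟩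
  rw [← hH] at hL
  have hmH : ∀ t ∈ H, t ∈ Ioo (-1 : ℝ) 0 ∧ s + r ^ 2 * t ∈ G := fun t ht => by rwa [hH] at ht
  have hae : ∀ᵐ t ∂(volume.restrict (Ioo (-1 : ℝ) 0)), t ∈ H := by
    rw [ae_restrict_iff' measurableSet_Ioo]
    have h1 : ∀ᵐ t : ℝ, t ∉ Ioo (-1 : ℝ) 0 \ H := measure_eq_zero_iff_ae_notMem.1 hL.fullH
    filter_upwards [h1] with t ht htJ
    by_contra hc
    exact ht ⟨htJ, hc⟩
  have hpt : ∀ t ∈ H, ENNReal.ofReal (√(L4 0 4 (frv r s Y u t)))
      ≤ ENNReal.ofReal (k * r ^ 4) * Fx R₀ (u (s + r ^ 2 * t)) (ξ (s + r ^ 2 * t)) := by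
    intro t ht
    obtain ⟨ht1, ht2⟩ := hmH t ht
    have h1 := hosc' (u (s + r ^ 2 * t)) (sl_sm h.smooth_u ht2) m
      (ξ (s + r ^ 2 * t)) (Y (s + r ^ 2 * t)) (by
        rw [norm_sub_rev, ← hrd]
        exact hcl _ (hτ t ht1))
    rw [← hrd, hKk, ← mul_assoc, ← ENNReal.ofReal_mul hk0] at h1
    rw [frvH h.subG hY ht2]
    exact h1
  have hlint : ∫⁻ t in Ioo (-1 : ℝ) 0, ENNReal.ofReal (√(L4 0 4 (frv r s Y u t)))
      ≤ ENNReal.ofReal (k * η) := by
    have h0 : ∫⁻ t in Ioo (-1 : ℝ) 0, ENNReal.ofReal (√(L4 0 4 (frv r s Y u t)))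
        ≤ ∫⁻ t in Ioo (-1 : ℝ) 0,
          ENNReal.ofReal (k * r ^ 4) * Fx R₀ (u (s + r ^ 2 * t)) (ξ (s + r ^ 2 * t)) := by
      apply lintegral_mono_ae
      filter_upwards [hae] with t ht
      exact hpt t ht
    refine h0.trans ?_
    rw [lintegral_const_mul' _ _ ENNReal.ofReal_ne_top,
      aff (fun τ => Fx R₀ (u τ) (ξ τ)) hr2]
    have e1 : s + r ^ 2 * (-1) = s - r ^ 2 := by ring
    have e2 : s + r ^ 2 * 0 = s := by ring
    rw [e1, e2]
    refine (mul_le_mul_right (mul_le_mul_right hI _) _).trans ?_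
    rw [← ENNReal.ofReal_mul (by positivity), ← ENNReal.ofReal_mul (by positivity)]
    apply ENNReal.ofReal_le_ofReal
    apply le_of_eq
    field_simp
  have hint : IntegrableOn (fun t => √(L4 0 4 (frv r s Y u t))) (Ioo (-1) 0) := by
    refine ⟨?_, ?_⟩
    · have h1 : AEStronglyMeasurable (fun t => √(L4 0 4 (frv r s Y u t))) (volume.restrict H) :=
        (contL hL.openH hL.smooth_v).aestronglyMeasurable hL.openH.measurableSet
      apply h1.mono_measure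
      apply Measure.restrict_mono' _ le_rfl
      rw [ae_restrict_iff' measurableSet_Ioo] at hae
      exact hae
    · rw [hasFiniteIntegral_iff_ofReal (Eventually.of_forall fun t => Real.sqrt_nonneg _)]
      exact hlint.trans_lt ENNReal.ofReal_lt_top
  have hle : ∫ t in Ioo (-1 : ℝ) 0, √(L4 0 4 (frv r s Y u t)) ≤ (k + 1) * η := by
    have h1 : ∫ t in Ioo (-1 : ℝ) 0, √(L4 0 4 (frv r s Y u t)) ≤ k * η := by
      rw [← ENNReal.ofReal_le_ofReal_iff (by positivity),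
        ofReal_integral_eq_lintegral_ofReal hint (Eventually.of_forall fun t => Real.sqrt_nonneg _)]
      exact hlint
    linarith
  obtain ⟨-, hE⟩ := hen _ _ _ _ hL ((k + 1) * η) (by positivity) (by linarith) hint hle
  have hM := (frame_mass (R := 3 / 4) (a := -9 / 16) h hr hrs hsT hY (by norm_num) (by norm_num)).2
  rw [hM, inv_mul_le_iff₀ hr] at hE
  have e1 : s + r ^ 2 * (-9 / 16) = s - 9 / 16 * r ^ 2 := by ring
  rw [e1] at hE
  refine hE.trans (le_of_eq ?_)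
  ring

end Pool.Agent.Y8.WS
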