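import Pool.Agent.Y7.Loc7
import Pool.Agent.Y8.WSmall

/-!
Little oscillation along a path of the mollified velocity of a weak solution bounds all
derivatives around it (helper8, adapted from Pool.Agent.Y7.Loc7 of helper7).
-/

set_option autoImplicit false
set_option linter.unusedVariables false

open MeasureTheory Set Metric Filter Topology
open scoped ContDiff ENNReal NNReal

namespace Pool.Agent.Y8.WS

open H459R3.NS W221.NS Pool.Agent.Y7 Pool.Agent.Y8 Pool.Agent.Y8.WE Pool.Agent.Y458.NS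
open Pool.Agent.TH305.DR

/-! ### Joint continuity of the derivatives at the regular times -/

section js
variable {H : Set ℝ}

lemma pd_jsO (hO : IsOpen H) {f : ℝ → V → ℝ}
    (hf : ContDiffOn ℝ ∞ (fun z : ℝ × V => f z.1 z.2) (H ×ˢ univ)) (j : Fin 3) :
    ContDiffOn ℝ ∞ (fun z : ℝ × V => pd j (f z.1) z.2) (H ×ˢ univ) := by
  have h1 : ContDiffOn ℝ ∞ (fun z : ℝ × V => fderiv ℝ (fun z : ℝ × V => f z.1 z.2) z
      (0, Pi.single j 1)) (H ×ˢ univ) :=
    (hf.fderiv_of_isOpen (hO.prod isOpen_univ) (by norm_cast)).clm_apply contDiffOn_const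
  refine h1.congr ?_
  rintro ⟨t, x⟩ ⟨ht, -⟩
  have hmem : H ×ˢ (univ : Set V) ∈ 𝓝 (t, x) :=
    prod_mem_nhds (hO.mem_nhds ht) Filter.univ_mem
  have hd : DifferentiableAt ℝ (fun z : ℝ × V => f z.1 z.2) (t, x) :=
    (hf.contDiffAt hmem).differentiableAt (by norm_cast)
  have h2 : HasFDerivAt (fun y : V => ((t, y) : ℝ × V))
      (ContinuousLinearMap.inr ℝ ℝ V) x := by
    have := (hasFDerivAt_const t x).prodMk (hasFDerivAt_id (𝕜 := ℝ) x)
    exact this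
  have h3 : HasFDerivAt (f t) _ x := hd.hasFDerivAt.comp x h2
  show pd j (f t) x = _
  unfold pd
  rw [h3.fderiv]
  rfl

lemma ss_jsO (hO : IsOpen H) (n : ℕ) : ∀ {f : ℝ → V → ℝ},
    ContDiffOn ℝ ∞ (fun z : ℝ × V => f z.1 z.2) (H ×ˢ univ) →
    ContinuousOn (fun z : ℝ × V => SS n (f z.1) z.2) (H ×ˢ univ) := by
  induction n with
  | zero => intro f hf; exact hf.continuousOn.pow 2
  | succ n ih =>
    intro f hf
    exact continuousOn_finsetSum _ fun i _ => ih (f := fun t => pd i (f t)) (pd_jsO hO hf i)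

lemma sv_jsO (hO : IsOpen H) (n : ℕ) {u : ℝ → V → V}
    (hu : ContDiffOn ℝ ∞ (fun z : ℝ × V => u z.1 z.2) (H ×ˢ univ)) :
    ContinuousOn (fun z : ℝ × V => SV n (u z.1) z.2) (H ×ˢ univ) := by
  have hui : ∀ i, ContDiffOn ℝ ∞ (fun z : ℝ × V => u z.1 z.2 i) (H ×ˢ univ) :=
    fun i => contDiffOn_pi.1 hu i
  exact continuousOn_finsetSum _ fun i _ => ss_jsO hO n (f := fun t y => u t y i) (hui i)

lemma gsq_jsO (hO : IsOpen H) {u : ℝ → V → V}
    (hu : ContDiffOn ℝ ∞ (fun z : ℝ × V => u z.1 z.2) (H ×ˢ univ)) :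
    ContinuousOn (fun z : ℝ × V => gsq (u z.1) z.2) (H ×ˢ univ) := by
  unfold gsq
  refine continuousOn_finsetSum _ fun i _ => continuousOn_finsetSum _ fun j _ => ?_
  have hi : ContDiffOn ℝ ∞ (fun z : ℝ × V => u z.1 z.2 i) (H ×ˢ univ) := contDiffOn_pi.1 hu i
  exact (pd_jsO hO (f := fun t y => u t y i) hi j).continuousOn.pow 2

end js

/-! ### Measurability along paths -/

/-- The function of the gradient, as a function of time and space. -/
noncomputable def FtO (R₀ : ℝ) (G : Set ℝ) (u : ℝ → V → V) (z : ℝ × V) : ℝ≥0∞ :=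
  Hl.Mx R₀ (fun y => (G ×ˢ (univ : Set V)).indicator (fun z => Sp.gw (u z.1) z.2) (z.1, y))
    z.2 ^ (7 / 6 : ℝ)

lemma FtO_eq (R₀ : ℝ) {G : Set ℝ} (u : ℝ → V → V) {t : ℝ} (ht : t ∈ G) (x : V) :
    FtO R₀ G u (t, x) = Fx R₀ (u t) x := by
  unfold FtO Fx
  congr 2
  funext y
  rw [indicator_of_mem]
  exact ⟨ht, mem_univ _⟩

lemma FtO_meas (R₀ : ℝ) {G : Set ℝ} (hO : IsOpen G) {u : ℝ → V → V}
    (hu : ContDiffOn ℝ ∞ (fun z : ℝ × V => u z.1 z.2) (G ×ˢ univ)) :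
    Measurable (FtO R₀ G u) := by
  have hgs : ContinuousOn (fun z : ℝ × V => gsq (u z.1) z.2) (G ×ˢ univ) := gsq_jsO hO hu
  have hS : MeasurableSet (G ×ˢ (univ : Set V)) := hO.measurableSet.prod MeasurableSet.univ
  have hG : Measurable ((G ×ˢ (univ : Set V)).indicator
      (fun z : ℝ × V => Sp.gw (u z.1) z.2)) := by
    have h1 := (W919.MH.MARK3.measurable_indicator hS hgs).pow_const (6 / 7 : ℝ)
    have e : ((G ×ˢ (univ : Set V)).indicator (fun z : ℝ × V => Sp.gw (u z.1) z.2))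
        = fun z => ((G ×ˢ (univ : Set V)).indicator
          (fun z : ℝ × V => ENNReal.ofReal (gsq (u z.1) z.2)) z) ^ (6 / 7 : ℝ) := by
      funext z
      by_cases hz : z ∈ G ×ˢ (univ : Set V)
      · rw [indicator_of_mem hz, indicator_of_mem hz]
        rfl
      · rw [indicator_of_notMem hz, indicator_of_notMem hz, ENNReal.zero_rpow_of_pos (by norm_num)]
    rw [e]
    exact h1
  obtain ⟨F, hFd⟩ : ∃ F : ℝ × V → ℝ≥0∞, F = (G ×ˢ (univ : Set V)).indicator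
      (fun z : ℝ × V => Sp.gw (u z.1) z.2) := ⟨_, rfl⟩
  rw [← hFd] at hG
  have e2 : FtO R₀ G u = fun z => (⨆ m : ℕ, (∫⁻ y in ball z.2 (Hl.Rr R₀ m), F (z.1, y))
      / ENNReal.ofReal (Hl.Rr R₀ m ^ 3)) ^ (7 / 6 : ℝ) := by
    funext z
    rw [hFd]
    rfl
  rw [e2]
  refine (Measurable.iSup fun m => ?_).pow_const _
  refine Measurable.div_const ?_ _
  have e : (fun z : ℝ × V => ∫⁻ y in ball z.2 (Hl.Rr R₀ m), F (z.1, y))
      = fun z : ℝ × V => ∫⁻ y, ({q : (ℝ × V) × V | dist q.2 q.1.2 < Hl.Rr R₀ m}.indicator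
        (fun q => F (q.1.1, q.2))) (z, y) := by
    funext z
    rw [← lintegral_indicator measurableSet_ball]
    rfl
  rw [e]
  apply Measurable.lintegral_prod_right' (f := {q : (ℝ × V) × V |
    dist q.2 q.1.2 < Hl.Rr R₀ m}.indicator (fun q => F (q.1.1, q.2)))
  refine Measurable.indicator ?_ ?_
  · exact hG.comp ((measurable_fst.comp measurable_fst).prodMk measurable_snd)
  · exact measurableSet_lt (measurable_snd.dist (measurable_snd.comp measurable_fst))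
      measurable_const

lemma WS_meas (R₀ : ℝ) {G : Set ℝ} (hO : IsOpen G) {u : ℝ → V → V}
    (hu : ContDiffOn ℝ ∞ (fun z : ℝ × V => u z.1 z.2) (G ×ˢ univ)) {ξ : ℝ → V}
    (hξ : ContinuousOn ξ G) :
    AEMeasurable (fun τ => Fx R₀ (u τ) (ξ τ)) (volume.restrict G) := by
  have h1 : AEMeasurable (fun τ => (τ, ξ τ)) (volume.restrict G) :=
    aemeasurable_id.prodMk (hξ.aemeasurable hO.measurableSet)
  have h2 := (FtO_meas R₀ hO hu).comp_aemeasurable h1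
  refine h2.congr ?_
  refine (ae_restrict_iff' hO.measurableSet).2 (Eventually.of_forall fun τ hτ => ?_)
  exact FtO_eq R₀ u hτ (ξ τ)

/-- The square root of the function along a path. -/
lemma halfO {R₀ : ℝ} {u : ℝ → V → V} {s h η : ℝ} (hh : 0 < h) (hη : 0 ≤ η) {ξ : ℝ → V}
    (hm : AEMeasurable (fun τ => Fx R₀ (u τ) (ξ τ)) (volume.restrict (Ioo (s - h) s)))
    (hI : ∫⁻ τ in Ioo (s - h) s, Fx R₀ (u τ) (ξ τ) ≤ ENNReal.ofReal (η / h)) :
    ∫⁻ τ in Ioo (s - h) s, Fx R₀ (u τ) (ξ τ) ^ (1 / 2 : ℝ) ≤ ENNReal.ofReal (√η) := by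
  have h1 := Poi.jensen (p := 2) (by norm_num) (hm.pow_const (1 / 2 : ℝ))
  have e1 : ∀ τ, (Fx R₀ (u τ) (ξ τ) ^ (1 / 2 : ℝ)) ^ (2 : ℝ) = Fx R₀ (u τ) (ξ τ) := by
    intro τ
    rw [← ENNReal.rpow_mul]
    norm_num
  simp_rw [e1] at h1
  rw [Measure.restrict_apply_univ, Real.volume_Ioo] at h1
  have e2 : s - (s - h) = h := by ring
  have e3 : (2 : ℝ) - 1 = 1 := by norm_num
  rw [e2, e3, ENNReal.rpow_one] at h1
  have h2 : (∫⁻ τ in Ioo (s - h) s, Fx R₀ (u τ) (ξ τ) ^ (1 / 2 : ℝ)) ^ (2 : ℝ)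
      ≤ ENNReal.ofReal η := by
    refine h1.trans ((mul_le_mul_right hI _).trans ?_)
    rw [← ENNReal.ofReal_mul hh.le]
    apply ENNReal.ofReal_le_ofReal
    rw [mul_div_cancel₀ _ hh.ne']
  have h3 := ENNReal.rpow_le_rpow h2 (show (0 : ℝ) ≤ 1 / 2 by norm_num)
  rw [← ENNReal.rpow_mul, ENNReal.ofReal_rpow_of_nonneg hη (by norm_num), ← Real.sqrt_eq_rpow] at h3
  norm_num at h3
  norm_num
  exact h3

/-- The limit along a path at a regular time. -/
lemma lim_pathO {H : Set ℝ} (hO : IsOpen H) {F : ℝ × V → ℝ} (hF : ContinuousOn F (H ×ˢ univ))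
    {s : ℝ} (hs : s ∈ H) {Y : ℝ → V} (hY : ContinuousAt Y s) {x : V} (hx : Y s = x) :
    Tendsto (fun τ => F (τ, Y τ)) (𝓝[<] s) (𝓝 (F (s, x))) := by
  have hc : ContinuousAt F (s, Y s) :=
    hF.continuousAt ((hO.prod isOpen_univ).mem_nhds ⟨hs, mem_univ _⟩)
  have h2 : ContinuousAt (fun τ => (τ, Y τ)) s := continuousAt_id.prodMk hY
  have h1 : ContinuousAt (fun τ => F (τ, Y τ)) s :=
    ContinuousAt.comp (f := fun τ : ℝ => (τ, Y τ)) (g := F) hc h2
  rw [← hx]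
  exact h1.tendsto.mono_left nhdsWithin_le_nhds

/-- Continuity of the second moment of the frame at the regular times. -/
lemma fr_contO {G : Set ℝ} (hO : IsOpen G) {u : ℝ → V → V}
    (hu : ContDiffOn ℝ ∞ (fun z : ℝ × V => u z.1 z.2) (G ×ˢ univ)) {α β : ℝ}
    (hαβ : α ≤ β) (hsub : Icc α β ⊆ G) {Y : ℝ → V} (hY : ContinuousOn Y (Icc α β)) (r : ℝ) :
    ContinuousOn (fun τ => A2 0 4 (fr r (u τ) (Y τ))) (Icc α β) := by
  obtain ⟨cl, hcl⟩ : ∃ cl : ℝ → ℝ, cl = fun t => max α (min β t) := ⟨_, rfl⟩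
  have hclc : Continuous cl := by rw [hcl]; fun_prop
  have hclm : ∀ t, cl t ∈ Icc α β := by
    intro t
    rw [hcl]
    exact ⟨le_max_left _ _, max_le hαβ (min_le_left _ _)⟩
  have hcleq : ∀ t ∈ Icc α β, cl t = t := by
    intro t ht
    rw [hcl]
    simp only
    rw [min_eq_right ht.2, max_eq_right ht.1]
  have hcl0 : ∀ t, cl t ∈ G := fun t => hsub (hclm t)
  have hYc : Continuous (fun t => Y (cl t)) := hY.comp_continuous hclc hclm
  have hF : ContinuousOn (fun z : ℝ × V => nsq (fr r (u (cl z.1)) (Y (cl z.1))) z.2)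
      (Ioo (α - 1) (β + 1) ×ˢ univ) := by
    apply Continuous.continuousOn
    have c1 : Continuous (fun z : ℝ × V => u (cl z.1) (Y (cl z.1) + r • z.2)) := by
      have h1 : Continuous (fun z : ℝ × V => (cl z.1, Y (cl z.1) + r • z.2)) :=
        (hclc.comp continuous_fst).prodMk
          ((hYc.comp continuous_fst).add (continuous_snd.const_smul r))
      exact ContinuousOn.comp_continuous (g := fun z : ℝ × V => u z.1 z.2)
        (f := fun z : ℝ × V => (cl z.1, Y (cl z.1) + r • z.2)) hu.continuousOn h1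
        (fun z => ⟨hcl0 _, mem_univ _⟩)
    have c2 : Continuous (fun z : ℝ × V => mo r (u (cl z.1)) (Y (cl z.1))) := by
      have h1 : Continuous (fun z : ℝ × V => (cl z.1, Y (cl z.1))) :=
        (hclc.comp continuous_fst).prodMk (hYc.comp continuous_fst)
      exact ContinuousOn.comp_continuous (g := fun z : ℝ × V => mo r (u z.1) z.2)
        (f := fun z : ℝ × V => (cl z.1, Y (cl z.1))) (mol_joint hO hu r).continuousOn h1
        (fun z => ⟨hcl0 _, mem_univ _⟩)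
    unfold nsq
    refine continuous_finsetSum _ fun i _ => ?_
    have c3 : Continuous (fun z : ℝ × V => u (cl z.1) (Y (cl z.1) + r • z.2) i) :=
      (continuous_apply i).comp c1
    have c4 : Continuous (fun z : ℝ × V => mo r (u (cl z.1)) (Y (cl z.1)) i) :=
      (continuous_apply i).comp c2
    exact (continuous_const.mul (c3.sub c4)).pow 2
  have h2 := W333.MD.t_PCONT (α - 1) (β + 1)
    (fun t z => nsq (fr r (u (cl t)) (Y (cl t))) z) 0 4 hF
  have h3 : Icc α β ⊆ Ioo (α - 1) (β + 1) := fun t ht => ⟨by linarith [ht.1], by linarith [ht.2]⟩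
  refine (h2.mono h3).congr fun t ht => ?_
  simp only [hcleq t ht]
  rfl

/-- Little oscillation along a path of the mollified velocity bounds all derivatives around it,
at a regular time. -/
theorem wloc7 (hD : S_WDER) : ∃ (η C : ℝ) (K : ℕ → ℝ), 0 < η ∧ 0 < C ∧ (∀ n, 0 < K n) ∧
    ∀ (T E D : ℝ) (G : Set ℝ) (u : ℝ → V → V) (p : ℝ → V → ℝ), Turb 1 T E D G u p →
      ∀ R₀ : ℝ, 0 < R₀ → ∀ (m N : ℕ) (s : ℝ), m + 4 ≤ N → sc R₀ m ≤ 1 →
      sc R₀ m ^ 2 < s → s ∈ G → ∀ (ξ ξ' : ℝ → V) (B B' : ℝ),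
      FPath T (sc R₀ N) B B' G u p ξ ξ' →
      ∫⁻ τ in Ioo (s - sc R₀ m ^ 2) s, Fx R₀ (u τ) (ξ τ) ≤ ENNReal.ofReal (η / sc R₀ m ^ 2) →
      ∀ F : ℝ, 0 ≤ F → Fx R₀ (u s) (ξ s) ≤ ENNReal.ofReal F →
      ∀ n, ∀ y ∈ ball (ξ s) (sc R₀ m / 256),
        (sc R₀ m / 16) ^ (2 * n + 4) * SV (n + 1) (u s) y
          ≤ K n * (1 + C * (sc R₀ m ^ 4 * F)) := by
  obtain ⟨ε, hε, Cl, hCl, hloc⟩ := hD
  obtain ⟨K₁, hK₁, hclose⟩ := t_WCLOSE
  obtain ⟨C₂, hC₂, hsmall⟩ := wsmall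
  obtain ⟨K₀, hK₀, hosc⟩ := osc
  obtain ⟨Kp, hKp, hpath⟩ := path_ex Pool.Agent.Y8.B.p_tcut Pool.Agent.Y8.B.p_acx
  obtain ⟨k, hk⟩ : ∃ k, k = K₀.toReal := ⟨_, rfl⟩
  have hk0 : 0 ≤ k := by rw [hk]; exact ENNReal.toReal_nonneg
  have hKk : K₀ = ENNReal.ofReal k := by rw [hk, ENNReal.ofReal_toReal hK₀]
  obtain ⟨η, hη, hη1, hη2, hη3⟩ : ∃ η : ℝ, 0 < η ∧ K₁ * √η ≤ 1 / 16 ∧ C₂ * η ≤ 1 ∧
      16 * (C₂ * η) ≤ ε := by
    refine ⟨min ((1 / (16 * K₁)) ^ 2) (min (1 / C₂) (ε / (16 * C₂))), by positivity, ?_, ?_, ?_⟩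
    · have h1 : √(min ((1 / (16 * K₁)) ^ 2) (min (1 / C₂) (ε / (16 * C₂)))) ≤ 1 / (16 * K₁) := by
        refine (Real.sqrt_le_sqrt (min_le_left _ _)).trans (le_of_eq ?_)
        exact Real.sqrt_sq (by positivity)
      calc K₁ * √(min ((1 / (16 * K₁)) ^ 2) (min (1 / C₂) (ε / (16 * C₂))))
          ≤ K₁ * (1 / (16 * K₁)) := by gcongr
        _ = 1 / 16 := by field_simp
    · calc C₂ * min ((1 / (16 * K₁)) ^ 2) (min (1 / C₂) (ε / (16 * C₂)))
          ≤ C₂ * (1 / C₂) := by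
            gcongr
            exact (min_le_right _ _).trans (min_le_left _ _)
        _ = 1 := by field_simp
    · calc 16 * (C₂ * min ((1 / (16 * K₁)) ^ 2) (min (1 / C₂) (ε / (16 * C₂))))
          ≤ 16 * (C₂ * (ε / (16 * C₂))) := by
            gcongr
            exact (min_le_right _ _).trans (min_le_right _ _)
        _ = ε := by field_simp
  refine ⟨η, 257 * k + 1, fun n => Cl (n + 1) + Cl n, hη, by positivity, fun n => by
    have := hCl n
    have := hCl (n + 1)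
    positivity, ?_⟩
  intro T E D G u p h R₀ hR₀ m N s hmN hsc1 hrs hsG ξ ξ' B B' hξ hI F hF hFx n y hy
  have hr := sc_pos hR₀ m
  have hu := h.smooth_u
  have hs := h.subG hsG
  have hsT : s < T := hs.2
  -- the two scales
  obtain ⟨r, hrd⟩ : ∃ r, r = sc R₀ m := ⟨_, rfl⟩
  obtain ⟨r', hr'd⟩ : ∃ r', r' = sc R₀ (m + 4) := ⟨_, rfl⟩
  have hrr : r' = r / 16 := by
    rw [hr'd, hrd, sc_add]
    norm_num
  have hr' : 0 < r' := by
    rw [hr'd]
    exact sc_pos hR₀ _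
  have hcl0 := hclose T E D G u p h R₀ hR₀ m N (by omega) s
  have hcl1 := hclose T E D G u p h R₀ hR₀ (m + 4) N (by omega) s
  have hsm := hsmall T E D G u p h R₀ hR₀ m s
  have hosc' := hosc R₀ hR₀ (u s) (sl_sm hu hsG) (m + 4) (ξ s) (ξ s)
  rw [← hrd] at hr hrs hI hy hsc1 hcl0 hsm ⊢
  rw [← hr'd] at hcl1 hosc'
  have hr'1 : r' ≤ 1 := by rw [hrr]; linarith
  have hr2 : 0 < r ^ 2 := by positivity
  have hα : 0 < s - r ^ 2 := by linarith
  have hs0 : 0 < s := hs.1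
  obtain ⟨C1, hC1, hp1⟩ := hpath E r hr hsc1
  obtain ⟨C1', hC1', hp1'⟩ := hpath E r' hr' hr'1
  obtain ⟨Y, Z, hYs, hY⟩ := hp1 T D G u p h s hs (ξ s)
  obtain ⟨Y', Z', hYs', hY'⟩ := hp1' T D G u p h s hs (ξ s)
  have hsubT : ∀ τ ∈ Icc (s - r ^ 2) s, τ ∈ Ioo 0 T := fun τ hτ =>
    ⟨hα.trans_le hτ.1, hτ.2.trans_lt hsT⟩
  have hξc : ContinuousOn ξ (Icc (s - r ^ 2) s) := fun τ hτ =>
    (hξ.hd τ (hsubT τ hτ)).continuousAt.continuousWithinAt
  have hYc : ∀ τ ∈ Ioo 0 T, ContinuousAt Y' τ := fun τ hτ => (hY'.hd τ hτ).continuousAt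
  -- the square root of the function along the path
  have hae : ∀ᵐ t : ℝ, t ∈ Ioo (0 : ℝ) T → t ∈ G := by
    have h1 := h.fullG
    rw [← compl_mem_ae_iff] at h1
    filter_upwards [h1] with t ht ht2
    by_contra h3
    exact ht ⟨ht2, h3⟩
  have hFm : AEMeasurable (fun τ => Fx R₀ (u τ) (ξ τ)) (volume.restrict (Ioo (s - r ^ 2) s)) := by
    have h1 : AEMeasurable (fun τ => Fx R₀ (u τ) (ξ τ)) (volume.restrict G) :=
      WS_meas R₀ h.openG hu (hξ.sm.continuousOn)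
    apply h1.mono_measure
    apply Measure.restrict_mono' _ le_rfl
    filter_upwards [hae] with t ht h3
    exact ht (hsubT t (Ioo_subset_Icc_self h3))
  have hhalf : ENNReal.ofReal K₁ * ∫⁻ τ in Ioo (s - r ^ 2) s, Fx R₀ (u τ) (ξ τ) ^ (1 / 2 : ℝ)
      ≤ ENNReal.ofReal (1 / 16) := by
    refine (mul_le_mul_right (halfO hr2 hη.le hFm hI) _).trans ?_
    rw [← ENNReal.ofReal_mul hK₁.le]
    exact ENNReal.ofReal_le_ofReal hη1
  have d0 := hcl0 (r ^ 2) hr2 hα hsT ξ ξ' Y Z _ _ _ _ hξ hY hYs hhalf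
  have d1 := hcl1 (r ^ 2) hr2 hα hsT ξ ξ' Y' Z' _ _ _ _ hξ hY' hYs' hhalf
  have hdis := hsm hrs hsT ξ Y Z _ _ hY
    (fun τ hτ => (d0 τ ⟨hτ.1, hτ.2.le⟩).trans (by linarith)) η hη hη2 hI
  -- the dissipation along the path at the smaller scale
  have hr'2 : r' ^ 2 = r ^ 2 / 256 := by
    rw [hrr]
    ring
  have hr's : r' ^ 2 < s := by rw [hr'2]; linarith
  have hα' : 0 < s - r' ^ 2 := by linarith
  have hB0 : ∀ τ, 0 ≤ B2 (Y τ) (r * (3 / 4)) (u τ) := fun τ => integral_nonneg fun x =>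
    Finset.sum_nonneg fun i _ => Finset.sum_nonneg fun j _ => sq_nonneg _
  obtain ⟨hInt, hEq⟩ := frame_mass (R := 8) (a := -1) h hr' hr's hsT hY' le_rfl (by norm_num)
  have hms : r'⁻¹ * ∫ τ in Ioo (s + r' ^ 2 * (-1)) s, B2 (Y' τ) (r' * 8) (u τ) ≤ ε := by
    have e0 : s + r' ^ 2 * (-1) = s - r' ^ 2 := by ring
    rw [e0]
    have j1 : IntegrableOn (fun τ => B2 (Y' τ) (r' * 8) (u τ)) (Ioo (s - r' ^ 2) s) := by
      refine (B2_mov_int h hY'.sm.continuousOn _).mono_set_ae ?_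
      filter_upwards [hae] with t ht h3
      exact ht ⟨by have := h3.1; linarith, h3.2.trans hsT⟩
    have j3 : IntegrableOn (fun τ => B2 (Y τ) (r * (3 / 4)) (u τ)) (Ioo (s - 9 / 16 * r ^ 2) s) := by
      refine (B2_mov_int h hY.sm.continuousOn _).mono_set_ae ?_
      filter_upwards [hae] with t ht h3
      exact ht ⟨by have := h3.1; linarith, h3.2.trans hsT⟩
    have hsub2 : Ioo (s - r' ^ 2) s ⊆ Ioo (s - 9 / 16 * r ^ 2) s :=
      Ioo_subset_Ioo_left (by rw [hr'2]; linarith)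
    have e1 : ∫ τ in Ioo (s - r' ^ 2) s, B2 (Y' τ) (r' * 8) (u τ)
        ≤ ∫ τ in Ioo (s - r' ^ 2) s, B2 (Y τ) (r * (3 / 4)) (u τ) := by
      apply setIntegral_mono_ae_restrict j1 (j3.mono_set hsub2)
      filter_upwards [ae_restrict_of_ae hae, ae_restrict_mem measurableSet_Ioo] with τ h5 hτ
      have hτG : τ ∈ G := h5 ⟨by have := hτ.1; linarith, hτ.2.trans hsT⟩
      have hτ2 : τ ∈ Ioc (s - r ^ 2) s := ⟨by
        have := hτ.1
        rw [hr'2] at this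
        linarith, hτ.2.le⟩
      apply Pool.Agent.Y458.NS.B2_mono (sl_sm hu hτG)
      apply ball_subset_ball'
      rw [dist_eq_norm]
      have h1 := d0 τ hτ2
      have h2 := d1 τ hτ2
      have h3 : ‖Y' τ - Y τ‖ ≤ ‖ξ τ - Y' τ‖ + ‖ξ τ - Y τ‖ := by
        have e : Y' τ - Y τ = (ξ τ - Y τ) - (ξ τ - Y' τ) := by abel
        rw [e]
        exact (norm_sub_le _ _).trans (by linarith)
      linarith
    have e2 : ∫ τ in Ioo (s - r' ^ 2) s, B2 (Y τ) (r * (3 / 4)) (u τ)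
        ≤ ∫ τ in Ioo (s - 9 / 16 * r ^ 2) s, B2 (Y τ) (r * (3 / 4)) (u τ) :=
      setIntegral_mono_set j3 (Eventually.of_forall fun τ => hB0 τ) hsub2.eventuallyLE
    calc r'⁻¹ * ∫ τ in Ioo (s - r' ^ 2) s, B2 (Y' τ) (r' * 8) (u τ)
        ≤ r'⁻¹ * (C₂ * η * r) := by
          gcongr
          exact (e1.trans e2).trans hdis
      _ = 16 * (C₂ * η) := by
          rw [hrr]
          field_simp
      _ ≤ ε := hη3
  -- the frame
  obtain ⟨k', hL⟩ := Pool.Agent.Y8.B.p_wfr2 T E D G u p h r' s hr' hr's hsT Y' Z' _ _ hY'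
  rw [← hEq] at hms
  have hall := hloc _ _ _ _ hL hInt hms
  -- the point
  obtain ⟨z, hz⟩ : ∃ z : V, z = r'⁻¹ • (y - ξ s) := ⟨_, rfl⟩
  have hyz : y = ξ s + r' • z := by
    rw [hz, smul_smul, mul_inv_cancel₀ hr'.ne', one_smul, add_sub_cancel]
  have hzb : z ∈ ball (0 : V) (1 / 16) := by
    rw [mem_ball, dist_eq_norm] at hy
    rw [hz, mem_ball_zero_iff, norm_smul, Real.norm_eq_abs, abs_of_pos (inv_pos.2 hr'),
      inv_mul_lt_iff₀ hr', hrr]
    linarith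
  have hr2' : 0 < r' ^ 2 := by positivity
  have hev : ∀ τ ∈ Ioo (s - r' ^ 2 / 32) s, τ ∈ G →
      r' ^ (2 * n + 4) * SV (n + 1) (u τ) (Y' τ + r' • z)
        ≤ Cl (n + 1) * (1 + A2 0 4 (fr r' (u τ) (Y' τ))) := by
    intro τ hτ hτG
    have htm : (τ - s) / r' ^ 2 ∈ Ioo (-1 / 32 : ℝ) 0 := by
      constructor
      · rw [lt_div_iff₀ hr2']
        linarith [hτ.1]
      · exact div_neg_of_neg_of_pos (by linarith [hτ.2]) hr2'
    have e1 : s + r' ^ 2 * ((τ - s) / r' ^ 2) = τ := by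
      field_simp
      ring
    have hv : ContDiff ℝ ∞ (u (s + r' ^ 2 * ((τ - s) / r' ^ 2))) := by
      rw [e1]
      exact sl_sm hu hτG
    have hmem : (τ - s) / r' ^ 2 ∈ {t | t ∈ Ioo (-1 : ℝ) 0 ∧ s + r' ^ 2 * t ∈ G} :=
      ⟨⟨by linarith [htm.1], htm.2⟩, by rw [e1]; exact hτG⟩
    have a2 := (hall (n + 1) _ hmem htm.1 z hzb).2
    have hfr := frvH h.subG hY' (t := (τ - s) / r' ^ 2) (by rw [e1]; exact hτG)
    rw [SV_frv n hv, hfr, e1] at a2
    exact a2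
  obtain ⟨d, hd, hball⟩ := Metric.isOpen_iff.1 h.openG s hsG
  rw [Real.ball_eq_Ioo] at hball
  have l1 : Tendsto (fun τ => r' ^ (2 * n + 4) * SV (n + 1) (u τ) (Y' τ + r' • z)) (𝓝[<] s)
      (𝓝 (r' ^ (2 * n + 4) * SV (n + 1) (u s) y)) := by
    apply Tendsto.const_mul
    exact lim_pathO h.openG (sv_jsO h.openG (n + 1) hu) hsG
      (Y := fun τ => Y' τ + r' • z) ((hYc s hs).add continuousAt_const) (by rw [hYs', ← hyz])
  have l2 : Tendsto (fun τ => Cl (n + 1) * (1 + A2 0 4 (fr r' (u τ) (Y' τ)))) (𝓝[<] s)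
      (𝓝 (Cl (n + 1) * (1 + A2 0 4 (fr r' (u s) (ξ s))))) := by
    apply Tendsto.const_mul
    apply Tendsto.const_add
    have hsub3 : Icc (s - d / 2) s ⊆ G := fun τ hτ =>
      hball ⟨by linarith [hτ.1], by linarith [hτ.2]⟩
    have c1 := fr_contO h.openG hu (show s - d / 2 ≤ s by linarith) hsub3
      (fun τ hτ => (hYc τ (h.subG (hsub3 hτ))).continuousWithinAt) r' s ⟨by linarith, le_rfl⟩
    rw [ContinuousWithinAt, hYs'] at c1
    refine c1.mono_left ?_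
    rw [nhdsWithin_le_iff]
    exact mem_of_superset (Ioo_mem_nhdsLT (show s - d / 2 < s by linarith)) Ioo_subset_Icc_self
  have key : r' ^ (2 * n + 4) * SV (n + 1) (u s) y
      ≤ Cl (n + 1) * (1 + A2 0 4 (fr r' (u s) (ξ s))) := by
    refine le_of_tendsto_of_tendsto l1 l2 ?_
    filter_upwards [Ioo_mem_nhdsLT (show s - r' ^ 2 / 32 < s by linarith),
      Ioo_mem_nhdsLT (show s - d < s by linarith)] with τ hτ hτ2
    exact hev τ hτ (hball ⟨hτ2.1, by linarith [hτ2.2]⟩)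
  -- the oscillation at the final time
  have hus := sl_sm hu hsG
  have hA : A2 0 4 (fr r' (u s) (ξ s)) ≤ 257 * (k * (r ^ 4 * F)) := by
    refine (Pool.Agent.W327.ME.A2_le (fr_smooth hus r' (ξ s))).trans ?_
    apply mul_le_mul_of_nonneg_left _ (by norm_num)
    rw [← ENNReal.ofReal_le_ofReal_iff (by positivity)]
    refine (hosc' (by rw [sub_self, norm_zero]; exact hr'.le)).trans ?_
    rw [hKk]
    refine (mul_le_mul_right (mul_le_mul_right hFx _) _).trans ?_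
    rw [← ENNReal.ofReal_mul (by positivity), ← ENNReal.ofReal_mul hk0]
    apply ENNReal.ofReal_le_ofReal
    have h4 : r' ^ 4 ≤ r ^ 4 := by
      apply pow_le_pow_left₀ hr'.le
      rw [hrr]
      linarith
    gcongr
  have hA0 : 0 ≤ r ^ 4 * F := by positivity
  rw [← hrr]
  refine key.trans ?_
  have c1 := hCl (n + 1)
  have c2 := hCl n
  have h5 : 1 + A2 0 4 (fr r' (u s) (ξ s)) ≤ 1 + (257 * k + 1) * (r ^ 4 * F) := by nlinarith
  have h6 : 0 ≤ 1 + (257 * k + 1) * (r ^ 4 * F) := by positivity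
  calc Cl (n + 1) * (1 + A2 0 4 (fr r' (u s) (ξ s)))
      ≤ Cl (n + 1) * (1 + (257 * k + 1) * (r ^ 4 * F)) := by gcongr
    _ ≤ (Cl (n + 1) + Cl n) * (1 + (257 * k + 1) * (r ^ 4 * F)) := by
        gcongr
        linarith

end Pool.Agent.Y8.WS
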