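import Pool.Agent.Y7.Reg7
import Pool.Agent.Y8.WLoc7

/-!
The regularity scale at a regular time of a weak solution, truncated at the scale of the
mollification (helper8, adapted from Pool.Agent.Y7.Reg7 of helper7).
-/

set_option autoImplicit false
set_option linter.unusedVariables false

open MeasureTheory Set Metric Filter Topology
open scoped ContDiff ENNReal NNReal

namespace Pool.Agent.Y8.WS

open H459R3.NS W221.NS Pool.Agent.Y7 Pool.Agent.Y8 Pool.Agent.Y8.WE Pool.Agent.Y458.NS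
open Pool.Agent.TH305.DR Pool.Agent.Y7.Cov1

/-- The regularity scale at a regular time, along a path of the mollified velocity. -/
theorem wpart (hD : S_WDER) : ∃ (η C : ℝ) (K : ℕ → ℝ), 0 < η ∧ 0 < C ∧ (∀ n, 0 < K n) ∧
    ∀ (T E D : ℝ) (G : Set ℝ) (u : ℝ → V → V) (p : ℝ → V → ℝ), Turb 1 T E D G u p →
      ∀ R₀ : ℝ, 0 < R₀ → sc R₀ 0 ≤ 1 → ∀ N : ℕ, 4 ≤ N →
      ∀ t ∈ G, ∀ (ξ ξ' : ℝ → V) (B B' : ℝ), FPath T (sc R₀ N) B B' G u p ξ ξ' →
      ∀ f : ℝ → ℝ≥0∞, (∀ τ ∈ G, f τ = Fx R₀ (u τ) (ξ τ)) →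
      min (Reg K 1 (u t) (ξ t)) (ENNReal.ofReal (1 / hh (sc R₀ 0 ^ 2) (N - 4) ^ 2))
        ≤ ENNReal.ofReal C * (ENNReal.ofReal (1 / sc R₀ 0 ^ 4)
        + ENNReal.ofReal (1 / t ^ 2)
        + (∑' j : ℕ, ENNReal.ofReal (1 / hh (sc R₀ 0 ^ 2) j ^ 2)
            * (bad f (sc R₀ 0 ^ 2) η j).indicator (fun _ => 1) t)
        + Fx R₀ (u t) (ξ t)) := by
  obtain ⟨η, C, K, hη, hC, hK, H⟩ := wloc7 hD
  refine ⟨η, 16 * 256 ^ 4 + 256 ^ 4 * C, K, hη, by positivity, hK, ?_⟩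
  intro T E D G u p h R₀ hR₀ hsc1 N hN t ht ξ ξ' B B' hξ f hf
  have ht0 : 0 < t := (h.subG ht).1
  have htT : t < T := (h.subG ht).2
  obtain ⟨h₀, hh₀⟩ : ∃ h₀, h₀ = sc R₀ 0 ^ 2 := ⟨_, rfl⟩
  have hsc := sc_pos hR₀ 0
  have h₀0 : 0 < h₀ := by rw [hh₀]; positivity
  have e4 : sc R₀ 0 ^ 4 = hh h₀ 0 ^ 2 := by
    rw [hh₀, ← sc_hh]
    ring
  rw [← hh₀]
  obtain ⟨S, hS⟩ : ∃ S, S = ∑' j : ℕ, ENNReal.ofReal (1 / hh h₀ j ^ 2)
      * (bad f h₀ η j).indicator (fun _ => 1) t := ⟨_, rfl⟩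
  rw [← hS]
  by_cases hFt : Fx R₀ (u t) (ξ t) = ⊤
  · rw [hFt]
    have : ENNReal.ofReal (16 * 256 ^ 4 + 256 ^ 4 * C) ≠ 0 := by
      rw [Ne, ENNReal.ofReal_eq_zero, not_le]
      positivity
    rw [add_top, ENNReal.mul_top this]
    exact le_top
  obtain ⟨F, hF⟩ : ∃ F, F = (Fx R₀ (u t) (ξ t)).toReal := ⟨_, rfl⟩
  have hF0 : 0 ≤ F := by rw [hF]; exact ENNReal.toReal_nonneg
  have hFF : Fx R₀ (u t) (ξ t) = ENNReal.ofReal F := by rw [hF, ENNReal.ofReal_toReal hFt]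
  have hae : ∀ᵐ τ : ℝ, τ ∈ Ioo (0 : ℝ) T → τ ∈ G := by
    have h1 := h.fullG
    rw [← compl_mem_ae_iff] at h1
    filter_upwards [h1] with τ hτ ht2
    by_contra h3
    exact hτ ⟨ht2, h3⟩
  by_cases hex : ∃ k, k ≤ N - 4 ∧ hh h₀ k < t ∧ t ∉ bad f h₀ η k
  · classical
    obtain ⟨k, hk⟩ : ∃ k, k = Nat.find hex := ⟨_, rfl⟩
    have hk1 : k ≤ N - 4 ∧ hh h₀ k < t ∧ t ∉ bad f h₀ η k := by rw [hk]; exact Nat.find_spec hex
    have hkm : ∀ j, j < k → ¬(j ≤ N - 4 ∧ hh h₀ j < t ∧ t ∉ bad f h₀ η j) := fun j hj =>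
      Nat.find_min hex (by rwa [← hk])
    obtain ⟨hkN, hk2, hk3⟩ := hk1
    have er : sc R₀ k ^ 2 = hh h₀ k := by rw [hh₀]; exact sc_hh R₀ k
    have hhk := hh_pos h₀0 k
    have hgood : ∫⁻ τ in Ioo (t - hh h₀ k) t, f τ ≤ ENNReal.ofReal (η / hh h₀ k) :=
      not_lt.1 hk3
    have hsck : sc R₀ k ≤ 1 := (sc_le hR₀ (Nat.zero_le k)).trans hsc1
    have hloc := H T E D G u p h R₀ hR₀ k N t (by omega) hsck (by rw [er]; exact hk2) ht ξ ξ' B B'
      hξ
      (by
        rw [er]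
        refine le_trans (le_of_eq ?_) hgood
        apply setLIntegral_congr_fun_ae measurableSet_Ioo
        filter_upwards [hae] with τ hτ hτ2
        exact (hf τ (hτ ⟨by linarith [hτ2.1], hτ2.2.trans htT⟩)).symm) F hF0 hFF.le
    have hreg := reg_of (sc_pos hR₀ k) hC hF0 hloc
    have e5 : sc R₀ k ^ 4 = hh h₀ k ^ 2 := by
      rw [← er]
      ring
    rw [e5] at hreg
    have hb : ENNReal.ofReal (256 ^ 4 / hh h₀ k ^ 2) ≤ ENNReal.ofReal (16 * 256 ^ 4)
        * (ENNReal.ofReal (1 / sc R₀ 0 ^ 4) + ENNReal.ofReal (1 / t ^ 2) + S) := by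
      rcases Nat.eq_zero_or_pos k with h0 | hpos
      · rw [h0, e4]
        calc ENNReal.ofReal (256 ^ 4 / hh h₀ 0 ^ 2)
            ≤ ENNReal.ofReal (16 * 256 ^ 4) * ENNReal.ofReal (1 / hh h₀ 0 ^ 2) := by
              rw [← ENNReal.ofReal_mul (by norm_num)]
              apply ENNReal.ofReal_le_ofReal
              rw [mul_one_div]
              have := hh_pos h₀0 0
              gcongr
              norm_num
          _ ≤ _ := by
              gcongr
              exact le_add_right le_self_add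
      · obtain ⟨j, hj⟩ : ∃ j, k = j + 1 := ⟨k - 1, by omega⟩
        have hjn := hkm j (by omega)
        have hhj := hh_pos h₀0 j
        have e6 : 256 ^ 4 / hh h₀ k ^ 2 = 16 * 256 ^ 4 * (1 / hh h₀ j ^ 2) := by
          have h7 := hh_succ (h₀ := h₀) j
          rw [← hj] at h7
          rw [h7]
          field_simp
          norm_num
        rw [e6, ENNReal.ofReal_mul (by norm_num)]
        by_cases hjb : t ∈ bad f h₀ η j
        · have h8 : ENNReal.ofReal (1 / hh h₀ j ^ 2) ≤ S := by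
            rw [hS]
            refine le_trans (le_of_eq ?_) (ENNReal.le_tsum j)
            rw [indicator_of_mem hjb, mul_one]
          gcongr
          exact h8.trans le_add_self
        · have h9 : t ≤ hh h₀ j := by
            by_contra hcon
            exact hjn ⟨by omega, not_le.1 hcon, hjb⟩
          have h10 : ENNReal.ofReal (1 / hh h₀ j ^ 2) ≤ ENNReal.ofReal (1 / t ^ 2) := by
            apply ENNReal.ofReal_le_ofReal
            gcongr
          gcongr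
          exact h10.trans (le_add_right le_add_self)
    refine (min_le_left _ _).trans (hreg.trans ?_)
    rw [mul_add]
    gcongr
    · refine hb.trans ?_
      gcongr
      have : 0 ≤ 256 ^ 4 * C := by positivity
      linarith
    · rw [hFF, ← ENNReal.ofReal_mul (by positivity)]
      apply ENNReal.ofReal_le_ofReal
      have : 0 ≤ 16 * 256 ^ 4 * F := by positivity
      linarith
  · push Not at hex
    refine (min_le_right _ _).trans ?_
    have hhN := hh_pos h₀0 (N - 4)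
    have h1C : (1 : ℝ≥0∞) ≤ ENNReal.ofReal (16 * 256 ^ 4 + 256 ^ 4 * C) := by
      rw [← ENNReal.ofReal_one]
      apply ENNReal.ofReal_le_ofReal
      have : 0 ≤ 256 ^ 4 * C := by positivity
      linarith
    have h2 : ENNReal.ofReal (1 / hh h₀ (N - 4) ^ 2) ≤ ENNReal.ofReal (1 / sc R₀ 0 ^ 4)
        + ENNReal.ofReal (1 / t ^ 2) + S + Fx R₀ (u t) (ξ t) := by
      by_cases hb : hh h₀ (N - 4) < t
      · have h3 := hex (N - 4) le_rfl hb
        have h8 : ENNReal.ofReal (1 / hh h₀ (N - 4) ^ 2) ≤ S := by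
          rw [hS]
          refine le_trans (le_of_eq ?_) (ENNReal.le_tsum (N - 4))
          rw [indicator_of_mem h3, mul_one]
        exact (h8.trans le_add_self).trans le_self_add
      · have h3 : t ≤ hh h₀ (N - 4) := not_lt.1 hb
        have h10 : ENNReal.ofReal (1 / hh h₀ (N - 4) ^ 2) ≤ ENNReal.ofReal (1 / t ^ 2) := by
          apply ENNReal.ofReal_le_ofReal
          gcongr
        exact ((h10.trans le_add_self).trans le_self_add).trans le_self_add
    calc ENNReal.ofReal (1 / hh h₀ (N - 4) ^ 2)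
        ≤ 1 * (ENNReal.ofReal (1 / sc R₀ 0 ^ 4) + ENNReal.ofReal (1 / t ^ 2) + S
          + Fx R₀ (u t) (ξ t)) := by rw [one_mul]; exact h2
      _ ≤ _ := mul_le_mul_left h1C _

end Pool.Agent.Y8.WS
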