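import Pool.Agent.Y7.Fin7
import Pool.Agent.Y8.WPart

/-!
The integral of the regularity scale for weak solutions (helper8, adapted from
Pool.Agent.Y7.Core7 and Pool.Agent.Y7.Fin7 of helper7).
-/

set_option autoImplicit false
set_option linter.unusedVariables false

open MeasureTheory Set Metric Filter Topology
open scoped ContDiff ENNReal NNReal

namespace Pool.Agent.Y8.WS

open H459R3.NS W221.NS Pool.Agent.Y7 Pool.Agent.Y8 Pool.Agent.Y8.WE Pool.Agent.Y458.NS
open Pool.Agent.TH305.DR Pool.Agent.TH305.LG Pool.Agent.Y7.Cov1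

/-- The flow of the mollified velocity and its inverse. -/
theorem wflow {T E D r : ℝ} {G : Set ℝ} {u : ℝ → V → V} {p : ℝ → V → ℝ}
    (h : Turb 1 T E D G u p) (hr : 0 < r) (hr1 : r ≤ 1) (hT : 0 < T) :
    ∃ (X : ℝ → V → V), (∀ a, ∃ (Y : ℝ → V) (B C : ℝ), FPath T r B C G u p (fun t => X t a) Y) ∧
      ContinuousOn (fun z : ℝ × V => X z.1 z.2) (Ioo 0 T ×ˢ univ) ∧
      (∀ t ∈ Ioo 0 T, ∀ x n, X t (x - iv n) = X t x - iv n) ∧
      (∀ s ∈ Ioo 0 T, ∀ g : V → ℝ≥0∞, Measurable g → (∀ (x : V) (n : K3), g (x - iv n) = g x) →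
        ∫⁻ a in cell, g (X s a) ≤ ∫⁻ a in cell, g a) ∧
      ∀ t ∈ Ioo 0 T, ∃ φ : V → V, Measurable φ ∧ (∀ y, X t (φ y) = y) ∧
        ∀ g : V → ℝ≥0∞, Measurable g → (∀ (x : V) (n : K3), g (x - iv n) = g x) →
          ∫⁻ y in cell, g (φ y) ≤ ∫⁻ a in cell, g a := by
  obtain ⟨K, hK, hfl⟩ := Pool.Agent.Y8.B.p_wfl
  obtain ⟨C, hC, hfl⟩ := hfl E r hr hr1
  have ht₀ : T / 2 ∈ Ioo 0 T := ⟨by linarith, by linarith⟩
  obtain ⟨X, Y, hX⟩ := hfl T D G u p h (T / 2) ht₀
  have hslice : ∀ (X' : ℝ → V → V), ContinuousOn (fun z : ℝ × V => X' z.1 z.2) (Ioo 0 T ×ˢ univ) →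
      ∀ t ∈ Ioo 0 T, Continuous (X' t) := fun X' hX' t ht =>
    continuousOn_univ.1 (hX'.comp (f := fun a : V => (t, a)) (by fun_prop)
      (fun a _ => ⟨ht, mem_univ _⟩))
  refine ⟨X, fun a => ⟨_, _, _, hX.path a⟩, hX.cont,
    fun t ht x n => flow_per h hr hr1 ht₀ hX n t ht x, ?_, ?_⟩
  · intro s hs g hg hgp
    exact cell_tr (hslice X hX.cont s hs).measurable (hX.meas s hs).le
      (fun y n => flow_per h hr hr1 ht₀ hX n s hs y) hg hgp
  · intro t ht
    obtain ⟨X', Y', hX'⟩ := hfl T D G u p h t ht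
    refine ⟨X' (T / 2), (hslice X' hX'.cont _ ht₀).measurable, fun y => ?_, fun g hg hgp => ?_⟩
    · have h1 := path_unique h hr hr1 (hX.path (X' (T / 2) y)) (hX'.path y) ht₀
        (by rw [hX.lab]) t ht
      rw [h1, hX'.lab]
    · exact cell_tr (hslice X' hX'.cont _ ht₀).measurable (hX'.meas _ ht₀).le
        (fun y n => flow_per h hr hr1 ht hX' n _ ht₀ y) hg hgp

/-- The function along the flow. -/
noncomputable def ffO (R₀ : ℝ) (G : Set ℝ) (u : ℝ → V → V) (F : ℝ → V → V) (z : ℝ × V) : ℝ≥0∞ :=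
  G.indicator (fun τ => Fx R₀ (u τ) (F τ z.2)) z.1

lemma ffO_meas (R₀ : ℝ) {T : ℝ} {G : Set ℝ} (hO : IsOpen G) (hG : G ⊆ Ioo 0 T) {u : ℝ → V → V}
    (hu : ContDiffOn ℝ ∞ (fun z : ℝ × V => u z.1 z.2) (G ×ˢ univ)) {F : ℝ → V → V}
    (hF : ContinuousOn (fun z : ℝ × V => F z.1 z.2) (Ioo 0 T ×ˢ univ)) :
    Measurable (ffO R₀ G u F) := by
  classical
  have hS : MeasurableSet (G ×ˢ (univ : Set V)) := hO.measurableSet.prod MeasurableSet.univ
  obtain ⟨F', hF'⟩ : ∃ F' : ℝ × V → V, F' = (G ×ˢ (univ : Set V)).piecewise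
      (fun z : ℝ × V => F z.1 z.2) (fun _ => 0) := ⟨_, rfl⟩
  have hF'm : Measurable F' := by
    rw [hF']
    exact ContinuousOn.measurable_piecewise (hF.mono (prod_mono hG subset_rfl))
      continuousOn_const hS
  have e : ffO R₀ G u F = (G ×ˢ (univ : Set V)).indicator
      (fun z : ℝ × V => FtO R₀ G u (z.1, F' z)) := by
    funext z
    unfold ffO
    by_cases hz : z.1 ∈ G
    · have hz2 : z ∈ G ×ˢ (univ : Set V) := ⟨hz, mem_univ _⟩
      rw [indicator_of_mem hz, indicator_of_mem hz2, FtO_eq R₀ u hz, hF', piecewise_eq_of_mem _ _ _ hz2]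
    · have hz2 : z ∉ G ×ˢ (univ : Set V) := fun h => hz h.1
      rw [indicator_of_notMem hz, indicator_of_notMem hz2]
  rw [e]
  exact ((FtO_meas R₀ hO hu).comp (measurable_fst.prodMk hF'm)).indicator hS

/-- The bound of the integral of the maximal function over the cell. -/
theorem FxP : ∃ A : ℝ, 0 < A ∧ ∀ v : V → V, ContDiff ℝ ∞ v → Per v →
    ∫⁻ y in cell, Fx 1 v y ≤ ENNReal.ofReal (A * 216) * ENNReal.ofReal (enstrophy v) := by
  obtain ⟨A, hA, hHL⟩ := FxL
  refine ⟨A, hA, ?_⟩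
  intro v hv hp
  obtain ⟨M, hM⟩ := per_bdd (T := 2) (u := fun _ => v) (a := 1) (b := 1)
    ((hv.comp contDiff_snd).contDiffOn) (fun t ht => hp) (by norm_num) (by norm_num)
  have hgm := gw_meas hv
  obtain ⟨g, hg⟩ : ∃ g : V → ℝ≥0∞, g = (ball (0 : V) 3).indicator (Sp.gw v) := ⟨_, rfl⟩
  have h6 := hHL 1 one_pos g (by rw [hg]; exact hgm.indicator measurableSet_ball)
    (ENNReal.ofReal (9 * M ^ 2) ^ (6 / 7 : ℝ))
    (ENNReal.rpow_ne_top_of_nonneg (by norm_num) ENNReal.ofReal_ne_top)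
    (fun x => by
      rw [hg]
      exact (indicator_le_self _ _ x).trans
        (gw_bd (fun x => (hM 1 ⟨le_rfl, le_rfl⟩ x).2) x))
  have h7 : ∫⁻ x, g x ^ (7 / 6 : ℝ) ≤ ENNReal.ofReal (216 * enstrophy v) := by
    refine le_trans (le_of_eq ?_)
      (W221.NS.B.p_pere _ ⟨hv, hp⟩)
    rw [← lintegral_indicator measurableSet_ball]
    refine lintegral_congr fun x => ?_
    rw [hg]
    by_cases hx : x ∈ ball (0 : V) 3
    · rw [indicator_of_mem hx, indicator_of_mem hx, gw_pow]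
      congr 1
      unfold gsq
      refine Finset.sum_congr rfl fun i _ => Finset.sum_congr rfl fun j _ => ?_
      congr 1
      refine pd_congr_open isOpen_ball (fun z hz => ?_) j hx
      show v z i = zt z • v z i
      rw [zt_one hz, one_smul]
    · rw [indicator_of_notMem hx, indicator_of_notMem hx,
        ENNReal.zero_rpow_of_pos (by norm_num)]
  have h8 : ∫⁻ y in cell, Fx 1 v y ≤ ∫⁻ x, Hl.Mx 1 g x ^ (7 / 6 : ℝ) := by
    rw [← lintegral_indicator meas_cell]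
    refine lintegral_mono fun x => ?_
    by_cases hx : x ∈ cell
    · rw [indicator_of_mem hx]
      unfold Fx Hl.Mx
      refine ENNReal.rpow_le_rpow (iSup_mono fun m => ?_) (by norm_num)
      refine ENNReal.div_le_div_right (le_of_eq ?_) _
      refine setLIntegral_congr_fun measurableSet_ball fun y hy => ?_
      rw [hg, indicator_of_mem]
      have h9 := Hl.Rr_le (R₀ := 1) one_pos m
      have h10 := cell_norm hx
      rw [mem_ball] at hy ⊢
      have h11 := dist_triangle y x 0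
      rw [dist_zero_right x] at h11
      linarith
    · rw [indicator_of_notMem hx]
      exact zero_le
  refine h8.trans (h6.trans ((mul_le_mul_right h7 _).trans (le_of_eq ?_)))
  rw [ENNReal.ofReal_mul (by norm_num : (0 : ℝ) ≤ 216), ← mul_assoc,
    ← ENNReal.ofReal_mul hA.le]

/-- The core estimate for weak solutions. -/
theorem wcore (hD : S_WDER) : ∃ (C : ℝ) (K : ℕ → ℝ), 0 < C ∧ (∀ n, 0 < K n) ∧
    ∀ (T E D : ℝ) (G : Set ℝ) (u : ℝ → V → V) (p : ℝ → V → ℝ), Turb 1 T E D G u p →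
      ∫⁻ t in G, ∫⁻ y in cell, (Reg K 1 (u t) y - ENNReal.ofReal (C * (1 + 1 / t ^ 2)))
        ≤ ENNReal.ofReal C * ∫⁻ t in G, ENNReal.ofReal (enstrophy (u t)) := by
  obtain ⟨η, C, K, hη, hC, hK, H⟩ := wpart hD
  obtain ⟨A, hA, hFx⟩ := FxP
  obtain ⟨s₀, hs₀⟩ : ∃ s₀, s₀ = 1 / sc 1 0 ^ 4 := ⟨_, rfl⟩
  have hsc1 := sc_pos one_pos 0
  have hs₀0 : 0 < s₀ := by rw [hs₀]; positivity
  have hsc2 : sc 1 0 ≤ 1 := by
    unfold sc Hl.Rr
    norm_num
  refine ⟨C * (s₀ + 1) + C * (16 / 3 / η + 1) * (A * 216), K, by positivity, hK, ?_⟩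
  intro T E D G u p h
  rcases le_or_gt T 0 with hT | hT
  · have hG : G = ∅ := by
      rw [← subset_empty_iff, ← Ioo_eq_empty (not_lt.2 hT)]
      exact h.subG
    rw [hG]
    simp
  have hu := h.smooth_u
  obtain ⟨h₀, hh₀⟩ : ∃ h₀, h₀ = sc 1 0 ^ 2 := ⟨_, rfl⟩
  have h₀0 : 0 < h₀ := by rw [hh₀]; positivity
  have hGm := h.openG.measurableSet
  have hFxm : ∀ t ∈ G, Measurable (Fx 1 (u t)) := fun t ht => Fx_meas 1 (sl_sm hu ht)
  have hFxp : ∀ t ∈ G, ∀ (x : V) (n : K3), Fx 1 (u t) (x - iv n) = Fx 1 (u t) x :=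
    fun t ht x n => Fx_per 1 (h.per_u t ht) x n
  -- the flows
  have hfl : ∀ N : ℕ, ∃ (X : ℝ → V → V), (∀ a, ∃ (Y : ℝ → V) (B C : ℝ),
      FPath T (sc 1 (N + 4)) B C G u p (fun t => X t a) Y) ∧
      ContinuousOn (fun z : ℝ × V => X z.1 z.2) (Ioo 0 T ×ˢ univ) ∧
      (∀ t ∈ Ioo 0 T, ∀ x n, X t (x - iv n) = X t x - iv n) ∧
      (∀ s ∈ Ioo 0 T, ∀ g : V → ℝ≥0∞, Measurable g → (∀ (x : V) (n : K3), g (x - iv n) = g x) →
        ∫⁻ a in cell, g (X s a) ≤ ∫⁻ a in cell, g a) ∧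
      ∀ t ∈ Ioo 0 T, ∃ φ : V → V, Measurable φ ∧ (∀ y, X t (φ y) = y) ∧
        ∀ g : V → ℝ≥0∞, Measurable g → (∀ (x : V) (n : K3), g (x - iv n) = g x) →
          ∫⁻ y in cell, g (φ y) ≤ ∫⁻ a in cell, g a := fun N =>
    wflow h (sc_pos one_pos _) ((sc_le one_pos (Nat.zero_le _)).trans hsc2) hT
  choose X hX1 hX2 hX3 hX4 hX5 using hfl
  obtain ⟨f, hf⟩ : ∃ f : ℕ → ℝ × V → ℝ≥0∞, f = fun N => ffO 1 G u (X N) := ⟨_, rfl⟩
  have hfm : ∀ N, Measurable (f N) := fun N => by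
    rw [hf]
    exact ffO_meas 1 h.openG h.subG hu (hX2 N)
  have hfp : ∀ N (τ : ℝ) (x : V) (n : K3), f N (τ, x - iv n) = f N (τ, x) := by
    intro N τ x n
    rw [hf]
    simp only
    unfold ffO
    by_cases hτ : τ ∈ G
    · rw [indicator_of_mem hτ, indicator_of_mem hτ]
      simp only
      rw [hX3 N τ (h.subG hτ), hFxp τ hτ]
    · rw [indicator_of_notMem hτ, indicator_of_notMem hτ]
  have hHm : ∀ N, Measurable (Hs (f N) h₀ η) := fun N => Hs_meas (hfm N) h₀ η
  have hHp : ∀ N t (x : V) (n : K3), Hs (f N) h₀ η (t, x - iv n) = Hs (f N) h₀ η (t, x) := by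
    intro N t x n
    have e : (fun τ => f N (τ, x - iv n)) = fun τ => f N (τ, x) := by
      funext τ
      exact hfp N τ x n
    unfold Hs
    simp only
    rw [e]
  -- the bound for each flow
  obtain ⟨g, hg⟩ : ∃ g : ℕ → ℝ → ℝ≥0∞, g = fun N t =>
      ENNReal.ofReal C * ((∫⁻ a in cell, Hs (f N) h₀ η (t, a)) + ∫⁻ y in cell, Fx 1 (u t) y) :=
    ⟨_, rfl⟩
  obtain ⟨θ, hθ⟩ : ∃ θ : ℝ → ℝ≥0∞, θ = fun t => ENNReal.ofReal
      ((C * (s₀ + 1) + C * (16 / 3 / η + 1) * (A * 216)) * (1 + 1 / t ^ 2)) := ⟨_, rfl⟩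
  have hpt : ∀ t ∈ G, ∫⁻ y in cell, (Reg K 1 (u t) y - θ t) ≤ liminf (fun N => g N t) atTop := by
    intro t ht
    have htT := h.subG ht
    have ht0 : 0 < t := htT.1
    have hφ : ∀ N, ∃ φ : V → V, Measurable φ ∧ (∀ y, X N t (φ y) = y) ∧
        ∀ g : V → ℝ≥0∞, Measurable g → (∀ (x : V) (n : K3), g (x - iv n) = g x) →
          ∫⁻ y in cell, g (φ y) ≤ ∫⁻ a in cell, g a := fun N => hX5 N t htT
    choose φ hφ0 hφ1 hφ2 using hφ
    have hy : ∀ y N, min (Reg K 1 (u t) y) (ENNReal.ofReal (1 / hh h₀ N ^ 2)) - θ t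
        ≤ ENNReal.ofReal C * (Hs (f N) h₀ η (t, φ N y) + Fx 1 (u t) y) := by
      intro y N
      obtain ⟨Y, B, C', hP⟩ := hX1 N (φ N y)
      have h3 := H T E D G u p h 1 one_pos hsc2 (N + 4) (by omega) t ht _ _ _ _ hP
        (fun τ => f N (τ, φ N y)) (fun τ hτ => by
          rw [hf]
          exact indicator_of_mem hτ _)
      simp only [hφ1] at h3
      rw [← hh₀] at h3
      have e1 : N + 4 - 4 = N := by omega
      rw [e1, ← hs₀] at h3
      rw [tsub_le_iff_left]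
      refine h3.trans ?_
      rw [add_assoc, mul_add, ← ENNReal.ofReal_add hs₀0.le (by positivity),
        ← ENNReal.ofReal_mul hC.le]
      refine add_le_add ?_ le_rfl
      rw [hθ]
      apply ENNReal.ofReal_le_ofReal
      have h12 : 0 ≤ 1 / t ^ 2 := by positivity
      have h13 : 0 ≤ s₀ * (1 / t ^ 2) := by positivity
      have h14 : 0 ≤ C * (16 / 3 / η + 1) * (A * 216) * (1 + 1 / t ^ 2) := by positivity
      calc C * (s₀ + 1 / t ^ 2) ≤ C * ((s₀ + 1) * (1 + 1 / t ^ 2)) := by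
            gcongr
            nlinarith
        _ ≤ (C * (s₀ + 1) + C * (16 / 3 / η + 1) * (A * 216)) * (1 + 1 / t ^ 2) := by nlinarith
    have hlim : Tendsto (fun N : ℕ => ENNReal.ofReal (1 / hh h₀ N ^ 2)) atTop (𝓝 ⊤) := by
      have l1 : Tendsto (fun N : ℕ => hh h₀ N) atTop (𝓝[>] 0) := by
        rw [tendsto_nhdsWithin_iff]
        refine ⟨?_, Eventually.of_forall fun N => hh_pos h₀0 N⟩
        have : (fun j : ℕ => hh h₀ j) = fun j => h₀ * (1 / 4) ^ j := by
          funext j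
          unfold hh
          rw [one_div, inv_pow]
          rfl
        rw [this]
        simpa using (tendsto_pow_atTop_nhds_zero_of_lt_one (by norm_num : (0 : ℝ) ≤ 1 / 4)
          (by norm_num)).const_mul h₀
      have l2 : Tendsto (fun N : ℕ => 1 / hh h₀ N ^ 2) atTop atTop := by
        have l3 : Tendsto (fun N : ℕ => (hh h₀ N)⁻¹ ^ 2) atTop atTop :=
          (tendsto_pow_atTop (by norm_num : (2 : ℕ) ≠ 0)).comp (tendsto_inv_nhdsGT_zero.comp l1)
        refine l3.congr fun N => ?_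
        rw [inv_pow, one_div]
      exact ENNReal.tendsto_ofReal_atTop.comp l2
    have hlow : ∀ y, Reg K 1 (u t) y - θ t
        ≤ liminf (fun N => ENNReal.ofReal C * (Hs (f N) h₀ η (t, φ N y) + Fx 1 (u t) y)) atTop := by
      intro y
      have l1 : Tendsto (fun N : ℕ => min (Reg K 1 (u t) y) (ENNReal.ofReal (1 / hh h₀ N ^ 2))
          - θ t) atTop (𝓝 (min (Reg K 1 (u t) y) ⊤ - θ t)) := by
        apply ENNReal.Tendsto.sub (tendsto_const_nhds.min hlim) tendsto_const_nhds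
        right
        rw [hθ]
        exact ENNReal.ofReal_ne_top
      rw [min_eq_left le_top] at l1
      rw [← l1.liminf_eq]
      exact liminf_le_liminf (Eventually.of_forall fun N => hy y N)
    calc ∫⁻ y in cell, (Reg K 1 (u t) y - θ t)
        ≤ ∫⁻ y in cell, liminf (fun N => ENNReal.ofReal C *
          (Hs (f N) h₀ η (t, φ N y) + Fx 1 (u t) y)) atTop := lintegral_mono hlow
      _ ≤ liminf (fun N => ∫⁻ y in cell, ENNReal.ofReal C *
          (Hs (f N) h₀ η (t, φ N y) + Fx 1 (u t) y)) atTop := by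
          apply lintegral_liminf_le
          intro N
          exact (((hHm N).comp (measurable_const.prodMk (hφ0 N))).add (hFxm t ht)).const_mul _
      _ ≤ liminf (fun N => g N t) atTop := by
          refine liminf_le_liminf (Eventually.of_forall fun N => ?_)
          simp only [hg]
          rw [lintegral_const_mul' _ _ ENNReal.ofReal_ne_top, lintegral_add_right _ (hFxm t ht)]
          have h4 : ∫⁻ y in cell, Hs (f N) h₀ η (t, φ N y) ≤ ∫⁻ a in cell, Hs (f N) h₀ η (t, a) :=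
            hφ2 N _ ((hHm N).comp (measurable_const.prodMk measurable_id)) (hHp N t)
          exact mul_le_mul_right (add_le_add_left h4 _) _
  -- measurability in time
  have hgt : ∀ N, Measurable (fun t : ℝ => ∫⁻ a in cell, Hs (f N) h₀ η (t, a)) := fun N =>
    Measurable.lintegral_prod_right' (f := Hs (f N) h₀ η) (hHm N)
  have hFt : AEMeasurable (fun t : ℝ => ∫⁻ y in cell, Fx 1 (u t) y) (volume.restrict G) := by
    have h1 : Measurable (fun t : ℝ => ∫⁻ y in cell, FtO 1 G u (t, y)) :=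
      Measurable.lintegral_prod_right' (f := FtO 1 G u) (FtO_meas 1 h.openG hu)
    refine h1.aemeasurable.congr ?_
    refine (ae_restrict_iff' hGm).2 (Eventually.of_forall fun t ht => ?_)
    refine lintegral_congr fun y => ?_
    exact FtO_eq 1 u ht y
  have hFle : ∫⁻ t in G, ∫⁻ y in cell, Fx 1 (u t) y
      ≤ ENNReal.ofReal (A * 216) * ∫⁻ t in G, ENNReal.ofReal (enstrophy (u t)) := by
    rw [← lintegral_const_mul' _ _ ENNReal.ofReal_ne_top]
    exact setLIntegral_mono' hGm fun t ht => hFx (u t) (sl_sm hu ht) (h.per_u t ht)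
  have hmain : ∀ N, ∫⁻ t in G, ∫⁻ a in cell, Hs (f N) h₀ η (t, a)
      ≤ ENNReal.ofReal (16 / 3 / η) * ∫⁻ t in G, ∫⁻ y in cell, Fx 1 (u t) y := by
    intro N
    calc ∫⁻ t in G, ∫⁻ a in cell, Hs (f N) h₀ η (t, a)
        ≤ ∫⁻ t, ∫⁻ a in cell, Hs (f N) h₀ η (t, a) := setLIntegral_le_lintegral _ _
      _ = ∫⁻ a in cell, ∫⁻ t, Hs (f N) h₀ η (t, a) :=
          lintegral_lintegral_swap (f := fun t a => Hs (f N) h₀ η (t, a)) (hHm N).aemeasurable
      _ ≤ ∫⁻ a in cell, ENNReal.ofReal (16 / 3 / η) * ∫⁻ τ, f N (τ, a) :=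
          lintegral_mono fun a => Hs_int (hfm N) h₀0 hη a
      _ = ENNReal.ofReal (16 / 3 / η) * ∫⁻ a in cell, ∫⁻ τ, f N (τ, a) := by
          rw [lintegral_const_mul' _ _ ENNReal.ofReal_ne_top]
      _ = ENNReal.ofReal (16 / 3 / η) * ∫⁻ τ, ∫⁻ a in cell, f N (τ, a) := by
          rw [lintegral_lintegral_swap (f := fun τ a => f N (τ, a)) (hfm N).aemeasurable]
      _ = ENNReal.ofReal (16 / 3 / η) * ∫⁻ τ in G, ∫⁻ a in cell, Fx 1 (u τ) (X N τ a) := by
          congr 1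
          rw [← lintegral_indicator hGm]
          refine lintegral_congr fun τ => ?_
          by_cases hτ : τ ∈ G
          · rw [indicator_of_mem hτ]
            refine lintegral_congr fun a => ?_
            rw [hf]
            exact indicator_of_mem hτ _
          · rw [indicator_of_notMem hτ]
            have : ∀ a, f N (τ, a) = 0 := by
              intro a
              rw [hf]
              exact indicator_of_notMem hτ _
            simp only [this, lintegral_zero]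
      _ ≤ ENNReal.ofReal (16 / 3 / η) * ∫⁻ t in G, ∫⁻ y in cell, Fx 1 (u t) y := by
          exact mul_le_mul_right (setLIntegral_mono' hGm fun τ hτ =>
            hX4 N τ (h.subG hτ) _ (hFxm τ hτ) (hFxp τ hτ)) _
  have hgN : ∀ N, ∫⁻ t in G, g N t ≤ ENNReal.ofReal (C * (16 / 3 / η + 1) * (A * 216))
      * ∫⁻ t in G, ENNReal.ofReal (enstrophy (u t)) := by
    intro N
    rw [hg]
    simp only
    rw [lintegral_const_mul' _ _ ENNReal.ofReal_ne_top, lintegral_add_left (hgt N)]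
    have h1 : ∫⁻ t in G, ∫⁻ a in cell, Hs (f N) h₀ η (t, a) ≤ ENNReal.ofReal (16 / 3 / η) *
        (ENNReal.ofReal (A * 216) * ∫⁻ t in G, ENNReal.ofReal (enstrophy (u t))) :=
      (hmain N).trans (mul_le_mul_right hFle _)
    refine (mul_le_mul_right (add_le_add h1 hFle) _).trans (le_of_eq ?_)
    rw [ENNReal.ofReal_mul (show (0 : ℝ) ≤ C * (16 / 3 / η + 1) by positivity),
      ENNReal.ofReal_mul hC.le, ENNReal.ofReal_add (by positivity) zero_le_one, ENNReal.ofReal_one]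
    ring
  have hfin : ∫⁻ t in G, ∫⁻ y in cell, (Reg K 1 (u t) y - θ t)
      ≤ ENNReal.ofReal (C * (16 / 3 / η + 1) * (A * 216))
          * ∫⁻ t in G, ENNReal.ofReal (enstrophy (u t)) := by
    calc ∫⁻ t in G, ∫⁻ y in cell, (Reg K 1 (u t) y - θ t)
        ≤ ∫⁻ t in G, liminf (fun N => g N t) atTop := setLIntegral_mono' hGm hpt
      _ ≤ liminf (fun N => ∫⁻ t in G, g N t) atTop := by
          apply lintegral_liminf_le'
          intro N
          rw [hg]
          exact ((hgt N).aemeasurable.add hFt).const_mul _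
      _ ≤ liminf (fun _ : ℕ => ENNReal.ofReal (C * (16 / 3 / η + 1) * (A * 216))
            * ∫⁻ t in G, ENNReal.ofReal (enstrophy (u t))) atTop :=
          liminf_le_liminf (Eventually.of_forall hgN)
      _ = _ := liminf_const _
  rw [hθ] at hfin
  refine hfin.trans ?_
  refine mul_le_mul_left (ENNReal.ofReal_le_ofReal ?_) _
  have : 0 ≤ C * (s₀ + 1) := by positivity
  linarith

end Pool.Agent.Y8.WS
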