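import Pool.Agent.Y7.Der8
import Pool.Agent.Y8.WCore
import Pool.Agent.Y8.Asm3

/-!
The integral of the regularity scale for weak solutions: all viscosities, all derivatives
(helper8, adapted from Pool.Agent.Y7.End7 of helper7).
-/

set_option autoImplicit false
set_option linter.unusedVariables false

open MeasureTheory Set Metric Filter Topology
open scoped ContDiff ENNReal NNReal

namespace Pool.Agent.Y8.WS

open H459R3.NS W221.NS Pool.Agent.Y7 Pool.Agent.Y8 Pool.Agent.Y8.WE Pool.Agent.Y458.NS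
open Pool.Agent.TH305.DR Pool.Agent.TH305.LG Pool.Agent.Y7.Cov1

lemma G_ae {ν T E D : ℝ} {G : Set ℝ} {u : ℝ → V → V} {p : ℝ → V → ℝ} (h : Turb ν T E D G u p)
    (f : ℝ → ℝ≥0∞) : ∫⁻ t in G, f t = ∫⁻ t in Ioo 0 T, f t := by
  apply setLIntegral_congr
  have h1 : ∀ᵐ t : ℝ, t ∉ Ioo 0 T \ G := measure_eq_zero_iff_ae_notMem.1 h.fullG
  filter_upwards [h1] with t ht
  apply propext
  constructor
  · intro h2
    exact h.subG h2
  · intro h2
    by_contra h3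
    exact ht ⟨h2, h3⟩

/-- All viscosities. -/
theorem wcoreN (hD : S_WDER) : ∃ (C : ℝ) (K : ℕ → ℝ), 0 < C ∧ (∀ n, 0 < K n) ∧
    ∀ (ν T E D : ℝ) (G : Set ℝ) (u : ℝ → V → V) (p : ℝ → V → ℝ), 0 < ν → Turb ν T E D G u p →
      ∫⁻ t in Ioo 0 T, ∫⁻ x in cube, (RegI K ν (u t) x
          - ENNReal.ofReal (C * (1 + 1 / (ν * t) ^ 2)))
        ≤ ENNReal.ofReal (C / ν ^ 2) * ∫⁻ t in G, ENNReal.ofReal (enstrophy (u t)) := by
  obtain ⟨D₀, K, hD₀, hK, H⟩ := wcore hD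
  refine ⟨D₀, fun n => √(3 ^ (n + 2) * K n), hD₀, fun n => by
    have := hK n
    positivity, ?_⟩
  intro ν T E D G u p hν h
  have hS1 := (Pool.Agent.Y8.B.p_wscal ν T E D G u p hν h).1
  have h1 := H (ν * T) (E / ν) (D / ν) _ _ _ hS1
  rw [G_ae hS1, G_ae hS1] at h1
  have h2 : ∫⁻ t in Ioo 0 T, ∫⁻ y in cell, (Reg K 1 (fun x => ν⁻¹ • u t x) y
      - ENNReal.ofReal (D₀ * (1 + 1 / (ν * t) ^ 2))) ≤ ENNReal.ofReal D₀ * ∫⁻ t in Ioo 0 T,
        ENNReal.ofReal (enstrophy (fun x => ν⁻¹ • u t x)) := by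
    refine visc hν ?_
    refine le_trans (le_of_eq ?_) h1
    refine lintegral_congr fun t => lintegral_congr fun y => ?_
    rw [mul_div_cancel₀ t hν.ne']
  calc ∫⁻ t in Ioo 0 T, ∫⁻ x in cube, (RegI (fun n => √(3 ^ (n + 2) * K n)) ν (u t) x
        - ENNReal.ofReal (D₀ * (1 + 1 / (ν * t) ^ 2)))
      = ∫⁻ t in G, ∫⁻ x in cube, (RegI (fun n => √(3 ^ (n + 2) * K n)) ν (u t) x
        - ENNReal.ofReal (D₀ * (1 + 1 / (ν * t) ^ 2))) := (G_ae h _).symm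
    _ ≤ ∫⁻ t in G, ∫⁻ y in cell, (Reg K 1 (fun x => ν⁻¹ • u t x) y
          - ENNReal.ofReal (D₀ * (1 + 1 / (ν * t) ^ 2))) := by
        refine setLIntegral_mono' h.openG.measurableSet fun t ht => ?_
        rw [cube_eq]
        refine lintegral_mono fun y => ?_
        exact tsub_le_tsub_right (regB hK hν (sl_sm h.smooth_u ht) y) _
    _ = ∫⁻ t in Ioo 0 T, ∫⁻ y in cell, (Reg K 1 (fun x => ν⁻¹ • u t x) y
          - ENNReal.ofReal (D₀ * (1 + 1 / (ν * t) ^ 2))) := G_ae h _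
    _ ≤ ENNReal.ofReal D₀ * ∫⁻ t in Ioo 0 T,
        ENNReal.ofReal (enstrophy (fun x => ν⁻¹ • u t x)) := h2
    _ = ENNReal.ofReal D₀ * (ENNReal.ofReal (ν⁻¹ ^ 2) *
          ∫⁻ t in Ioo 0 T, ENNReal.ofReal (enstrophy (u t))) := by
        have e3 : ∀ t, ENNReal.ofReal (enstrophy (fun x => ν⁻¹ • u t x))
            = ENNReal.ofReal (ν⁻¹ ^ 2) * ENNReal.ofReal (enstrophy (u t)) := by
          intro t
          rw [← ENNReal.ofReal_mul (by positivity), enst_smul]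
        simp only [e3]
        rw [lintegral_const_mul' _ _ ENNReal.ofReal_ne_top]
    _ = ENNReal.ofReal (D₀ / ν ^ 2) * ∫⁻ t in G, ENNReal.ofReal (enstrophy (u t)) := by
        rw [G_ae h, ← mul_assoc, ← ENNReal.ofReal_mul hD₀.le]
        congr 2
        field_simp

/-- The final statement for weak solutions. -/
theorem wfinal (hD : S_WDER) : ∃ (C : ℝ) (K : ℕ → ℝ), 0 < C ∧ (∀ n, 0 < K n) ∧
    ∀ (ν T E D : ℝ) (G : Set ℝ) (u : ℝ → V → V) (p : ℝ → V → ℝ), 0 < ν → Turb ν T E D G u p →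
      ∫⁻ t in Ioo 0 T, ∫⁻ x in cube, (invSc 4 1 K ν (u t) x
          - ENNReal.ofReal (C * (1 + 1 / (ν * t) ^ 2)))
        ≤ ENNReal.ofReal (C / ν ^ 2 * D) ∧
      ∀ (n : ℕ) (t₀ : ℝ), 0 < t₀ → t₀ < T →
        ∫⁻ t in Ioo t₀ T, ∫⁻ x in cube, ENNReal.ofReal (‖iteratedFDeriv ℝ (n + 1) (u t) x‖
          ^ (4 / (n + 2) : ℝ)) ≤ ENNReal.ofReal (C * (K n * ν) ^ (4 / (n + 2) : ℝ) *
            (D / ν ^ 2 + T + 1 / (ν ^ 2 * t₀))) := by
  obtain ⟨C, K, hC, hK, H⟩ := wcoreN hD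
  refine ⟨C, K, hC, hK, ?_⟩
  intro ν T E D G u p hν h
  have hens : ∫⁻ t in G, ENNReal.ofReal (enstrophy (u t)) ≤ ENNReal.ofReal D := by
    have h0 : ∀ t, 0 ≤ enstrophy (u t) := fun t => Finset.sum_nonneg fun i _ =>
      Finset.sum_nonneg fun j _ => integral_nonneg fun x => sq_nonneg _
    rw [← ofReal_integral_eq_lintegral_ofReal h.enst_int (Eventually.of_forall h0)]
    exact ENNReal.ofReal_le_ofReal h.enst_le
  have hD0 : 0 ≤ D := by
    refine le_trans ?_ h.enst_le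
    exact integral_nonneg fun t => Finset.sum_nonneg fun i _ =>
      Finset.sum_nonneg fun j _ => integral_nonneg fun x => sq_nonneg _
  have h1 : ∫⁻ t in Ioo 0 T, ∫⁻ x in cube, (RegI K ν (u t) x
          - ENNReal.ofReal (C * (1 + 1 / (ν * t) ^ 2))) ≤ ENNReal.ofReal (C / ν ^ 2 * D) := by
    rw [ENNReal.ofReal_mul (by positivity)]
    exact (H ν T E D G u p hν h).trans (mul_le_mul_right hens _)
  refine ⟨h1, ?_⟩
  intro n t₀ ht₀ hT
  have h5 := to_der hν hC.le zero_le_one h1 n (hK n) ht₀ (subset_rfl)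
  refine h5.trans ?_
  have hKν : 0 ≤ (K n * ν) ^ (4 / (n + 2) : ℝ) :=
    Real.rpow_nonneg (mul_nonneg (hK n).le hν.le) _
  have hT0 : 0 < T := ht₀.trans hT
  rw [cube_vol, mul_one, ← ENNReal.ofReal_add (by positivity) (by positivity),
    ← ENNReal.ofReal_mul hKν]
  apply ENNReal.ofReal_le_ofReal
  apply le_of_eq
  ring

end Pool.Agent.Y8.WS
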