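import Mathlib

/-!
Comparison of two paths, as long as they stay close (helper8).
-/

set_option autoImplicit false
set_option linter.unusedVariables false
set_option linter.unusedSectionVars false

open Set Metric Filter Topology

namespace Pool.Agent.Y8.WS

variable {E : Type*} [NormedAddCommGroup E] [NormedSpace ℝ E]

lemma gb_le {Λ ε x y : ℝ} (hΛ : 0 < Λ) (hε : 0 ≤ ε) (hxy : x ≤ y) :
    gronwallBound 0 Λ ε x ≤ ε / Λ * Real.exp (Λ * y) := by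
  rw [gronwallBound_of_K_ne_0 hΛ.ne']
  simp only [zero_mul, zero_add]
  have h1 : Real.exp (Λ * x) ≤ Real.exp (Λ * y) := by
    apply Real.exp_le_exp.2
    gcongr
  gcongr
  linarith

/-- Forward in time. -/
theorem fwd {a b L ρ Λ ε : ℝ} {w w' : ℝ → E} (hab : a ≤ b) (hL : b - a ≤ L) (hΛ : 0 < Λ)
    (hε : 0 ≤ ε)
    (hc : ContinuousOn w (Icc a b)) (hd : ∀ t ∈ Ico a b, HasDerivWithinAt w (w' t) (Ici t) t)
    (h0 : w a = 0) (hb : ∀ t ∈ Ico a b, ‖w t‖ < ρ → ‖w' t‖ ≤ Λ * ‖w t‖ + ε)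
    (hsm : ε / Λ * Real.exp (Λ * L) < ρ) : ∀ t ∈ Icc a b, ‖w t‖ ≤ ε / Λ * Real.exp (Λ * L) := by
  have key : ∀ t ∈ Icc a b, ‖w t‖ < ρ := by
    by_contra hcon
    push Not at hcon
    obtain ⟨t, ht, htρ⟩ := hcon
    obtain ⟨S, hS⟩ : ∃ S, S = {t | t ∈ Icc a b ∧ ρ ≤ ‖w t‖} := ⟨_, rfl⟩
    have hSc : IsCompact S := by
      rw [hS]
      have h1 : IsClosed (Icc a b ∩ (fun t => ‖w t‖) ⁻¹' Ici ρ) :=
        hc.norm.preimage_isClosed_of_isClosed isClosed_Icc isClosed_Ici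
      exact isCompact_Icc.of_isClosed_subset h1 inter_subset_left
    have hSn : S.Nonempty := ⟨t, by rw [hS]; exact ⟨ht, htρ⟩⟩
    have hm := hSc.sInf_mem hSn
    obtain ⟨c, hcd⟩ : ∃ c, c = sInf S := ⟨_, rfl⟩
    rw [← hcd] at hm
    have hlt : ∀ s ∈ Ico a c, ‖w s‖ < ρ := by
      intro s hs
      by_contra h1
      have h2 : s ∈ S := by
        rw [hS] at hm ⊢
        exact ⟨⟨hs.1, hs.2.le.trans hm.1.2⟩, not_lt.1 h1⟩
      have h3 : c ≤ s := by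
        rw [hcd]
        exact csInf_le hSc.bddBelow h2
      exact absurd hs.2 (not_lt.2 h3)
    rw [hS] at hm
    obtain ⟨⟨hac, hcb⟩, hcρ⟩ := hm
    have h4 := norm_le_gronwallBound_of_norm_deriv_right_le (f := w) (f' := w') (δ := 0) (K := Λ)
      (ε := ε) (a := a) (b := c) (hc.mono (Icc_subset_Icc_right hcb))
      (fun t ht => hd t ⟨ht.1, ht.2.trans_le hcb⟩) (by rw [h0, norm_zero])
      (fun t ht => hb t ⟨ht.1, ht.2.trans_le hcb⟩ (hlt t ht)) c ⟨hac, le_rfl⟩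
    have h5 := gb_le hΛ hε (show c - a ≤ L by linarith)
    linarith
  intro t ht
  have h4 := norm_le_gronwallBound_of_norm_deriv_right_le (f := w) (f' := w') (δ := 0) (K := Λ)
    (ε := ε) (a := a) (b := b) hc hd (by rw [h0, norm_zero])
    (fun t ht => hb t ht (key t (Ico_subset_Icc_self ht))) t ht
  exact h4.trans (gb_le hΛ hε (by linarith [ht.2]))

/-- Comparison of two paths. -/
theorem cmp {T δ t₁ ρ Λ ε : ℝ} {w w' : ℝ → E} (hδ : 0 ≤ δ) (ht₁ : t₁ ∈ Ioo δ T) (hΛ : 0 < Λ)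
    (hε : 0 ≤ ε) (hd : ∀ t ∈ Ioo δ T, HasDerivAt w (w' t) t)
    (h0 : w t₁ = 0) (hb : ∀ t ∈ Ioo δ T, ‖w t‖ < ρ → ‖w' t‖ ≤ Λ * ‖w t‖ + ε)
    (hsm : ε / Λ * Real.exp (Λ * T) < ρ) : ∀ t ∈ Ioo δ T, ‖w t‖ ≤ ε / Λ * Real.exp (Λ * T) := by
  intro t ht
  rcases le_total t₁ t with h1 | h1
  · have hsub : ∀ s ∈ Icc t₁ t, s ∈ Ioo δ T := fun s hs =>
      ⟨ht₁.1.trans_le hs.1, hs.2.trans_lt ht.2⟩
    refine fwd (a := t₁) (b := t) (L := T) (w' := w') h1 (by linarith [ht.2, ht₁.1]) hΛ hε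
      (fun s hs => (hd s (hsub s hs)).continuousAt.continuousWithinAt)
      (fun s hs => (hd s (hsub s (Ico_subset_Icc_self hs))).hasDerivWithinAt) h0
      (fun s hs => hb s (hsub s (Ico_subset_Icc_self hs))) hsm t ⟨h1, le_rfl⟩
  · have hsub : ∀ s ∈ Icc (-t₁) (-t), -s ∈ Ioo δ T := fun s hs =>
      ⟨by linarith [ht.1, hs.2], by linarith [ht₁.2, hs.1]⟩
    have hd2 : ∀ s ∈ Icc (-t₁) (-t), HasDerivAt (fun s => w (-s)) (-w' (-s)) s := by
      intro s hs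
      have h3 := (hd (-s) (hsub s hs)).scomp s (hasDerivAt_neg s)
      rw [neg_smul, one_smul] at h3
      exact h3
    have h4 := fwd (a := -t₁) (b := -t) (L := T) (w := fun s => w (-s)) (w' := fun s => -w' (-s))
      (ρ := ρ) (by linarith) (by linarith [ht₁.2, ht.1]) hΛ hε
      (fun s hs => (hd2 s hs).continuousAt.continuousWithinAt)
      (fun s hs => (hd2 s (Ico_subset_Icc_self hs)).hasDerivWithinAt)
      (by simpa using h0)
      (fun s hs => by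
        rw [norm_neg]
        exact hb (-s) (hsub s (Ico_subset_Icc_self hs))) hsm (-t) ⟨by linarith, le_rfl⟩
    simpa using h4

/-- The inequality at a dense set of times implies the one at all times. -/
theorem dense_ext {δ T ρ Λ ε : ℝ} {G : Set ℝ} (hG : Ioo δ T ⊆ closure (Ioo δ T ∩ G))
    {w w' : ℝ → E} (hw : ContinuousOn w (Ioo δ T)) (hw' : ContinuousOn w' (Ioo δ T))
    (hb : ∀ t ∈ Ioo δ T, t ∈ G → ‖w t‖ < ρ → ‖w' t‖ ≤ Λ * ‖w t‖ + ε) :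
    ∀ t ∈ Ioo δ T, ‖w t‖ < ρ → ‖w' t‖ ≤ Λ * ‖w t‖ + ε := by
  intro t ht hρ
  have hne : (𝓝[Ioo δ T ∩ G] t).NeBot := mem_closure_iff_nhdsWithin_neBot.1 (hG ht)
  have c1 : Tendsto (fun t => ‖w' t‖) (𝓝[Ioo δ T ∩ G] t) (𝓝 ‖w' t‖) :=
    ((hw' t ht).mono inter_subset_left).norm
  have c2 : Tendsto (fun t => ‖w t‖) (𝓝[Ioo δ T ∩ G] t) (𝓝 ‖w t‖) :=
    ((hw t ht).mono inter_subset_left).norm
  refine le_of_tendsto_of_tendsto c1 ((c2.const_mul Λ).add_const ε) ?_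
  filter_upwards [c2.eventually (gt_mem_nhds hρ), self_mem_nhdsWithin] with s h1 h2
  exact hb s h2.1 h2.2 h1

end Pool.Agent.Y8.WS
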