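import Pool.Agent.Y8.WTube
import Pool.Agent.Y8.WCmp

/-!
Convergence of the paths of the mollified velocities of a weak solution (helper8).
-/

set_option autoImplicit false
set_option linter.unusedVariables false

open MeasureTheory Set Metric Filter Topology
open scoped ContDiff ENNReal NNReal

namespace Pool.Agent.Y8.WS

open H459R3.NS W221.NS Pool.Agent.Y7 Pool.Agent.Y8 Pool.Agent.Y8.WE Pool.Agent.Y458.NS
open Pool.Agent.TH305.DR Pool.Agent.Y7.Cov1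

/-- `ξ` is continuously differentiable on `(0, T)` and follows the velocity at the regular
times. -/
def IsPathW (T : ℝ) (G : Set ℝ) (u : ℝ → V → V) (ξ : ℝ → V) : Prop :=
  ∃ ξ' : ℝ → V, ContinuousOn ξ' (Ioo 0 T) ∧ (∀ t ∈ Ioo 0 T, HasDerivAt ξ (ξ' t) t) ∧
    ∀ t ∈ G, ξ' t = u t (ξ t)

lemma dense_Gδ {T E D δ : ℝ} {G : Set ℝ} {u : ℝ → V → V} {p : ℝ → V → ℝ}
    (h : Turb 1 T E D G u p) (hδ : 0 ≤ δ) : Ioo δ T ⊆ closure (Ioo δ T ∩ G) := by
  intro t ht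
  rw [_root_.mem_closure_iff]
  intro O hO htO
  have hT : 0 < T := hδ.trans_lt (ht.1.trans ht.2)
  have h1 := dense_G hT h.fullG
  have h2 : t ∈ closure (Ioo 0 T ∩ G) := h1 ⟨hδ.trans ht.1.le, ht.2.le⟩
  rw [_root_.mem_closure_iff] at h2
  obtain ⟨s, hs1, hs2⟩ := h2 (O ∩ Ioo δ T) (hO.inter isOpen_Ioo) ⟨htO, ht⟩
  exact ⟨s, hs1.1, hs1.2, hs2.2⟩

/-- Comparison of a path in a tube with another path. -/
theorem near {T E D δ t₁ ρ Λ : ℝ} {G : Set ℝ} {u : ℝ → V → V} {p : ℝ → V → ℝ}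
    (h : Turb 1 T E D G u p) (hδ : 0 < δ) (ht₁ : t₁ ∈ Ioo δ T) (hΛ : 0 < Λ) {N : ℕ}
    (hN1 : 2 * sc 1 N * Real.exp (Λ * T) < ρ / 2) (hN : sc 1 N ≤ ρ / 2) {ξ ξ' : ℝ → V} {B B' : ℝ}
    (hξ : FPath T (sc 1 N) B B' G u p ξ ξ')
    (hlip : ∀ t ∈ G, δ ≤ t → ∀ x ∈ ball (ξ t) ρ, ∀ y ∈ ball (ξ t) ρ,
      ‖u t x - u t y‖ ≤ Λ * ‖x - y‖) {ζ ζ' : ℝ → V} (hζc : ContinuousOn ζ' (Ioo 0 T))
    (hζ : ∀ t ∈ Ioo 0 T, HasDerivAt ζ (ζ' t) t)
    (hζ2 : ∀ t ∈ G, δ ≤ t → ζ t ∈ ball (ξ t) (ρ / 2) → ‖ζ' t - u t (ζ t)‖ ≤ Λ * sc 1 N)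
    (h0 : ζ t₁ = ξ t₁) :
    (∀ t ∈ Ioo δ T, ‖ζ t - ξ t‖ ≤ 2 * sc 1 N * Real.exp (Λ * T)) ∧
    ∀ t ∈ Ioo δ T, ‖ζ' t - ξ' t‖ ≤ Λ * (2 * sc 1 N * Real.exp (Λ * T)) + 2 * Λ * sc 1 N := by
  have hs := sc_pos one_pos N
  have hT : 0 < T := hδ.trans (ht₁.1.trans ht₁.2)
  have hsub : Ioo δ T ⊆ Ioo 0 T := Ioo_subset_Ioo_left hδ.le
  have hρ : 0 < ρ := by linarith
  have hξc := path_cont hT h hξ
  have hwc : ContinuousOn (fun t => ζ t - ξ t) (Ioo δ T) := fun t ht =>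
    ((hζ t (hsub ht)).continuousAt.sub (hξ.hd t (hsub ht)).continuousAt).continuousWithinAt
  have hb := dense_ext (dense_Gδ h hδ.le) (w := fun t => ζ t - ξ t) (w' := fun t => ζ' t - ξ' t)
    (ρ := ρ / 2) (Λ := Λ) (ε := 2 * Λ * sc 1 N) hwc ((hζc.sub hξc).mono hsub) (by
      intro t ht htG hlt
      have hm : ζ t ∈ ball (ξ t) (ρ / 2) := by rwa [mem_ball, dist_eq_norm]
      have h1 := hζ2 t htG ht.1.le hm
      have hc := (sl_sm h.smooth_u htG).continuous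
      have h2 : ‖mo (sc 1 N) (u t) (ξ t) - u t (ξ t)‖ ≤ Λ * sc 1 N :=
        mo_near hc hs (show sc 1 N ≤ ρ by linarith) hΛ.le fun y hy =>
          hlip t htG ht.1.le y hy (ξ t) (mem_ball_self hρ)
      rw [← hξ.ev t htG] at h2
      have h3 := hlip t htG ht.1.le (ζ t) (ball_subset_ball (by linarith) hm) (ξ t)
        (mem_ball_self hρ)
      have e : ζ' t - ξ' t = (ζ' t - u t (ζ t)) + (u t (ζ t) - u t (ξ t))
          - (ξ' t - u t (ξ t)) := by abel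
      rw [e]
      refine (norm_sub_le _ _).trans ?_
      have h4 := norm_add_le (ζ' t - u t (ζ t)) (u t (ζ t) - u t (ξ t))
      linarith)
  have e1 : 2 * Λ * sc 1 N / Λ * Real.exp (Λ * T) = 2 * sc 1 N * Real.exp (Λ * T) := by
    field_simp
  have h1 := cmp (w := fun t => ζ t - ξ t) (w' := fun t => ζ' t - ξ' t) hδ.le ht₁ hΛ
    (by positivity) (fun t ht => (hζ t (hsub ht)).sub (hξ.hd t (hsub ht)))
    (by simp [h0]) hb (by rw [e1]; exact hN1)
  rw [e1] at h1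
  refine ⟨h1, fun t ht => ?_⟩
  have h2 := h1 t ht
  have h3 := hb t ht (h2.trans_lt hN1)
  refine h3.trans ?_
  gcongr

/-- The radius of regularity as a limit. -/
lemma adm_lim {K : ℕ → ℝ} {v : V → V} {x : V} {ξ : ℕ → V} (hx : Tendsto ξ atTop (𝓝 x)) {ρ : ℝ}
    (hf : ∃ᶠ N in atTop, AdmW K 1 v (ξ N) ρ) : AdmW K 1 v x ρ := by
  obtain ⟨N, hN⟩ := hf.exists
  refine ⟨hN.1, fun y hy n => ?_⟩
  have h1 : ∀ᶠ N in atTop, y ∈ ball (ξ N) ρ := by
    have h2 : Tendsto (fun N => dist y (ξ N)) atTop (𝓝 (dist y x)) := tendsto_const_nhds.dist hx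
    exact h2.eventually (gt_mem_nhds hy)
  obtain ⟨N, h2, h3⟩ := (hf.and_eventually h1).exists
  exact h2.2 y h3 n

/-- The choice of the scale. -/
lemma scale_ex {η M t : ℝ} (hη : 0 < η) (hM : 0 < M) (ht : 0 < t) : ∃ m : ℕ, sc 1 m ^ 2 < t ∧
    M * sc 1 m ^ 2 ≤ η ∧ 1 / sc 1 m ^ 2 ≤ 4 * (256 + 1 / t + M / η) := by
  have hex : ∃ m : ℕ, sc 1 m ^ 2 < t ∧ M * sc 1 m ^ 2 ≤ η := by
    have l1 : Tendsto (fun m : ℕ => sc 1 m ^ 2) atTop (𝓝 0) := by
      simpa using sc_lim.pow 2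
    have l2 : Tendsto (fun m : ℕ => M * sc 1 m ^ 2) atTop (𝓝 0) := by
      simpa using l1.const_mul M
    obtain ⟨m, h1, h2⟩ := ((l1.eventually (gt_mem_nhds ht)).and
      (l2.eventually (gt_mem_nhds hη))).exists
    exact ⟨m, h1, h2.le⟩
  classical
  obtain ⟨m, hm⟩ : ∃ m, m = Nat.find hex := ⟨_, rfl⟩
  have h1 : sc 1 m ^ 2 < t ∧ M * sc 1 m ^ 2 ≤ η := by rw [hm]; exact Nat.find_spec hex
  refine ⟨m, h1.1, h1.2, ?_⟩
  have hp : (0 : ℝ) ≤ 1 / t := by positivity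
  have hq : (0 : ℝ) ≤ M / η := by positivity
  rcases Nat.eq_zero_or_pos m with h0 | h0
  · rw [h0]
    have : sc 1 0 = 1 / 16 := by
      unfold sc Hl.Rr
      norm_num
    rw [this]
    have e : (1 : ℝ) / (1 / 16) ^ 2 = 256 := by norm_num
    rw [e]
    linarith
  · obtain ⟨j, hj⟩ : ∃ j, m = j + 1 := ⟨m - 1, by omega⟩
    have h2 : ¬(sc 1 j ^ 2 < t ∧ M * sc 1 j ^ 2 ≤ η) := Nat.find_min hex (by omega)
    have hsj := sc_pos one_pos j
    have e : sc 1 m = sc 1 j / 2 := by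
      rw [hj, sc_add]
      norm_num
    have e1 : 1 / sc 1 m ^ 2 = 4 * (1 / sc 1 j ^ 2) := by
      rw [e]
      field_simp
      norm_num
    rw [e1]
    apply mul_le_mul_of_nonneg_left _ (by norm_num)
    by_cases h3 : sc 1 j ^ 2 < t
    · have h4 : η < M * sc 1 j ^ 2 := by
        by_contra h5
        exact h2 ⟨h3, not_lt.1 h5⟩
      have h5 : 1 / sc 1 j ^ 2 ≤ M / η := by
        rw [div_le_div_iff₀ (by positivity) hη]
        linarith
      linarith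
    · have h5 : 1 / sc 1 j ^ 2 ≤ 1 / t := by
        have := not_lt.1 h3
        gcongr
      linarith

/-- Convergence of the paths of the mollified velocities. -/
theorem wlim (hD : S_WDER) : ∃ (C : ℝ) (K : ℕ → ℝ), 0 < C ∧ (∀ n, 0 < K n) ∧
    ∀ (T E D : ℝ) (G : Set ℝ) (u : ℝ → V → V) (p : ℝ → V → ℝ), Turb 1 T E D G u p →
      ∀ t₁ ∈ Ioo 0 T, ∀ (a : V) (ξ ξ' : ℕ → ℝ → V) (B B' : ℕ → ℝ),
      (∀ N, FPath T (sc 1 N) (B N) (B' N) G u p (ξ N) (ξ' N)) → (∀ N, ξ N t₁ = a) →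
      liminf (fun N => ∫⁻ τ in G, Fx 1 (u τ) (ξ N τ)) atTop < ⊤ → ∃ X : ℝ → V, X t₁ = a ∧
        (∀ t ∈ Ioo 0 T, Tendsto (fun N => ξ N t) atTop (𝓝 (X t))) ∧ IsPathW T G u X ∧
        (∀ ζ, IsPathW T G u ζ → ζ t₁ = a → ∀ t ∈ Ioo 0 T, ζ t = X t) ∧
        ∀ t ∈ G, RegW K 1 (u t) (X t) ≤ ENNReal.ofReal (C * (1 + 1 / t))
          + ENNReal.ofReal C * liminf (fun N => ∫⁻ τ in G, Fx 1 (u τ) (ξ N τ)) atTop := by
  obtain ⟨η, K, hη, hK, hadm⟩ := admP hD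
  refine ⟨4 * 65536 * (256 + 1 / η), K, by positivity, hK, ?_⟩
  intro T E D G u p h t₁ ht₁ a ξ ξ' B B' hξ hξ1 hL
  have hT : 0 < T := ht₁.1.trans ht₁.2
  obtain ⟨I, hI⟩ : ∃ I : ℕ → ℝ≥0∞, I = fun N => ∫⁻ τ in G, Fx 1 (u τ) (ξ N τ) := ⟨_, rfl⟩
  obtain ⟨L, hLd⟩ : ∃ L, L = liminf I atTop := ⟨_, rfl⟩
  rw [← hI, ← hLd] at hL ⊢
  obtain ⟨l, hl⟩ : ∃ l, l = L.toReal := ⟨_, rfl⟩
  have hl0 : 0 ≤ l := by rw [hl]; exact ENNReal.toReal_nonneg
  have hLl : L = ENNReal.ofReal l := by rw [hl, ENNReal.ofReal_toReal hL.ne]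
  have hfr : ∀ M : ℝ, l < M → ∃ᶠ N in atTop, I N ≤ ENNReal.ofReal M := by
    intro M hM
    have h1 : liminf I atTop < ENNReal.ofReal M := by
      rw [← hLd, hLl]
      exact ENNReal.ofReal_lt_ofReal_iff_of_nonneg hl0 |>.2 hM
    exact (frequently_lt_of_liminf_lt (by isBoundedDefault) h1).mono fun N hN => hN.le
  -- the main claim
  have claim : ∀ δ ∈ Ioo 0 t₁, ∀ e > 0, ∃ᶠ N in atTop,
      (∀ N', N ≤ N' → ∀ t ∈ Ioo δ T, ‖ξ N' t - ξ N t‖ ≤ e ∧ ‖ξ' N' t - ξ' N t‖ ≤ e) ∧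
      (∀ ζ, IsPathW T G u ζ → ζ t₁ = a → ∀ t ∈ Ioo δ T, ‖ζ t - ξ N t‖ ≤ e) ∧
      ∀ t ∈ G, δ < t → ‖ξ' N t - u t (ξ N t)‖ ≤ e := by
    intro δ hδ e he
    obtain ⟨ρ, Λ, N₀, hρ, hΛ, htube⟩ := tube hD T E D δ (l + 1) hδ.1 (by positivity)
    have hexp : 0 < Real.exp (Λ * T) := Real.exp_pos _
    have ev1 : ∀ᶠ N in atTop, 2 * sc 1 N * Real.exp (Λ * T) < ρ / 2 := by
      have l1 : Tendsto (fun N : ℕ => 2 * sc 1 N * Real.exp (Λ * T)) atTop (𝓝 0) := by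
        simpa using (sc_lim.const_mul 2).mul_const (Real.exp (Λ * T))
      exact l1.eventually (gt_mem_nhds (by positivity))
    have ev2 : ∀ᶠ N in atTop, sc 1 N ≤ ρ / 2 :=
      (sc_lim.eventually (gt_mem_nhds (show 0 < ρ / 2 by positivity))).mono fun N hN => hN.le
    have ev3 : ∀ᶠ N in atTop, 2 * sc 1 N * Real.exp (Λ * T) ≤ e := by
      have l1 : Tendsto (fun N : ℕ => 2 * sc 1 N * Real.exp (Λ * T)) atTop (𝓝 0) := by
        simpa using (sc_lim.const_mul 2).mul_const (Real.exp (Λ * T))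
      exact (l1.eventually (gt_mem_nhds he)).mono fun N hN => hN.le
    have ev4 : ∀ᶠ N in atTop, Λ * (2 * sc 1 N * Real.exp (Λ * T)) + 2 * Λ * sc 1 N ≤ e := by
      have l1 : Tendsto (fun N : ℕ => Λ * (2 * sc 1 N * Real.exp (Λ * T)) + 2 * Λ * sc 1 N)
          atTop (𝓝 0) := by
        simpa using (((sc_lim.const_mul 2).mul_const (Real.exp (Λ * T))).const_mul Λ).add
          (sc_lim.const_mul (2 * Λ))
      exact (l1.eventually (gt_mem_nhds he)).mono fun N hN => hN.le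
    have ev5 : ∀ᶠ N in atTop, Λ * sc 1 N ≤ e := by
      have l1 : Tendsto (fun N : ℕ => Λ * sc 1 N) atTop (𝓝 0) := by
        simpa using sc_lim.const_mul Λ
      exact (l1.eventually (gt_mem_nhds he)).mono fun N hN => hN.le
    refine ((hfr (l + 1) (by linarith)).and_eventually
      ((((ev1.and ev2).and ev3).and (ev4.and ev5)).and (eventually_ge_atTop N₀))).mono ?_
    rintro N ⟨hIN, ⟨⟨⟨⟨k1, k2⟩, k3⟩, ⟨k4, k5⟩⟩, k6⟩⟩
    rw [hI] at hIN
    have hs := sc_pos one_pos N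
    have hlip := htube G u p h N k6 (ξ N) (ξ' N) _ _ (hξ N) hIN
    have ht₁' : t₁ ∈ Ioo δ T := ⟨hδ.2, ht₁.2⟩
    refine ⟨?_, ?_, ?_⟩
    · intro N' hN' t ht
      have hsle : sc 1 N' ≤ sc 1 N := sc_le one_pos hN'
      have h1 := near h hδ.1 ht₁' hΛ k1 k2 (hξ N) hlip (ζ := ξ N') (ζ' := ξ' N')
        (path_cont hT h (hξ N')) (hξ N').hd (by
          intro s hs2 hδs hm
          have hc := (sl_sm h.smooth_u hs2).continuous
          rw [(hξ N').ev s hs2]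
          have hsub : ball (ξ N' s) (ρ / 2) ⊆ ball (ξ N s) ρ := by
            apply ball_subset_ball'
            rw [mem_ball] at hm
            linarith
          have h2 : ‖mo (sc 1 N') (u s) (ξ N' s) - u s (ξ N' s)‖ ≤ Λ * sc 1 N' :=
            mo_near hc (sc_pos one_pos N') (hsle.trans k2) hΛ.le fun y hy =>
              hlip s hs2 hδs y (hsub hy) (ξ N' s) (hsub (mem_ball_self (by positivity)))
          refine h2.trans ?_
          gcongr) (by rw [hξ1, hξ1])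
      exact ⟨(h1.1 t ht).trans k3, (h1.2 t ht).trans k4⟩
    · rintro ζ ⟨ζ', hζ1, hζ2, hζ3⟩ hζ0 t ht
      have h1 := near h hδ.1 ht₁' hΛ k1 k2 (hξ N) hlip (ζ := ζ) (ζ' := ζ') hζ1 hζ2 (by
          intro s hs2 hδs hm
          rw [hζ3 s hs2, sub_self, norm_zero]
          positivity) (by rw [hζ0, hξ1])
      exact (h1.1 t ht).trans k3
    · intro t ht hδt
      have hc := (sl_sm h.smooth_u ht).continuous
      rw [(hξ N).ev t ht]
      exact (mo_near hc hs (show sc 1 N ≤ ρ by linarith) hΛ.le fun y hy =>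
        hlip t ht hδt.le y hy (ξ N t) (mem_ball_self hρ)).trans k5
  -- the scale of time
  have hδt : ∀ t ∈ Ioo 0 T, ∃ δ ∈ Ioo 0 t₁, t ∈ Ioo δ T := by
    intro t ht
    have h1 : 0 < min t t₁ := lt_min ht.1 ht₁.1
    refine ⟨min t t₁ / 2, ⟨by positivity, ?_⟩, ?_, ht.2⟩
    · have := min_le_right t t₁
      linarith
    · have := min_le_left t t₁
      linarith
  -- the limits
  have hlim : ∀ t, ∃ x y : V, t ∈ Ioo 0 T → Tendsto (fun N => ξ N t) atTop (𝓝 x) ∧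
      Tendsto (fun N => ξ' N t) atTop (𝓝 y) := by
    intro t
    by_cases ht : t ∈ Ioo 0 T
    · obtain ⟨δ, hδ, htδ⟩ := hδt t ht
      have c1 : CauchySeq (fun N => ξ N t) := by
        rw [Metric.cauchySeq_iff']
        intro e he
        obtain ⟨N, hN, -⟩ := (claim δ hδ (e / 2) (by positivity)).exists
        refine ⟨N, fun n hn => ?_⟩
        rw [dist_eq_norm]
        exact ((hN n hn t htδ).1).trans_lt (by linarith)
      have c2 : CauchySeq (fun N => ξ' N t) := by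
        rw [Metric.cauchySeq_iff']
        intro e he
        obtain ⟨N, hN, -⟩ := (claim δ hδ (e / 2) (by positivity)).exists
        refine ⟨N, fun n hn => ?_⟩
        rw [dist_eq_norm]
        exact ((hN n hn t htδ).2).trans_lt (by linarith)
      obtain ⟨x, hx⟩ := cauchySeq_tendsto_of_complete c1
      obtain ⟨y, hy⟩ := cauchySeq_tendsto_of_complete c2
      exact ⟨x, y, fun _ => ⟨hx, hy⟩⟩
    · exact ⟨0, 0, fun h => absurd h ht⟩
  choose X X' hX using hlim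
  have hX1 : ∀ t ∈ Ioo 0 T, Tendsto (fun N => ξ N t) atTop (𝓝 (X t)) := fun t ht => (hX t ht).1
  have hX2 : ∀ t ∈ Ioo 0 T, Tendsto (fun N => ξ' N t) atTop (𝓝 (X' t)) := fun t ht => (hX t ht).2
  -- uniform convergence of the velocities
  have hun : ∀ δ ∈ Ioo 0 t₁, TendstoUniformlyOn ξ' X' atTop (Ioo δ T) := by
    intro δ hδ
    rw [Metric.tendstoUniformlyOn_iff]
    intro e he
    obtain ⟨N, hN, -⟩ := (claim δ hδ (e / 3) (by positivity)).exists
    filter_upwards [eventually_ge_atTop N] with n hn t ht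
    have h1 : ‖X' t - ξ' N t‖ ≤ e / 3 := by
      have l1 : Tendsto (fun n => ‖ξ' n t - ξ' N t‖) atTop (𝓝 ‖X' t - ξ' N t‖) :=
        ((hX2 t ⟨hδ.1.trans ht.1, ht.2⟩).sub_const _).norm
      refine le_of_tendsto l1 ?_
      filter_upwards [eventually_ge_atTop N] with k hk
      exact (hN k hk t ht).2
    have h2 := (hN n hn t ht).2
    rw [dist_eq_norm]
    have e1 : X' t - ξ' n t = (X' t - ξ' N t) - (ξ' n t - ξ' N t) := by abel
    rw [e1]
    refine (norm_sub_le _ _).trans_lt ?_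
    linarith
  have hX't : ContinuousOn X' (Ioo 0 T) := by
    intro t ht
    obtain ⟨δ, hδ, htδ⟩ := hδt t ht
    have h1 : ContinuousOn X' (Ioo δ T) := (hun δ hδ).continuousOn
      (Eventually.of_forall fun N => (path_cont hT h (hξ N)).mono
        (Ioo_subset_Ioo_left hδ.1.le)).frequently
    exact (h1.continuousAt (isOpen_Ioo.mem_nhds htδ)).continuousWithinAt
  have hXd : ∀ t ∈ Ioo 0 T, HasDerivAt X (X' t) t := by
    intro t ht
    obtain ⟨δ, hδ, htδ⟩ := hδt t ht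
    have hsub : Ioo δ T ⊆ Ioo 0 T := Ioo_subset_Ioo_left hδ.1.le
    exact hasDerivAt_of_tendstoUniformlyOn isOpen_Ioo (hun δ hδ)
      (Eventually.of_forall fun N s hs => (hξ N).hd s (hsub hs))
      (fun s hs => hX1 s (hsub hs)) htδ
  have hXa : X t₁ = a := by
    have h1 := hX1 t₁ ht₁
    simp only [hξ1] at h1
    exact tendsto_nhds_unique h1 tendsto_const_nhds |>.symm ▸ rfl
  refine ⟨X, hXa, hX1, ⟨X', hX't, hXd, ?_⟩, ?_, ?_⟩
  · intro t ht
    obtain ⟨δ, hδ, htδ⟩ := hδt t (h.subG ht)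
    have hc := (sl_sm h.smooth_u ht).continuous
    have l1 : Tendsto (fun N => ‖ξ' N t - u t (ξ N t)‖) atTop (𝓝 ‖X' t - u t (X t)‖) :=
      ((hX2 t (h.subG ht)).sub ((hc.tendsto _).comp (hX1 t (h.subG ht)))).norm
    have h1 : ‖X' t - u t (X t)‖ ≤ 0 := by
      refine le_of_forall_pos_le_add fun e he => ?_
      rw [zero_add]
      exact le_of_tendsto_of_frequently l1
        ((claim δ hδ e he).mono fun N hN => hN.2.2 t ht htδ.1)
    exact sub_eq_zero.1 (norm_le_zero_iff.1 h1)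
  · intro ζ hζ hζ0 t ht
    obtain ⟨δ, hδ, htδ⟩ := hδt t ht
    have l1 : Tendsto (fun N => ‖ζ t - ξ N t‖) atTop (𝓝 ‖ζ t - X t‖) :=
      (tendsto_const_nhds.sub (hX1 t ht)).norm
    have h1 : ‖ζ t - X t‖ ≤ 0 := by
      refine le_of_forall_pos_le_add fun e he => ?_
      rw [zero_add]
      exact le_of_tendsto_of_frequently l1
        ((claim δ hδ e he).mono fun N hN => hN.2.1 ζ hζ hζ0 t htδ)
    exact sub_eq_zero.1 (norm_le_zero_iff.1 h1)
  · intro t ht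
    have ht0 : 0 < t := (h.subG ht).1
    apply ENNReal.le_of_forall_pos_le_add
    intro e he _
    have he0 : (0 : ℝ) < e := he
    obtain ⟨C, hCd⟩ : ∃ C : ℝ, C = 4 * 65536 * (256 + 1 / η) := ⟨_, rfl⟩
    have hC : 0 < C := by rw [hCd]; positivity
    rw [← hCd]
    obtain ⟨M, hMd⟩ : ∃ M, M = l + e / C := ⟨_, rfl⟩
    have hlM : l < M := by
      rw [hMd]
      have : 0 < (e : ℝ) / C := by positivity
      linarith
    have hM : 0 < M := by linarith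
    obtain ⟨m, hm1, hm2, hm3⟩ := scale_ex hη hM ht0
    have hA : AdmW K 1 (u t) (X t) (sc 1 m / 256) := by
      refine adm_lim (hX1 t (h.subG ht)) ?_
      refine ((hfr M hlM).and_eventually (eventually_ge_atTop (m + 4))).mono ?_
      rintro N ⟨h1, h2⟩
      rw [hI] at h1
      exact hadm T E D G u p h M m N t ht h2 hm1 hm2 (ξ N) (ξ' N) _ _ (hξ N) h1
    refine (iInf₂_le _ hA).trans ?_
    have hsm := sc_pos one_pos m
    rw [hLl, ← ENNReal.ofReal_mul hC.le, ← ENNReal.ofReal_add (by positivity) (by positivity),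
      ← ENNReal.ofReal_coe_nnreal, ← ENNReal.ofReal_add (by positivity) (by positivity)]
    apply ENNReal.ofReal_le_ofReal
    have e1 : 1 / (sc 1 m / 256) ^ 2 = 65536 * (1 / sc 1 m ^ 2) := by
      field_simp
      norm_num
    rw [e1]
    have hηi : (0 : ℝ) < 1 / η := by positivity
    have hti : (0 : ℝ) < 1 / t := by positivity
    have hMe : C * M = C * l + e := by
      rw [hMd]
      field_simp
    calc 65536 * (1 / sc 1 m ^ 2) ≤ 65536 * (4 * (256 + 1 / t + M / η)) := by gcongr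
      _ ≤ C * (1 + 1 / t) + C * M := by
          rw [hCd]
          have e2 : M / η = M * (1 / η) := by ring
          rw [e2]
          have p1 : 0 ≤ (1 / η) * (1 / t) := by positivity
          nlinarith
      _ = C * (1 + 1 / t) + C * l + e := by rw [hMe]; ring

end Pool.Agent.Y8.WS
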