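import Pool.Agent.Y8.Maj

/-!
The local energy inequality and the momentum equation between two regular times.
-/

open MeasureTheory Set Metric Filter Topology
open scoped ContDiff

namespace Pool.Agent.Y8

open H459R3.NS W221.NS

section

variable {ν T E D : ℝ} {G : Set ℝ} {u : ℝ → V → V} {p : ℝ → V → ℝ}

theorem Turb.spv (h : Turb ν T E D G u p) {t : ℝ} (ht : t ∈ G) : SPV (u t) :=
  ⟨sl_sm h.smooth_u ht, h.per_u t ht⟩

theorem Turb.sp (h : Turb ν T E D G u p) {t : ℝ} (ht : t ∈ G) : SP (p t) :=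
  ⟨sl_sm h.smooth_p ht, h.per_p t ht⟩

theorem Turb.volG (h : Turb ν T E D G u p) : volume G ≠ ⊤ :=
  ne_top_of_le_ne_top (by simp) (measure_mono h.subG : volume G ≤ volume (Ioo 0 T))

/-- The majorant in time. -/
noncomputable def kk (u : ℝ → V → V) (p : ℝ → V → ℝ) (t : ℝ) : ℝ :=
  1 + enstrophy (u t) + ∫ y in cube, |p t y| ^ (3 / 2 : ℝ)

theorem kk_pos (u : ℝ → V → V) (p : ℝ → V → ℝ) (t : ℝ) : 1 ≤ kk u p t := by
  unfold kk
  have h1 := enst_nn (u t)
  have h2 : 0 ≤ ∫ y in cube, |p t y| ^ (3 / 2 : ℝ) := integral_nonneg fun y => by positivity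
  linarith

theorem kk_int (h : Turb ν T E D G u p) : IntegrableOn (kk u p) G := by
  unfold kk
  exact ((integrableOn_const h.volG).add h.enst_int).add h.press

end

section

variable {u : ℝ → V → V} {p φ : ℝ → V → ℝ} {t M : ℝ} {x : V}

theorem abs_comp_le (w : V → V) (x : V) (i : Fin 3) : |w x i| ≤ √(nsq w x) := by
  rw [← Real.sqrt_sq_eq_abs]
  refine Real.sqrt_le_sqrt ?_
  unfold nsq
  exact Finset.single_le_sum (f := fun i => w x i ^ 2) (fun j _ => sq_nonneg _)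
    (Finset.mem_univ i)

theorem adv_abs (w : V → V) {f : V → ℝ} (hM : ∀ j, |pd j f x| ≤ M) :
    |adv w f x| ≤ 3 * M * √(nsq w x) := by
  unfold adv
  refine (Finset.abs_sum_le_sum_abs _ _).trans ?_
  have h : ∀ j ∈ Finset.univ, |w x j * pd j f x| ≤ √(nsq w x) * M := fun j _ => by
    rw [abs_mul]
    exact mul_le_mul (abs_comp_le w x j) (hM j) (abs_nonneg _) (Real.sqrt_nonneg _)
  refine (Finset.sum_le_sum h).trans ?_
  simp only [Finset.sum_const, Finset.card_univ, Fintype.card_fin, nsmul_eq_mul]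
  apply le_of_eq
  push_cast
  ring

theorem ed_abs (hM : 0 ≤ M) (h0 : |φ t x| ≤ M) (h1 : |deriv (fun s => φ s x) t| ≤ M)
    (h2 : |lap (φ t) x| ≤ M) (h3 : ∀ j, |pd j (φ t) x| ≤ M) :
    |ed 1 u p φ t x| ≤ 8 * M * MM (u t) (p t) x := by
  have hg := gsq_nn (u t) x
  have hn := nsq_nn (u t) x
  have ha := adv_abs (u t) h3
  set b := √(nsq (u t) x) with hb
  have hb0 : 0 ≤ b := Real.sqrt_nonneg _
  have hbn : nsq (u t) x = b ^ 2 := (Real.sq_sqrt hn).symm
  have e1 : |-(2 * (1 : ℝ)) * (gsq (u t) x * φ t x)| ≤ 2 * M * gsq (u t) x := by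
    rw [abs_mul, abs_mul, abs_of_nonneg hg]
    norm_num
    nlinarith
  have e2 : |nsq (u t) x * (deriv (fun s => φ s x) t + 1 * lap (φ t) x)|
      ≤ 2 * M * nsq (u t) x := by
    rw [abs_mul, abs_of_nonneg hn]
    have : |deriv (fun s => φ s x) t + 1 * lap (φ t) x| ≤ 2 * M := by
      refine (abs_add_le _ _).trans ?_
      rw [one_mul]
      linarith
    nlinarith
  have e3 : |(nsq (u t) x + 2 * p t x) * adv (u t) (φ t) x|
      ≤ (nsq (u t) x + 2 * |p t x|) * (3 * M * b) := by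
    rw [abs_mul]
    refine mul_le_mul ?_ ha (abs_nonneg _) (by positivity)
    refine (abs_add_le _ _).trans ?_
    rw [abs_of_nonneg hn, abs_mul]
    norm_num
  unfold ed
  refine (abs_add_le _ _).trans ?_
  refine (add_le_add ((abs_add_le _ _).trans (add_le_add e1 e2)) e3).trans ?_
  unfold MM
  rw [← hb, hbn]
  have hp := abs_nonneg (p t x)
  nlinarith [mul_nonneg hM hg, mul_nonneg hM (sq_nonneg b), mul_nonneg hM (pow_nonneg hb0 3),
    mul_nonneg hM (mul_nonneg hp hb0), mul_nonneg hM hp, mul_nonneg hM hb0]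

theorem md_abs (hM : 0 ≤ M) (h1 : |deriv (fun s => φ s x) t| ≤ M)
    (h2 : |lap (φ t) x| ≤ M) (h3 : ∀ j, |pd j (φ t) x| ≤ M) (i : Fin 3) :
    |md 1 u p φ i t x| ≤ 8 * M * MM (u t) (p t) x := by
  have hg := gsq_nn (u t) x
  have hn := nsq_nn (u t) x
  have ha := adv_abs (u t) h3
  have hc := abs_comp_le (u t) x i
  set b := √(nsq (u t) x) with hb
  have hb0 : 0 ≤ b := Real.sqrt_nonneg _
  have hbn : nsq (u t) x = b ^ 2 := (Real.sq_sqrt hn).symm
  have e2 : |u t x i * (deriv (fun s => φ s x) t + 1 * lap (φ t) x)| ≤ 2 * M * b := by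
    rw [abs_mul]
    have : |deriv (fun s => φ s x) t + 1 * lap (φ t) x| ≤ 2 * M := by
      refine (abs_add_le _ _).trans ?_
      rw [one_mul]
      linarith
    nlinarith [abs_nonneg (u t x i), abs_nonneg (deriv (fun s => φ s x) t + 1 * lap (φ t) x)]
  have e3 : |u t x i * adv (u t) (φ t) x| ≤ b * (3 * M * b) := by
    rw [abs_mul]
    exact mul_le_mul hc ha (abs_nonneg _) hb0
  have e4 : |p t x * pd i (φ t) x| ≤ |p t x| * M := by
    rw [abs_mul]
    exact mul_le_mul_of_nonneg_left (h3 i) (abs_nonneg _)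
  unfold md
  refine (abs_add_le _ _).trans ?_
  refine (add_le_add ((abs_add_le _ _).trans (add_le_add e2 e3)) e4).trans ?_
  unfold MM
  rw [← hb, hbn]
  have hp := abs_nonneg (p t x)
  nlinarith [mul_nonneg hM hg, mul_nonneg hM (sq_nonneg b), mul_nonneg hM (pow_nonneg hb0 3),
    mul_nonneg hM (mul_nonneg hp hb0), mul_nonneg hM hp, mul_nonneg hM hb0]

end

/-- Bounds of a test function on a compact time interval. -/
theorem tbd {α β : ℝ} {φ : ℝ → V → ℝ}
    (hφ : ContDiffOn ℝ ∞ (fun z : ℝ × V => φ z.1 z.2) (Ioo α β ×ˢ univ)) {a : V} {R : ℝ}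
    (hR : 0 < R) (hs : ∀ t ∈ Ioo α β, ∀ z ∉ ball a R, φ t z = 0) {s t : ℝ} (hs1 : α < s)
    (ht1 : t < β) : ∃ M : ℝ, 0 ≤ M ∧ ∀ τ ∈ Icc s t, ∀ x, |φ τ x| ≤ M ∧
      |deriv (fun s => φ s x) τ| ≤ M ∧ |lap (φ τ) x| ≤ M ∧ ∀ j, |pd j (φ τ) x| ≤ M := by
  have hK : IsCompact (Icc s t ×ˢ closedBall a R) := isCompact_Icc.prod (isCompact_closedBall a R)
  have hsub : Icc s t ×ˢ closedBall a R ⊆ Ioo α β ×ˢ (univ : Set V) :=
    prod_mono (fun τ h => ⟨hs1.trans_le h.1, h.2.trans_lt ht1⟩) (subset_univ _)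
  obtain ⟨M0, hM0⟩ := hK.exists_bound_of_continuousOn (hφ.continuousOn.mono hsub)
  obtain ⟨M1, hM1⟩ := hK.exists_bound_of_continuousOn
    ((dt_joint isOpen_Ioo hφ).continuousOn.mono hsub)
  obtain ⟨M2, hM2⟩ := hK.exists_bound_of_continuousOn
    ((lap_joint isOpen_Ioo hφ).continuousOn.mono hsub)
  have h3 : ∀ j, ∃ M, ∀ z ∈ Icc s t ×ˢ closedBall a R, ‖pd j (φ z.1) z.2‖ ≤ M := fun j =>
    hK.exists_bound_of_continuousOn ((pd_joint isOpen_Ioo hφ j).continuousOn.mono hsub)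
  choose M3 hM3 using h3
  refine ⟨|M0| + |M1| + |M2| + ∑ j, |M3 j|, by positivity, fun τ hτ x => ?_⟩
  have hτ' : τ ∈ Ioo α β := ⟨hs1.trans_le hτ.1, hτ.2.trans_lt ht1⟩
  have hn : 0 ≤ |M0| + |M1| + |M2| + ∑ j, |M3 j| := by positivity
  have hj : ∀ j, |M3 j| ≤ ∑ j, |M3 j| := fun j =>
    Finset.single_le_sum (f := fun j => |M3 j|) (fun _ _ => abs_nonneg _) (Finset.mem_univ j)
  by_cases hx : x ∈ ball a R
  · have hz : (τ, x) ∈ Icc s t ×ˢ closedBall a R := ⟨hτ, ball_subset_closedBall hx⟩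
    have a0 := hM0 _ hz
    have a1 := hM1 _ hz
    have a2 := hM2 _ hz
    have a3 := fun j => hM3 j _ hz
    simp only [Real.norm_eq_abs] at a0 a1 a2 a3
    have b0 := le_abs_self M0
    have b1 := le_abs_self M1
    have b2 := le_abs_self M2
    have c0 := abs_nonneg M0
    have c1 := abs_nonneg M1
    have c2 := abs_nonneg M2
    have c3 : 0 ≤ ∑ j, |M3 j| := by positivity
    refine ⟨by linarith, by linarith, by linarith, fun j => ?_⟩
    have := a3 j
    have := hj j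
    have := le_abs_self (M3 j)
    linarith
  · have hsm := sl_sm hφ hτ'
    rw [hs τ hτ' x hx, dt_zero' isOpen_Ioo hs hτ' hx, lap_zero' hsm hR (hs τ hτ') hx, abs_zero]
    refine ⟨hn, hn, hn, fun j => ?_⟩
    rw [pd_zero' hsm hR (hs τ hτ') hx j, abs_zero]
    exact hn

section

variable {T E D : ℝ} {G : Set ℝ} {u : ℝ → V → V} {p : ℝ → V → ℝ}

/-- Integrability in time. -/
theorem tint (h : Turb 1 T E D G u p) {F : ℝ → V → ℝ} {J : Set ℝ} (hJ : IsOpen J)
    (hJG : J ⊆ G) (hF : ContinuousOn (fun z : ℝ × V => F z.1 z.2) (J ×ˢ univ)) {a : V} {R C : ℝ}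
    (h0 : ∀ t ∈ J, ∀ z ∉ ball a R, F t z = 0) {J' : Set ℝ} (hJ' : MeasurableSet J')
    (hJJ : J' ⊆ J) (hC : 0 ≤ C)
    (hb : ∀ t ∈ J', ∀ x, |F t x| ≤ C * MM (u t) (p t) x) :
    IntegrableOn (fun t => ∫ x, F t x) J' := by
  obtain ⟨C', hC', hm⟩ := maj E R
  have hk : IntegrableOn (fun t => C * (C' * kk u p t)) J' :=
    (((kk_int h).mono_set (hJJ.trans hJG)).const_mul C').const_mul C
  refine Integrable.mono' hk ?_ ?_
  · exact ((pint_cont_c hJ hF a R h0).mono hJJ).aestronglyMeasurable hJ'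
  · rw [ae_restrict_iff' hJ']
    refine ae_of_all _ fun t ht => ?_
    have htG := hJG (hJJ ht)
    have hu := h.spv htG
    have hp := h.sp htG
    have hMc := MM_cont hu.1 hp.smooth.continuous
    rw [← ball_int_eq (h0 t (hJJ ht))]
    calc ‖∫ x in ball a R, F t x‖ ≤ ∫ x in ball a R, C * MM (u t) (p t) x :=
          norm_integral_le_of_norm_le (ballint (continuous_const.mul hMc) _ _)
            (ae_of_all _ fun x => hb t ht x)
      _ ≤ _ := by
          rw [integral_const_mul]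
          exact mul_le_mul_of_nonneg_left (hm (u t) (p t) hu hp (h.energy_le t htG) a) hC

end

end Pool.Agent.Y8
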