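import Pool.Agent.W440.MD.SOB
import Pool.Agent.W790.MD.L4
import Pool.Agent.W12.MD.POINC
import Pool.Agent.W395.MD.UNIT
import Pool.Agent.W12.MD.GROW
import Pool.Agent.W12.MD.RIESZ0
import Pool.Agent.W215.MD.Riesz
import Pool.Agent.W12.MD.HARM0
import Pool.Agent.W346.MD.HARM
import Pool.Agent.W346.MD.TSUM
import Pool.Agent.W337.MD.PK1
import Pool.Agent.W386.MD.PK
import Pool.Agent.W162.MD.CUT
import Pool.Agent.W918.MD.TF
import Pool.Agent.Y153.NS.HB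
import Pool.Agent.Y153.NS.HBD
import Pool.Agent.Y153.NS.WDIV
import Pool.Agent.Y155.NS.FAR
import Pool.Agent.Y155.NS.WSL
import Pool.Agent.Y274.PERS
import Pool.Agent.Y458.NS.AL
import Pool.Agent.Y458.NS.CR
import Pool.Agent.Y458.NS.MC
import Pool.Agent.Y458.NS.WB
import Pool.Agent.Y458.NS.WL
import Pool.Agent.Y458.NS.WS
import Pool.Agent.Y494.NS.ACX
import Pool.Agent.Y494.NS.CFP
import Pool.Agent.Y494.NS.KER2
import Pool.Agent.Y494.NS.OVER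
import Pool.Agent.Y494.NS.SUMB
import Pool.Agent.Y494.NS.TCUT
import Pool.Agent.Y496.NS.Dy
import Pool.Agent.Y500.NS8.B2
import Pool.Agent.Y535.NS.B1
import Pool.Agent.Y535.NS.WFO
import Pool.Agent.Y96.NS.Scal
import Pool.Agent.Y8.WFrame

/-!
Assembly: the count of separated singular points (helper8).
-/

open MeasureTheory Set Metric
open scoped ContDiff

namespace Pool.Agent.Y8.A

open H459R3.NS W221.NS

theorem p_sob : S_SOB := Pool.Agent.W440.MD.t_SOB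
theorem p_l4 : S_L4 := Pool.Agent.W790.MD.t_L4 p_sob
theorem p_poinc : S_POINC := Pool.Agent.W12.MD.t_POINC
theorem p_unit : S_UNIT := Pool.Agent.W395.MD.t_UNIT p_poinc p_sob
theorem p_grow : S_GROW := Pool.Agent.W12.MD.t_GROW p_poinc p_sob
theorem p_riesz0 : S_RIESZ0 := Pool.Agent.W12.MD.R0.t_RIESZ0
theorem p_riesz : S_RIESZ := Pool.Agent.W215.MD.t_RIESZ p_riesz0
theorem p_harm0 : S_HARM0 := Pool.Agent.W12.MD.t_HARM0
theorem p_harm : S_HARM := Pool.Agent.W346.MD.t_HARM p_harm0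
theorem p_tsum : S_TSUM := Pool.Agent.W346.MD.t_TSUM
theorem p_hb : S_HB := Pool.Agent.Y153.NS.t_HB
theorem p_cut : S_CUT := W162.MD.t_CUT p_unit p_poinc p_hb
theorem p_pk1 : S_PK1 := Pool.Agent.W337.MD.PK1.t_PK1 p_harm
theorem p_pk : S_PK := Pool.Agent.W386.MD.t_PK p_riesz p_harm p_hb p_unit p_pk1
theorem p_tf : S_TF := W918.MD.t_TF
theorem p_tcut : S_TCUT := Pool.Agent.Y494.NS.t_TCUT
theorem p_acx : S_ACX := Pool.Agent.Y494.NS.t_ACX
theorem p_over : S_OVER := Pool.Agent.Y494.NS.t_OVER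
theorem p_ker2 : S_KER2 := Pool.Agent.Y494.NS.Ker.t_KER2
theorem p_dypo : S_DYPO := Pool.Agent.Y496.NS.t_DYPO p_poinc
theorem p_dymo : S_DYMO := Pool.Agent.Y496.NS.t_DYMO p_poinc
theorem p_wdiv : S_WDIV := Pool.Agent.Y153.NS.t_WDIV
theorem p_far : S_FAR := Pool.Agent.Y155.NS.t_FAR p_poinc p_sob p_grow p_riesz p_harm
theorem p_wsl : S_WSL := Pool.Agent.Y155.NS.t_WSL p_far p_wdiv p_poinc
theorem p_wbase : S_WBASE := Pool.Agent.Y458.NS.t_WBASE p_cut p_poinc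
theorem p_wstep : S_WSTEP := Pool.Agent.Y458.NS.t_WSTEP p_tf p_pk p_l4 p_tsum
theorem p_wloc : S_WLOC := Pool.Agent.Y458.NS.t_WLOC p_wbase p_wstep
theorem p_wfo : S_WFO := Pool.Agent.Y535.WFO.t_WFO
theorem p_wframe : S_WFRAME := t_WFRAME p_tcut p_acx p_wfo
theorem p_crit : S_CRIT := Pool.Agent.Y458.NS.t_CRIT p_wframe p_wsl p_wloc
theorem p_wpath : S_WPATH := path_ex p_tcut p_acx
theorem p_hbd : S_HBD := Pool.Agent.Y153.NS.t_HBD p_ker2 p_dypo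
theorem p_mc : S_MC := Pool.Agent.Y458.NS.t_MC p_ker2 p_dypo
theorem p_pers : S_PERS := Pool.Agent.Y274.PERS.t_PERS
theorem p_alt : S_ALT := Pool.Agent.Y458.NS.t_ALT p_tcut p_ker2 p_dymo p_hbd p_mc p_pers
theorem p_sumb : S_SUMB := Pool.Agent.Y494.NS.Sumb.t_SUMB p_over
theorem p_c12 : S_C12 := Pool.Agent.Y494.NS.Sumb.t_C12 p_sumb
theorem p_cfp : S_CFP := Pool.Agent.Y494.NS.Cfp.t_CFP p_over
theorem p_b1 : S_B1 := Pool.Agent.Y535.B1.t_B1 p_crit p_sumb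
theorem p_b2 : S_B2 := t_B2 p_c12 p_cfp p_alt
theorem p_fin1 : S_FIN1 := t_FIN1 p_wpath p_b1 p_b2
theorem p_wscal : S_WSCAL := Pool.Agent.Y96.NS.t_WSCAL
theorem p_fin : S_FIN := Pool.Agent.Y96.NS.t_FIN p_wscal p_fin1

end Pool.Agent.Y8.A
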