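import Pool.Agent.Y7.Sl
import Pool.Agent.W352.ME.EN2

/-!
The energy inequality at one regular time, for the slices measured by the `L⁴` oscillation, near a
time in an open set (helper8, adapted from Pool.Agent.Y7.EnL of helper7).
-/

set_option autoImplicit false

open MeasureTheory Set Metric Filter Topology
open scoped ContDiff

namespace Pool.Agent.Y8.W4

open H459R3.NS W221.NS Pool.Agent.W352.ME Pool.Agent.Y7
open Pool.Agent.W583.MD (hcs sm_pd cs_pd pd_mul' Z Z.add Z.sub Z.smul Z.sum int_cs Z_pd slice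
  hd_slice cont_dt_slice dt_zero hd_int)

/-- The energy inequality. -/
theorem enH (H : Set ℝ) (hO : IsOpen H) (v W : ℝ → V → V) (G : ℝ → ℝ)
    (hWH : ContDiffOn ℝ ∞ (fun z : ℝ × V => W z.1 z.2) (H ×ˢ univ)) (Φ : ℝ → V → ℝ)
    (hΦH : ContDiffOn ℝ ∞ (fun z : ℝ × V => Φ z.1 z.2) (H ×ˢ univ))
    (hsH : ∀ t ∈ H, ∀ z ∉ ball (0 : V) 1, Φ t z = 0) (t : ℝ) (htH : t ∈ H)
    (hpos : ∀ z, 0 ≤ Φ t z) (P : V → ℝ)
    (hP : Sl (v t) (W t) (fun x i => deriv (fun s => W s x i) t) P (G t)) :
    ∃ E' : ℝ, HasDerivAt (fun s => ∫ z, nsq (W s) z * Φ s z) E' t ∧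
      E' ≤ -2 * (∫ z, gsq (W t) z * Φ t z)
        + (∫ z, nsq (W t) z * (deriv (fun s => Φ s z) t + lap (Φ t) z))
        + (∫ z, nsq (W t) z * adv (v t) (Φ t) z) + 2 * (∫ z, P z * adv (W t) (Φ t) z)
        + 24 * (√(G t) * (∫ z, nsq (W t) z * Φ t z)
          + (√(G t) + G t) * ∫ z, √(nsq (W t) z) * Φ t z) := by
  obtain ⟨d, hd, hball⟩ := Metric.isOpen_iff.1 hO t htH
  obtain ⟨α, hα⟩ : ∃ α, α = t - d := ⟨_, rfl⟩
  obtain ⟨β, hβ⟩ : ∃ β, β = t + d := ⟨_, rfl⟩
  have hIH : Ioo α β ⊆ H := by
    rw [hα, hβ, ← Real.ball_eq_Ioo]; exact hball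
  have ht : t ∈ Ioo α β := by
    rw [hα, hβ]; exact ⟨by linarith, by linarith⟩
  have hsub : Ioo α β ×ˢ (univ : Set V) ⊆ H ×ˢ univ := prod_mono hIH subset_rfl
  have hW : ContDiffOn ℝ ∞ (fun z : ℝ × V => W z.1 z.2) (Ioo α β ×ˢ univ) := hWH.mono hsub
  have hΦ : ContDiffOn ℝ ∞ (fun z : ℝ × V => Φ z.1 z.2) (Ioo α β ×ˢ univ) := hΦH.mono hsub
  have hs : ∀ s ∈ Ioo α β, ∀ z ∉ ball (0 : V) 1, Φ s z = 0 := fun s h => hsH s (hIH h)
  have hWi : ∀ i, ContDiffOn ℝ ∞ (fun z : ℝ × V => W z.1 z.2 i) (Ioo α β ×ˢ univ) :=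
    fun i => contDiffOn_pi.1 hW i
  have hw : ∀ i, ContDiff ℝ ∞ (fun y => W t y i) := fun i =>
    slice (F := fun t y => W t y i) (hWi i) ht
  have hu : ∀ i, ContDiff ℝ ∞ (fun y => v t y i) := fun i => contDiff_pi.1 hP.sv i
  have hφ : ContDiff ℝ ∞ (Φ t) := slice hΦ ht
  have hc : HasCompactSupport (Φ t) := hcs (hs t ht)
  have hdΦ : Continuous fun x => deriv (fun s => Φ s x) t := cont_dt_slice hΦ ht
  have hdc : HasCompactSupport fun x => deriv (fun s => Φ s x) t :=
    hcs fun z hz => dt_zero hs ht hz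
  have hn : Continuous (nsq (W t)) := by
    unfold nsq
    exact continuous_finsetSum _ fun i _ => (hw i).continuous.pow 2
  have hg : Continuous (gsq (W t)) := by
    unfold gsq
    exact continuous_finsetSum _ fun i _ => continuous_finsetSum _ fun j _ =>
      (sm_pd (hw i) j).continuous.pow 2
  have hlap : Continuous (lap (Φ t)) := by
    unfold lap
    exact continuous_finsetSum _ fun j _ => (sm_pd (sm_pd hφ j) j).continuous
  have hlc : HasCompactSupport (lap (Φ t)) := by
    have h0 := cs_pd (cs_pd hc 0) 0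
    have h1 := cs_pd (cs_pd hc 1) 1
    have h2 := cs_pd (cs_pd hc 2) 2
    have e : lap (Φ t) = pd 0 (pd 0 (Φ t)) + pd 1 (pd 1 (Φ t)) + pd 2 (pd 2 (Φ t)) := by
      funext x
      unfold lap
      rw [Fin.sum_univ_three]
      rfl
    rw [e]
    exact (h0.add h1).add h2
  have hadvc : ∀ r : V → V, (∀ i, ContDiff ℝ ∞ (fun y => r y i)) → Continuous (adv r (Φ t)) := by
    intro r hr
    unfold adv
    exact continuous_finsetSum _ fun j _ => (hr j).continuous.mul (sm_pd hφ j).continuous
  have hadvs : ∀ r : V → V, HasCompactSupport (adv r (Φ t)) := by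
    intro r
    have h0 := (cs_pd hc 0).mul_left (f := fun x => r x 0)
    have h1 := (cs_pd hc 1).mul_left (f := fun x => r x 1)
    have h2 := (cs_pd hc 2).mul_left (f := fun x => r x 2)
    have e : adv r (Φ t) = (fun x => r x 0) * pd 0 (Φ t) + (fun x => r x 1) * pd 1 (Φ t) +
        (fun x => r x 2) * pd 2 (Φ t) := by
      funext x
      unfold adv
      rw [Fin.sum_univ_three]
      rfl
    rw [e]
    exact (h0.add h1).add h2
  -- the derivative in time
  have hF : ContDiffOn ℝ ∞ (fun z : ℝ × V => nsq (W z.1) z.2 * Φ z.1 z.2) (Ioo α β ×ˢ univ) := by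
    unfold nsq
    exact (ContDiffOn.sum fun i _ => (hWi i).pow 2).mul hΦ
  have hF0 : ∀ s ∈ Ioo α β, ∀ z ∉ ball (0 : V) 1, nsq (W s) z * Φ s z = 0 :=
    fun s hs' z hz => by rw [hs s hs' z hz, mul_zero]
  have h1 := hd_int (F := fun s z => nsq (W s) z * Φ s z) hF hF0 ht
  refine ⟨_, h1, ?_⟩
  -- the integrand
  have hD : ∀ x, deriv (fun s => nsq (W s) x * Φ s x) t =
      (∑ i, 2 * W t x i * deriv (fun s => W s x i) t) * Φ t x +
        nsq (W t) x * deriv (fun s => Φ s x) t := by
    intro x
    have d1 : ∀ i, HasDerivAt (fun s => W s x i) (deriv (fun s => W s x i) t) t := by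
      intro i
      have d := hd_slice (F := fun t y => W t y i) (hWi i) ht x
      rw [← d.deriv] at d
      exact d
    have d2 : HasDerivAt (fun s => Φ s x) (deriv (fun s => Φ s x) t) t := by
      have d := hd_slice hΦ ht x
      rwa [← d.deriv] at d
    have d3 : HasDerivAt (fun s => nsq (W s) x)
        (∑ i, 2 * W t x i * deriv (fun s => W s x i) t) t := by
      unfold nsq
      refine HasDerivAt.fun_sum fun i _ => ?_
      refine ((d1 i).pow 2).congr_deriv ?_
      norm_num
    exact (d3.mul d2).deriv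
  have hG0 : 0 ≤ G t := hP.pos
  have hZ := Z_main (w := fun i y => W t y i) (u := fun i y => v t y i) (π := P) (φ := Φ t) hw hu
    hP.sP hφ hc
  obtain ⟨F, hFdef⟩ : ∃ F : V → ℝ, F = (fun x => ∑ j,
      ((∑ i, (2 * pd j (fun y => W t y i * pd j (fun y => W t y i) y * Φ t y) x
      - pd j (fun y => W t y i * W t y i * pd j (Φ t) y) x
      - pd j (fun y => v t y j * (W t y i * W t y i) * Φ t y) x))
      - 2 * pd j (fun y => P y * W t y j * Φ t y) x)) := ⟨_, rfl⟩
  have hZ' : Z F := by
    rw [hFdef]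
    exact hZ
  -- the pointwise bound
  have key : ∀ x, deriv (fun s => nsq (W s) x * Φ s x) t ≤ F x +
      ((-2 * (gsq (W t) x * Φ t x) + nsq (W t) x * (deriv (fun s => Φ s x) t + lap (Φ t) x)
        + nsq (W t) x * adv (v t) (Φ t) x + 2 * (P x * adv (W t) (Φ t) x))
      + 24 * (√(G t) * (nsq (W t) x * Φ t x) + (√(G t) + G t) * (√(nsq (W t) x) * Φ t x))) := by
    intro x
    have hpt := point (w := fun i y => W t y i) (u := fun i y => v t y i) (π := P) (φ := Φ t)
      hw hu hP.sP hφ x ?_ ?_
    · have hFx : F x = _ := (congrFun hFdef x).trans hpt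
      rw [hFx, hD x]
      simp only [nsq, gsq, adv, lap]
      -- reduce to the remainder
      have hrem : (∑ i, 2 * W t x i * deriv (fun s => W s x i) t) * Φ t x ≤
          (∑ i, 2 * W t x i * (∑ j, pd j (pd j (fun y => W t y i)) x - pd i P x -
            ∑ j, v t x j * pd j (fun y => W t y i) x)) * Φ t x +
          24 * (√(G t) * ((∑ i, W t x i ^ 2) * Φ t x) +
            (√(G t) + G t) * (√(∑ i, W t x i ^ 2) * Φ t x)) := by
        by_cases hx : x ∈ ball (0 : V) 1
        · have hb := rem_bound (fun i => W t x i) (fun i => v t x i)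
            (fun i => deriv (fun s => W s x i) t + adv (v t) (fun y => v t y i) x
              - lap (fun y => v t y i) x + pd i P x)
            (fun i j => pd j (fun y => v t y i - W t y i) x) (√(G t)) (G t) (Real.sqrt_nonneg _)
            (Real.sq_sqrt hG0).symm (fun i => hP.dD x hx i) (fun i j => hP.gD x hx i j)
            (fun i => hP.evo x hx i)
          have e : ∀ i, deriv (fun s => W s x i) t =
              (∑ j, pd j (pd j (fun y => W t y i)) x - pd i P x -
                ∑ j, v t x j * pd j (fun y => W t y i) x) +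
              ((deriv (fun s => W s x i) t + adv (v t) (fun y => v t y i) x
                - lap (fun y => v t y i) x + pd i P x) -
                ∑ j, v t x j * pd j (fun y => v t y i - W t y i) x) := by
            intro i
            have e1 := hP.lapD x hx i
            rw [e1]
            have e2 : adv (v t) (fun y => v t y i) x = (∑ j, v t x j * pd j (fun y => W t y i) x) +
                ∑ j, v t x j * pd j (fun y => v t y i - W t y i) x := by
              unfold adv
              rw [← Finset.sum_add_distrib]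
              refine Finset.sum_congr rfl fun j _ => ?_
              rw [pd_sub' (hu i) (hw i)]
              ring
            rw [e2]
            have e3 : lap (fun y => W t y i) x = ∑ j, pd j (pd j (fun y => W t y i)) x := rfl
            rw [e3]
            ring
          have e' : (∑ i, 2 * W t x i * deriv (fun s => W s x i) t) =
              (∑ i, 2 * W t x i * (∑ j, pd j (pd j (fun y => W t y i)) x - pd i P x -
                ∑ j, v t x j * pd j (fun y => W t y i) x)) +
              ∑ i, 2 * W t x i * ((deriv (fun s => W s x i) t + adv (v t) (fun y => v t y i) x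
                - lap (fun y => v t y i) x + pd i P x) -
                ∑ j, v t x j * pd j (fun y => v t y i - W t y i) x) := by
            rw [← Finset.sum_add_distrib]
            refine Finset.sum_congr rfl fun i _ => ?_
            rw [← mul_add, ← e i]
          rw [e', add_mul]
          refine add_le_add le_rfl ?_
          refine (mul_le_mul_of_nonneg_right hb (hpos x)).trans (le_of_eq ?_)
          ring
        · rw [hs t ht x hx]
          simp
      linarith
    · by_cases hx : x ∈ ball (0 : V) 1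
      · have h := hP.divv x hx
        unfold dv at h
        rw [h, zero_mul]
      · rw [hs t ht x hx, mul_zero]
    · by_cases hx : x ∈ ball (0 : V) 1
      · have h := hP.divW x hx
        unfold dv at h
        rw [h, zero_mul]
      · rw [hs t ht x hx, mul_zero]
  have i0 : Integrable fun x => deriv (fun s => nsq (W s) x * Φ s x) t :=
    int_cs (cont_dt_slice (F := fun s z => nsq (W s) z * Φ s z) hF ht)
      (hcs fun z hz => dt_zero (F := fun s z => nsq (W s) z * Φ s z) hF0 ht hz)
  have i1 : Integrable fun x => -2 * (gsq (W t) x * Φ t x) :=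
    (int_cs (hg.mul hφ.continuous) hc.mul_left).const_mul (-2)
  have i2 : Integrable fun x => nsq (W t) x * (deriv (fun s => Φ s x) t + lap (Φ t) x) :=
    int_cs (hn.mul (hdΦ.add hlap)) ((hdc.add hlc).mul_left)
  have i3 : Integrable fun x => nsq (W t) x * adv (v t) (Φ t) x :=
    int_cs (hn.mul (hadvc _ hu)) (hadvs _).mul_left
  have i4 : Integrable fun x => 2 * (P x * adv (W t) (Φ t) x) :=
    (int_cs (hP.sP.continuous.mul (hadvc _ hw)) (hadvs _).mul_left).const_mul 2
  have i5 : Integrable fun x => √(G t) * (nsq (W t) x * Φ t x) :=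
    (int_cs (hn.mul hφ.continuous) hc.mul_left).const_mul _
  have i6 : Integrable fun x => (√(G t) + G t) * (√(nsq (W t) x) * Φ t x) :=
    (int_cs (hn.sqrt.mul hφ.continuous) hc.mul_left).const_mul _
  have i12 : Integrable fun x => -2 * (gsq (W t) x * Φ t x) +
      nsq (W t) x * (deriv (fun s => Φ s x) t + lap (Φ t) x) := i1.add i2
  have i123 : Integrable fun x => -2 * (gsq (W t) x * Φ t x) +
      nsq (W t) x * (deriv (fun s => Φ s x) t + lap (Φ t) x) +
      nsq (W t) x * adv (v t) (Φ t) x := i12.add i3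
  have i1234 : Integrable fun x => -2 * (gsq (W t) x * Φ t x) +
      nsq (W t) x * (deriv (fun s => Φ s x) t + lap (Φ t) x) +
      nsq (W t) x * adv (v t) (Φ t) x + 2 * (P x * adv (W t) (Φ t) x) := i123.add i4
  have i56 : Integrable fun x => √(G t) * (nsq (W t) x * Φ t x) +
      (√(G t) + G t) * (√(nsq (W t) x) * Φ t x) := i5.add i6
  have i56' : Integrable fun x => 24 * (√(G t) * (nsq (W t) x * Φ t x) +
      (√(G t) + G t) * (√(nsq (W t) x) * Φ t x)) := i56.const_mul 24
  have iR : Integrable fun x => (-2 * (gsq (W t) x * Φ t x) +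
      nsq (W t) x * (deriv (fun s => Φ s x) t + lap (Φ t) x) +
      nsq (W t) x * adv (v t) (Φ t) x + 2 * (P x * adv (W t) (Φ t) x)) +
      24 * (√(G t) * (nsq (W t) x * Φ t x) +
      (√(G t) + G t) * (√(nsq (W t) x) * Φ t x)) := i1234.add i56'
  have hmono := integral_mono i0 (hZ'.1.add iR) key
  refine hmono.trans (le_of_eq ?_)
  have hsum : ∫ x, (F x + ((-2 * (gsq (W t) x * Φ t x) +
      nsq (W t) x * (deriv (fun s => Φ s x) t + lap (Φ t) x) +
      nsq (W t) x * adv (v t) (Φ t) x + 2 * (P x * adv (W t) (Φ t) x)) +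
      24 * (√(G t) * (nsq (W t) x * Φ t x) +
      (√(G t) + G t) * (√(nsq (W t) x) * Φ t x)))) = _ := integral_add hZ'.1 iR
  refine hsum.trans ?_
  rw [hZ'.2, zero_add, integral_add i1234 i56', integral_add i123 i4, integral_add i12 i3,
    integral_add i1 i2, integral_const_mul, integral_const_mul, integral_const_mul,
    integral_add i5 i6, integral_const_mul, integral_const_mul]

end Pool.Agent.Y8.W4
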