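import Pool.Agent.Y8.Lei

/-!
The local energy inequality and the momentum equation between two regular times.
-/

open MeasureTheory Set Metric Filter Topology
open scoped ContDiff

namespace Pool.Agent.Y8

open H459R3.NS W221.NS

section

variable {T : ℝ} {α β s t : ℝ} {θ : ℝ → ℝ} {Φ : ℝ → V → ℝ} {a : V} {R : ℝ}

theorem th_near (hθt : tsupport θ ⊆ Ioo s t) {τ : ℝ} (hτ : τ ∉ Ioo s t) :
    ∀ᶠ σ in 𝓝 τ, θ σ = 0 := by
  have h2 : τ ∉ tsupport θ := fun h => hτ (hθt h)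
  have h3 := notMem_tsupport_iff_eventuallyEq.1 h2
  exact h3

/-- A test function with a cut-off in time. -/
theorem test_mul (hΦ : ContDiffOn ℝ ∞ (fun z : ℝ × V => Φ z.1 z.2) (Ioo α β ×ˢ univ))
    (hs : ∀ t ∈ Ioo α β, ∀ z ∉ ball a R, Φ t z = 0) (hs1 : α < s) (ht1 : t < β) (hs0 : 0 < s)
    (htT : t < T) (hθ : ContDiff ℝ ∞ θ) (hθc : HasCompactSupport θ) (hθt : tsupport θ ⊆ Ioo s t) :
    Test T (fun τ x => θ τ * Φ τ x) := by
  have hsub : Ioo s t ⊆ Ioo α β := fun τ h => ⟨hs1.trans h.1, h.2.trans ht1⟩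
  have hss : Function.support (fun z : ℝ × V => θ z.1 * Φ z.1 z.2) ⊆
      tsupport θ ×ˢ closedBall a R := by
    intro z hz
    have h1 : θ z.1 ≠ 0 := fun h => hz (by simp only [h, zero_mul])
    have h2 : z.1 ∈ tsupport θ := subset_tsupport θ h1
    refine ⟨h2, ?_⟩
    by_contra hcon
    refine hz ?_
    have : Φ z.1 z.2 = 0 := hs z.1 (hsub (hθt h2)) z.2 fun h => hcon (ball_subset_closedBall h)
    simp only [this, mul_zero]
  have hts : tsupport (fun z : ℝ × V => θ z.1 * Φ z.1 z.2) ⊆ tsupport θ ×ˢ closedBall a R :=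
    closure_minimal hss ((isClosed_tsupport θ).prod isClosed_closedBall)
  refine ⟨?_, ?_, ?_⟩
  · rw [contDiff_iff_contDiffAt]
    intro z
    by_cases hz : z.1 ∈ Ioo α β
    · have h1 : ContDiffAt ℝ ∞ (fun z : ℝ × V => Φ z.1 z.2) z :=
        hΦ.contDiffAt ((opH isOpen_Ioo).mem_nhds ⟨hz, mem_univ _⟩)
      exact (hθ.contDiffAt.comp z contDiffAt_fst).mul h1
    · have h1 : ∀ᶠ σ in 𝓝 z.1, θ σ = 0 := th_near hθt fun h => hz (hsub h)
      have h2 : (fun z : ℝ × V => θ z.1 * Φ z.1 z.2) =ᶠ[𝓝 z] fun _ => 0 := by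
        have h3 : ∀ᶠ y : ℝ × V in 𝓝 z, θ y.1 = 0 := (continuous_fst.tendsto z).eventually h1
        filter_upwards [h3] with y hy
        rw [hy, zero_mul]
      exact contDiffAt_const.congr_of_eventuallyEq h2
  · exact HasCompactSupport.of_support_subset_isCompact
      (hθc.isCompact.prod (isCompact_closedBall a R)) hss
  · refine hts.trans ?_
    intro z hz
    have h1 := hθt hz.1
    exact ⟨⟨hs0.trans h1.1, h1.2.trans htT⟩, mem_univ _⟩

theorem dt_mul (hΦ : ContDiffOn ℝ ∞ (fun z : ℝ × V => Φ z.1 z.2) (Ioo α β ×ˢ univ))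
    (hθ : ContDiff ℝ ∞ θ) {τ : ℝ} (hτ : τ ∈ Ioo α β) (x : V) :
    deriv (fun s => θ s * Φ s x) τ = deriv θ τ * Φ τ x + θ τ * deriv (fun s => Φ s x) τ := by
  have h1 := dt_hd' isOpen_Ioo hΦ hτ x
  have h2 : HasDerivAt θ (deriv θ τ) τ :=
    ((hθ.differentiable (by simp)) τ).hasDerivAt
  exact (h2.mul h1).deriv

theorem pd_cm {f : V → ℝ} (hf : ContDiff ℝ ∞ f) (c : ℝ) (j : Fin 3) :
    pd j (fun y => c * f y) = fun x => c * pd j f x := by
  funext x
  exact Pool.Agent.W135.MD.pd_cmul (hf.differentiable (by simp)) c j x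

theorem lap_cm {f : V → ℝ} (hf : ContDiff ℝ ∞ f) (c : ℝ) :
    lap (fun y => c * f y) = fun x => c * lap f x := by
  funext x
  unfold lap
  rw [Finset.mul_sum]
  refine Finset.sum_congr rfl fun j _ => ?_
  rw [pd_cm hf, pd_cm (Pool.Agent.W583.MD.sm_pd hf j)]

theorem adv_cm (w : V → V) {f : V → ℝ} (hf : ContDiff ℝ ∞ f) (c : ℝ) (x : V) :
    adv w (fun y => c * f y) x = c * adv w f x := by
  unfold adv
  rw [Finset.mul_sum]
  refine Finset.sum_congr rfl fun j _ => ?_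
  rw [pd_cm hf]
  ring

theorem ed_mul {ν : ℝ} {u : ℝ → V → V} {p : ℝ → V → ℝ}
    (hΦ : ContDiffOn ℝ ∞ (fun z : ℝ × V => Φ z.1 z.2) (Ioo α β ×ˢ univ))
    (hθ : ContDiff ℝ ∞ θ) {τ : ℝ} (hτ : τ ∈ Ioo α β) (x : V) :
    ed ν u p (fun τ x => θ τ * Φ τ x) τ x
      = deriv θ τ * (nsq (u τ) x * Φ τ x) + θ τ * ed ν u p Φ τ x := by
  have hsm := sl_sm hΦ hτ
  unfold ed
  rw [dt_mul hΦ hθ hτ, lap_cm hsm, adv_cm _ hsm]
  ring

theorem md_mul {ν : ℝ} {u : ℝ → V → V} {p : ℝ → V → ℝ} (i : Fin 3)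
    (hΦ : ContDiffOn ℝ ∞ (fun z : ℝ × V => Φ z.1 z.2) (Ioo α β ×ˢ univ))
    (hθ : ContDiff ℝ ∞ θ) {τ : ℝ} (hτ : τ ∈ Ioo α β) (x : V) :
    md ν u p (fun τ x => θ τ * Φ τ x) i τ x
      = deriv θ τ * (u τ x i * Φ τ x) + θ τ * md ν u p Φ i τ x := by
  have hsm := sl_sm hΦ hτ
  unfold md
  rw [dt_mul hΦ hθ hτ, lap_cm hsm, adv_cm _ hsm, pd_cm hsm]
  ring

end

section

variable {T E D : ℝ} {G : Set ℝ} {u : ℝ → V → V} {p : ℝ → V → ℝ}

theorem vnull (h : Turb 1 T E D G u p) {s t : ℝ} (hs : s ∈ G) (ht : t ∈ G) :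
    volume (Ioo s t \ G) = 0 := by
  refine measure_mono_null ?_ h.fullG
  intro τ hτ
  exact ⟨⟨(h.subG hs).1.trans hτ.1.1, hτ.1.2.trans (h.subG ht).2⟩, hτ.2⟩

theorem aeG (h : Turb 1 T E D G u p) {s t : ℝ} (hs : s ∈ G) (ht : t ∈ G) :
    (Ioo s t ∩ G : Set ℝ) =ᵐ[volume] (Ioo s t : Set ℝ) := by
  refine (ae_eq_set).2 ⟨?_, ?_⟩
  · have : (Ioo s t ∩ G) \ Ioo s t = ∅ := by
      ext τ
      simp only [Set.mem_sdiff, mem_inter_iff, mem_empty_iff_false, iff_false]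
      tauto
    rw [this]
    exact measure_empty
  · have : Ioo s t \ (Ioo s t ∩ G) = Ioo s t \ G := sdiff_self_inter
    rw [this]
    exact vnull h hs ht

/-- The local energy inequality between two regular times. -/
theorem lei (hT : S_TCUT) (h : Turb 1 T E D G u p) {α β : ℝ} {Φ : ℝ → V → ℝ}
    (hΦ : ContDiffOn ℝ ∞ (fun z : ℝ × V => Φ z.1 z.2) (Ioo α β ×ˢ univ)) {a : V} {R : ℝ}
    (hR : 0 < R) (hs : ∀ t ∈ Ioo α β, ∀ z ∉ ball a R, Φ t z = 0) {s t : ℝ} (hsG : s ∈ G)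
    (htG : t ∈ G) (hαs : α < s) (hst : s ≤ t) (htβ : t < β)
    (pos : ∀ τ ∈ Icc s t, ∀ z, 0 ≤ Φ τ z) :
    IntegrableOn (DD 1 u p Φ) (Ioo s t) ∧
      (∫ z, nsq (u t) z * Φ t z) - (∫ z, nsq (u s) z * Φ s z) ≤ ∫ τ in Ioo s t, DD 1 u p Φ τ := by
  set G' := G ∩ Ioo α β with hG'
  have hG'o : IsOpen G' := h.openG.inter isOpen_Ioo
  have hIab : Ioo s t ⊆ Ioo α β := fun τ h => ⟨hαs.trans h.1, h.2.trans htβ⟩
  have hIG : Ioo s t ∩ G' = Ioo s t ∩ G := by
    rw [hG']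
    ext τ
    simp only [mem_inter_iff]
    constructor
    · exact fun h => ⟨h.1, h.2.1⟩
    · exact fun h => ⟨h.1, h.2, hIab h.1⟩
  have hsm' : ContDiffOn ℝ ∞ (fun z : ℝ × V => u z.1 z.2) (G' ×ˢ univ) :=
    h.smooth_u.mono (prod_mono inter_subset_left subset_rfl)
  have hpm' : ContDiffOn ℝ ∞ (fun z : ℝ × V => p z.1 z.2) (G' ×ˢ univ) :=
    h.smooth_p.mono (prod_mono inter_subset_left subset_rfl)
  have hΦ' : ContDiffOn ℝ ∞ (fun z : ℝ × V => Φ z.1 z.2) (G' ×ˢ univ) :=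
    hΦ.mono (prod_mono inter_subset_right subset_rfl)
  have hs' : ∀ t ∈ G', ∀ z ∉ ball a R, Φ t z = 0 := fun t ht => hs t ht.2
  obtain ⟨M, hM0, hM⟩ := tbd hΦ hR hs hαs htβ
  have hIoo : Ioo s t ⊆ Icc s t := Ioo_subset_Icc_self
  have hms : MeasurableSet (Ioo s t ∩ G') := measurableSet_Ioo.inter hG'o.measurableSet
  -- the functions
  have hgc : ContinuousOn (fun τ => ∫ z, nsq (u τ) z * Φ τ z) G' :=
    pint_cont_c (F := fun τ z => nsq (u τ) z * Φ τ z) hG'o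
      ((nsq_joint hsm').mul hΦ').continuousOn a R
      fun τ hτ z hz => by rw [hs' τ hτ z hz, mul_zero]
  have hgi : IntegrableOn (fun τ => ∫ z, nsq (u τ) z * Φ τ z) (Ioo s t ∩ G') := by
    refine tint (F := fun τ z => nsq (u τ) z * Φ τ z) (a := a) (R := R) (C := M) h hG'o
      inter_subset_left ((nsq_joint hsm').mul hΦ').continuousOn
      (fun τ hτ z hz => by rw [hs' τ hτ z hz, mul_zero]) hms inter_subset_right hM0 ?_
    intro τ hτ x
    have h1 := (hM τ (hIoo hτ.1) x).1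
    have h2 := nsq_nn (u τ) x
    rw [abs_mul, abs_of_nonneg h2]
    have h3 : nsq (u τ) x ≤ MM (u τ) (p τ) x := by
      unfold MM
      have := gsq_nn (u τ) x
      have : 0 ≤ √(nsq (u τ) x) := Real.sqrt_nonneg _
      have := abs_nonneg (p τ x)
      have : 0 ≤ √(nsq (u τ) x) ^ 3 + |p τ x| * √(nsq (u τ) x) := by positivity
      linarith
    have := MM_nn (u τ) (p τ) x
    calc nsq (u τ) x * |Φ τ x| ≤ MM (u τ) (p τ) x * M :=
          mul_le_mul h3 h1 (abs_nonneg _) this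
      _ = _ := mul_comm _ _
  have hDeq : ∀ τ ∈ G', DD 1 u p Φ τ = ∫ x, ed 1 u p Φ τ x := fun τ hτ =>
    DD_eq 1 hG'o hsm' hpm' hΦ' hR hs' hτ
  have hhi : IntegrableOn (DD 1 u p Φ) (Ioo s t ∩ G') := by
    refine IntegrableOn.congr_fun (f := fun τ => ∫ x, ed 1 u p Φ τ x) ?_
      (fun τ hτ => (hDeq τ hτ.2).symm) hms
    refine tint (a := a) (R := R) (C := 8 * M) h hG'o inter_subset_left
      (ed_joint 1 hG'o hsm' hpm' hΦ').continuousOn
      (fun τ hτ z hz => ed_zero 1 hG'o hΦ' hR hs' hτ hz) hms inter_subset_right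
      (by positivity) fun τ hτ x => ?_
    obtain ⟨m0, m1, m2, m3⟩ := hM τ (hIoo hτ.1) x
    exact ed_abs hM0 m0 m1 m2 m3
  have hae : (Ioo s t ∩ G' : Set ℝ) =ᵐ[volume] (Ioo s t : Set ℝ) := by
    rw [hIG]
    exact aeG h hsG htG
  refine ⟨hhi.congr_set_ae hae.symm, ?_⟩
  have key := hT G' s t (fun τ => ∫ z, nsq (u τ) z * Φ τ z) (DD 1 u p Φ) hG'o
    ⟨hsG, hαs, hst.trans_lt htβ⟩ ⟨htG, hαs.trans_le hst, htβ⟩ hst hgc hgi hhi ?_
  · rw [setIntegral_congr_set hae] at key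
    exact key
  · intro θ hθ hθc hθt hθ0
    have htest : Test T (fun τ x => θ τ * Φ τ x) :=
      test_mul hΦ hs hαs htβ (h.subG hsG).1 (h.subG htG).2 hθ hθc hθt
    have hpos : ∀ τ x, 0 ≤ θ τ * Φ τ x := by
      intro τ x
      by_cases hτ : τ ∈ Ioo s t
      · exact mul_nonneg (hθ0 τ) (pos τ (hIoo hτ) x)
      · rw [(th_near hθt hτ).self_of_nhds, zero_mul]
    have h1 := h.local_energy _ htest hpos
    have h2 : ∫ τ in G, DD 1 u p (fun τ x => θ τ * Φ τ x) τ =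
        ∫ τ in Ioo s t ∩ G', DD 1 u p (fun τ x => θ τ * Φ τ x) τ := by
      have hsubG : Ioo s t ∩ G' ⊆ G := fun τ hτ => hτ.2.1
      refine setIntegral_eq_of_subset_of_forall_sdiff_eq_zero h.openG.measurableSet
        hsubG fun τ hτ => ?_
      have hτI : τ ∉ Ioo s t := fun h' => hτ.2 ⟨h', hτ.1, hIab h'⟩
      have hnear := th_near hθt hτI
      have e0 : θ τ = 0 := hnear.self_of_nhds
      have e1 : (fun x => θ τ * Φ τ x) = fun _ => 0 := by
        funext x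
        rw [e0, zero_mul]
      have e2 : ∀ x, deriv (fun s => θ s * Φ s x) τ = 0 := by
        intro x
        have : (fun s => θ s * Φ s x) =ᶠ[𝓝 τ] fun _ => 0 := by
          filter_upwards [hnear] with σ hσ
          rw [hσ, zero_mul]
        rw [this.deriv_eq, deriv_const]
      have e3 : ∀ j x, pd j (fun _ : V => (0 : ℝ)) x = 0 := fun j x =>
        Pool.Agent.W135.MD.pd_const' 0 j x
      have e4 : ∀ j, pd j (fun _ : V => (0 : ℝ)) = fun _ => 0 := fun j => funext fun x => e3 j x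
      unfold DD lap adv
      simp only [e2, e0, zero_mul, e3, e4]
      simp
    rw [h2] at h1
    refine h1.trans (le_of_eq ?_)
    refine setIntegral_congr_fun hms fun τ hτ => ?_
    have hθΦ : ContDiffOn ℝ ∞ (fun z : ℝ × V => θ z.1 * Φ z.1 z.2) (G' ×ˢ univ) :=
      ((hθ.comp contDiff_fst).contDiffOn).mul hΦ'
    have e1 : DD 1 u p (fun τ x => θ τ * Φ τ x) τ =
        ∫ x, ed 1 u p (fun τ x => θ τ * Φ τ x) τ x :=
      DD_eq 1 hG'o hsm' hpm' hθΦ hR (fun t ht z hz => by rw [hs' t ht z hz, mul_zero]) hτ.2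
    have i1 : Integrable fun x => nsq (u τ) x * Φ τ x :=
      int_csR ((sl_ct (F := fun t x => nsq (u t) x) (nsq_joint hsm').continuousOn hτ.2).mul
        (sl_sm hΦ' hτ.2).continuous) (a := a) (R := R) fun z hz => by
          rw [hs' τ hτ.2 z hz, mul_zero]
    have i2 : Integrable fun x => ed 1 u p Φ τ x :=
      int_csR (sl_ct (ed_joint 1 hG'o hsm' hpm' hΦ').continuousOn hτ.2) (a := a) (R := R)
        fun z hz => ed_zero 1 hG'o hΦ' hR hs' hτ.2 hz
    show DD 1 u p (fun τ x => θ τ * Φ τ x) τ = _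
    rw [e1, hDeq τ hτ.2]
    simp only [ed_mul hΦ hθ hτ.2.2]
    rw [integral_add (i1.const_mul _) (i2.const_mul _), integral_const_mul, integral_const_mul]

/-- The momentum equation between two regular times. -/
theorem wmom (hT : S_TCUT) (h : Turb 1 T E D G u p) (i : Fin 3) {α β : ℝ} {Φ : ℝ → V → ℝ}
    (hΦ : ContDiffOn ℝ ∞ (fun z : ℝ × V => Φ z.1 z.2) (Ioo α β ×ˢ univ)) {a : V} {R : ℝ}
    (hR : 0 < R) (hs : ∀ t ∈ Ioo α β, ∀ z ∉ ball a R, Φ t z = 0) {s t : ℝ} (hsG : s ∈ G)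
    (htG : t ∈ G) (hαs : α < s) (hst : s ≤ t) (htβ : t < β) :
    IntegrableOn (DM 1 u p Φ i) (Ioo s t) ∧
      (∫ z, u t z i * Φ t z) - (∫ z, u s z i * Φ s z) = ∫ τ in Ioo s t, DM 1 u p Φ i τ := by
  set G' := G ∩ Ioo α β with hG'
  have hG'o : IsOpen G' := h.openG.inter isOpen_Ioo
  have hIab : Ioo s t ⊆ Ioo α β := fun τ h => ⟨hαs.trans h.1, h.2.trans htβ⟩
  have hIG : Ioo s t ∩ G' = Ioo s t ∩ G := by
    rw [hG']
    ext τ
    simp only [mem_inter_iff]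
    constructor
    · exact fun h => ⟨h.1, h.2.1⟩
    · exact fun h => ⟨h.1, h.2, hIab h.1⟩
  have hsm' : ContDiffOn ℝ ∞ (fun z : ℝ × V => u z.1 z.2) (G' ×ˢ univ) :=
    h.smooth_u.mono (prod_mono inter_subset_left subset_rfl)
  have hpm' : ContDiffOn ℝ ∞ (fun z : ℝ × V => p z.1 z.2) (G' ×ˢ univ) :=
    h.smooth_p.mono (prod_mono inter_subset_left subset_rfl)
  have hΦ' : ContDiffOn ℝ ∞ (fun z : ℝ × V => Φ z.1 z.2) (G' ×ˢ univ) :=
    hΦ.mono (prod_mono inter_subset_right subset_rfl)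
  have hs' : ∀ t ∈ G', ∀ z ∉ ball a R, Φ t z = 0 := fun t ht => hs t ht.2
  obtain ⟨M, hM0, hM⟩ := tbd hΦ hR hs hαs htβ
  have hIoo : Ioo s t ⊆ Icc s t := Ioo_subset_Icc_self
  have hms : MeasurableSet (Ioo s t ∩ G') := measurableSet_Ioo.inter hG'o.measurableSet
  have hui := comp_joint hsm' i
  have hgc : ContinuousOn (fun τ => ∫ z, u τ z i * Φ τ z) G' :=
    pint_cont_c (F := fun τ z => u τ z i * Φ τ z) hG'o
      (hui.mul hΦ').continuousOn a R
      fun τ hτ z hz => by rw [hs' τ hτ z hz, mul_zero]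
  have hgi : IntegrableOn (fun τ => ∫ z, u τ z i * Φ τ z) (Ioo s t ∩ G') := by
    refine tint (F := fun τ z => u τ z i * Φ τ z) (a := a) (R := R) (C := M) h hG'o
      inter_subset_left (hui.mul hΦ').continuousOn
      (fun τ hτ z hz => by rw [hs' τ hτ z hz, mul_zero]) hms inter_subset_right hM0 ?_
    intro τ hτ x
    have h1 := (hM τ (hIoo hτ.1) x).1
    have h2 := abs_comp_le (u τ) x i
    rw [abs_mul]
    have h3 : √(nsq (u τ) x) ≤ MM (u τ) (p τ) x := by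
      unfold MM
      have := gsq_nn (u τ) x
      have := nsq_nn (u τ) x
      have : 0 ≤ √(nsq (u τ) x) := Real.sqrt_nonneg _
      have := abs_nonneg (p τ x)
      have : 0 ≤ √(nsq (u τ) x) ^ 3 + |p τ x| * √(nsq (u τ) x) := by positivity
      linarith
    have := MM_nn (u τ) (p τ) x
    calc |u τ x i| * |Φ τ x| ≤ MM (u τ) (p τ) x * M :=
          mul_le_mul (h2.trans h3) h1 (abs_nonneg _) this
      _ = _ := mul_comm _ _
  have hDeq : ∀ τ, DM 1 u p Φ i τ = ∫ x, md 1 u p Φ i τ x := fun τ => rfl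
  have hhi : IntegrableOn (DM 1 u p Φ i) (Ioo s t ∩ G') := by
    refine tint (F := fun τ x => md 1 u p Φ i τ x) (a := a) (R := R) (C := 8 * M) h hG'o
      inter_subset_left (md_joint 1 i hG'o hsm' hpm' hΦ').continuousOn
      (fun τ hτ z hz => md_zero 1 i hG'o hΦ' hR hs' hτ hz) hms inter_subset_right
      (by positivity) fun τ hτ x => ?_
    obtain ⟨m0, m1, m2, m3⟩ := hM τ (hIoo hτ.1) x
    exact md_abs hM0 m1 m2 m3 i
  have hae : (Ioo s t ∩ G' : Set ℝ) =ᵐ[volume] (Ioo s t : Set ℝ) := by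
    rw [hIG]
    exact aeG h hsG htG
  have hsame : ∀ θ : ℝ → ℝ, ContDiff ℝ ∞ θ → HasCompactSupport θ → tsupport θ ⊆ Ioo s t →
      ∫ τ in Ioo s t ∩ G', (deriv θ τ * (∫ z, u τ z i * Φ τ z) + θ τ * DM 1 u p Φ i τ) = 0 := by
    intro θ hθ hθc hθt
    have htest : Test T (fun τ x => θ τ * Φ τ x) :=
      test_mul hΦ hs hαs htβ (h.subG hsG).1 (h.subG htG).2 hθ hθc hθt
    have h1 := h.weak _ htest i
    have h2 : ∫ τ in G, DM 1 u p (fun τ x => θ τ * Φ τ x) i τ =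
        ∫ τ in Ioo s t ∩ G', DM 1 u p (fun τ x => θ τ * Φ τ x) i τ := by
      have hsubG : Ioo s t ∩ G' ⊆ G := fun τ hτ => hτ.2.1
      refine setIntegral_eq_of_subset_of_forall_sdiff_eq_zero h.openG.measurableSet
        hsubG fun τ hτ => ?_
      have hτI : τ ∉ Ioo s t := fun h' => hτ.2 ⟨h', hτ.1, hIab h'⟩
      have hnear := th_near hθt hτI
      have e0 : θ τ = 0 := hnear.self_of_nhds
      have e1 : (fun x => θ τ * Φ τ x) = fun _ => 0 := by
        funext x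
        rw [e0, zero_mul]
      have e2 : ∀ x, deriv (fun s => θ s * Φ s x) τ = 0 := by
        intro x
        have : (fun s => θ s * Φ s x) =ᶠ[𝓝 τ] fun _ => 0 := by
          filter_upwards [hnear] with σ hσ
          rw [hσ, zero_mul]
        rw [this.deriv_eq, deriv_const]
      have e3 : ∀ j x, pd j (fun _ : V => (0 : ℝ)) x = 0 := fun j x =>
        Pool.Agent.W135.MD.pd_const' 0 j x
      have e4 : ∀ j, pd j (fun _ : V => (0 : ℝ)) = fun _ => 0 := fun j => funext fun x => e3 j x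
      unfold DM lap adv
      simp only [e2, e0, zero_mul, e3, e4]
      simp
    rw [h2] at h1
    refine Eq.trans ?_ h1
    refine setIntegral_congr_fun hms fun τ hτ => ?_
    have i1 : Integrable fun x => u τ x i * Φ τ x :=
      int_csR ((sl_ct (F := fun t x => u t x i) hui.continuousOn hτ.2).mul
        (sl_sm hΦ' hτ.2).continuous) (a := a) (R := R) fun z hz => by
          rw [hs' τ hτ.2 z hz, mul_zero]
    have i2 : Integrable fun x => md 1 u p Φ i τ x :=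
      int_csR (sl_ct (md_joint 1 i hG'o hsm' hpm' hΦ').continuousOn hτ.2) (a := a) (R := R)
        fun z hz => md_zero 1 i hG'o hΦ' hR hs' hτ.2 hz
    have e1 : DM 1 u p (fun τ x => θ τ * Φ τ x) i τ =
        ∫ x, md 1 u p (fun τ x => θ τ * Φ τ x) i τ x := rfl
    show deriv θ τ * (∫ z, u τ z i * Φ τ z) + θ τ * DM 1 u p Φ i τ =
      DM 1 u p (fun τ x => θ τ * Φ τ x) i τ
    rw [e1, hDeq τ]
    simp only [md_mul i hΦ hθ hτ.2.2]
    rw [integral_add (i1.const_mul _) (i2.const_mul _), integral_const_mul, integral_const_mul]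
  refine ⟨hhi.congr_set_ae hae.symm, ?_⟩
  have key := hT G' s t (fun τ => ∫ z, u τ z i * Φ τ z) (DM 1 u p Φ i) hG'o
    ⟨hsG, hαs, hst.trans_lt htβ⟩ ⟨htG, hαs.trans_le hst, htβ⟩ hst hgc hgi hhi
    fun θ hθ hθc hθt _ => (hsame θ hθ hθc hθt).ge
  have key2 := hT G' s t (fun τ => -∫ z, u τ z i * Φ τ z) (fun τ => -DM 1 u p Φ i τ) hG'o
    ⟨hsG, hαs, hst.trans_lt htβ⟩ ⟨htG, hαs.trans_le hst, htβ⟩ hst hgc.neg hgi.neg hhi.neg
    fun θ hθ hθc hθt _ => by
      have h1 := hsame θ hθ hθc hθt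
      have e : (fun τ => deriv θ τ * -(∫ z, u τ z i * Φ τ z) + θ τ * -DM 1 u p Φ i τ) =
          fun τ => -(deriv θ τ * (∫ z, u τ z i * Φ τ z) + θ τ * DM 1 u p Φ i τ) := by
        funext τ
        ring
      rw [e, integral_neg, h1, neg_zero]
  rw [setIntegral_congr_set hae] at key key2
  rw [integral_neg] at key2
  refine le_antisymm key ?_
  linarith

end

end Pool.Agent.Y8
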