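import Pool.Agent.Y8.Moll

/-!
The modulus of continuity in time of local means.
-/

open MeasureTheory Set Metric Filter Topology
open scoped ContDiff NNReal

namespace Pool.Agent.Y8

open H459R3.NS W221.NS

theorem abs_int_le {X : Type*} [MeasurableSpace X] {μ : Measure X} {f g : X → ℝ}
    (hg : Integrable g μ) (h : ∀ᵐ x ∂μ, |f x| ≤ g x) : |∫ x, f x ∂μ| ≤ ∫ x, g x ∂μ := by
  rw [← Real.norm_eq_abs]
  exact norm_integral_le_of_norm_le hg h

/-- The majorant in time, extended by zero. -/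
noncomputable def K1 (G : Set ℝ) (u : ℝ → V → V) (p : ℝ → V → ℝ) (t : ℝ) : ℝ :=
  G.indicator (kk u p) t

section

variable {T E D : ℝ} {G : Set ℝ} {u : ℝ → V → V} {p : ℝ → V → ℝ}

theorem K1_int (h : Turb 1 T E D G u p) : Integrable (K1 G u p) := by
  unfold K1
  exact (integrable_indicator_iff h.openG.measurableSet).2 (kk_int h)

theorem K1_nn (G : Set ℝ) (u : ℝ → V → V) (p : ℝ → V → ℝ) (t : ℝ) : 0 ≤ K1 G u p t := by
  unfold K1
  exact indicator_nonneg (fun t _ => zero_le_one.trans (kk_pos u p t)) t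

theorem K1_in {t : ℝ} (ht : t ∈ G) : K1 G u p t = kk u p t := indicator_of_mem ht _

theorem aeT (h : Turb 1 T E D G u p) {s t : ℝ} (hs : 0 ≤ s) (ht : t ≤ T) :
    ∀ᵐ τ ∂(volume.restrict (Ioo s t)), τ ∈ G := by
  rw [ae_iff, Measure.restrict_apply' measurableSet_Ioo]
  refine measure_mono_null ?_ h.fullG
  intro τ hτ
  exact ⟨⟨hs.trans_lt hτ.2.1, hτ.2.2.trans_le ht⟩, hτ.1⟩

theorem K1_low (h : Turb 1 T E D G u p) {s t : ℝ} (hs : 0 ≤ s) (hst : s ≤ t) (ht : t ≤ T) :
    t - s ≤ ∫ τ in Ioo s t, K1 G u p τ := by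
  have h1 : ∫ _ in Ioo s t, (1 : ℝ) = t - s := by
    rw [setIntegral_const]
    simp [Measure.real, Real.volume_Ioo, ENNReal.toReal_ofReal (sub_nonneg.2 hst)]
  rw [← h1]
  refine integral_mono_ae (integrableOn_const (by simp)) (K1_int h).integrableOn ?_
  filter_upwards [aeT h hs ht] with τ hτ
  rw [K1_in hτ]
  exact kk_pos u p τ

/-- The modulus of continuity of local means. -/
theorem wmod (hT : S_TCUT) (E R : ℝ) (hR : 0 < R) : ∃ C : ℝ, 0 < C ∧
    ∀ (T D : ℝ) (G : Set ℝ) (u : ℝ → V → V) (p : ℝ → V → ℝ), Turb 1 T E D G u p →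
    ∀ (a : V) (M : ℝ) (ψ : V → ℝ), 0 ≤ M → ContDiff ℝ ∞ ψ → (∀ z ∉ ball a R, ψ z = 0) →
    (∀ z, |lap ψ z| ≤ M) → (∀ z j, |pd j ψ z| ≤ M) → ∀ i, ∀ s ∈ G, ∀ t ∈ G, s ≤ t →
      |(∫ z, u t z i * ψ z) - ∫ z, u s z i * ψ z| ≤ C * M * ∫ τ in Ioo s t, K1 G u p τ := by
  obtain ⟨C, hC, hm⟩ := maj E R
  refine ⟨8 * C, by positivity, fun T D G u p h a M ψ hM hψ h0 hl hj i s hs t ht hst => ?_⟩
  have hΦ : ContDiffOn ℝ ∞ (fun z : ℝ × V => (fun (_ : ℝ) x => ψ x) z.1 z.2)
      (Ioo (s - 1) (t + 1) ×ˢ univ) := (hψ.comp contDiff_snd).contDiffOn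
  obtain ⟨h1, h2⟩ := wmom hT h i hΦ hR (fun _ _ => h0) hs ht (by linarith) hst (by linarith)
  rw [h2]
  have h3 : ∀ τ ∈ G, |DM 1 u p (fun _ x => ψ x) i τ| ≤ 8 * C * M * K1 G u p τ := by
    intro τ hτ
    have hu := h.spv hτ
    have hp := h.sp hτ
    have e : DM 1 u p (fun _ x => ψ x) i τ = ∫ x, md 1 u p (fun _ x => ψ x) i τ x := rfl
    have hφu : ContDiffOn ℝ ∞ (fun z : ℝ × V => (fun (_ : ℝ) x => ψ x) z.1 z.2)
        ((univ : Set ℝ) ×ˢ univ) := (hψ.comp contDiff_snd).contDiffOn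
    have hz : ∀ x ∉ ball a R, md 1 u p (fun _ x => ψ x) i τ x = 0 := by
      intro x hx
      have h0' : ∀ t ∈ (univ : Set ℝ), ∀ z ∉ ball a R, (fun (_ : ℝ) x => ψ x) t z = 0 :=
        fun _ _ => h0
      exact md_zero (φ := fun _ x => ψ x) 1 i isOpen_univ hφu hR h0' (mem_univ τ) hx
    rw [e, ← ball_int_eq hz]
    have hMc := MM_cont hu.1 hp.smooth.continuous
    have hpt : ∀ x, |md 1 u p (fun _ x => ψ x) i τ x| ≤ 8 * M * MM (u τ) (p τ) x := by
      intro x
      have hd : |deriv (fun s => (fun (_ : ℝ) x => ψ x) s x) τ| ≤ M := by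
        simp only [deriv_const, abs_zero]
        exact hM
      exact md_abs (φ := fun _ x => ψ x) hM hd (hl x) (hj x) i
    have hgi : IntegrableOn (fun x => 8 * M * MM (u τ) (p τ) x) (ball a R) :=
      ballint (continuous_const.mul hMc) _ _
    calc |∫ x in ball a R, md 1 u p (fun _ x => ψ x) i τ x|
        ≤ ∫ x in ball a R, 8 * M * MM (u τ) (p τ) x := abs_int_le hgi (ae_of_all _ hpt)
      _ ≤ _ := by
          rw [integral_const_mul, K1_in hτ]
          have := hm (u τ) (p τ) hu hp (h.energy_le τ hτ) a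
          have h4 : 8 * C * M * kk u p τ = 8 * M * (C * kk u p τ) := by ring
          rw [h4]
          exact mul_le_mul_of_nonneg_left this (by positivity)
  have h5 : ∫ τ in Ioo s t, 8 * C * M * K1 G u p τ = 8 * C * M * ∫ τ in Ioo s t, K1 G u p τ :=
    integral_const_mul _ _
  rw [← h5]
  have hgi : IntegrableOn (fun τ => 8 * C * M * K1 G u p τ) (Ioo s t) :=
    (K1_int h).integrableOn.const_mul _
  refine abs_int_le hgi ?_
  filter_upwards [aeT h (h.subG hs).1.le (h.subG ht).2.le] with τ hτ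
  exact h3 τ hτ

/-! ### The means at one time -/

theorem kx_i1 {r : ℝ} (hr : 0 < r) (x : V) : ∫ z, kx r x z = 1 := by
  have h := mo_eq hr (fun _ _ => (1 : ℝ)) x 0
  unfold mo at h
  simp only [mul_one, one_mul] at h
  rw [← h]
  exact th_i1

theorem kx_nn {r : ℝ} (hr : 0 < r) (x z : V) : 0 ≤ kx r x z :=
  mul_nonneg (by positivity) (th_nn _)

theorem kx_int {r : ℝ} (hr : 0 < r) (x : V) {f : V → ℝ} (hf : Continuous f) :
    Integrable fun z => f z * kx r x z :=
  int_csR (hf.mul (kx_sm r x).continuous) (a := x) (R := r) fun z hz => by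
    rw [kx_z hr hz, mul_zero]

/-- Jensen's inequality for the mean. -/
theorem mo_sq : ∃ K : ℝ, 0 < K ∧ ∀ (w : V → V), Continuous w → ∀ (r : ℝ) (x : V) (i : Fin 3),
    0 < r → mo r w x i ^ 2 ≤ K * (r ^ 3)⁻¹ * ∫ z in ball x r, w z i ^ 2 := by
  obtain ⟨K, hK, hK1, -, hK3, hK4⟩ := th_bd
  refine ⟨K, by linarith, fun w hw r x i hr => ?_⟩
  have hwi : Continuous fun z => w z i := (continuous_apply i).comp hw
  set m := mo r w x i with hm
  have hm' : m = ∫ z, w z i * kx r x z := mo_eq hr w x i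
  have h0 : 0 ≤ ∫ z, (w z i - m) ^ 2 * kx r x z :=
    integral_nonneg fun z => mul_nonneg (sq_nonneg _) (kx_nn hr x z)
  have e : ∀ z, (w z i - m) ^ 2 * kx r x z =
      w z i ^ 2 * kx r x z - 2 * m * (w z i * kx r x z) + m ^ 2 * (1 * kx r x z) := fun z => by ring
  simp only [e] at h0
  have i1 : Integrable fun z => w z i ^ 2 * kx r x z :=
    kx_int hr x (f := fun z => w z i ^ 2) (hwi.pow 2)
  have i2 := kx_int hr x hwi
  have i3 := kx_int hr x (continuous_const (y := (1 : ℝ)))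
  have i4 : Integrable fun z => w z i ^ 2 * kx r x z - 2 * m * (w z i * kx r x z) :=
    i1.sub (i2.const_mul _)
  rw [integral_add i4 (i3.const_mul _), integral_sub i1 (i2.const_mul _), integral_const_mul,
    integral_const_mul, ← hm'] at h0
  simp only [one_mul] at h0
  rw [kx_i1 hr] at h0
  have h1 : m ^ 2 ≤ ∫ z, w z i ^ 2 * kx r x z := by nlinarith
  refine h1.trans ?_
  rw [← ball_int_eq (a := x) (R := r) (f := fun z => w z i ^ 2 * kx r x z)
    (fun z hz => by rw [kx_z hr hz, mul_zero]), ← integral_const_mul]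
  refine setIntegral_mono i1.integrableOn
    (ballint (continuous_const.mul (hwi.pow 2)) _ _) fun z => ?_
  have h2 := (kx_bd hK1 hK3 hK4 hr x z).1
  rw [abs_of_nonneg (kx_nn hr x z)] at h2
  rw [mul_comm]
  exact mul_le_mul_of_nonneg_right h2 (sq_nonneg _)

theorem comp_sq_le (w : V → V) (z : V) (i : Fin 3) : w z i ^ 2 ≤ nsq w z :=
  Finset.single_le_sum (f := fun i => w z i ^ 2) (fun _ _ => sq_nonneg _) (Finset.mem_univ i)

/-- The mean is bounded by the energy. -/
theorem mo_bd : ∃ K : ℝ, 0 < K ∧ ∀ (E : ℝ) (w : V → V), SPV w → energy w ≤ E ^ 2 →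
    ∀ (r : ℝ) (x : V), 0 < r → r ≤ 1 → ‖mo r w x‖ ≤ K * |E| / √(r ^ 3) := by
  obtain ⟨K, hK, h⟩ := mo_sq
  obtain ⟨C, hC, hb⟩ := ball_le 1
  refine ⟨√(K * C), by positivity, fun E w hw hE r x hr hr1 => ?_⟩
  rw [pi_norm_le_iff_of_nonneg (by positivity)]
  intro i
  have hc := hw.1.continuous
  have h1 := h w hc r x i hr
  have h2 : ∫ z in ball x r, w z i ^ 2 ≤ ∫ z in ball x 1, nsq w z := by
    refine (setIntegral_mono (ballint (((continuous_apply i).comp hc).pow 2) _ _)
      (ballint (nsq_sm hw.1).continuous _ _) fun z => comp_sq_le w z i).trans ?_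
    exact setIntegral_mono_set (ballint (nsq_sm hw.1).continuous _ _)
      (ae_of_all _ fun z => nsq_nn w z) (ball_subset_ball hr1).eventuallyLE
  have h3 := hb _ (nsq_sm hw.1).continuous (nsq_per hw.2) (nsq_nn w) x
  rw [← energy_eq hw.1] at h3
  have h4 : mo r w x i ^ 2 ≤ K * C * |E| ^ 2 / r ^ 3 := by
    rw [sq_abs]
    calc mo r w x i ^ 2 ≤ K * (r ^ 3)⁻¹ * (C * E ^ 2) := by
          refine h1.trans ?_
          refine mul_le_mul_of_nonneg_left (h2.trans (h3.trans ?_)) (by positivity)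
          exact mul_le_mul_of_nonneg_left hE hC.le
      _ = _ := by ring
  rw [Real.norm_eq_abs, ← Real.sqrt_sq_eq_abs]
  calc √(mo r w x i ^ 2) ≤ √(K * C * |E| ^ 2 / r ^ 3) := Real.sqrt_le_sqrt h4
    _ = _ := by
        rw [Real.sqrt_div (by positivity), Real.sqrt_mul (by positivity),
          Real.sqrt_sq (abs_nonneg E)]

/-- The mean is Lipschitz continuous. -/
theorem mo_lip (E r : ℝ) (hr : 0 < r) (hr1 : r ≤ 1) : ∃ L : ℝ≥0, ∀ w : V → V, SPV w →
    energy w ≤ E ^ 2 → LipschitzWith L (mo r w) := by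
  obtain ⟨K, hK, hK1, hK2, hK3, hK4⟩ := th_bd
  obtain ⟨B, hB, hb⟩ := mo_bd
  obtain ⟨C, hC, hbl⟩ := ball_le 2
  set L1 : ℝ := 2 * (B * |E| / √(r ^ 3)) with hL1
  set L2 : ℝ := K * (r ^ 4)⁻¹ * (C * (1 + E ^ 2)) with hL2
  have hL1' : 0 ≤ L1 := by positivity
  have hL2' : 0 ≤ L2 := by positivity
  refine ⟨⟨L1 + L2, by positivity⟩, fun w hw hE => LipschitzWith.of_dist_le_mul fun x y => ?_⟩
  rw [dist_eq_norm, dist_eq_norm]
  show _ ≤ (L1 + L2) * ‖x - y‖
  rcases le_total 1 ‖x - y‖ with h1 | h1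
  · have h2 := hb E w hw hE r x hr hr1
    have h3 := hb E w hw hE r y hr hr1
    calc ‖mo r w x - mo r w y‖ ≤ ‖mo r w x‖ + ‖mo r w y‖ := norm_sub_le _ _
      _ ≤ L1 := by linarith
      _ ≤ _ := by nlinarith
  · have hc := hw.1.continuous
    rw [pi_norm_le_iff_of_nonneg (by positivity)]
    intro i
    have hwi : Continuous fun z => w z i := (continuous_apply i).comp hc
    rw [Pi.sub_apply, mo_eq hr, mo_eq hr, ← integral_sub (kx_int hr x hwi) (kx_int hr y hwi)]
    have hz : ∀ z ∉ ball x 2, w z i * kx r x z - w z i * kx r y z = 0 := by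
      intro z hz
      have h4 : z ∉ ball x r := fun h => hz (ball_subset_ball (by linarith) h)
      have h5 : z ∉ ball y r := fun h => hz (by
        rw [mem_ball] at h ⊢
        have := dist_triangle z y x
        rw [dist_comm y x, dist_eq_norm x y] at this
        linarith)
      rw [kx_z hr h4, kx_z hr h5]
      ring
    rw [← ball_int_eq hz]
    have h6 : ∀ z, |w z i * kx r x z - w z i * kx r y z| ≤
        K * (r ^ 4)⁻¹ * ‖x - y‖ * (1 + nsq w z) := by
      intro z
      rw [← mul_sub, abs_mul]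
      have h7 : |kx r x z - kx r y z| ≤ K * (r ^ 4)⁻¹ * ‖x - y‖ := by
        unfold kx
        rw [← mul_sub, abs_mul, abs_of_pos (by positivity)]
        have h8 := hK2 (r⁻¹ • (z - x)) (r⁻¹ • (z - y))
        rw [← smul_sub, norm_smul, Real.norm_eq_abs, abs_of_pos (inv_pos.2 hr)] at h8
        have h9 : ‖z - x - (z - y)‖ = ‖x - y‖ := by
          rw [← norm_neg]
          congr 1
          abel
        rw [h9] at h8
        calc (r ^ 3)⁻¹ * |th (r⁻¹ • (z - x)) - th (r⁻¹ • (z - y))|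
            ≤ (r ^ 3)⁻¹ * (K * (r⁻¹ * ‖x - y‖)) := by gcongr
          _ = _ := by field_simp
      have h10 : |w z i| ≤ 1 + nsq w z := by
        have := comp_sq_le w z i
        nlinarith [abs_nonneg (w z i), sq_abs (w z i), sq_nonneg (|w z i| - 1)]
      have := nsq_nn w z
      calc |w z i| * |kx r x z - kx r y z| ≤ (1 + nsq w z) * (K * (r ^ 4)⁻¹ * ‖x - y‖) :=
            mul_le_mul h10 h7 (abs_nonneg _) (by linarith)
        _ = _ := by ring
    calc ‖∫ z in ball x 2, (w z i * kx r x z - w z i * kx r y z)‖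
        ≤ ∫ z in ball x 2, K * (r ^ 4)⁻¹ * ‖x - y‖ * (1 + nsq w z) :=
          norm_integral_le_of_norm_le (ballint (continuous_const.mul
            (continuous_const.add (nsq_sm hw.1).continuous)) _ _) (ae_of_all _ h6)
      _ = K * (r ^ 4)⁻¹ * ‖x - y‖ * ∫ z in ball x 2, (1 + nsq w z) := integral_const_mul _ _
      _ ≤ K * (r ^ 4)⁻¹ * ‖x - y‖ * (C * (1 + E ^ 2)) := by
          refine mul_le_mul_of_nonneg_left ?_ (by positivity)
          refine (hbl (fun z => 1 + nsq w z) (continuous_const.add (nsq_sm hw.1).continuous)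
            (fun i x => by show 1 + _ = 1 + _; rw [nsq_per hw.2 i x]) (fun z => by have := nsq_nn w z; linarith)
            x).trans ?_
          refine mul_le_mul_of_nonneg_left ?_ hC.le
          rw [integral_add (cube_int continuous_const) (cube_int (nsq_sm hw.1).continuous),
            ← energy_eq hw.1]
          have hvol : ∫ _ in cube, (1 : ℝ) = 1 := by
            rw [setIntegral_const]
            have : (volume : Measure V).real cube = 1 := by
              unfold cube Measure.real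
              rw [Real.volume_Icc_pi]
              simp
            rw [this]
            simp
          rw [hvol]
          linarith
      _ ≤ (L1 + L2) * ‖x - y‖ := by
          rw [hL2]
          have : K * (r ^ 4)⁻¹ * ‖x - y‖ * (C * (1 + E ^ 2)) =
            K * (r ^ 4)⁻¹ * (C * (1 + E ^ 2)) * ‖x - y‖ := by ring
          rw [this]
          have := norm_nonneg (x - y)
          nlinarith

end

end Pool.Agent.Y8
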