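import Pool.Agent.Y8.Mod

/-!
Paths which follow the mollified velocity of a weak solution.
-/

open MeasureTheory Set Metric Filter Topology
open scoped ContDiff NNReal

namespace Pool.Agent.Y8

open H459R3.NS W221.NS

/-- A path with velocity `Y` which follows the mollified velocity at scale `r`. -/
structure FPath (T r B C : ℝ) (G : Set ℝ) (u : ℝ → V → V) (p : ℝ → V → ℝ) (X Y : ℝ → V) :
    Prop where
  hd : ∀ t ∈ Ioo 0 T, HasDerivAt X (Y t) t
  ev : ∀ t ∈ G, Y t = mo r (u t) (X t)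
  bd : ∀ t ∈ Ioo 0 T, ‖Y t‖ ≤ B
  md : ∀ s ∈ Ioo 0 T, ∀ t ∈ Ioo 0 T, s ≤ t → ‖Y t - Y s‖ ≤ C * ∫ τ in Ioo s t, K1 G u p τ
  sm : ContDiffOn ℝ ∞ X G

theorem dense_G {T : ℝ} {G : Set ℝ} (hT : 0 < T) (hG : volume (Ioo 0 T \ G) = 0) :
    Icc 0 T ⊆ closure (Ioo 0 T ∩ G) := by
  have h1 : Ioo 0 T ⊆ closure (Ioo 0 T ∩ G) := by
    intro t ht
    rw [_root_.mem_closure_iff]
    intro O hO htO
    by_contra hcon
    have h2 : O ∩ Ioo 0 T ⊆ Ioo 0 T \ G := by
      intro s hs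
      refine ⟨hs.2, fun hsG => hcon ⟨s, hs.1, hs.2, hsG⟩⟩
    have h3 : IsOpen (O ∩ Ioo 0 T) := hO.inter isOpen_Ioo
    have h4 := h3.measure_pos volume ⟨t, htO, ht⟩
    have h5 := measure_mono_null h2 hG
    exact h4.ne' h5
  rw [← closure_Ioo hT.ne]
  exact closure_minimal h1 isClosed_closure

theorem mol_joint {G : Set ℝ} (hG : IsOpen G) {u : ℝ → V → V}
    (hu : ContDiffOn ℝ ∞ (fun z : ℝ × V => u z.1 z.2) (G ×ˢ univ)) (r : ℝ) :
    ContDiffOn ℝ ∞ (fun z : ℝ × V => mo r (u z.1) z.2) (G ×ˢ univ) := by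
  refine contDiffOn_pi.2 fun i => ?_
  show ContDiffOn ℝ ∞ (fun z : ℝ × V => ∫ y, th y * u z.1 (z.2 + r • y) i) (G ×ˢ univ)
  let g : (ℝ × V) → V → ℝ := fun z y => th y * u z.1 (z.2 + r • y) i
  have hs : IsOpen (G ×ˢ (univ : Set V)) := opH hG
  have hg : ContDiffOn ℝ ∞ (↿g) ((G ×ˢ (univ : Set V)) ×ˢ (univ : Set V)) := by
    have h1 : ContDiffOn ℝ ∞ (fun q : (ℝ × V) × V => th q.2)
        ((G ×ˢ (univ : Set V)) ×ˢ (univ : Set V)) :=
      (th_sm.comp contDiff_snd).contDiffOn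
    have h2 : ContDiff ℝ ∞ (fun q : (ℝ × V) × V => ((q.1.1, q.1.2 + r • q.2) : ℝ × V)) := by
      fun_prop
    have h3 := hu.comp h2.contDiffOn (s := (G ×ˢ (univ : Set V)) ×ˢ (univ : Set V))
      (fun q hq => ⟨hq.1.1, mem_univ _⟩)
    have h4 : ContDiffOn ℝ ∞ (fun q : (ℝ × V) × V => u q.1.1 (q.1.2 + r • q.2) i)
        ((G ×ˢ (univ : Set V)) ×ˢ (univ : Set V)) := contDiffOn_pi.1 h3 i
    exact h1.mul h4
  have hz : ∀ y ∉ closedBall (0 : V) 1, th y = 0 := fun y hy =>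
    th_z fun h => hy (ball_subset_closedBall h)
  have key := contDiffOn_convolution_right_with_param_comp (𝕜 := ℝ) (n := ⊤)
    (ContinuousLinearMap.mul ℝ ℝ) (s := G ×ˢ (univ : Set V))
    (v := fun _ : ℝ × V => (0 : V)) contDiffOn_const (f := fun _ : V => (1 : ℝ)) (g := g)
    (k := closedBall (0 : V) 1) hs (isCompact_closedBall 0 1)
    (fun z y _ hy => by simp [g, hz y hy]) (μ := (volume : Measure V))
    (locallyIntegrable_const 1) hg
  refine key.congr ?_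
  intro z _
  simp only [convolution_def, ContinuousLinearMap.mul_apply', one_mul, zero_sub]
  exact (integral_neg_eq_self (fun y => g z y) volume).symm

/-- The mollified velocity extends continuously to all times. -/
theorem Mh_ex (hT : S_TCUT) (hA : S_ACX) : ∃ B : ℝ, 0 < B ∧
    ∀ (E r : ℝ), 0 < r → r ≤ 1 → ∃ (C : ℝ) (L : ℝ≥0), 0 < C ∧
    ∀ (T D : ℝ) (G : Set ℝ) (u : ℝ → V → V)
    (p : ℝ → V → ℝ), 0 < T → Turb 1 T E D G u p → ∃ Mh : ℝ → V → V,
      (∀ t ∈ G, Mh t = mo r (u t)) ∧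
      (∀ s ∈ Icc 0 T, ∀ t ∈ Icc 0 T, s ≤ t → ∀ x, ‖Mh t x - Mh s x‖
        ≤ C * ∫ τ in Ioo s t, K1 G u p τ) ∧
      (∀ t ∈ Icc 0 T, LipschitzWith L (Mh t)) ∧
      (∀ t ∈ Icc 0 T, ∀ x, ‖Mh t x‖ ≤ B * |E| / √(r ^ 3) + 1) := by
  obtain ⟨K, hK, hK1, hK2, hK3, hK4⟩ := th_bd
  obtain ⟨B, hB, hb⟩ := mo_bd
  refine ⟨B, hB, fun E r hr hr1 => ?_⟩
  obtain ⟨C, hC, hmod⟩ := wmod hT E r hr
  obtain ⟨L, hL⟩ := mo_lip E r hr hr1
  set M : ℝ := K * (r ^ 5)⁻¹ with hM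
  have hM4 : K * (r ^ 4)⁻¹ ≤ M := by
    rw [hM]
    exact mul_le_mul_of_nonneg_left (inv_anti₀ (by positivity)
      (pow_le_pow_of_le_one hr.le hr1 (by norm_num))) (by linarith)
  refine ⟨C * M, L, by positivity, fun T D G u p hT0 h => ?_⟩
  have hmo : ∀ x i, ∀ s ∈ G, ∀ t ∈ G, s ≤ t → |mo r (u t) x i - mo r (u s) x i|
      ≤ ∫ τ in Ioo s t, C * M * K1 G u p τ := by
    intro x i s hs t ht hst
    rw [mo_eq hr, mo_eq hr, integral_const_mul]
    exact hmod T D G u p h x M (kx r x) (by positivity) (kx_sm r x) (fun z hz => kx_z hr hz)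
      (fun z => (kx_bd hK1 hK3 hK4 hr x z).2.2)
      (fun z j => ((kx_bd hK1 hK3 hK4 hr x z).2.1 j).trans hM4) i s hs t ht hst
  have hex : ∀ x i, ∃ F : ℝ → ℝ, (∀ t ∈ G, F t = mo r (u t) x i) ∧ Continuous F ∧
      ∀ s ∈ Icc 0 T, ∀ t ∈ Icc 0 T, s ≤ t → |F t - F s| ≤ ∫ τ in Ioo s t, C * M * K1 G u p τ :=
    fun x i => hA 0 T G (fun t => mo r (u t) x i) (fun τ => C * M * K1 G u p τ) hT0.le h.subG
      ((K1_int h).integrableOn.const_mul _)
      (fun t => mul_nonneg (by positivity) (K1_nn G u p t)) (hmo x i)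
  choose F hF1 hF2 hF3 using hex
  have hcl : Icc 0 T ⊆ closure (Ioo 0 T ∩ G) := dense_G hT0 h.fullG
  refine ⟨fun t x i => F x i t, ?_, ?_, ?_, ?_⟩
  · intro t ht
    funext x i
    exact hF1 x i t ht
  · intro s hs t ht hst x
    have h0 : 0 ≤ ∫ τ in Ioo s t, K1 G u p τ := integral_nonneg fun τ => K1_nn G u p τ
    rw [pi_norm_le_iff_of_nonneg (by positivity)]
    intro i
    have := hF3 x i s hs t ht hst
    rw [integral_const_mul] at this
    exact this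
  · intro t ht
    refine LipschitzWith.of_dist_le_mul fun x y => ?_
    rw [dist_pi_le_iff (by positivity)]
    intro i
    have hclosed : IsClosed {t : ℝ | dist (F x i t) (F y i t) ≤ L * dist x y} :=
      isClosed_le ((hF2 x i).dist (hF2 y i)) continuous_const
    refine closure_minimal ?_ hclosed (hcl ht)
    intro τ hτ
    show dist (F x i τ) (F y i τ) ≤ L * dist x y
    rw [hF1 x i τ hτ.2, hF1 y i τ hτ.2]
    exact (dist_le_pi_dist (mo r (u τ) x) (mo r (u τ) y) i).trans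
      ((hL (u τ) (h.spv hτ.2) (h.energy_le τ hτ.2)).dist_le_mul x y)
  · intro t ht x
    rw [pi_norm_le_iff_of_nonneg (by positivity)]
    intro i
    have hclosed : IsClosed {t : ℝ | ‖F x i t‖ ≤ B * |E| / √(r ^ 3) + 1} :=
      isClosed_le (hF2 x i).norm continuous_const
    refine closure_minimal ?_ hclosed (hcl ht)
    intro τ hτ
    show ‖F x i τ‖ ≤ _
    rw [hF1 x i τ hτ.2]
    have h1 := norm_le_pi_norm (mo r (u τ) x) i
    have h2 := hb E (u τ) (h.spv hτ.2) (h.energy_le τ hτ.2) r x hr hr1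
    linarith

/-- Existence of the paths. -/
theorem path_ex (hT : S_TCUT) (hA : S_ACX) : ∃ K : ℝ, 0 < K ∧ ∀ E r : ℝ, 0 < r → r ≤ 1 →
    ∃ C : ℝ, 0 < C ∧ ∀ (T D : ℝ) (G : Set ℝ) (u : ℝ → V → V)
    (p : ℝ → V → ℝ), Turb 1 T E D G u p → ∀ t₀ ∈ Ioo 0 T, ∀ x₀ : V,
      ∃ X Y : ℝ → V, X t₀ = x₀ ∧ FPath T r (K * |E| / √(r ^ 3) + 1) C G u p X Y := by
  obtain ⟨B', hB', hM⟩ := Mh_ex hT hA
  refine ⟨B', hB', fun E r hr hr1 => ?_⟩
  obtain ⟨C, L, hC, hM⟩ := hM E r hr hr1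
  set B : ℝ := B' * |E| / √(r ^ 3) + 1 with hBd
  have hB : 0 < B := by positivity
  refine ⟨C + L * B, by positivity, fun T D G u p h t₀ ht₀ x₀ => ?_⟩
  have hT0 : 0 < T := ht₀.1.trans ht₀.2
  obtain ⟨Mh, h1, h2, h3, h4⟩ := hM T D G u p hT0 h
  have hcont : ∀ x, ContinuousOn (fun t => Mh t x) (Icc 0 T) := by
    intro x
    have hKc : Continuous fun t => ∫ τ in (0 : ℝ)..t, K1 G u p τ :=
      intervalIntegral.continuous_primitive (fun a b => (K1_int h).intervalIntegrable) 0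
    rw [Metric.continuousOn_iff]
    intro t ht ε hε
    have h5 := Metric.continuous_iff.1 hKc t (ε / C) (by positivity)
    obtain ⟨δ, hδ, h6⟩ := h5
    refine ⟨δ, hδ, fun s hs hst => ?_⟩
    have h7 := h6 s hst
    have key : ∀ a ∈ Icc 0 T, ∀ b ∈ Icc 0 T, a ≤ b → ‖Mh b x - Mh a x‖ ≤
        C * |(∫ τ in (0 : ℝ)..b, K1 G u p τ) - ∫ τ in (0 : ℝ)..a, K1 G u p τ| := by
      intro a ha b hb hab
      refine (h2 a ha b hb hab x).trans ?_
      rw [intervalIntegral.integral_interval_sub_left (K1_int h).intervalIntegrable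
        (K1_int h).intervalIntegrable, intervalIntegral.integral_of_le hab,
        integral_Ioc_eq_integral_Ioo]
      exact mul_le_mul_of_nonneg_left (le_abs_self _) hC.le
    rw [Real.dist_eq] at h7
    rw [dist_eq_norm]
    rcases le_total s t with hle | hle
    · have h8 := key s hs t ht hle
      rw [norm_sub_rev, abs_sub_comm] at h8
      calc ‖Mh s x - Mh t x‖ ≤ _ := h8
        _ < C * (ε / C) := by gcongr
        _ = ε := by field_simp
    · have h8 := key t ht s hs hle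
      calc ‖Mh s x - Mh t x‖ ≤ _ := h8
        _ < C * (ε / C) := by gcongr
        _ = ε := by field_simp
  have hPL : IsPicardLindelof Mh (⟨t₀, ⟨ht₀.1.le, ht₀.2.le⟩⟩ : Icc 0 T) x₀
      (⟨B, hB.le⟩ * ⟨T, hT0.le⟩) 0 ⟨B, hB.le⟩ L := by
    refine ⟨fun t ht => (h3 t ht).lipschitzOnWith, fun y _ => hcont y,
      fun t ht y _ => h4 t ht y, ?_⟩
    simp only [sub_zero, NNReal.coe_zero]
    have h5 : max (T - t₀) t₀ ≤ T := max_le (by linarith [ht₀.1]) ht₀.2.le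
    exact mul_le_mul_of_nonneg_left h5 hB.le
  obtain ⟨X, hX0, hX⟩ := hPL.exists_eq_forall_mem_Icc_hasDerivWithinAt₀
  have hX1 : ∀ t ∈ Ioo 0 T, HasDerivAt X (Mh t (X t)) t := fun t ht =>
    (hX t (Ioo_subset_Icc_self ht)).hasDerivAt (Icc_mem_nhds ht.1 ht.2)
  refine ⟨X, fun t => Mh t (X t), hX0, hX1, fun t ht => by rw [h1 t ht],
    fun t ht => h4 t (Ioo_subset_Icc_self ht) _, ?_, ?_⟩
  · intro s hs t ht hst
    have hlip : ‖X t - X s‖ ≤ B * (t - s) := by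
      have h5 := Convex.norm_image_sub_le_of_norm_hasDerivWithin_le (f := X) (s := Icc 0 T)
        (C := B) hX (fun x hx => h4 x hx _) (convex_Icc 0 T) (Ioo_subset_Icc_self hs)
        (Ioo_subset_Icc_self ht)
      rwa [Real.norm_eq_abs, abs_of_nonneg (sub_nonneg.2 hst)] at h5
    have h6 := h2 s (Ioo_subset_Icc_self hs) t (Ioo_subset_Icc_self ht) hst (X t)
    have h7 := (h3 s (Ioo_subset_Icc_self hs)).dist_le_mul (X t) (X s)
    rw [dist_eq_norm, dist_eq_norm] at h7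
    have h8 := K1_low h hs.1.le hst ht.2.le
    calc ‖Mh t (X t) - Mh s (X s)‖ = ‖(Mh t (X t) - Mh s (X t)) + (Mh s (X t) - Mh s (X s))‖ := by
          congr 1
          abel
      _ ≤ ‖Mh t (X t) - Mh s (X t)‖ + ‖Mh s (X t) - Mh s (X s)‖ := norm_add_le _ _
      _ ≤ C * (∫ τ in Ioo s t, K1 G u p τ) + L * (B * (t - s)) := by
          refine add_le_add h6 (h7.trans ?_)
          gcongr
      _ ≤ _ := by
          have : (L : ℝ) * (B * (t - s)) ≤ L * (B * ∫ τ in Ioo s t, K1 G u p τ) := by gcongr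
          linarith
  · intro t ht
    obtain ⟨a, b, hab, hsub⟩ := nb h.openG ht
    obtain ⟨a', ha1, ha2⟩ := exists_between hab.1
    obtain ⟨b', hb1, hb2⟩ := exists_between hab.2
    have hI : Icc a' b' ⊆ G := fun s hs => hsub ⟨ha1.trans_le hs.1, hs.2.trans_lt hb2⟩
    have hMs : ContDiffOn ℝ ∞ (Function.uncurry Mh) (Icc a' b' ×ˢ univ) := by
      refine ((mol_joint h.openG h.smooth_u r).mono (prod_mono hI subset_rfl)).congr ?_
      intro z hz
      show Mh z.1 z.2 = _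
      rw [h1 z.1 (hI hz.1)]
    have hsm : ContDiffOn ℝ ((⊤ : ℕ∞) : WithTop ℕ∞) X (Icc a' b') :=
      ODE.contDiffOn_enat_Icc_of_hasDerivWithinAt (n := ⊤) (u := univ) hMs
        (fun s hs => (hX1 s (h.subG (hI hs))).hasDerivWithinAt) (fun _ _ => trivial)
    exact ((hsm t ⟨ha2.le, hb1.le⟩).contDiffAt (Icc_mem_nhds ha2 hb1)).contDiffWithinAt

end Pool.Agent.Y8
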