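import Pool.Agent.Y8.Stm3

/-!
Statements, fourth part: the singular set at a fixed time (helper8).
-/

open MeasureTheory Set Metric
open scoped ContDiff

namespace Pool.Agent.Y8

open H459R3.NS W221.NS

/-- The flow of the mollified velocity, labelled by the position at the time `t₀`; it does not
increase volumes in the sense that the image measure of the Lebesgue measure is at most the
Lebesgue measure. -/
def S_WFLOW : Prop := ∃ K : ℝ, 0 < K ∧ ∀ E r : ℝ, 0 < r → r ≤ 1 →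
  ∃ C : ℝ, 0 < C ∧ ∀ (T D : ℝ) (G : Set ℝ) (u : ℝ → V → V) (p : ℝ → V → ℝ), Turb 1 T E D G u p →
    ∀ t₀ ∈ Ioo 0 T, ∃ X Y : ℝ → V → V,
      (∀ y, X t₀ y = y ∧
        FPath T r (K * |E| / √(r ^ 3) + 1) C G u p (fun t => X t y) (fun t => Y t y)) ∧
      ContinuousOn (fun z : ℝ × V => X z.1 z.2) (Ioo 0 T ×ˢ univ) ∧
      ∀ t ∈ Ioo 0 T, Measure.map (X t) volume ≤ volume

/-- The criterion for singular points near the path. -/
def S_CRIT2 : Prop := ∃ ε : ℝ, 0 < ε ∧ ∀ (T E D : ℝ) (G : Set ℝ) (u : ℝ → V → V)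
  (p : ℝ → V → ℝ), Turb 1 T E D G u p → ∀ (m : ℕ) (s : ℝ), 4 ≤ m → rr m ^ 2 < s → s < T →
    ∀ (X Y : ℝ → V) (B C : ℝ), FPath T (rr m) B C G u p X Y →
      ∀ t₀ ∈ Ioo (s - rr m ^ 2 / 16) s, ∀ x₀ ∈ ball (X t₀) (rr m / 4), SingPt G u t₀ x₀ →
        ε ≤ ∫ t in Ioo (-1 : ℝ) 0, FF m (u (s + rr m ^ 2 * t)) (X (s + rr m ^ 2 * t))

/-- The number of separated singular points at a fixed time. -/
def S_SLC : Prop := ∀ E : ℝ, ∃ C : ℝ, 0 < C ∧ ∀ (T D : ℝ) (G : Set ℝ) (u : ℝ → V → V)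
  (p : ℝ → V → ℝ), Turb 1 T E D G u p → ∀ (m : ℕ) (t₀ : ℝ), 4 ≤ m → rr m ^ 2 < t₀ →
    t₀ + rr m ^ 2 < T → ∀ S : Finset V, (∀ x ∈ S, x ∈ cube ∧ SingPt G u t₀ x) →
      (∀ x ∈ S, ∀ y ∈ S, x ≠ y → rr m ≤ ‖x - y‖) →
        S.card * rr m ≤ C * (m + 1) * ∫ t in Ioo (t₀ - rr m ^ 2) (t₀ + rr m ^ 2), enstrophy (u t)

end Pool.Agent.Y8
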