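import Pool.Agent.Y8.EnH4
import Pool.Agent.Y7.CutL
import Pool.Agent.Y7.Dect
import Pool.Agent.W356.ME.BASE2
import Pool.Agent.W333.MD.PCONT
import Pool.Agent.W335.MD.CT
import Pool.Agent.Y8.Asm2

/-!
The energy step for weak solutions: small `L⁴` oscillation implies small dissipation
(helper8, adapted from Pool.Agent.Y7.BaseL and Pool.Agent.Y7.HypL of helper7).
-/

set_option autoImplicit false
set_option linter.all false

open MeasureTheory Set Metric
open scoped ContDiff ENNReal Topology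

namespace Pool.Agent.Y8.W4

open H459R3.NS W221.NS W356.ME Pool.Agent.Y7 Pool.Agent.Y8

theorem ct : S_CT := W335.MD.t_CT W333.MD.t_PCONT

/-- the derivative of the energy at a regular time -/
lemma deriv_boundH : ∃ C₁ : ℝ, 0 < C₁ ∧
    ∀ (H : Set ℝ) (v W : ℝ → V → V) (G : ℝ → ℝ), IsOpen H → H ⊆ Ioo (-1) 0 →
      ContDiffOn ℝ ∞ (fun z : ℝ × V => W z.1 z.2) (H ×ˢ univ) →
      (∀ t ∈ H, ∃ P, Sl (v t) (W t) (fun x i => deriv (fun s => W s x i) t) P (G t)) →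
      ∀ t ∈ H, ∃ D : ℝ, HasDerivAt (W605.MD.EE W) D t ∧
        D ≤ -2 * (∫ z, gsq (W t) z * W605.MD.PH t z) + C₁ * G t * (1 + √(W605.MD.EE W t)) := by
  obtain ⟨Ce, hCe⟩ : ∃ Ce : ℝ, Ce = 24 := ⟨24, rfl⟩
  have hCe0 : 0 < Ce := by rw [hCe]; norm_num
  obtain ⟨Cc, hCc, hcut⟩ := Pool.Agent.Y7.cut
  obtain ⟨Cw, hCw, hwb⟩ := Pool.Agent.Y7.wb
  obtain ⟨L, hL0, hL⟩ := W605.MD.lap_k2_bound
  obtain ⟨N, hN0, hN⟩ := W605.MD.dchi_bound
  refine ⟨(N + L) * Cw + 2 * Cc + Ce * (4 * √Cw + 3), by positivity, ?_⟩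
  intro H v W G hO hH hWs hsl t ht
  obtain ⟨P, hP⟩ := hsl t ht
  have hG := hP.pos
  obtain ⟨D, hD, hle⟩ := enH H hO v W G hWs W605.MD.PH
    W605.MD.PH_smooth.contDiffOn (fun s _ z hz => PH_zero s hz) t ht
    (fun z => W605.MD.PH_nonneg t z) P hP
  rw [← hCe] at hle
  refine ⟨D, hD, ?_⟩
  have hW := hP.sW
  obtain ⟨hA, -, -, -⟩ := hwb _ _ _ _ _ hP
  have hEA := (EE_le W t hW).trans hA
  have hE0 := W605.MD.EE_nonneg W t
  have t1 : 0 ≤ ∫ z, gsq (W t) z * W605.MD.PH t z :=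
    integral_nonneg fun z => mul_nonneg (W605.MD.gsq_nonneg _ z) (W605.MD.PH_nonneg t z)
  have t2 := term2' hW hL (hN t (hH ht))
  have t2' : (N + L) * A2 0 1 (W t) ≤ (N + L) * Cw * G t := by
    rw [mul_assoc]
    exact mul_le_mul_of_nonneg_left hA (by positivity)
  have c1 := W605.MD.chi_nonneg t
  have c2 := W605.MD.chi_le_one t
  have e3 : √(∫ z, nsq (W t) z * kap z ^ 2) * W605.MD.chi t = √(W605.MD.EE W t) := by
    rw [W605.MD.EE_eq, Real.sqrt_mul' _ (sq_nonneg _), Real.sqrt_sq c1]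
  have e4 : 0 ≤ √(∫ z, nsq (W t) z * kap z ^ 2) := Real.sqrt_nonneg _
  have e5 : 0 ≤ √(W605.MD.EE W t) := Real.sqrt_nonneg _
  have e6 : √(∫ z, nsq (W t) z * kap z ^ 2) * W605.MD.chi t ^ 2 ≤ √(W605.MD.EE W t) := by
    have : √(∫ z, nsq (W t) z * kap z ^ 2) * W605.MD.chi t ^ 2 =
      √(W605.MD.EE W t) * W605.MD.chi t := by rw [← e3]; ring
    rw [this]
    nlinarith
  have t3 : (∫ z, nsq (W t) z * adv (v t) (W605.MD.PH t) z)
      + 2 * (∫ z, P z * adv (W t) (W605.MD.PH t) z) ≤ 2 * (Cc * G t * √(W605.MD.EE W t)) := by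
    have a1 : ∀ (f : V → ℝ) (u : V → V), ∫ z, f z * adv u (W605.MD.PH t) z =
        (∫ z, f z * adv u (fun y => kap y ^ 2) z) * W605.MD.chi t ^ 2 := by
      intro f u
      rw [← integral_mul_const]
      apply integral_congr_ae
      filter_upwards with z
      have : adv u (W605.MD.PH t) z = adv u (fun y => kap y ^ 2) z * W605.MD.chi t ^ 2 :=
        W605.MD.adv_mul_const u W605.MD.k2_smooth _ z
      rw [this]; ring
    rw [a1, a1]
    have a2 := hcut (v t) (W t) _ P (G t) hP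
    obtain ⟨X, hX⟩ : ∃ X, X = ∫ z, nsq (W t) z * adv (v t) (fun y => kap y ^ 2) z := ⟨_, rfl⟩
    obtain ⟨Y, hY⟩ : ∃ Y, Y = ∫ z, P z * adv (W t) (fun y => kap y ^ 2) z := ⟨_, rfl⟩
    rw [← hX, ← hY] at a2 ⊢
    have a3 := le_abs_self X
    have a4 := le_abs_self Y
    have a5 := abs_nonneg X
    have a6 := sq_nonneg (W605.MD.chi t)
    have a7 : X + 2 * Y ≤ 2 * (Cc * G t * √(∫ z, nsq (W t) z * kap z ^ 2)) := by linarith
    calc X * W605.MD.chi t ^ 2 + 2 * (Y * W605.MD.chi t ^ 2) = (X + 2 * Y) * W605.MD.chi t ^ 2 := by ring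
      _ ≤ (2 * (Cc * G t * √(∫ z, nsq (W t) z * kap z ^ 2))) * W605.MD.chi t ^ 2 :=
          mul_le_mul_of_nonneg_right a7 a6
      _ = 2 * (Cc * G t) * (√(∫ z, nsq (W t) z * kap z ^ 2) * W605.MD.chi t ^ 2) := by ring
      _ ≤ 2 * (Cc * G t) * √(W605.MD.EE W t) := mul_le_mul_of_nonneg_left e6 (by positivity)
      _ = _ := by ring
  have hsG : 0 ≤ √(G t) := Real.sqrt_nonneg _
  have hsC : 0 ≤ √Cw := Real.sqrt_nonneg _
  have hsE : √(W605.MD.EE W t) ≤ √Cw * √(G t) := by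
    rw [← Real.sqrt_mul hCw.le]
    exact Real.sqrt_le_sqrt hEA
  have hGE : √(G t) * √(W605.MD.EE W t) ≤ √Cw * G t := by
    calc √(G t) * √(W605.MD.EE W t) ≤ √(G t) * (√Cw * √(G t)) := mul_le_mul_of_nonneg_left hsE hsG
      _ = √Cw * (√(G t) * √(G t)) := by ring
      _ = √Cw * G t := by rw [Real.mul_self_sqrt hG]
  have t4 : √(G t) * (∫ z, nsq (W t) z * W605.MD.PH t z) ≤ √Cw * G t * √(W605.MD.EE W t) := by
    have a1 : (∫ z, nsq (W t) z * W605.MD.PH t z) = √(W605.MD.EE W t) * √(W605.MD.EE W t) :=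
      (Real.mul_self_sqrt hE0).symm
    rw [a1, ← mul_assoc]
    exact mul_le_mul_of_nonneg_right hGE e5
  have t5 : (√(G t) + G t) * (∫ z, √(nsq (W t) z) * W605.MD.PH t z) ≤
      3 * (√Cw * G t) + 3 * (G t * √(W605.MD.EE W t)) := by
    calc (√(G t) + G t) * (∫ z, √(nsq (W t) z) * W605.MD.PH t z)
        ≤ (√(G t) + G t) * (3 * √(W605.MD.EE W t)) :=
          mul_le_mul_of_nonneg_left (lin_term W t hW) (by positivity)
      _ = 3 * (√(G t) * √(W605.MD.EE W t)) + 3 * (G t * √(W605.MD.EE W t)) := by ring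
      _ ≤ _ := by linarith
  have t6 := mul_le_mul_of_nonneg_left (add_le_add t4 t5) hCe0.le
  have hGE0 : 0 ≤ G t * √(W605.MD.EE W t) := mul_nonneg hG e5
  refine hle.trans ?_
  have hfin : (N + L) * Cw * G t + 2 * (Cc * G t * √(W605.MD.EE W t))
      + Ce * (√Cw * G t * √(W605.MD.EE W t) + (3 * (√Cw * G t) + 3 * (G t * √(W605.MD.EE W t))))
      ≤ ((N + L) * Cw + 2 * Cc + Ce * (4 * √Cw + 3)) * G t * (1 + √(W605.MD.EE W t)) := by
    have b1 : 0 ≤ (N + L) * Cw * (G t * √(W605.MD.EE W t)) := by positivity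
    have b2 : 0 ≤ Cc * G t := by positivity
    have b3 : 0 ≤ Ce * √Cw * G t := by positivity
    have b4 : 0 ≤ Ce * √Cw * (G t * √(W605.MD.EE W t)) := by positivity
    have b5 : 0 ≤ Ce * G t := by positivity
    nlinarith
  linarith

/-- continuity of the dissipation at the regular times -/
theorem contB {H : Set ℝ} (hO : IsOpen H) {v : ℝ → V → V}
    (hv : ContDiffOn ℝ ∞ (fun z : ℝ × V => v z.1 z.2) (H ×ˢ univ)) (a : V) (ρ : ℝ) :
    ContinuousOn (fun t => B2 a ρ (v t)) H := by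
  intro t ht
  obtain ⟨d, hd, hball⟩ := Metric.isOpen_iff.1 hO t ht
  rw [Real.ball_eq_Ioo] at hball
  have h1 := ((ct (t - d) (t + d) v (hv.mono (prod_mono hball subset_rfl))).1 a ρ).2
  have h2 : t ∈ Ioo (t - d) (t + d) := ⟨by linarith, by linarith⟩
  exact (h1.continuousAt (isOpen_Ioo.mem_nhds h2)).continuousWithinAt

theorem baseH : ∃ C : ℝ, 0 < C ∧ ∀ ε : ℝ, 0 < ε → ε ≤ 1 →
    ∀ (H : Set ℝ) (v W : ℝ → V → V) (G : ℝ → ℝ), IsOpen H → H ⊆ Ioo (-1) 0 →
      volume (Ioo (-1 : ℝ) 0 \ H) = 0 →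
      ContDiffOn ℝ ∞ (fun z : ℝ × V => v z.1 z.2) (H ×ˢ univ) →
      ContDiffOn ℝ ∞ (fun z : ℝ × V => W z.1 z.2) (H ×ˢ univ) →
      (∀ t ∈ H, ∃ P, Sl (v t) (W t) (fun x i => deriv (fun s => W s x i) t) P (G t)) →
      IntegrableOn G (Ioo (-1) 0) → ∫ t in Ioo (-1) 0, G t ≤ ε →
      (∃ B : ℝ, ∀ t ∈ H, A2 0 1 (W t) ≤ B) → EnW H W →
        IntegrableOn (fun t => B2 0 (3 / 4) (v t)) (Ioo (-9 / 16) 0) ∧
          ∫ t in Ioo (-9 / 16) 0, B2 0 (3 / 4) (v t) ≤ C * ε := by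
  obtain ⟨C₁, hC₁, hD⟩ := deriv_boundH
  obtain ⟨Cw, hCw, hwb⟩ := Pool.Agent.Y7.wb
  refine ⟨C₁ * (1 + √(2 * C₁ + C₁ ^ 2)) + 61, by positivity, ?_⟩
  intro ε hε hε1 H v W G hO hH hfull hvs hWs hsl hGi hGe hbdd hen
  have hG0 : ∀ t ∈ H, 0 ≤ G t := fun t ht => by
    obtain ⟨P, hP⟩ := hsl t ht
    exact hP.pos
  have hW : ∀ t ∈ H, ContDiff ℝ ∞ (W t) := fun t ht => by
    obtain ⟨P, hP⟩ := hsl t ht
    exact hP.sW
  have hae : ∀ᵐ t : ℝ, t ∈ Ioo (-1 : ℝ) 0 → t ∈ H := by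
    have h1 := hfull
    rw [← compl_mem_ae_iff] at h1
    filter_upwards [h1] with t ht ht2
    by_contra h3
    exact ht ⟨ht2, h3⟩
  have hG0' : ∀ᵐ t ∂(volume.restrict (Ioo (-1 : ℝ) 0)), 0 ≤ G t := by
    filter_upwards [ae_restrict_of_ae hae, ae_restrict_mem measurableSet_Ioo] with t h1 h2
    exact hG0 t (h1 h2)
  have hEW' : EW W W605.MD.PH (fun _ => 0) = W605.MD.EE W := by
    funext t
    unfold EW mv W605.MD.EE
    simp only [sub_zero]
  have hder : ∀ t ∈ H, deriv (W605.MD.EE W) t ≤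
      -2 * (∫ z, gsq (W t) z * W605.MD.PH t z) + C₁ * G t * (1 + √(W605.MD.EE W t)) := by
    intro t ht
    obtain ⟨D, hD1, hD2⟩ := hD H v W G hO hH hWs hsl t ht
    rw [hD1.deriv]
    exact hD2
  have hdis0 : ∀ t, 0 ≤ ∫ z, gsq (W t) z * W605.MD.PH t z := fun t =>
    integral_nonneg fun z => mul_nonneg (W605.MD.gsq_nonneg _ z) (W605.MD.PH_nonneg t z)
  -- regular times near the ends
  have hex : ∀ a b : ℝ, -1 ≤ a → a < b → b ≤ 0 → ∃ t ∈ H, a < t ∧ t < b := by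
    intro a b ha hab hb
    by_contra hc
    push Not at hc
    have hsub : Ioo a b ⊆ Ioo (-1) 0 \ H := by
      intro t ht
      refine ⟨⟨lt_of_le_of_lt ha ht.1, lt_of_lt_of_le ht.2 hb⟩, fun htH => ?_⟩
      have := hc t htH ht.1
      linarith [ht.2]
    have h5 := measure_mono_null hsub hfull
    rw [Real.volume_Ioo, ENNReal.ofReal_eq_zero] at h5
    linarith
  obtain ⟨t', ht', ht'1, ht'2⟩ := hex (-1) (-7 / 8) le_rfl (by norm_num) (by norm_num)
  have hE' : W605.MD.EE W t' = 0 := by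
    rw [W605.MD.EE_eq, W605.MD.chi_zero (by linarith)]; ring
  -- the supremum of the energy
  obtain ⟨B, hB⟩ := hbdd
  obtain ⟨X, hX⟩ : ∃ X : Set ℝ, X = (fun t => W605.MD.EE W t) '' (H ∩ Ici t') := ⟨_, rfl⟩
  have hXb : BddAbove X := by
    refine ⟨B, ?_⟩
    rw [hX]
    rintro _ ⟨t, ht, rfl⟩
    exact (EE_le W t (hW t ht.1)).trans (hB t ht.1)
  have hXn : X.Nonempty := by
    rw [hX]
    exact ⟨_, t', ⟨ht', mem_Ici.2 le_rfl⟩, rfl⟩
  obtain ⟨S, hS⟩ : ∃ S, S = sSup X := ⟨_, rfl⟩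
  have hle : ∀ t ∈ H, t' ≤ t → W605.MD.EE W t ≤ S := by
    intro t ht h
    rw [hS]
    apply le_csSup hXb
    rw [hX]
    exact ⟨t, ⟨ht, h⟩, rfl⟩
  have hS0 : 0 ≤ S := (W605.MD.EE_nonneg W _).trans (hle t' ht' le_rfl)
  have hMT : MT H (-1) 0 W605.MD.PH (fun _ => (0 : V)) (fun _ => (0 : V)) 1 :=
    { low := le_rfl
      up := le_rfl
      sm := W605.MD.PH_smooth.contDiffOn
      rho := one_pos
      supp := fun t _ z hz => PH_zero t hz
      der := fun t _ => hasDerivAt_const t (0 : V)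
      cont := continuousOn_const
      ysm := contDiffOn_const
      ins := fun t _ => by simp }
  have hEn : ∀ t ∈ H, t' ≤ t → IntegrableOn (deriv (W605.MD.EE W)) (Ioo t' t) ∧
      W605.MD.EE W t - W605.MD.EE W t' ≤ ∫ τ in Ioo t' t, deriv (W605.MD.EE W) τ := by
    intro t ht h
    have h1 := hen (-1) 0 1 W605.MD.PH (fun _ => 0) (fun _ => 0) hMT t' ht' t ht
      ht'1 h (hH ht).2 (fun τ _ z => W605.MD.PH_nonneg τ z)
    rwa [hEW'] at h1
  have hGle : ∀ t ≤ 0, ∫ τ in Ioo t' t, G τ ≤ ε := by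
    intro t ht
    have hsub : Ioo t' t ⊆ Ioo (-1 : ℝ) 0 := Ioo_subset_Ioo ht'1.le ht
    exact (setIntegral_mono_set hGi hG0' hsub.eventuallyLE).trans hGe
  have hkey : ∀ t ∈ H, t' ≤ t → W605.MD.EE W t ≤ C₁ * (1 + √S) * ε := by
    intro t ht h
    have ht2 := hH ht
    have hsub : Ioo t' t ⊆ Ioo (-1 : ℝ) 0 := Ioo_subset_Ioo ht'1.le ht2.2.le
    obtain ⟨hi, hen'⟩ := hEn t ht h
    have hgi : IntegrableOn (fun τ => C₁ * (1 + √S) * G τ) (Ioo t' t) :=
      (hGi.mono_set hsub).const_mul _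
    have h1 : ∫ τ in Ioo t' t, deriv (W605.MD.EE W) τ
        ≤ ∫ τ in Ioo t' t, C₁ * (1 + √S) * G τ := by
      apply integral_mono_ae hi hgi
      filter_upwards [ae_restrict_of_ae hae, ae_restrict_mem measurableSet_Ioo] with τ h4 hτ2
      have hτ := h4 (hsub hτ2)
      have h5 := hder τ hτ
      have h6 := hdis0 τ
      refine (by linarith : _ ≤ C₁ * G τ * (1 + √(W605.MD.EE W τ))).trans ?_
      have e1 : √(W605.MD.EE W τ) ≤ √S := Real.sqrt_le_sqrt (hle τ hτ hτ2.1.le)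
      have e2 := hG0 τ hτ
      calc C₁ * G τ * (1 + √(W605.MD.EE W τ)) ≤ C₁ * G τ * (1 + √S) :=
            mul_le_mul_of_nonneg_left (by linarith) (by positivity)
        _ = _ := by ring
    rw [integral_const_mul] at h1
    have h4 : C₁ * (1 + √S) * (∫ t in Ioo t' t, G t) ≤ C₁ * (1 + √S) * ε :=
      mul_le_mul_of_nonneg_left (hGle t ht2.2.le) (by positivity)
    rw [hE'] at hen'
    linarith
  have hS1 : S ≤ C₁ * (1 + √S) * ε := by
    conv_lhs => rw [hS]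
    apply csSup_le hXn
    rw [hX]
    rintro _ ⟨t, ht, rfl⟩
    exact hkey t ht.1 ht.2
  have hS2 : S ≤ (2 * C₁ + C₁ ^ 2) * ε := by
    obtain ⟨r, hr, hrS⟩ : ∃ r : ℝ, 0 ≤ r ∧ S = r ^ 2 :=
      ⟨√S, Real.sqrt_nonneg _, (Real.sq_sqrt hS0).symm⟩
    rw [hrS, Real.sqrt_sq hr] at hS1
    rw [hrS]
    have e3 : 0 ≤ (C₁ * ε - r) ^ 2 := sq_nonneg _
    have e4 : C₁ ^ 2 * ε ^ 2 ≤ C₁ ^ 2 * ε := by
      apply mul_le_mul_of_nonneg_left _ (by positivity)
      rw [pow_two]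
      exact mul_le_of_le_one_left hε.le hε1
    have e5 : (C₁ * ε - r) ^ 2 = C₁ ^ 2 * ε ^ 2 - 2 * (C₁ * ε * r) + r ^ 2 := by ring
    have e6 : C₁ * (1 + r) * ε = C₁ * ε + C₁ * ε * r := by ring
    have e7 : (2 * C₁ + C₁ ^ 2) * ε = 2 * (C₁ * ε) + C₁ ^ 2 * ε := by ring
    rw [e6] at hS1
    rw [e5] at e3
    rw [e7]
    linarith
  have hSS : √S ≤ √(2 * C₁ + C₁ ^ 2) := by
    apply Real.sqrt_le_sqrt
    refine hS2.trans ?_
    have : 0 ≤ 2 * C₁ + C₁ ^ 2 := by positivity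
    nlinarith
  obtain ⟨K, hK⟩ : ∃ K, K = √(2 * C₁ + C₁ ^ 2) := ⟨_, rfl⟩
  rw [← hK] at hSS ⊢
  have hK0 : 0 ≤ K := by rw [hK]; exact Real.sqrt_nonneg _
  -- the dissipation
  have hpt : ∀ t ∈ H, -9 / 16 < t →
      B2 0 (3 / 4) (v t) ≤ (C₁ * (1 + K) * G t - deriv (W605.MD.EE W) t) + 61 * G t := by
    intro t ht ht1
    obtain ⟨P, hP⟩ := hsl t ht
    have hsv := hP.sv
    have hsm := hP.sW
    have hg := (hwb _ _ _ _ _ hP).2.2.2
    have hPH : ∀ z, W605.MD.PH t z = W605.MD.k2 z := by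
      intro z
      unfold W605.MD.PH
      rw [W605.MD.chi_one ht1.le]
      ring
    have hcs : HasCompactSupport W605.MD.k2 :=
      HasCompactSupport.of_support_subset_isCompact (isCompact_closedBall (0 : V) 1)
        ((subset_tsupport _).trans W605.MD.k2_tsupport)
    have hgc : Continuous (gsq (W t)) := Pool.Agent.W327.ME.gsq_cont hsm
    have hgv : Continuous (gsq (v t)) := Pool.Agent.W327.ME.gsq_cont hsv
    have hint2 : Integrable (fun z => gsq (W t) z * W605.MD.PH t z) := by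
      simp_rw [hPH]
      exact (hgc.mul W605.MD.k2_cont).integrable_of_hasCompactSupport hcs.mul_left
    have e1 : B2 0 (3 / 4) (W t) ≤ ∫ z, gsq (W t) z * W605.MD.PH t z := by
      have e2 : B2 0 (3 / 4) (W t) = ∫ z in ball (0 : V) (3 / 4), gsq (W t) z * W605.MD.PH t z := by
        unfold B2
        apply setIntegral_congr_fun measurableSet_ball
        intro z hz
        simp only
        rw [hPH, W605.MD.k2_one hz, mul_one]
      rw [e2]
      exact setIntegral_le_integral hint2 (Filter.Eventually.of_forall fun z =>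
        mul_nonneg (W605.MD.gsq_nonneg _ z) (W605.MD.PH_nonneg t z))
    have e3 : B2 0 (3 / 4) (v t) ≤ 2 * B2 0 (3 / 4) (W t) + 61 * G t := by
      unfold B2
      have h1 : ∫ z in ball (0 : V) (3 / 4), gsq (v t) z ≤
          ∫ z in ball (0 : V) (3 / 4), (2 * gsq (W t) z + 18 * G t) := by
        apply setIntegral_mono_on (W605.MD.intOn_ball hgv _)
          (W605.MD.intOn_ball ((continuous_const.mul hgc).add continuous_const) _) measurableSet_ball
        intro z hz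
        exact hg z (ball_subset_ball (by norm_num) hz)
      refine h1.trans ?_
      rw [integral_add ((W605.MD.intOn_ball hgc _).const_mul 2)
        (W605.MD.intOn_ball continuous_const _), integral_const_mul, setIntegral_const,
        smul_eq_mul, Measure.real, Real.volume_pi_ball _ (by norm_num),
        ENNReal.toReal_ofReal (by positivity)]
      have := hP.pos
      norm_num
      nlinarith
    have h5 := hder t ht
    have h6 : √(W605.MD.EE W t) ≤ K := (Real.sqrt_le_sqrt (hle t ht (by linarith))).trans hSS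
    have h7 : C₁ * G t * (1 + √(W605.MD.EE W t)) ≤ C₁ * (1 + K) * G t := by
      have := hG0 t ht
      calc C₁ * G t * (1 + √(W605.MD.EE W t)) ≤ C₁ * G t * (1 + K) :=
            mul_le_mul_of_nonneg_left (by linarith) (by positivity)
        _ = _ := by ring
    linarith
  obtain ⟨h, hh⟩ : ∃ h : ℝ → ℝ, h = fun t =>
    (C₁ * (1 + K) * G t - deriv (W605.MD.EE W) t) + 61 * G t := ⟨_, rfl⟩
  have hh0 : ∀ t ∈ H, t' < t → 0 ≤ h t := by
    intro t ht ht1
    rw [hh]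
    have h5 := hder t ht
    have h6 : √(W605.MD.EE W t) ≤ K := (Real.sqrt_le_sqrt (hle t ht ht1.le)).trans hSS
    have h7 : C₁ * G t * (1 + √(W605.MD.EE W t)) ≤ C₁ * (1 + K) * G t := by
      have := hG0 t ht
      calc C₁ * G t * (1 + √(W605.MD.EE W t)) ≤ C₁ * G t * (1 + K) :=
            mul_le_mul_of_nonneg_left (by linarith) (by positivity)
        _ = _ := by ring
    have h8 := hdis0 t
    have h9 := hG0 t ht
    simp only
    linarith
  have hhI : ∀ t ∈ H, t' < t → IntegrableOn h (Ioo t' t) ∧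
      ∫ τ in Ioo t' t, h τ ≤ (C₁ * (1 + K) + 61) * ε := by
    intro t ht ht1
    have ht2 := hH ht
    have hsub : Ioo t' t ⊆ Ioo (-1 : ℝ) 0 := Ioo_subset_Ioo ht'1.le ht2.2.le
    obtain ⟨hi, hen'⟩ := hEn t ht ht1.le
    have hg := hGi.mono_set hsub
    have i1 : IntegrableOn (fun τ => C₁ * (1 + K) * G τ) (Ioo t' t) := hg.const_mul _
    have i2 : IntegrableOn (fun τ => 61 * G τ) (Ioo t' t) := hg.const_mul _
    have i3 : IntegrableOn (fun τ => C₁ * (1 + K) * G τ - deriv (W605.MD.EE W) τ) (Ioo t' t) :=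
      i1.sub hi
    rw [hh]
    refine ⟨i3.add i2, ?_⟩
    rw [integral_add i3 i2, integral_sub i1 hi, integral_const_mul, integral_const_mul]
    have h3 := hGle t ht2.2.le
    have h4 := W605.MD.EE_nonneg W t
    rw [hE'] at hen'
    have h5 : C₁ * (1 + K) * (∫ τ in Ioo t' t, G τ) ≤ C₁ * (1 + K) * ε :=
      mul_le_mul_of_nonneg_left h3 (by positivity)
    nlinarith
  obtain ⟨b, hb⟩ : ∃ b : ℝ → ℝ, b = fun t => B2 0 (3 / 4) (v t) := ⟨_, rfl⟩
  have hb0 : ∀ t, 0 ≤ b t := by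
    intro t
    rw [hb]
    exact integral_nonneg fun z => W605.MD.gsq_nonneg _ z
  have hJ : Ioo (-9 / 16 : ℝ) 0 ⊆ Ioo (-1) 0 := Ioo_subset_Ioo_left (by norm_num)
  have hbm : AEStronglyMeasurable b (volume.restrict (Ioo (-9 / 16 : ℝ) 0)) := by
    have h1 : AEStronglyMeasurable b (volume.restrict H) := by
      rw [hb]
      exact (contB hO hvs 0 (3 / 4)).aestronglyMeasurable hO.measurableSet
    have h2 : volume.restrict (Ioo (-9 / 16 : ℝ) 0) ≤ volume.restrict H := by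
      apply Measure.restrict_mono' _ le_rfl
      filter_upwards [hae] with t ht h3
      exact ht (hJ h3)
    exact h1.mono_measure h2
  have hmain : ∀ n : ℕ, ∫⁻ t in Ioo (-9 / 16 : ℝ) (-(1 / ((n : ℝ) + 2))), ENNReal.ofReal (b t)
      ≤ ENNReal.ofReal ((C₁ * (1 + K) + 61) * ε) := by
    intro n
    have hn : (0 : ℝ) < 1 / ((n : ℝ) + 2) := by positivity
    have hn2 : 1 / ((n : ℝ) + 2) ≤ 1 / 2 := by
      apply one_div_le_one_div_of_le (by norm_num)
      have : (0 : ℝ) ≤ n := Nat.cast_nonneg n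
      linarith
    obtain ⟨t, ht, h1, h2⟩ := hex (-(1 / ((n : ℝ) + 2))) 0 (by linarith) (by linarith) le_rfl
    have htt' : t' < t := by linarith
    obtain ⟨h3, h4⟩ := hhI t ht htt'
    have hsub1 : Ioo (-9 / 16 : ℝ) (-(1 / ((n : ℝ) + 2))) ⊆ Ioo (-9 / 16) t :=
      Ioo_subset_Ioo_right h1.le
    have hsub2 : Ioo (-9 / 16 : ℝ) t ⊆ Ioo t' t := Ioo_subset_Ioo_left (by linarith)
    calc ∫⁻ t in Ioo (-9 / 16 : ℝ) (-(1 / ((n : ℝ) + 2))), ENNReal.ofReal (b t)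
        ≤ ∫⁻ t in Ioo (-9 / 16 : ℝ) t, ENNReal.ofReal (b t) := lintegral_mono_set hsub1
      _ ≤ ∫⁻ t in Ioo (-9 / 16 : ℝ) t, ENNReal.ofReal (h t) := by
          apply lintegral_mono_ae
          filter_upwards [ae_restrict_of_ae hae, ae_restrict_mem measurableSet_Ioo] with τ h5 h6
          apply ENNReal.ofReal_le_ofReal
          have h7 := hpt τ (h5 ⟨by linarith [h6.1], by linarith [h6.2]⟩) h6.1
          rw [hb, hh]
          exact h7
      _ ≤ ∫⁻ t in Ioo t' t, ENNReal.ofReal (h t) := lintegral_mono_set hsub2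
      _ = ENNReal.ofReal (∫ t in Ioo t' t, h t) := by
          rw [ofReal_integral_eq_lintegral_ofReal h3]
          filter_upwards [ae_restrict_of_ae hae, ae_restrict_mem measurableSet_Ioo] with τ h5 h6
          exact hh0 τ (h5 ⟨by linarith [h6.1], by linarith [h6.2]⟩) h6.1
      _ ≤ _ := ENNReal.ofReal_le_ofReal h4
  have hUn : (⋃ n : ℕ, Ioo (-9 / 16 : ℝ) (-(1 / ((n : ℝ) + 2)))) = Ioo (-9 / 16) 0 := by
    ext t
    simp only [mem_iUnion, mem_Ioo]
    constructor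
    · rintro ⟨n, h1, h2⟩
      have : (0 : ℝ) < 1 / ((n : ℝ) + 2) := by positivity
      exact ⟨h1, by linarith⟩
    · rintro ⟨h1, h2⟩
      obtain ⟨n, hn⟩ := exists_nat_one_div_lt (show (0 : ℝ) < -t by linarith)
      refine ⟨n, h1, ?_⟩
      have h3 : 1 / ((n : ℝ) + 2) ≤ 1 / ((n : ℝ) + 1) := by
        apply one_div_le_one_div_of_le (by positivity)
        linarith
      linarith
  have hdir : Directed (· ⊆ ·) (fun n : ℕ => Ioo (-9 / 16 : ℝ) (-(1 / ((n : ℝ) + 2)))) := by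
    apply Monotone.directed_le
    intro n m hnm
    apply Ioo_subset_Ioo_right
    apply neg_le_neg
    apply one_div_le_one_div_of_le (by positivity)
    have : (n : ℝ) ≤ m := by exact_mod_cast hnm
    linarith
  have hL : ∫⁻ t in Ioo (-9 / 16 : ℝ) 0, ENNReal.ofReal (b t)
      ≤ ENNReal.ofReal ((C₁ * (1 + K) + 61) * ε) := by
    rw [← hUn, setLIntegral_iUnion_of_directed _ hdir]
    exact iSup_le hmain
  have hbi : IntegrableOn b (Ioo (-9 / 16 : ℝ) 0) := by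
    refine ⟨hbm, ?_⟩
    rw [hasFiniteIntegral_iff_ofReal (Filter.Eventually.of_forall hb0)]
    exact lt_of_le_of_lt hL ENNReal.ofReal_lt_top
  have hfin : ∫ t in Ioo (-9 / 16 : ℝ) 0, b t ≤ (C₁ * (1 + K) + 61) * ε := by
    rw [integral_eq_lintegral_of_nonneg_ae (Filter.Eventually.of_forall hb0) hbm]
    refine ENNReal.toReal_le_of_le_ofReal (by positivity) hL
  rw [hb] at hbi hfin
  exact ⟨hbi, hfin⟩

end Pool.Agent.Y8.W4
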