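import Pool.Agent.Y7.WDer
import Pool.Agent.Y7.WLagS
import Pool.Agent.Y8.WLag

/-! The particle paths of suitable weak periodic solutions, for helper7 (helper8). -/

set_option autoImplicit false

open MeasureTheory Set

namespace Pool.Agent.Y8

open Pool.Agent.Y7

theorem t_WLAG : S_WLAG := by
  obtain ⟨C, K, hC, hK, H⟩ := WS.wlag1 t_WDER
  refine ⟨C, K, hC, hK, ?_⟩
  intro T E D G u p h t₀ ht₀
  obtain ⟨X, W, h1, h2, h3, h4, -, h5, h6⟩ := H T E D G u p h t₀ ht₀
  exact ⟨X, W, h1, h2, h3, h4, h5, Filter.Eventually.of_forall h6⟩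

end Pool.Agent.Y8
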