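import Pool.Agent.Y8.WLoc7

/-!
Little oscillation along a path of the mollified velocity of a weak solution bounds all
derivatives of the vorticity around it, and those of the velocity in terms of the local energy
at the same time (helper8, adapted from Pool.Agent.Y7.LocW of helper7).
-/

set_option autoImplicit false
set_option linter.unusedVariables false

open MeasureTheory Set Metric Filter Topology
open scoped ContDiff ENNReal NNReal

namespace Pool.Agent.Y8.WS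

open H459R3.NS W221.NS Pool.Agent.Y7 Pool.Agent.Y8 Pool.Agent.Y8.WE Pool.Agent.Y458.NS
open Pool.Agent.TH305.DR

lemma st_jsO {H : Set ℝ} (hO : IsOpen H) (n : ℕ) {u : ℝ → V → V}
    (hu : ContDiffOn ℝ ∞ (fun z : ℝ × V => u z.1 z.2) (H ×ˢ univ)) :
    ContinuousOn (fun z : ℝ × V => ST n (u z.1) z.2) (H ×ˢ univ) := by
  have hui : ∀ i, ContDiffOn ℝ ∞ (fun z : ℝ × V => u z.1 z.2 i) (H ×ˢ univ) :=
    fun i => contDiffOn_pi.1 hu i
  refine continuousOn_finsetSum _ fun q _ => ss_jsO hO n (f := fun t y => Om q.1 q.2 (u t) y) ?_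
  exact (pd_jsO hO (f := fun t y => u t y q.2) (hui q.2) q.1).sub
    (pd_jsO hO (f := fun t y => u t y q.1) (hui q.1) q.2)

/-- Little oscillation along a path of the mollified velocity bounds all derivatives around it,
at a regular time. -/
theorem wlocG (hD : S_WDER) : ∃ (η : ℝ) (K : ℕ → ℝ), 0 < η ∧ (∀ n, 0 < K n) ∧
    ∀ (T E D : ℝ) (G : Set ℝ) (u : ℝ → V → V) (p : ℝ → V → ℝ), Turb 1 T E D G u p →
      ∀ R₀ : ℝ, 0 < R₀ → ∀ (m N : ℕ) (s : ℝ), m + 4 ≤ N → sc R₀ m ≤ 1 →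
      sc R₀ m ^ 2 < s → s ∈ G → ∀ (ξ ξ' : ℝ → V) (B B' : ℝ),
      FPath T (sc R₀ N) B B' G u p ξ ξ' →
      ∫⁻ τ in Ioo (s - sc R₀ m ^ 2) s, Fx R₀ (u τ) (ξ τ) ≤ ENNReal.ofReal (η / sc R₀ m ^ 2) →
      ∀ n, ∀ y ∈ ball (ξ s) (sc R₀ m / 256),
        (sc R₀ m / 16) ^ (2 * n + 4) * ST n (u s) y ≤ K n ∧
        (sc R₀ m / 16) ^ (2 * n + 4) * SV (n + 1) (u s) y
          ≤ K (n + 1) * (1 + A2 0 4 (fr (sc R₀ (m + 4)) (u s) (ξ s))) := by
  obtain ⟨ε, hε, Cl, hCl, hloc⟩ := hD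
  obtain ⟨K₁, hK₁, hclose⟩ := t_WCLOSE
  obtain ⟨C₂, hC₂, hsmall⟩ := wsmall
  obtain ⟨Kp, hKp, hpath⟩ := path_ex Pool.Agent.Y8.B.p_tcut Pool.Agent.Y8.B.p_acx
  obtain ⟨η, hη, hη1, hη2, hη3⟩ : ∃ η : ℝ, 0 < η ∧ K₁ * √η ≤ 1 / 16 ∧ C₂ * η ≤ 1 ∧
      16 * (C₂ * η) ≤ ε := by
    refine ⟨min ((1 / (16 * K₁)) ^ 2) (min (1 / C₂) (ε / (16 * C₂))), by positivity, ?_, ?_, ?_⟩
    · have h1 : √(min ((1 / (16 * K₁)) ^ 2) (min (1 / C₂) (ε / (16 * C₂)))) ≤ 1 / (16 * K₁) := by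
        refine (Real.sqrt_le_sqrt (min_le_left _ _)).trans (le_of_eq ?_)
        exact Real.sqrt_sq (by positivity)
      calc K₁ * √(min ((1 / (16 * K₁)) ^ 2) (min (1 / C₂) (ε / (16 * C₂))))
          ≤ K₁ * (1 / (16 * K₁)) := by gcongr
        _ = 1 / 16 := by field_simp
    · calc C₂ * min ((1 / (16 * K₁)) ^ 2) (min (1 / C₂) (ε / (16 * C₂)))
          ≤ C₂ * (1 / C₂) := by
            gcongr
            exact (min_le_right _ _).trans (min_le_left _ _)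
        _ = 1 := by field_simp
    · calc 16 * (C₂ * min ((1 / (16 * K₁)) ^ 2) (min (1 / C₂) (ε / (16 * C₂))))
          ≤ 16 * (C₂ * (ε / (16 * C₂))) := by
            gcongr
            exact (min_le_right _ _).trans (min_le_right _ _)
        _ = ε := by field_simp
  refine ⟨η, Cl, hη, hCl, ?_⟩
  intro T E D G u p h R₀ hR₀ m N s hmN hsc1 hrs hsG ξ ξ' B B' hξ hI n y hy
  have hr := sc_pos hR₀ m
  have hu := h.smooth_u
  have hs := h.subG hsG
  have hsT : s < T := hs.2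
  -- the two scales
  obtain ⟨r, hrd⟩ : ∃ r, r = sc R₀ m := ⟨_, rfl⟩
  obtain ⟨r', hr'd⟩ : ∃ r', r' = sc R₀ (m + 4) := ⟨_, rfl⟩
  have hrr : r' = r / 16 := by
    rw [hr'd, hrd, sc_add]
    norm_num
  have hr' : 0 < r' := by
    rw [hr'd]
    exact sc_pos hR₀ _
  have hcl0 := hclose T E D G u p h R₀ hR₀ m N (by omega) s
  have hcl1 := hclose T E D G u p h R₀ hR₀ (m + 4) N (by omega) s
  have hsm := hsmall T E D G u p h R₀ hR₀ m s
  rw [← hrd] at hr hrs hI hy hsc1 hcl0 hsm ⊢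
  rw [← hr'd] at hcl1 ⊢
  have hr'1 : r' ≤ 1 := by rw [hrr]; linarith
  have hr2 : 0 < r ^ 2 := by positivity
  have hα : 0 < s - r ^ 2 := by linarith
  have hs0 : 0 < s := hs.1
  obtain ⟨C1, hC1, hp1⟩ := hpath E r hr hsc1
  obtain ⟨C1', hC1', hp1'⟩ := hpath E r' hr' hr'1
  obtain ⟨Y, Z, hYs, hY⟩ := hp1 T D G u p h s hs (ξ s)
  obtain ⟨Y', Z', hYs', hY'⟩ := hp1' T D G u p h s hs (ξ s)
  have hsubT : ∀ τ ∈ Icc (s - r ^ 2) s, τ ∈ Ioo 0 T := fun τ hτ =>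
    ⟨hα.trans_le hτ.1, hτ.2.trans_lt hsT⟩
  have hξc : ContinuousOn ξ (Icc (s - r ^ 2) s) := fun τ hτ =>
    (hξ.hd τ (hsubT τ hτ)).continuousAt.continuousWithinAt
  have hYc : ∀ τ ∈ Ioo 0 T, ContinuousAt Y' τ := fun τ hτ => (hY'.hd τ hτ).continuousAt
  -- the square root of the function along the path
  have hae : ∀ᵐ t : ℝ, t ∈ Ioo (0 : ℝ) T → t ∈ G := by
    have h1 := h.fullG
    rw [← compl_mem_ae_iff] at h1
    filter_upwards [h1] with t ht ht2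
    by_contra h3
    exact ht ⟨ht2, h3⟩
  have hFm : AEMeasurable (fun τ => Fx R₀ (u τ) (ξ τ)) (volume.restrict (Ioo (s - r ^ 2) s)) := by
    have h1 : AEMeasurable (fun τ => Fx R₀ (u τ) (ξ τ)) (volume.restrict G) :=
      WS_meas R₀ h.openG hu (hξ.sm.continuousOn)
    apply h1.mono_measure
    apply Measure.restrict_mono' _ le_rfl
    filter_upwards [hae] with t ht h3
    exact ht (hsubT t (Ioo_subset_Icc_self h3))
  have hhalf : ENNReal.ofReal K₁ * ∫⁻ τ in Ioo (s - r ^ 2) s, Fx R₀ (u τ) (ξ τ) ^ (1 / 2 : ℝ)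
      ≤ ENNReal.ofReal (1 / 16) := by
    refine (mul_le_mul_right (halfO hr2 hη.le hFm hI) _).trans ?_
    rw [← ENNReal.ofReal_mul hK₁.le]
    exact ENNReal.ofReal_le_ofReal hη1
  have d0 := hcl0 (r ^ 2) hr2 hα hsT ξ ξ' Y Z _ _ _ _ hξ hY hYs hhalf
  have d1 := hcl1 (r ^ 2) hr2 hα hsT ξ ξ' Y' Z' _ _ _ _ hξ hY' hYs' hhalf
  have hdis := hsm hrs hsT ξ Y Z _ _ hY
    (fun τ hτ => (d0 τ ⟨hτ.1, hτ.2.le⟩).trans (by linarith)) η hη hη2 hI
  -- the dissipation along the path at the smaller scale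
  have hr'2 : r' ^ 2 = r ^ 2 / 256 := by
    rw [hrr]
    ring
  have hr's : r' ^ 2 < s := by rw [hr'2]; linarith
  have hα' : 0 < s - r' ^ 2 := by linarith
  have hB0 : ∀ τ, 0 ≤ B2 (Y τ) (r * (3 / 4)) (u τ) := fun τ => integral_nonneg fun x =>
    Finset.sum_nonneg fun i _ => Finset.sum_nonneg fun j _ => sq_nonneg _
  obtain ⟨hInt, hEq⟩ := frame_mass (R := 8) (a := -1) h hr' hr's hsT hY' le_rfl (by norm_num)
  have hms : r'⁻¹ * ∫ τ in Ioo (s + r' ^ 2 * (-1)) s, B2 (Y' τ) (r' * 8) (u τ) ≤ ε := by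
    have e0 : s + r' ^ 2 * (-1) = s - r' ^ 2 := by ring
    rw [e0]
    have j1 : IntegrableOn (fun τ => B2 (Y' τ) (r' * 8) (u τ)) (Ioo (s - r' ^ 2) s) := by
      refine (B2_mov_int h hY'.sm.continuousOn _).mono_set_ae ?_
      filter_upwards [hae] with t ht h3
      exact ht ⟨by have := h3.1; linarith, h3.2.trans hsT⟩
    have j3 : IntegrableOn (fun τ => B2 (Y τ) (r * (3 / 4)) (u τ)) (Ioo (s - 9 / 16 * r ^ 2) s) := by
      refine (B2_mov_int h hY.sm.continuousOn _).mono_set_ae ?_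
      filter_upwards [hae] with t ht h3
      exact ht ⟨by have := h3.1; linarith, h3.2.trans hsT⟩
    have hsub2 : Ioo (s - r' ^ 2) s ⊆ Ioo (s - 9 / 16 * r ^ 2) s :=
      Ioo_subset_Ioo_left (by rw [hr'2]; linarith)
    have e1 : ∫ τ in Ioo (s - r' ^ 2) s, B2 (Y' τ) (r' * 8) (u τ)
        ≤ ∫ τ in Ioo (s - r' ^ 2) s, B2 (Y τ) (r * (3 / 4)) (u τ) := by
      apply setIntegral_mono_ae_restrict j1 (j3.mono_set hsub2)
      filter_upwards [ae_restrict_of_ae hae, ae_restrict_mem measurableSet_Ioo] with τ h5 hτ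
      have hτG : τ ∈ G := h5 ⟨by have := hτ.1; linarith, hτ.2.trans hsT⟩
      have hτ2 : τ ∈ Ioc (s - r ^ 2) s := ⟨by
        have := hτ.1
        rw [hr'2] at this
        linarith, hτ.2.le⟩
      apply Pool.Agent.Y458.NS.B2_mono (sl_sm hu hτG)
      apply ball_subset_ball'
      rw [dist_eq_norm]
      have h1 := d0 τ hτ2
      have h2 := d1 τ hτ2
      have h3 : ‖Y' τ - Y τ‖ ≤ ‖ξ τ - Y' τ‖ + ‖ξ τ - Y τ‖ := by
        have e : Y' τ - Y τ = (ξ τ - Y τ) - (ξ τ - Y' τ) := by abel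
        rw [e]
        exact (norm_sub_le _ _).trans (by linarith)
      linarith
    have e2 : ∫ τ in Ioo (s - r' ^ 2) s, B2 (Y τ) (r * (3 / 4)) (u τ)
        ≤ ∫ τ in Ioo (s - 9 / 16 * r ^ 2) s, B2 (Y τ) (r * (3 / 4)) (u τ) :=
      setIntegral_mono_set j3 (Eventually.of_forall fun τ => hB0 τ) hsub2.eventuallyLE
    calc r'⁻¹ * ∫ τ in Ioo (s - r' ^ 2) s, B2 (Y' τ) (r' * 8) (u τ)
        ≤ r'⁻¹ * (C₂ * η * r) := by
          gcongr
          exact (e1.trans e2).trans hdis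
      _ = 16 * (C₂ * η) := by
          rw [hrr]
          field_simp
      _ ≤ ε := hη3
  -- the frame
  obtain ⟨k', hL⟩ := Pool.Agent.Y8.B.p_wfr2 T E D G u p h r' s hr' hr's hsT Y' Z' _ _ hY'
  rw [← hEq] at hms
  have hall := hloc _ _ _ _ hL hInt hms
  -- the point
  obtain ⟨z, hz⟩ : ∃ z : V, z = r'⁻¹ • (y - ξ s) := ⟨_, rfl⟩
  have hyz : y = ξ s + r' • z := by
    rw [hz, smul_smul, mul_inv_cancel₀ hr'.ne', one_smul, add_sub_cancel]
  have hzb : z ∈ ball (0 : V) (1 / 16) := by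
    rw [mem_ball, dist_eq_norm] at hy
    rw [hz, mem_ball_zero_iff, norm_smul, Real.norm_eq_abs, abs_of_pos (inv_pos.2 hr'),
      inv_mul_lt_iff₀ hr', hrr]
    linarith
  have hr2' : 0 < r' ^ 2 := by positivity
  have hev : ∀ τ ∈ Ioo (s - r' ^ 2 / 32) s, τ ∈ G →
      r' ^ (2 * n + 4) * ST n (u τ) (Y' τ + r' • z) ≤ Cl n ∧
      r' ^ (2 * n + 4) * SV (n + 1) (u τ) (Y' τ + r' • z)
        ≤ Cl (n + 1) * (1 + A2 0 4 (fr r' (u τ) (Y' τ))) := by
    intro τ hτ hτG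
    have htm : (τ - s) / r' ^ 2 ∈ Ioo (-1 / 32 : ℝ) 0 := by
      constructor
      · rw [lt_div_iff₀ hr2']
        linarith [hτ.1]
      · exact div_neg_of_neg_of_pos (by linarith [hτ.2]) hr2'
    have e1 : s + r' ^ 2 * ((τ - s) / r' ^ 2) = τ := by
      field_simp
      ring
    have hv : ContDiff ℝ ∞ (u (s + r' ^ 2 * ((τ - s) / r' ^ 2))) := by
      rw [e1]
      exact sl_sm hu hτG
    have hmem : (τ - s) / r' ^ 2 ∈ {t | t ∈ Ioo (-1 : ℝ) 0 ∧ s + r' ^ 2 * t ∈ G} :=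
      ⟨⟨by linarith [htm.1], htm.2⟩, by rw [e1]; exact hτG⟩
    have a1 := (hall n _ hmem htm.1 z hzb).1
    have a2 := (hall (n + 1) _ hmem htm.1 z hzb).2
    have hfr := frvH h.subG hY' (t := (τ - s) / r' ^ 2) (by rw [e1]; exact hτG)
    rw [SV_frv n hv, hfr, e1] at a2
    rw [ST_frv n hv, e1] at a1
    exact ⟨a1, a2⟩
  obtain ⟨d, hd, hball⟩ := Metric.isOpen_iff.1 h.openG s hsG
  rw [Real.ball_eq_Ioo] at hball
  have l1 : Tendsto (fun τ => r' ^ (2 * n + 4) * SV (n + 1) (u τ) (Y' τ + r' • z)) (𝓝[<] s)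
      (𝓝 (r' ^ (2 * n + 4) * SV (n + 1) (u s) y)) := by
    apply Tendsto.const_mul
    exact lim_pathO h.openG (sv_jsO h.openG (n + 1) hu) hsG
      (Y := fun τ => Y' τ + r' • z) ((hYc s hs).add continuousAt_const) (by rw [hYs', ← hyz])
  have l2 : Tendsto (fun τ => Cl (n + 1) * (1 + A2 0 4 (fr r' (u τ) (Y' τ)))) (𝓝[<] s)
      (𝓝 (Cl (n + 1) * (1 + A2 0 4 (fr r' (u s) (ξ s))))) := by
    apply Tendsto.const_mul
    apply Tendsto.const_add
    have hsub3 : Icc (s - d / 2) s ⊆ G := fun τ hτ =>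
      hball ⟨by linarith [hτ.1], by linarith [hτ.2]⟩
    have c1 := fr_contO h.openG hu (show s - d / 2 ≤ s by linarith) hsub3
      (fun τ hτ => (hYc τ (h.subG (hsub3 hτ))).continuousWithinAt) r' s ⟨by linarith, le_rfl⟩
    rw [ContinuousWithinAt, hYs'] at c1
    refine c1.mono_left ?_
    rw [nhdsWithin_le_iff]
    exact mem_of_superset (Ioo_mem_nhdsLT (show s - d / 2 < s by linarith)) Ioo_subset_Icc_self
  have l0 : Tendsto (fun τ => r' ^ (2 * n + 4) * ST n (u τ) (Y' τ + r' • z)) (𝓝[<] s)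
      (𝓝 (r' ^ (2 * n + 4) * ST n (u s) y)) := by
    apply Tendsto.const_mul
    exact lim_pathO h.openG (st_jsO h.openG n hu) hsG
      (Y := fun τ => Y' τ + r' • z) ((hYc s hs).add continuousAt_const) (by rw [hYs', ← hyz])
  rw [← hrr]
  refine ⟨le_of_tendsto l0 ?_, le_of_tendsto_of_tendsto l1 l2 ?_⟩
  · filter_upwards [Ioo_mem_nhdsLT (show s - r' ^ 2 / 32 < s by linarith),
      Ioo_mem_nhdsLT (show s - d < s by linarith)] with τ hτ hτ2
    exact (hev τ hτ (hball ⟨hτ2.1, by linarith [hτ2.2]⟩)).1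
  · filter_upwards [Ioo_mem_nhdsLT (show s - r' ^ 2 / 32 < s by linarith),
      Ioo_mem_nhdsLT (show s - d < s by linarith)] with τ hτ hτ2
    exact (hev τ hτ (hball ⟨hτ2.1, by linarith [hτ2.2]⟩)).2

end Pool.Agent.Y8.WS
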