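import Pool.Agent.Y7.Der7
import Pool.Agent.Y7.RegW
import Pool.Agent.Y8.WLocG

/-!
Around a path of the mollified velocity of a weak solution along which the maximal function is
integrable, the velocity is Lipschitz continuous, and the radius of regularity of the vorticity is
bounded below (helper8).
-/

set_option autoImplicit false
set_option linter.unusedVariables false

open MeasureTheory Set Metric Filter Topology
open scoped ContDiff ENNReal NNReal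

namespace Pool.Agent.Y8.WS

open H459R3.NS W221.NS Pool.Agent.Y7 Pool.Agent.Y8 Pool.Agent.Y8.WE Pool.Agent.Y458.NS
open Pool.Agent.TH305.DR Pool.Agent.Y7.Cov1

/-- The local energy in a frame is bounded by the energy. -/
theorem A2fr_bd (E r : ℝ) (hr : 0 < r) (hr1 : r ≤ 1) : ∃ C : ℝ, 0 < C ∧ ∀ w : V → V, SPV w →
    energy w ≤ E ^ 2 → ∀ x, A2 0 4 (fr r w x) ≤ C := by
  obtain ⟨Cb, hCb, hb⟩ := ball_le (r * 4)
  obtain ⟨Km, hKm, hm⟩ := mo_bd
  obtain ⟨B, hB⟩ : ∃ B, B = Km * |E| / √(r ^ 3) := ⟨_, rfl⟩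
  have hB0 : 0 ≤ B := by rw [hB]; positivity
  have hr2 : 0 < r ^ 2 := by positivity
  refine ⟨(∫ _ in ball (0 : V) 4, (6 * r ^ 2 * B ^ 2)) +
      2 * r ^ 2 * ((r ^ 3)⁻¹ * (Cb * E ^ 2)) + 1, ?_, fun w hw hE x => ?_⟩
  · have : 0 ≤ ∫ _ in ball (0 : V) 4, (6 * r ^ 2 * B ^ 2) :=
      integral_nonneg fun _ => by positivity
    positivity
  have hnc := (nsq_sm hw.1).continuous
  have hml : ∀ i, ml r w x i ^ 2 ≤ B ^ 2 := fun i => by
    rw [← sq_abs]
    exact pow_le_pow_left₀ (abs_nonneg _) ((norm_le_pi_norm (ml r w x) i).trans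
      (by rw [hB]; exact hm E w hw hE r x hr hr1)) 2
  have e1 : ∀ z, nsq (fr r w x) z ≤ 6 * r ^ 2 * B ^ 2 +
      2 * r ^ 2 * (fun y => nsq w y) (x + r • z) := by
    intro z
    unfold nsq Pool.Agent.Y7.fr
    simp only [Fin.sum_univ_three]
    have key : ∀ a b : ℝ, (r * (a - b)) ^ 2 ≤ 2 * r ^ 2 * a ^ 2 + 2 * r ^ 2 * b ^ 2 := by
      intro a b
      nlinarith [mul_nonneg hr2.le (sq_nonneg (a + b))]
    have k0 := key (w (x + r • z) 0) (ml r w x 0)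
    have k1 := key (w (x + r • z) 1) (ml r w x 1)
    have k2 := key (w (x + r • z) 2) (ml r w x 2)
    have y0 := mul_le_mul_of_nonneg_left (hml 0) hr2.le
    have y1 := mul_le_mul_of_nonneg_left (hml 1) hr2.le
    have y2 := mul_le_mul_of_nonneg_left (hml 2) hr2.le
    nlinarith
  have hfs := fr_smooth hw.1 r x
  unfold A2
  have hc2 : Continuous fun z => nsq w (x + r • z) := hnc.comp (by fun_prop)
  have h0 : ∫ z in ball (0 : V) 4, nsq (fr r w x) z ≤ ∫ z in ball (0 : V) 4,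
      (6 * r ^ 2 * B ^ 2 + 2 * r ^ 2 * nsq w (x + r • z)) :=
    setIntegral_mono (ballint (nsq_sm hfs).continuous _ _)
      (ballint (f := fun z => 6 * r ^ 2 * B ^ 2 + 2 * r ^ 2 *
        nsq w (x + r • z)) (by fun_prop) _ _) e1
  have j1 : IntegrableOn (fun z : V => 2 * r ^ 2 * nsq w (x + r • z)) (ball (0 : V) 4) :=
    ballint (continuous_const.mul hc2) _ _
  have j2 : IntegrableOn (fun _ : V => 6 * r ^ 2 * B ^ 2) (ball (0 : V) 4) :=
    ballint continuous_const _ _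
  have j3 : ∫ z in ball (0 : V) 4, 2 * r ^ 2 * nsq w (x + r • z) = 2 * r ^ 2 *
      ∫ z in ball (0 : V) 4, nsq w (x + r • z) :=
    integral_const_mul _ _
  rw [integral_add j2 j1, j3] at h0
  have h2 := Pool.Agent.W135.MD.int_ball_scale (fun y => nsq w y) x hr 4
  have h3 : ∫ y in ball x (r * 4), nsq w y ≤ Cb * E ^ 2 := by
    refine (hb _ hnc (nsq_per hw.2) (nsq_nn _) _).trans ?_
    rw [← energy_eq hw.1]
    exact mul_le_mul_of_nonneg_left hE hCb.le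
  have h4 : 2 * r ^ 2 * ∫ z in ball (0 : V) 4, nsq w (x + r • z)
      ≤ 2 * r ^ 2 * ((r ^ 3)⁻¹ * (Cb * E ^ 2)) := by
    rw [h2]
    gcongr
  linarith

/-- The mean velocity is near to the velocity, if the velocity is Lipschitz continuous. -/
theorem mo_near {v : V → V} (hv : Continuous v) {r ρ Λ : ℝ} {x : V} (hr : 0 < r) (hrρ : r ≤ ρ)
    (hΛ : 0 ≤ Λ) (h : ∀ y ∈ ball x ρ, ‖v y - v x‖ ≤ Λ * ‖y - x‖) :
    ‖mo r v x - v x‖ ≤ Λ * r := by
  rw [pi_norm_le_iff_of_nonneg (by positivity)]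
  intro i
  have hvi : Continuous fun y : V => v (x + r • y) i :=
    (continuous_apply i).comp (hv.comp (by fun_prop))
  have i1 : Integrable fun y : V => th y * v (x + r • y) i :=
    (th_sm.continuous.mul hvi).integrable_of_hasCompactSupport (th_hcs.mul_right)
  have i2 : Integrable fun y : V => th y :=
    th_sm.continuous.integrable_of_hasCompactSupport th_hcs
  have e : (mo r v x - v x) i = ∫ y, th y * (v (x + r • y) i - v x i) := by
    rw [Pi.sub_apply]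
    unfold mo
    have e1 : ∀ y, th y * (v (x + r • y) i - v x i)
        = th y * v (x + r • y) i - th y * v x i := fun y => by ring
    simp only [e1]
    rw [integral_sub i1 (i2.mul_const _), integral_mul_const, th_i1, one_mul]
  rw [e]
  have hle : ∀ y, ‖th y * (v (x + r • y) i - v x i)‖ ≤ th y * (Λ * r) := by
    intro y
    by_cases hy : y ∈ ball (0 : V) 1
    · rw [norm_mul, Real.norm_of_nonneg (th_nn y)]
      apply mul_le_mul_of_nonneg_left _ (th_nn y)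
      have hy1 : ‖y‖ < 1 := by rwa [mem_ball_zero_iff] at hy
      have h1 : ‖x + r • y - x‖ ≤ r := by
        rw [add_sub_cancel_left, norm_smul, Real.norm_of_nonneg hr.le]
        nlinarith
      have hm : x + r • y ∈ ball x ρ := by
        rw [mem_ball, dist_eq_norm, add_sub_cancel_left, norm_smul, Real.norm_of_nonneg hr.le]
        nlinarith
      calc ‖v (x + r • y) i - v x i‖ ≤ ‖v (x + r • y) - v x‖ :=
            norm_le_pi_norm (v (x + r • y) - v x) i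
        _ ≤ Λ * ‖x + r • y - x‖ := h _ hm
        _ ≤ Λ * r := by gcongr
    · rw [th_z hy, zero_mul, zero_mul, norm_zero]
  refine (norm_integral_le_of_norm_le (i2.mul_const _) (Eventually.of_forall hle)).trans ?_
  rw [integral_mul_const, th_i1, one_mul]

/-- The scales tend to zero. -/
lemma sc_lim : Tendsto (fun m : ℕ => sc 1 m) atTop (𝓝 0) := by
  have : (fun m : ℕ => sc 1 m) = fun m => (1 / 16 : ℝ) * (1 / 2) ^ m := by
    funext m
    unfold sc Hl.Rr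
    rw [div_pow, one_pow]
    ring
  rw [this]
  simpa using (tendsto_pow_atTop_nhds_zero_of_lt_one (by norm_num : (0 : ℝ) ≤ 1 / 2)
    (by norm_num)).const_mul (1 / 16 : ℝ)

lemma sc1_le (m : ℕ) : sc 1 m ≤ 1 := by
  refine (sc_le one_pos (Nat.zero_le m)).trans ?_
  unfold sc Hl.Rr
  norm_num

/-- A window carries little mass. -/
lemma win_le {T E D M η : ℝ} {G : Set ℝ} {u : ℝ → V → V} {p : ℝ → V → ℝ} (h : Turb 1 T E D G u p)
    {ξ : ℝ → V} {m : ℕ} {t : ℝ} (ht : t ∈ G) (hm : sc 1 m ^ 2 < t) (hM : M * sc 1 m ^ 2 ≤ η)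
    (hI : ∫⁻ τ in G, Fx 1 (u τ) (ξ τ) ≤ ENNReal.ofReal M) :
    ∫⁻ τ in Ioo (t - sc 1 m ^ 2) t, Fx 1 (u τ) (ξ τ) ≤ ENNReal.ofReal (η / sc 1 m ^ 2) := by
  have hs := sc_pos one_pos m
  have h1 : ∫⁻ τ in Ioo (t - sc 1 m ^ 2) t, Fx 1 (u τ) (ξ τ) ≤ ∫⁻ τ in G, Fx 1 (u τ) (ξ τ) := by
    apply lintegral_mono' _ le_rfl
    apply Measure.restrict_mono' _ le_rfl
    have h2 : ∀ᵐ t : ℝ, t ∉ Ioo 0 T \ G := measure_eq_zero_iff_ae_notMem.1 h.fullG
    filter_upwards [h2] with τ hτ hτ2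
    by_contra h3
    exact hτ ⟨⟨by linarith [hτ2.1], hτ2.2.trans (h.subG ht).2⟩, h3⟩
  refine h1.trans (hI.trans (ENNReal.ofReal_le_ofReal ?_))
  rw [le_div_iff₀ (by positivity)]
  exact hM

/-- The velocity is Lipschitz continuous around the path, uniformly in time. -/
theorem tube (hD : S_WDER) (T E D δ M : ℝ) (hδ : 0 < δ) (hM : 0 ≤ M) :
    ∃ (ρ Λ : ℝ) (N₀ : ℕ), 0 < ρ ∧ 0 < Λ ∧ ∀ (G : Set ℝ) (u : ℝ → V → V) (p : ℝ → V → ℝ),
      Turb 1 T E D G u p → ∀ N, N₀ ≤ N → ∀ (ξ ξ' : ℝ → V) (B B' : ℝ),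
      FPath T (sc 1 N) B B' G u p ξ ξ' →
      ∫⁻ τ in G, Fx 1 (u τ) (ξ τ) ≤ ENNReal.ofReal M → ∀ t ∈ G, δ ≤ t →
        ∀ x ∈ ball (ξ t) ρ, ∀ y ∈ ball (ξ t) ρ, ‖u t x - u t y‖ ≤ Λ * ‖x - y‖ := by
  obtain ⟨η, K, hη, hK, H⟩ := wlocG hD
  -- the scale
  obtain ⟨m, hm1, hm2⟩ : ∃ m : ℕ, sc 1 m ^ 2 < δ ∧ M * sc 1 m ^ 2 ≤ η := by
    have l1 : Tendsto (fun m : ℕ => sc 1 m ^ 2) atTop (𝓝 0) := by
      simpa using sc_lim.pow 2
    have l2 : Tendsto (fun m : ℕ => M * sc 1 m ^ 2) atTop (𝓝 0) := by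
      simpa using l1.const_mul M
    obtain ⟨m, h1, h2⟩ := ((l1.eventually (gt_mem_nhds hδ)).and
      (l2.eventually (gt_mem_nhds hη))).exists
    exact ⟨m, h1, h2.le⟩
  obtain ⟨r, hrd⟩ : ∃ r, r = sc 1 m := ⟨_, rfl⟩
  have hr : 0 < r := by rw [hrd]; exact sc_pos one_pos m
  obtain ⟨C, hC, hA⟩ := A2fr_bd E (sc 1 (m + 4)) (sc_pos one_pos _) (sc1_le _)
  obtain ⟨Λ, hΛ⟩ : ∃ Λ, Λ = √(9 * (K 1 * (1 + C) / (r / 16) ^ 4)) := ⟨_, rfl⟩
  have hK1 := hK 1
  have hΛ0 : 0 < Λ := by rw [hΛ]; positivity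
  refine ⟨r / 256, Λ, m + 4, by positivity, hΛ0, ?_⟩
  intro G u p h N hN ξ ξ' B B' hξ hI t ht hδt x hx y hy
  have hus := sl_sm h.smooth_u ht
  have hwin := win_le h ht (hm1.trans_le hδt) hm2 hI
  have hloc := H T E D G u p h 1 one_pos m N t (by omega) (sc1_le m) (hm1.trans_le hδt) ht ξ ξ'
    B B' hξ hwin 0
  have hbd : ∀ z ∈ ball (ξ t) (r / 256), ‖fderiv ℝ (u t) z‖ ≤ Λ := by
    intro z hz
    rw [hrd] at hz
    have h1 := (hloc z hz).2
    rw [← hrd] at h1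
    have h2 := hA (u t) (h.spv ht) (h.energy_le t ht) (ξ t)
    have h3 := it_SV 1 hus z
    rw [norm_iteratedFDeriv_one] at h3
    have h4 : SV 1 (u t) z ≤ K 1 * (1 + C) / (r / 16) ^ 4 := by
      rw [le_div_iff₀ (by positivity)]
      have e : (r / 16) ^ (2 * 0 + 4) = (r / 16) ^ 4 := by norm_num
      rw [e] at h1
      have h5 : K (0 + 1) * (1 + A2 0 4 (fr (sc 1 (m + 4)) (u t) (ξ t))) ≤ K 1 * (1 + C) := by
        rw [zero_add]
        gcongr
      calc SV 1 (u t) z * (r / 16) ^ 4 = (r / 16) ^ 4 * SV (0 + 1) (u t) z := by ring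
        _ ≤ _ := h1.trans h5
    rw [hΛ]
    apply Real.le_sqrt_of_sq_le
    calc ‖fderiv ℝ (u t) z‖ ^ 2 ≤ 3 ^ (1 + 1) * SV 1 (u t) z := h3
      _ ≤ 9 * (K 1 * (1 + C) / (r / 16) ^ 4) := by
          norm_num
          linarith
  exact (convex_ball (ξ t) (r / 256)).norm_image_sub_le_of_norm_fderiv_le
    (fun z _ => (hus.differentiable (by norm_cast)) z) hbd hy hx

/-- The radius of regularity of the vorticity at the points of the path. -/
theorem admP (hD : S_WDER) : ∃ (η : ℝ) (K : ℕ → ℝ), 0 < η ∧ (∀ n, 0 < K n) ∧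
    ∀ (T E D : ℝ) (G : Set ℝ) (u : ℝ → V → V) (p : ℝ → V → ℝ), Turb 1 T E D G u p →
      ∀ (M : ℝ) (m N : ℕ) (t : ℝ), t ∈ G → m + 4 ≤ N → sc 1 m ^ 2 < t → M * sc 1 m ^ 2 ≤ η →
      ∀ (ξ ξ' : ℝ → V) (B B' : ℝ), FPath T (sc 1 N) B B' G u p ξ ξ' →
      ∫⁻ τ in G, Fx 1 (u τ) (ξ τ) ≤ ENNReal.ofReal M → AdmW K 1 (u t) (ξ t) (sc 1 m / 256) := by
  obtain ⟨η, K, hη, hK, H⟩ := wlocG hD
  refine ⟨η, K, hη, hK, ?_⟩
  intro T E D G u p h M m N t ht hmN hm1 hm2 ξ ξ' B B' hξ hI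
  have hr := sc_pos one_pos m
  refine ⟨by positivity, fun y hy n => ?_⟩
  have h1 := (H T E D G u p h 1 one_pos m N t hmN (sc1_le m) hm1 ht ξ ξ' B B' hξ
    (win_le h ht hm1 hm2 hI) n y hy).1
  have hST := ST_nn n (u t) y
  calc (sc 1 m / 256) ^ (2 * n + 4) * ST n (u t) y
      ≤ (sc 1 m / 16) ^ (2 * n + 4) * ST n (u t) y := by
        apply mul_le_mul_of_nonneg_right _ hST
        apply pow_le_pow_left₀ (by positivity)
        linarith
    _ ≤ K n := h1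
    _ = K n * 1 ^ 2 := by ring

end Pool.Agent.Y8.WS
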